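import Pool.Agent.CYP.Stmts

/-!
# CYP, module JUMP: the connection matrix across the cut `(1, ∞)`
-/

set_option autoImplicit false

open scoped BigOperators Topology
open Metric Set MeasureTheory

namespace Pool.Agent.CYP

noncomputable section

namespace JUMP_

/-! ### Holomorphic functions -/

theorem ident {U V : Set ℂ} (hU : IsOpen U) (hc : IsPreconnected U) {f g : ℂ → ℂ}
    (hf : DifferentiableOn ℂ f U) (hg : DifferentiableOn ℂ g U) (hV : IsOpen V) (hVU : V ⊆ U)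
    {p : ℂ} (hp : p ∈ V) (h : ∀ z ∈ V, f z = g z) : ∀ z ∈ U, f z = g z := by
  have h1 : f =ᶠ[𝓝 p] g := Filter.eventuallyEq_of_mem (hV.mem_nhds hp) h
  exact fun z hz => (hf.analyticOnNhd hU).eqOn_of_preconnected_of_eventuallyEq
    (hg.analyticOnNhd hU) hc (hVU hp) h1 hz

theorem diff_iter {U : Set ℂ} (hU : IsOpen U) {f : ℂ → ℂ} (hf : DifferentiableOn ℂ f U) (k : ℕ) :
    DifferentiableOn ℂ (iteratedDeriv k f) U := by
  rw [iteratedDeriv_eq_iterate]
  exact ((hf.analyticOnNhd hU).iterated_deriv k).differentiableOn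

theorem diff_eval {α : Type} {U : Set ℂ} {F : ℂ → α → ℂ}
    (hF : ∀ a, DifferentiableOn ℂ (fun z => F z a) U) (P : MvPolynomial (Option α) ℂ) :
    DifferentiableOn ℂ (fun z => MvPolynomial.eval (HGP.opt z (F z)) P) U := by
  induction P using MvPolynomial.induction_on with
  | C c =>
    simp only [MvPolynomial.eval_C]
    exact differentiableOn_const c
  | add p q hp hq =>
    simp only [map_add]
    exact hp.add hq
  | mul_X p o hp =>
    simp only [map_mul, MvPolynomial.eval_X]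
    refine hp.mul ?_
    cases o with
    | none => exact differentiableOn_id
    | some a => exact hF a

/-! ### Linear systems -/

section lin

variable {κ : Type} [Fintype κ]

theorem msol_mono {ι : Type} {U V : Set ℂ} {L : ℂ → Matrix κ κ ℂ} {W : ℂ → Matrix κ ι ℂ}
    (h : GPH.MSol V L W) (hUV : U ⊆ V) : GPH.MSol U L W := fun s hs => h s (hUV hs)

omit [Fintype κ] in
theorem holM_mono {U V : Set ℂ} {L : ℂ → Matrix κ κ ℂ} (h : GPH.HolM V L) (hUV : U ⊆ V) :
    GPH.HolM U L := fun k j => (h k j).mono hUV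

theorem msol_diff {ι : Type} {U : Set ℂ} {L : ℂ → Matrix κ κ ℂ} {W : ℂ → Matrix κ ι ℂ}
    (h : GPH.MSol U L W) (k : κ) (j : ι) : DifferentiableOn ℂ (fun z => W z k j) U :=
  fun s hs => (h s hs k j).differentiableAt.differentiableWithinAt

theorem msol_mul {ι τ : Type} [Fintype ι] {U : Set ℂ} {L : ℂ → Matrix κ κ ℂ}
    {W : ℂ → Matrix κ ι ℂ} (h : GPH.MSol U L W) (A : Matrix ι τ ℂ) :
    GPH.MSol U L (fun z => W z * A) := by
  intro s hs k j
  have h1 : HasDerivAt (fun z => ∑ i, W z k i * A i j) (∑ i, (L s * W s) k i * A i j) s :=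
    HasDerivAt.fun_sum fun i _ => (h s hs k i).mul_const (A i j)
  have h2 : (L s * (W s * A)) k j = ∑ i, (L s * W s) k i * A i j := by
    rw [← Matrix.mul_assoc, Matrix.mul_apply]
  rw [h2]
  exact h1

theorem msol_uniq (hu : GPH.Stmt_Uniq) {ι : Type} {U : Set ℂ} {L : ℂ → Matrix κ κ ℂ}
    (hU : IsOpen U) (hc : IsPreconnected U) (hL : GPH.HolM U L) {W1 W2 : ℂ → Matrix κ ι ℂ}
    (h1 : GPH.MSol U L W1) (h2 : GPH.MSol U L W2) {p : ℂ} (hp : p ∈ U) (he : W1 p = W2 p) :
    ∀ s ∈ U, W1 s = W2 s := by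
  intro s hs
  ext k j
  have h3 : GPH.Sol U L (fun z k => W1 z k j - W2 z k j) := by
    intro s hs k
    have e := (h1 s hs k j).sub (h2 s hs k j)
    have e2 : (L s).mulVec (fun k => W1 s k j - W2 s k j) k =
        (L s * W1 s) k j - (L s * W2 s) k j := by
      rw [Matrix.mul_apply, Matrix.mul_apply, ← Finset.sum_sub_distrib]
      show ∑ i, L s k i * (W1 s i j - W2 s i j) = _
      exact Finset.sum_congr rfl fun i _ => mul_sub _ _ _
    rw [e2]
    exact e
  have h4 := hu κ U L hU hc hL _ h3 p hp (by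
    funext k
    show W1 p k j - W2 p k j = 0
    rw [he, sub_self]) s hs
  exact sub_eq_zero.1 (congrFun h4 k)

theorem msol_exists (hl : GPH.Stmt_Lode) {ι : Type} {U : Set ℂ} {b : ℂ}
    {L : ℂ → Matrix κ κ ℂ} (hU : IsOpen U) (hb : b ∈ U) (hs : StarConvex ℝ b U)
    (hL : GPH.HolM U L) (M : Matrix κ ι ℂ) :
    ∃ W : ℂ → Matrix κ ι ℂ, W b = M ∧ GPH.MSol U L W := by
  choose y hy0 hy using fun j : ι => hl κ U b L hU hb hs hL (fun k => M k j)
  refine ⟨fun z => Matrix.of fun k j => y j z k, ?_, fun s hs k j => ?_⟩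
  · ext k j
    exact congrFun (hy0 j) k
  · have h1 := hy j s hs k
    have h2 : (L s * (Matrix.of fun k j => y j s k)) k j = (L s).mulVec (y j s) k := by
      rw [Matrix.mul_apply]
      rfl
    rw [h2]
    exact h1

end lin

/-! ### The sector -/

theorem sec_open (η : ℝ) : IsOpen (Sec η) := by
  have h1 : IsOpen {ψ : ℂ | 1 < ψ.re} := isOpen_lt continuous_const Complex.continuous_re
  have h2 : IsOpen {ψ : ℂ | |ψ.im| < η * ψ.re} :=
    isOpen_lt Complex.continuous_im.abs (continuous_const.mul Complex.continuous_re)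
  exact h1.inter h2

theorem sec_convex (η : ℝ) : Convex ℝ (Sec η) := by
  intro x hx y hy a b ha hb hab
  obtain ⟨hx1, hx2⟩ := hx
  obtain ⟨hy1, hy2⟩ := hy
  have hre : (a • x + b • y).re = a * x.re + b * y.re := by simp
  have him : (a • x + b • y).im = a * x.im + b * y.im := by simp
  refine ⟨?_, ?_⟩
  · rw [hre]
    rcases ha.eq_or_lt with h | h
    · have hb1 : b = 1 := by linarith
      rw [← h, hb1]
      linarith
    · nlinarith
  · rw [him, hre]
    have h1 : |a * x.im + b * y.im| ≤ a * |x.im| + b * |y.im| := by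
      refine (abs_add_le _ _).trans ?_
      rw [abs_mul, abs_mul, abs_of_nonneg ha, abs_of_nonneg hb]
    refine h1.trans_lt ?_
    rcases ha.eq_or_lt with h | h
    · have hb1 : b = 1 := by linarith
      rw [← h, hb1]
      linarith
    · nlinarith

/-- the upper and the lower half of the sector -/
def Up (η : ℝ) : Set ℂ := Sec η ∩ {ψ | 0 < ψ.im}

def Lo (η : ℝ) : Set ℂ := Sec η ∩ {ψ | ψ.im < 0}

theorem up_open (η : ℝ) : IsOpen (Up η) :=
  (sec_open η).inter (isOpen_lt continuous_const Complex.continuous_im)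

theorem lo_open (η : ℝ) : IsOpen (Lo η) :=
  (sec_open η).inter (isOpen_lt Complex.continuous_im continuous_const)

theorem up_pre (η : ℝ) : IsPreconnected (Up η) :=
  ((sec_convex η).inter (convex_halfSpace_im_gt 0)).isPreconnected

theorem lo_pre (η : ℝ) : IsPreconnected (Lo η) :=
  ((sec_convex η).inter (convex_halfSpace_im_lt 0)).isPreconnected

theorem mem_up {η : ℝ} (hη : 0 < η) : (⟨2, η⟩ : ℂ) ∈ Up η := by
  refine ⟨⟨?_, ?_⟩, ?_⟩
  · show (1:ℝ) < 2
    norm_num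
  · show |η| < η * 2
    rw [abs_of_pos hη]
    linarith
  · exact hη

theorem mem_lo {η : ℝ} (hη : 0 < η) : (⟨2, -η⟩ : ℂ) ∈ Lo η := by
  refine ⟨⟨?_, ?_⟩, ?_⟩
  · show (1:ℝ) < 2
    norm_num
  · show |-η| < η * 2
    rw [abs_neg, abs_of_pos hη]
    linarith
  · show -η < 0
    linarith

/-! ### The functions `Yx` -/

theorem zt_pow (n : ℕ) : zt n ^ (n + 1) = 1 := by
  have h := Complex.isPrimitiveRoot_exp (n + 1) (Nat.succ_ne_zero n)
  have h1 : zt n = Complex.exp (2 * Real.pi * Complex.I / ((n + 1 : ℕ) : ℂ)) := by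
    unfold zt
    push_cast
    rfl
  rw [h1]
  exact h.pow_eq_one

theorem zt_mod (n k : ℕ) : zt n ^ k = zt n ^ (k % (n + 1)) := by
  conv_lhs => rw [← Nat.div_add_mod k (n + 1), pow_add, pow_mul, zt_pow, one_pow, one_mul]

/-- the coefficient of `Gf` in `2 π i Yx n j` -/
def cf (n j : ℕ) : ℂ := ∑ i ∈ Finset.range (n + 2),
  if (i + j) % (n + 1) = 0 then (-1) ^ i * ((n + 1).choose i : ℂ) else 0

/-- the remaining terms -/
def rest (n j : ℕ) (ψ : ℂ) : ℂ := ∑ i ∈ Finset.range (n + 2),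
  if (i + j) % (n + 1) = 0 then 0 else
    (-1) ^ i * ((n + 1).choose i : ℂ) * (zt n ^ (i + j) * Gf n (zt n ^ (i + j) * ψ))

theorem Yx_split (n j : ℕ) (ψ : ℂ) :
    Yx n j ψ = (2 * Real.pi * Complex.I)⁻¹ * (cf n j * Gf n ψ + rest n j ψ) := by
  unfold Yx cf rest
  rw [Finset.sum_mul, ← Finset.sum_add_distrib]
  congr 1
  refine Finset.sum_congr rfl fun i _ => ?_
  split_ifs with h
  · have h1 : zt n ^ (i + j) = 1 := by rw [zt_mod, h, pow_zero]
    rw [h1]
    ring_nf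
  · ring

theorem rest_diff {n : ℕ} {η : ℝ} (hC : Stmt_Cauc)
    (hS : ∀ ψ ∈ Sec η, ∀ k : ℕ, 0 < k → k < n + 1 → 1 - zt n ^ k * ψ ∈ Complex.slitPlane)
    (j : ℕ) : DifferentiableOn ℂ (rest n j) (Sec η) := by
  unfold rest
  refine DifferentiableOn.fun_sum fun i _ => ?_
  split_ifs with h
  · exact differentiableOn_const 0
  · refine DifferentiableOn.const_mul (DifferentiableOn.const_mul ?_ _) _
    refine (hC n).1.comp ((differentiableOn_const _).mul differentiableOn_id) fun ψ hψ => ?_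
    show 1 - zt n ^ (i + j) * ψ ∈ Complex.slitPlane
    rw [zt_mod]
    exact hS ψ hψ _ (Nat.pos_of_ne_zero h) (Nat.mod_lt _ (Nat.succ_pos n))

theorem cf_zero {n : ℕ} (hn : Even n) : cf n 0 = 0 := by
  unfold cf
  rw [Finset.sum_range_succ, Finset.sum_range_succ', Finset.sum_eq_zero]
  · have h1 : ((n + 1 + 0) % (n + 1)) = 0 := by simp
    have h2 : ((-1 : ℂ)) ^ (n + 1) = -1 := (hn.add_one).neg_one_pow
    simp [h2]
  · intro i hi
    have h1 := Finset.mem_range.1 hi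
    rw [if_neg]
    rw [add_zero, Nat.mod_eq_of_lt (by omega)]
    omega

theorem cf_pos {n j : ℕ} (hn : Even n) (hj : 0 < j) (hjn : j < n) :
    cf n j = -((-1) ^ j * ((n + 1).choose j : ℂ)) := by
  unfold cf
  rw [Finset.sum_eq_single (n + 1 - j)]
  · have h1 : (n + 1 - j + j) % (n + 1) = 0 := by
      rw [Nat.sub_add_cancel (by omega), Nat.mod_self]
    rw [if_pos h1, Nat.choose_symm (by omega)]
    have h2 : ((-1 : ℂ)) ^ (n + 1 - j) * (-1) ^ j = -1 := by
      rw [← pow_add, Nat.sub_add_cancel (by omega)]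
      exact (hn.add_one).neg_one_pow
    have h3 : ((-1 : ℂ)) ^ j * (-1) ^ j = 1 := by
      rw [← mul_pow]
      simp
    have h4 : ((-1 : ℂ)) ^ (n + 1 - j) = -(-1) ^ j := by
      calc ((-1 : ℂ)) ^ (n + 1 - j) = (-1) ^ (n + 1 - j) * ((-1) ^ j * (-1) ^ j) := by
            rw [h3, mul_one]
        _ = ((-1) ^ (n + 1 - j) * (-1) ^ j) * (-1) ^ j := by ring
        _ = -(-1) ^ j := by rw [h2]; ring
    rw [h4]
    ring
  · intro i hi hne
    have h1 := Finset.mem_range.1 hi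
    rw [if_neg]
    intro h2
    obtain ⟨q, hq⟩ := Nat.dvd_of_mod_eq_zero h2
    rcases Nat.lt_or_ge q 1 with h3 | h3
    · have : q = 0 := by omega
      rw [this, mul_zero] at hq
      omega
    · rcases Nat.lt_or_ge q 2 with h4 | h4
      · have : q = 1 := by omega
        rw [this, mul_one] at hq
        omega
      · have : (n + 1) * 2 ≤ (n + 1) * q := Nat.mul_le_mul_left _ h4
        omega
  · intro h
    exact absurd (Finset.mem_range.2 (by omega)) h

theorem cf_Q {n : ℕ} (hn : Even n) (i0 : Fin n) (hi0 : (i0 : ℕ) = 0) (j : Fin n) :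
    Qm n ℂ j i0 = ((n : ℂ) + 1) ^ n * cf n (j : ℕ) := by
  unfold Qm
  rw [Matrix.of_apply]
  by_cases h : (j : ℕ) = 0
  · have h1 : j = i0 := Fin.ext (by rw [h, hi0])
    rw [h1, if_neg (lt_irrefl _), if_neg (lt_irrefl _), hi0, cf_zero hn, mul_zero]
  · have h1 : i0 < j := by
      rw [Fin.lt_def]
      omega
    rw [if_neg (not_lt.2 h1.le), if_pos h1, cf_pos hn (Nat.pos_of_ne_zero h) j.2, hi0,
      Nat.sub_zero]
    ring

/-! ### The matrices -/

theorem Rm_diff (n : ℕ) (a b : Fin n) (U : Set ℂ) :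
    DifferentiableOn ℂ (fun ψ => Rm n ψ a b) U := by
  unfold Rm
  simp only [Matrix.of_apply]
  exact (differentiableOn_const _).sub
    ((differentiableOn_id.pow _).mul (differentiableOn_const _))

theorem mul_diff {κ ι τ : Type} [Fintype ι] {U : Set ℂ} {A : ℂ → Matrix κ ι ℂ}
    {B : ℂ → Matrix ι τ ℂ} (hA : ∀ i j, DifferentiableOn ℂ (fun z => A z i j) U)
    (hB : ∀ i j, DifferentiableOn ℂ (fun z => B z i j) U) (i : κ) (j : τ) :
    DifferentiableOn ℂ (fun z => (A z * B z) i j) U := by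
  simp only [Matrix.mul_apply]
  exact DifferentiableOn.fun_sum fun k _ => (hA i k).mul (hB k j)

theorem form_diff {n : ℕ} {U : Set ℂ} {M : ℂ → Matrix (Fin n) (Fin n) ℂ}
    (hM : ∀ i j, DifferentiableOn ℂ (fun z => M z i j) U) (i j : Fin n) :
    DifferentiableOn ℂ (fun z => ((M z).transpose * Rm n z * M z) i j) U :=
  mul_diff (A := fun z => (M z).transpose * Rm n z)
    (mul_diff (A := fun z => (M z).transpose) (fun i j => hM j i) (fun i j => Rm_diff n i j U))
    hM i j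

theorem kap_ne (n : ℕ) : (2 * Real.pi * Complex.I : ℂ) ^ (n - 1) ≠ 0 :=
  pow_ne_zero _ Complex.two_pi_I_ne_zero

theorem det_ne {n : ℕ} {ψ : ℂ} {X : Matrix (Fin n) (Fin n) ℂ}
    (h : Tors n ψ (2 * Real.pi * Complex.I) X) (hQ : (Qm n ℂ).det ≠ 0) : X.det ≠ 0 := by
  intro h0
  have h1 := congrArg Matrix.det h
  rw [Matrix.det_mul, h0, mul_zero, Matrix.det_smul] at h1
  exact mul_ne_zero (pow_ne_zero _ (kap_ne n)) hQ h1.symm

/-- linear combinations of the columns -/
theorem comb_iter {n : ℕ} (hO : IsOpen (Om n)) (hY : ∀ j, DifferentiableOn ℂ (Yx n j) (Om n))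
    (u : Fin n → ℂ) (k : Fin n) : ∀ ψ ∈ Om n,
    iteratedDeriv (k : ℕ) (fun z => ∑ j : Fin n, u j * Yx n (j : ℕ) z) ψ =
      (Mx n ψ).mulVec u k := by
  intro ψ hψ
  have hc : ∀ j : ℕ, ContDiffAt ℂ ((k : ℕ) : WithTop ℕ∞) (Yx n j) ψ := fun j =>
    (((hY j).analyticOnNhd hO) ψ hψ).contDiffAt
  rw [iteratedDeriv_fun_sum (f := fun (j : Fin n) z => u j * Yx n (j : ℕ) z)
    fun j _ => contDiffAt_const.mul (hc (j : ℕ))]
  show _ = ∑ j, Mx n ψ k j * u j
  refine Finset.sum_congr rfl fun j _ => ?_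
  rw [iteratedDeriv_const_mul _ (hc (j : ℕ))]
  exact mul_comm _ _

end JUMP_

open JUMP_ in
/-- the extension `U` of the period matrix across the cut and the connection matrix `h` -/
theorem jumpU (hSolO : Stmt_SolO) (hBilO : Stmt_BilO) (hSec : Stmt_Sec) (hGeo : Stmt_Geo)
    (hNx : Stmt_Nx) (hYx : Stmt_Yx) (hCauc : Stmt_Cauc) (hQdet : Stmt_Qdet)
    (hLode : GPH.Stmt_Lode) (hUniq : GPH.Stmt_Uniq) (n : ℕ) (i0 : Fin n) (hn : Even n)
    (hi0 : (i0 : ℕ) = 0) :
    ∃ (η : ℝ) (U : ℂ → Matrix (Fin n) (Fin n) ℂ) (h : Matrix (Fin n) (Fin n) ℂ), 0 < η ∧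
      (∀ i j, DifferentiableOn ℂ (fun ψ => U ψ i j) (Sec η)) ∧
      (∀ ψ ∈ Sec η, 0 < ψ.im → U ψ = Mx n ψ) ∧
      (∀ ψ ∈ Sec η, ψ.im < 0 → U ψ = Mx n ψ * h) ∧
      (∀ ψ ∈ Sec η, ψ.im ≠ 0 → ψ ∈ Om n) ∧ h.transpose * Qm n ℂ * h = Qm n ℂ ∧ h ≠ 1 ∧
      ∀ u : Fin n → ℂ, ∑ j, Qm n ℂ j i0 * u j = 0 → h.mulVec u = u := by
  have hn0 : 0 < n := Fin.pos i0
  obtain ⟨η, hη, hS⟩ := hSec n hn0
  obtain ⟨hO, hOstar, hOball, _, hO1⟩ := hGeo n
  have hOpre : IsPreconnected (Om n) :=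
    (hOstar.isPathConnected (hOball (by simp))).isConnected.isPreconnected
  have hDo := sec_open η
  have hDc := sec_convex η
  have hDp : IsPreconnected (Sec η) := hDc.isPreconnected
  have hUD : Up η ⊆ Sec η := inter_subset_left
  have hLD : Lo η ⊆ Sec η := inter_subset_left
  have hUO : Up η ⊆ Om n := fun ψ hψ => (hS ψ hψ.1).2.2 (ne_of_gt hψ.2)
  have hLO : Lo η ⊆ Om n := fun ψ hψ => (hS ψ hψ.1).2.2 (ne_of_lt hψ.2)
  set bu : ℂ := ⟨2, η⟩ with hbu
  set bl : ℂ := ⟨2, -η⟩ with hbl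
  have hbu' : bu ∈ Up η := mem_up hη
  have hbl' : bl ∈ Lo η := mem_lo hη
  -- the system is holomorphic
  have hLc : GPH.HolM (Sec η) (Lc n) := by
    intro k l
    unfold Lc
    simp only [Matrix.of_apply]
    split_ifs
    · exact differentiableOn_const _
    · refine DifferentiableOn.div ?_ ?_ fun ψ hψ => (hS ψ hψ).2.1
      · exact (differentiableOn_const _).mul (differentiableOn_id.pow _)
      · exact (differentiableOn_const _).sub (differentiableOn_id.pow _)
    · exact differentiableOn_const _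
  have hMx := hSolO n hn0
  -- the two extensions
  obtain ⟨Mu, hMu0, hMu⟩ := msol_exists hLode hDo (hUD hbu')
    (hDc.starConvex (hUD hbu')) hLc (Mx n bu)
  obtain ⟨Ml, hMl0, hMl⟩ := msol_exists hLode hDo (hLD hbl')
    (hDc.starConvex (hLD hbl')) hLc (Mx n bl)
  have hMuU : ∀ ψ ∈ Up η, Mu ψ = Mx n ψ := msol_uniq hUniq (up_open η) (up_pre η)
    (holM_mono hLc hUD) (msol_mono hMu hUD) (msol_mono hMx hUO) hbu' hMu0
  have hMlL : ∀ ψ ∈ Lo η, Ml ψ = Mx n ψ := msol_uniq hUniq (lo_open η) (lo_pre η)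
    (holM_mono hLc hLD) (msol_mono hMl hLD) (msol_mono hMx hLO) hbl' hMl0
  have hMuD : ∀ i j, DifferentiableOn ℂ (fun z => Mu z i j) (Sec η) := fun i j =>
    msol_diff hMu i j
  have hMlD : ∀ i j, DifferentiableOn ℂ (fun z => Ml z i j) (Sec η) := fun i j =>
    msol_diff hMl i j
  have hMxD : ∀ i j, DifferentiableOn ℂ (fun z => Mx n z i j) (Om n) := fun i j =>
    msol_diff hMx i j
  have hQ := hQdet n hn
  have hdet : IsUnit (Mx n bl).det :=
    isUnit_iff_ne_zero.2 (det_ne (hBilO n hn0 hn bl (hLO hbl')) hQ)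
  -- the connection matrix
  set h : Matrix (Fin n) (Fin n) ℂ := (Mx n bl)⁻¹ * Mu bl with hh
  have hconn : ∀ ψ ∈ Sec η, Mu ψ = Ml ψ * h :=
    msol_uniq hUniq hDo hDp hLc hMu (msol_mul hMl h) (hLD hbl') (by
      rw [hh, hMl0, ← Matrix.mul_assoc, Matrix.mul_nonsing_inv _ hdet, Matrix.one_mul])
  have hconn' : ∀ ψ ∈ Lo η, Mu ψ = Mx n ψ * h := fun ψ hψ => by
    rw [hconn ψ (hLD hψ), hMlL ψ hψ]
  refine ⟨η, Mu, h, hη, hMuD, fun ψ h1 h2 => hMuU ψ ⟨h1, h2⟩, fun ψ h1 h2 => hconn' ψ ⟨h1, h2⟩,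
    fun ψ h1 h2 => (hS ψ h1).2.2 h2, ?_, ?_, ?_⟩
  · -- the form
    have h1 : ∀ ψ ∈ Sec η, (Mu ψ).transpose * Rm n ψ * Mu ψ =
        (2 * Real.pi * Complex.I) ^ (n - 1) • Qm n ℂ := by
      intro ψ hψ
      ext i j
      refine ident hDo hDp (form_diff hMuD i j)
        (differentiableOn_const (((2 * Real.pi * Complex.I) ^ (n - 1) • Qm n ℂ) i j))
        (up_open η) hUD hbu' (fun z hz => ?_) ψ hψ
      rw [hMuU z hz]
      exact congrFun (congrFun (hBilO n hn0 hn z (hUO hz)) i) j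
    have h2 := h1 bl (hLD hbl')
    have h3 : (Mx n bl).transpose * Rm n bl * Mx n bl =
        (2 * Real.pi * Complex.I) ^ (n - 1) • Qm n ℂ := hBilO n hn0 hn bl (hLO hbl')
    rw [hconn' bl hbl'] at h2
    have h4 : (Mx n bl * h).transpose * Rm n bl * (Mx n bl * h) =
        h.transpose * ((Mx n bl).transpose * Rm n bl * Mx n bl) * h := by
      rw [Matrix.transpose_mul]
      simp only [Matrix.mul_assoc]
    rw [h4, h3, Matrix.mul_smul, Matrix.smul_mul] at h2
    exact smul_right_injective _ (kap_ne n) h2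
  · -- nontriviality
    intro h1
    have hn1 : 1 < n := by
      obtain ⟨k, hk⟩ := hn
      omega
    have hcf : cf n 1 = (n : ℂ) + 1 := by
      rw [cf_pos hn one_pos hn1]
      simp
    have hN : (n : ℂ) + 1 ≠ 0 := Nat.cast_add_one_ne_zero n
    refine hNx n hn0 η hη ⟨fun ψ => ((n : ℂ) + 1)⁻¹ *
      (2 * Real.pi * Complex.I * Mu ψ i0 ⟨1, hn1⟩ - rest n 1 ψ), ?_, ?_⟩
    · exact DifferentiableOn.const_mul (((hMuD i0 ⟨1, hn1⟩).const_mul _).sub
        (rest_diff hCauc (fun ψ hψ => (hS ψ hψ).1) 1)) _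
    · intro ψ hψ him
      have h2 : Mu ψ i0 ⟨1, hn1⟩ = Yx n 1 ψ := by
        have h3 : Mu ψ = Mx n ψ := by
          rcases lt_or_gt_of_ne him with h4 | h4
          · rw [hconn' ψ ⟨hψ, h4⟩, h1, Matrix.mul_one]
          · exact hMuU ψ ⟨hψ, h4⟩
        rw [h3]
        show iteratedDeriv (i0 : ℕ) (Yx n 1) ψ = _
        rw [hi0, iteratedDeriv_zero]
      have h3 := Yx_split n 1 ψ
      rw [hcf] at h3
      show Gf n ψ = ((n : ℂ) + 1)⁻¹ * (2 * Real.pi * Complex.I * Mu ψ i0 ⟨1, hn1⟩ - rest n 1 ψ)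
      rw [h2, h3, mul_inv_cancel_left₀ Complex.two_pi_I_ne_zero, add_sub_cancel_right,
        inv_mul_cancel_left₀ hN]
  · -- invariant vectors
    intro u hu
    set W : ℂ → ℂ := fun z => ∑ j : Fin n, u j * Yx n (j : ℕ) z with hW
    have hWD : DifferentiableOn ℂ W (Sec η) := by
      have h1 : W = fun ψ => (2 * Real.pi * Complex.I)⁻¹ * ∑ j : Fin n, u j * rest n (j : ℕ) ψ := by
        funext ψ
        have h2 : ∑ j : Fin n, u j * cf n (j : ℕ) = 0 := by
          have h3 : ((n : ℂ) + 1) ^ n * ∑ j : Fin n, u j * cf n (j : ℕ) = 0 := by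
            rw [← hu, Finset.mul_sum]
            refine Finset.sum_congr rfl fun j _ => ?_
            rw [cf_Q hn i0 hi0 j]
            ring
          exact (mul_eq_zero.1 h3).resolve_left (pow_ne_zero _ (Nat.cast_add_one_ne_zero n))
        calc W ψ = ∑ j : Fin n, u j * ((2 * Real.pi * Complex.I)⁻¹ *
              (cf n (j : ℕ) * Gf n ψ + rest n (j : ℕ) ψ)) :=
              Finset.sum_congr rfl fun j _ => by rw [Yx_split]
          _ = (2 * Real.pi * Complex.I)⁻¹ * ((∑ j : Fin n, u j * cf n (j : ℕ)) * Gf n ψ +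
              ∑ j : Fin n, u j * rest n (j : ℕ) ψ) := by
              rw [Finset.sum_mul, ← Finset.sum_add_distrib, Finset.mul_sum]
              refine Finset.sum_congr rfl fun j _ => ?_
              ring
          _ = _ := by rw [h2, zero_mul, zero_add]
      rw [h1]
      have h2 : ∀ j : Fin n, DifferentiableOn ℂ (fun z => u j * rest n (j : ℕ) z) (Sec η) :=
        fun j => (rest_diff hCauc (fun ψ hψ => (hS ψ hψ).1) (j : ℕ)).const_mul _
      exact DifferentiableOn.const_mul (DifferentiableOn.fun_sum fun j _ => h2 j) _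
    have hcomb := comb_iter hO (fun j => (hYx n j).1) u
    have hdiff : ∀ (M : ℂ → Matrix (Fin n) (Fin n) ℂ),
        (∀ i j, DifferentiableOn ℂ (fun z => M z i j) (Sec η)) → ∀ k : Fin n,
        DifferentiableOn ℂ (fun z => (M z).mulVec u k) (Sec η) := by
      intro M hM k
      show DifferentiableOn ℂ (fun z => ∑ j, M z k j * u j) (Sec η)
      exact DifferentiableOn.fun_sum fun j _ => (hM k j).mul_const _
    have h1 : ∀ k : Fin n, ∀ ψ ∈ Sec η, iteratedDeriv (k : ℕ) W ψ = (Mu ψ).mulVec u k := by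
      intro k
      refine ident hDo hDp (diff_iter hDo hWD k) (hdiff Mu hMuD k) (up_open η) hUD hbu'
        fun z hz => ?_
      rw [hMuU z hz]
      exact hcomb k z (hUO hz)
    have h2 : ∀ k : Fin n, ∀ ψ ∈ Sec η, iteratedDeriv (k : ℕ) W ψ = (Ml ψ).mulVec u k := by
      intro k
      refine ident hDo hDp (diff_iter hDo hWD k) (hdiff Ml hMlD k) (lo_open η) hLD hbl'
        fun z hz => ?_
      rw [hMlL z hz]
      exact hcomb k z (hLO hz)
    have h3 : (Mx n bl).mulVec (h.mulVec u) = (Mx n bl).mulVec u := by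
      funext k
      rw [Matrix.mulVec_mulVec, ← hconn' bl hbl', ← h1 k bl (hLD hbl'), h2 k bl (hLD hbl'), hMl0]
    have h4 : ∀ v : Fin n → ℂ, ((Mx n bl)⁻¹).mulVec ((Mx n bl).mulVec v) = v := fun v => by
      rw [Matrix.mulVec_mulVec, Matrix.nonsing_inv_mul _ hdet, Matrix.one_mulVec]
    have h5 := congrArg ((Mx n bl)⁻¹).mulVec h3
    rwa [h4, h4] at h5

open JUMP_ in
theorem jump_proof (hSolO : Stmt_SolO) (hBilO : Stmt_BilO) (hSec : Stmt_Sec) (hGeo : Stmt_Geo)
    (hNx : Stmt_Nx) (hYx : Stmt_Yx) (hCauc : Stmt_Cauc) (hQdet : Stmt_Qdet)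
    (hLode : GPH.Stmt_Lode) (hUniq : GPH.Stmt_Uniq) : Stmt_Jump := by
  intro n i0 hn hi0
  have hn0 : 0 < n := Fin.pos i0
  obtain ⟨hO, hOstar, hOball, _, _⟩ := hGeo n
  have hOpre : IsPreconnected (Om n) :=
    (hOstar.isPathConnected (hOball (by simp))).isConnected.isPreconnected
  obtain ⟨η, U, h, hη, hUD, hU1, hU2, hOm, h1, h2, h3⟩ :=
    jumpU hSolO hBilO hSec hGeo hNx hYx hCauc hQdet hLode hUniq n i0 hn hi0
  refine ⟨h, h1, h2, h3, fun P hP => ?_⟩
  have hDo := sec_open η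
  have hDp : IsPreconnected (Sec η) := (sec_convex η).isPreconnected
  have h4 : ∀ ψ ∈ Sec η,
      MvPolynomial.eval (HGP.opt ψ (fun p => U ψ p.1 p.2)) P = 0 := by
    refine ident hDo hDp (g := fun _ => 0)
      (diff_eval (F := fun z (p : Fin n × Fin n) => U z p.1 p.2) (fun p => hUD p.1 p.2) P)
      (differentiableOn_const 0) (up_open η) inter_subset_left (mem_up hη) fun z hz => ?_
    have h5 := hP z (hOm z hz.1 (ne_of_gt hz.2))
    rw [Matrix.mul_one] at h5
    rw [hU1 z hz.1 hz.2]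
    exact h5
  have h5 : ∀ i j, DifferentiableOn ℂ (fun z => (Mx n z * h) i j) (Om n) := fun i j =>
    mul_diff (fun i j => msol_diff (hSolO n hn0) i j) (fun i j => differentiableOn_const (h i j))
      i j
  refine ident hO hOpre (g := fun _ => 0)
    (diff_eval (F := fun z (p : Fin n × Fin n) => (Mx n z * h) p.1 p.2)
      (fun p => h5 p.1 p.2) P)
    (differentiableOn_const 0) (lo_open η) (fun z hz => hOm z hz.1 (ne_of_lt hz.2)) (mem_lo hη)
    fun z hz => ?_
  rw [← hU2 z hz.1 hz.2]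
  exact h4 z hz.1

end

end Pool.Agent.CYP
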