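import Pool.Agent.CYP.Stmts

/-!
# CYP: the final statement from the modules
-/

open scoped BigOperators Topology
open Metric Set MeasureTheory

namespace Pool.Agent.CYP

noncomputable section

namespace FINAL_

/-- The rational intersection matrix. -/
lemma qm_cast (n : ℕ) : (Qm n ℚ).map (fun x => (x : ℂ)) = Qm n ℂ := by
  ext a b
  simp only [Matrix.map_apply, Qm, Matrix.of_apply]
  split_ifs <;> push_cast <;> rfl

lemma qm_anti (n : ℕ) : (Qm n ℚ).transpose = -Qm n ℚ := by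
  ext a b
  simp only [Matrix.transpose_apply, Matrix.neg_apply, Qm, Matrix.of_apply]
  rcases lt_trichotomy a b with h | h | h
  · rw [if_neg (not_lt.mpr h.le), if_pos h, if_pos h]
  · subst h; simp
  · rw [if_pos h, if_neg (not_lt.mpr h.le), if_pos h, neg_neg]

lemma qm_det {n : ℕ} (hq : (Qm n ℂ).det ≠ 0) : (Qm n ℚ).det ≠ 0 := by
  intro h
  apply hq
  have h1 := RingHom.map_det (algebraMap ℚ ℂ) (Qm n ℚ)
  rw [h, map_zero] at h1
  rw [← qm_cast]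
  exact h1.symm

end FINAL_

open FINAL_ in
/-- FINAL -/
theorem final_proof (hDarb : Stmt_Darb) (hFmat : Stmt_Fmat) (hQdet : Stmt_Qdet)
    (hBil : Stmt_BilO) (hLink : Stmt_Link) (hGeo : Stmt_Geo) (hHol : Stmt_HolG)
    (hInd : Stmt_Ind) (hGind : Stmt_Gind) (hTrans : Stmt_Trans) : Stmt_Final := by
  intro r n hn
  have hdisc : ∀ ψ : ℂ, ‖ψ‖ < 1 → ψ ∈ ball (0 : ℂ) 1 := fun ψ h => by
    rwa [mem_ball, dist_zero_right]
  have hT : ∀ i, ∀ ψ : ℂ, ‖ψ‖ < 1 → Tors (n i) ψ (2 * Real.pi * Complex.I) (Per (n i) ψ) := by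
    intro i ψ hψ
    rw [hLink (n i) (hn i).1 ψ (hdisc ψ hψ)]
    exact hBil (n i) (hn i).1 (hn i).2 ψ ((hGeo (n i)).2.2.1 (hdisc ψ hψ))
  refine ⟨hT, ?_⟩
  obtain ⟨g, hg⟩ : ∃ g : Fin r → ℕ, n = fun i => 2 * g i := by
    choose g hg using fun i => (hn i).2
    exact ⟨g, funext fun i => by rw [hg i]; ring⟩
  subst hg
  have hn1 : ∀ i, 0 < 2 * g i := fun i => (hn i).1
  have hg0 : ∀ i, 0 < g i := fun i => by have := hn1 i; omega
  choose F F' hF using fun i => hFmat (g i)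
  choose E E' hE using fun i => hDarb (g i) (Qm (2 * g i) ℚ) (qm_anti _)
    (qm_det (hQdet _ (by simp)))
  intro ρ hρ D A ε hε
  obtain ⟨D1, A1, hTr⟩ := hTrans r g hg0 F F' E E' hF hE D A
  have hsys : ∀ i, Sys (Idx (g i))
      (fun x ψ => gvec (Ps (F i) (E' i) ψ (Mx (2 * g i) ψ)) x) := fun i =>
    ⟨fun x => hHol (g i) (F i) (E' i) x,
      fun z0 R hR hb Q hQ => hInd (g i) (F i) (F' i) (E i) (E' i) (hg0 i) (hF i) (hE i) z0 R hR
        hb Q hQ⟩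
  obtain ⟨C, hC⟩ := hGind r (fun i => Idx (g i)) _ hsys ρ hρ D1 A1 ε hε
  -- the number of all the tuples of height `≤ 1`
  have hfin : ∀ H : ℕ, Finite {ψ : Fin r → ℚ // ∀ i, |(ψ i : ℝ)| ≤ ρ ∧
      (ψ i).num.natAbs ≤ H ∧ (ψ i).den ≤ H} := by
    intro H
    have h1 : Finite {q : ℚ // q.num.natAbs ≤ H ∧ q.den ≤ H} := by
      refine Finite.of_injective (β := Fin (2 * H + 1) × Fin (H + 1))
        (fun q => (⟨(q.1.num + H).toNat, by have := q.2.1; omega⟩,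
          ⟨q.1.den, by have := q.2.2; omega⟩)) ?_
      rintro ⟨p, hp⟩ ⟨q, hq⟩ h
      simp only [Prod.mk.injEq, Fin.mk.injEq] at h
      apply Subtype.ext
      apply Rat.ext
      · have h1 := h.1
        have h2 := hp.1
        have h3 := hq.1
        show p.num = q.num
        omega
      · exact h.2
    refine Finite.of_injective (β := Fin r → {q : ℚ // q.num.natAbs ≤ H ∧ q.den ≤ H})
      (fun ψ i => ⟨ψ.1 i, (ψ.2 i).2⟩) ?_
    rintro ⟨p, hp⟩ ⟨q, hq⟩ h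
    apply Subtype.ext
    funext i
    exact congrArg Subtype.val (congrFun h i)
  set K : ℝ := (Nat.card {ψ : Fin r → ℚ // ∀ i, |(ψ i : ℝ)| ≤ ρ ∧
      (ψ i).num.natAbs ≤ 1 ∧ (ψ i).den ≤ 1} : ℝ) with hK
  have hK0 : 0 ≤ K := by rw [hK]; positivity
  refine ⟨max C 0 + K, fun H hH => ?_⟩
  rcases Nat.lt_or_ge 1 H with hH2 | hH1
  · have hHpos : (0 : ℝ) < (H : ℝ) ^ (2 * (r : ℝ) - 2 + ε) := by
      apply Real.rpow_pos_of_pos
      exact_mod_cast hH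
    have h1 := hC H hH
    have hmono : (Nat.card {ψ : Fin r → ℚ // (∀ i, |(ψ i : ℝ)| ≤ ρ ∧
        (ψ i).num.natAbs ≤ H ∧ (ψ i).den ≤ H) ∧
        Bad (fun i => 2 * g i) D (H ^ A) (fun i => (ψ i : ℂ))} : ℝ) ≤
        (Nat.card {t : Fin r → ℚ // (∀ i, |(t i : ℝ)| ≤ ρ ∧ (t i).num.natAbs ≤ H ∧
          (t i).den ≤ H) ∧ ¬ GPC.Free D1 (H ^ A1) (HGP.opt (2 * Real.pi * Complex.I)
          (fun p : Σ i, Idx (g i) => gvec (Ps (F p.1) (E' p.1) (t p.1 : ℂ)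
            (Mx (2 * g p.1) (t p.1 : ℂ))) p.2))} : ℝ) := by
      have hfin2 : Finite {t : Fin r → ℚ // (∀ i, |(t i : ℝ)| ≤ ρ ∧ (t i).num.natAbs ≤ H ∧
          (t i).den ≤ H) ∧ ¬ GPC.Free D1 (H ^ A1) (HGP.opt (2 * Real.pi * Complex.I)
          (fun p : Σ i, Idx (g i) => gvec (Ps (F p.1) (E' p.1) (t p.1 : ℂ)
            (Mx (2 * g p.1) (t p.1 : ℂ))) p.2))} := by
        have := hfin H
        exact Finite.of_injective (fun t => (⟨t.1, t.2.1⟩ : {ψ : Fin r → ℚ // ∀ i,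
          |(ψ i : ℝ)| ≤ ρ ∧ (ψ i).num.natAbs ≤ H ∧ (ψ i).den ≤ H}))
          (fun a b h => Subtype.ext (congrArg (fun x => x.1) h))
      have himp : ∀ ψ : Fin r → ℚ, ((∀ i, |(ψ i : ℝ)| ≤ ρ ∧
          (ψ i).num.natAbs ≤ H ∧ (ψ i).den ≤ H) ∧
          Bad (fun i => 2 * g i) D (H ^ A) (fun i => (ψ i : ℂ))) →
          ((∀ i, |(ψ i : ℝ)| ≤ ρ ∧ (ψ i).num.natAbs ≤ H ∧
          (ψ i).den ≤ H) ∧ ¬ GPC.Free D1 (H ^ A1) (HGP.opt (2 * Real.pi * Complex.I)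
          (fun p : Σ i, Idx (g i) => gvec (Ps (F p.1) (E' p.1) (ψ p.1 : ℂ)
            (Mx (2 * g p.1) (ψ p.1 : ℂ))) p.2))) := by
        rintro ψ ⟨hψ, P, hPs, hPn, hP0⟩
        refine ⟨hψ, ?_⟩
        have hlt : ∀ i, ‖((ψ i : ℚ) : ℂ)‖ < 1 := fun i => by
          have h2 : ((ψ i : ℚ) : ℂ) = (((ψ i : ℚ) : ℝ) : ℂ) := by push_cast; rfl
          rw [h2, Complex.norm_real, Real.norm_eq_abs]
          exact (hψ i).1.trans_lt hρ
        refine hTr H hH2 ψ (fun i => ⟨(hψ i).1.trans_lt hρ, (hψ i).2.1, (hψ i).2.2⟩)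
          (2 * Real.pi * Complex.I) (fun i => Mx (2 * g i) (ψ i : ℂ)) Complex.two_pi_I_ne_zero
          (fun i => ?_) ⟨P, hPs, hPn, ?_⟩
        · have h3 := hT i (ψ i : ℂ) (hlt i)
          have h4 := hLink (2 * g i) (hn1 i) (ψ i : ℂ) (hdisc _ (hlt i))
          rw [← h4]
          exact h3
        · have h5 : (fun i => Per (2 * g i) ((ψ i : ℚ) : ℂ)) =
              fun i => Mx (2 * g i) ((ψ i : ℚ) : ℂ) :=
            funext fun i => hLink (2 * g i) (hn1 i) (ψ i : ℂ) (hdisc _ (hlt i))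
          have h6 := hP0
          simp only at h6
          rw [h5] at h6
          exact h6
      have hle := Nat.card_le_card_of_injective
        (fun ψ : {ψ : Fin r → ℚ // (∀ i, |(ψ i : ℝ)| ≤ ρ ∧
          (ψ i).num.natAbs ≤ H ∧ (ψ i).den ≤ H) ∧
          Bad (fun i => 2 * g i) D (H ^ A) (fun i => (ψ i : ℂ))} =>
          (⟨ψ.1, himp ψ.1 ψ.2⟩ : {t : Fin r → ℚ // (∀ i, |(t i : ℝ)| ≤ ρ ∧
            (t i).num.natAbs ≤ H ∧ (t i).den ≤ H) ∧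
            ¬ GPC.Free D1 (H ^ A1) (HGP.opt (2 * Real.pi * Complex.I)
          (fun p : Σ i, Idx (g i) => gvec (Ps (F p.1) (E' p.1) (t p.1 : ℂ)
            (Mx (2 * g p.1) (t p.1 : ℂ))) p.2))}))
        (fun a b h => Subtype.ext (congrArg (fun x => x.1) h))
      exact_mod_cast hle
    refine hmono.trans (h1.trans ?_)
    refine mul_le_mul_of_nonneg_right ?_ hHpos.le
    have := le_max_left C 0
    linarith
  · have hH' : H = 1 := by omega
    subst hH'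
    have hf1 := hfin 1
    have hle := Nat.card_le_card_of_injective
      (fun ψ : {ψ : Fin r → ℚ // (∀ i, |(ψ i : ℝ)| ≤ ρ ∧
        (ψ i).num.natAbs ≤ 1 ∧ (ψ i).den ≤ 1) ∧
        Bad (fun i => 2 * g i) D (1 ^ A) (fun i => (ψ i : ℂ))} =>
        (⟨ψ.1, ψ.2.1⟩ : {ψ : Fin r → ℚ // ∀ i, |(ψ i : ℝ)| ≤ ρ ∧
          (ψ i).num.natAbs ≤ 1 ∧ (ψ i).den ≤ 1}))
      (fun a b h => Subtype.ext (congrArg (fun x => x.1) h))
    have h7 : (Nat.card {ψ : Fin r → ℚ // (∀ i, |(ψ i : ℝ)| ≤ ρ ∧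
        (ψ i).num.natAbs ≤ 1 ∧ (ψ i).den ≤ 1) ∧
        Bad (fun i => 2 * g i) D (1 ^ A) (fun i => (ψ i : ℂ))} : ℝ) ≤ K := by
      rw [hK]
      exact_mod_cast hle
    refine h7.trans ?_
    rw [Nat.cast_one, Real.one_rpow, mul_one]
    have := le_max_right C 0
    linarith

end

end Pool.Agent.CYP
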