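import Pool.Agent.CYP.Stmts

/-! # CYP, module TRV: relations are invariant under the transvections -/

open scoped BigOperators Topology
open Metric Set MeasureTheory

namespace Pool.Agent.CYP

namespace TRV_

variable {n : ℕ}

/-- The substitution `(ψ, X) ↦ (s ψ, A X B)`. -/
noncomputable def gsub (s : ℂ) (A B : Matrix (Fin n) (Fin n) ℂ) :
    Option (Fin n × Fin n) → MvPolynomial (Option (Fin n × Fin n)) ℂ
  | none => MvPolynomial.C s * MvPolynomial.X none
  | some p => ∑ k, ∑ l, MvPolynomial.C (A p.1 k * B l p.2) * MvPolynomial.X (some (k, l))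

theorem eval_sub (s : ℂ) (A B X : Matrix (Fin n) (Fin n) ℂ) (ψ : ℂ)
    (P : MvPolynomial (Option (Fin n × Fin n)) ℂ) :
    MvPolynomial.eval (HGP.opt ψ (fun p => X p.1 p.2)) (MvPolynomial.bind₁ (gsub s A B) P) =
      MvPolynomial.eval (HGP.opt (s * ψ) (fun p => (A * X * B) p.1 p.2)) P := by
  have h : MvPolynomial.eval (HGP.opt ψ (fun p => X p.1 p.2)) (MvPolynomial.bind₁ (gsub s A B) P) =
      MvPolynomial.eval (fun i => MvPolynomial.eval (HGP.opt ψ (fun p => X p.1 p.2))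
        (gsub s A B i)) P := by
    induction P using MvPolynomial.induction_on with
    | C a => simp
    | add p q hp hq => simp only [map_add, hp, hq]
    | mul_X p i hp => simp only [map_mul, hp, MvPolynomial.bind₁_X_right, MvPolynomial.eval_X]
  rw [h]
  have h2 : (fun i => MvPolynomial.eval (HGP.opt ψ (fun p => X p.1 p.2)) (gsub s A B i)) =
      HGP.opt (s * ψ) (fun p => (A * X * B) p.1 p.2) := by
    funext o
    cases o with
    | none => simp [gsub, HGP.opt]
    | some p =>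
      simp only [gsub, HGP.opt, Option.elim_some, map_sum, map_mul, MvPolynomial.eval_C,
        MvPolynomial.eval_X, Matrix.mul_apply]
      rw [Finset.sum_comm]
      refine Finset.sum_congr rfl fun l _ => ?_
      rw [Finset.sum_mul]
      refine Finset.sum_congr rfl fun k _ => ?_
      ring
  rw [h2]

theorem qm_diag (i : Fin n) : Qm n ℂ i i = 0 := by
  simp [Qm]

theorem rs_sq (i : Fin n) : rs n i * rs n i = 0 := by
  unfold rs GPH.res
  rw [Matrix.vecMulVec_mul_vecMulVec]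
  have h : (Qm n ℂ).mulVec (Pi.single i 1) ⬝ᵥ (Pi.single i 1 : Fin n → ℂ) = 0 := by
    rw [dotProduct_single, mul_one, Matrix.mulVec_single_one]
    exact qm_diag i
  rw [h]
  simp [Matrix.vecMulVec]
  rfl

theorem pow_eq (i : Fin n) (c : ℂ) (m : ℕ) :
    (1 + c • rs n i) ^ m = 1 + ((m : ℂ) * c) • rs n i := by
  induction m with
  | zero => simp
  | succ m ih =>
    rw [pow_succ, ih, add_mul, one_mul, mul_add, mul_one, Matrix.smul_mul, Matrix.mul_smul,
      rs_sq, smul_zero, smul_zero, add_zero, add_assoc, ← add_smul]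
    congr 2
    push_cast
    ring

theorem of_pow (i : Fin n) (P : MvPolynomial (Option (Fin n × Fin n)) ℂ) (c₀ : ℂ) (hc : c₀ ≠ 0)
    (h : ∀ m : ℕ, Rel n P ((1 + c₀ • rs n i) ^ m)) (c : ℂ) : Rel n P (1 + c • rs n i) := by
  intro ψ hψ
  set f : Option (Fin n × Fin n) → Polynomial ℂ := fun o => o.elim (Polynomial.C ψ)
    (fun p => Polynomial.C (Mx n ψ p.1 p.2) +
      Polynomial.C ((Mx n ψ * rs n i) p.1 p.2) * Polynomial.X) with hf
  set q : Polynomial ℂ := MvPolynomial.aeval f P with hq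
  have hev : ∀ t : ℂ, q.eval t =
      MvPolynomial.eval (HGP.opt ψ (fun p => (Mx n ψ * (1 + t • rs n i)) p.1 p.2)) P := by
    intro t
    have h1 : q.eval t = (Polynomial.evalRingHom t) (MvPolynomial.aeval f P) := rfl
    rw [h1, MvPolynomial.map_aeval]
    have h2 : (Polynomial.evalRingHom t).comp (algebraMap ℂ (Polynomial ℂ)) = RingHom.id ℂ := by
      ext x
      simp
    rw [h2]
    have h3 : (fun o => (Polynomial.evalRingHom t) (f o)) =
        HGP.opt ψ (fun p => (Mx n ψ * (1 + t • rs n i)) p.1 p.2) := by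
      funext o
      cases o with
      | none => simp [hf, HGP.opt]
      | some p =>
        simp only [hf, HGP.opt, Option.elim_some, Polynomial.coe_evalRingHom,
          Polynomial.eval_add, Polynomial.eval_C, Polynomial.eval_mul, Polynomial.eval_X,
          Matrix.mul_add, Matrix.mul_one, Matrix.mul_smul, Matrix.add_apply, Matrix.smul_apply,
          smul_eq_mul]
        ring
    rw [h3]
    rfl
  have hinf : Set.Infinite {t | q.IsRoot t} := by
    have hsub : Set.range (fun m : ℕ => (m : ℂ) * c₀) ⊆ {t | q.IsRoot t} := by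
      rintro _ ⟨m, rfl⟩
      have := h m ψ hψ
      rw [pow_eq, ← hev] at this
      exact this
    refine Set.Infinite.mono hsub (Set.infinite_range_of_injective ?_)
    intro a b hab
    exact Nat.cast_injective (mul_right_cancel₀ hc hab)
  have hz := Polynomial.eq_zero_of_infinite_isRoot q hinf
  rw [← hev, hz, Polynomial.eval_zero]

theorem base (hJump : Stmt_Jump) (hVc : Stmt_Vc) (hn : Even n) (i0 : Fin n)
    (hi0 : (i0 : ℕ) = 0) (P : MvPolynomial (Option (Fin n × Fin n)) ℂ) (hP : Rel n P 1)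
    (c : ℂ) : Rel n P (1 + c • rs n i0) := by
  obtain ⟨h, h1, h2, h3, h4⟩ := hJump n i0 hn hi0
  obtain ⟨c₀, hc₀, hh⟩ := hVc n i0 hn hi0 h h1 h2 h3
  subst hh
  refine of_pow i0 P c₀ hc₀ (fun m => ?_) c
  induction m with
  | zero => simpa using hP
  | succ m ih =>
    have a1 : Rel n (MvPolynomial.bind₁ (gsub 1 1 ((1 + c₀ • rs n i0) ^ m)) P) 1 := by
      intro ψ hψ
      rw [eval_sub, one_mul, Matrix.one_mul, Matrix.mul_one]
      exact ih ψ hψ
    intro ψ hψ
    have a2 := h4 _ a1 ψ hψ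
    rw [eval_sub, one_mul, Matrix.one_mul, Matrix.mul_assoc, ← pow_succ'] at a2
    exact a2

theorem zt_ne : zt n ≠ 0 := Complex.exp_ne_zero _

theorem zt_pow : zt n ^ (n + 1) = 1 := by
  rw [zt, ← Complex.exp_nat_mul]
  have h : ((n + 1 : ℕ) : ℂ) * (2 * Real.pi * Complex.I / ((n : ℂ) + 1)) =
      2 * Real.pi * Complex.I := by
    have : ((n : ℂ) + 1) ≠ 0 := Nat.cast_add_one_ne_zero n
    push_cast
    field_simp
  rw [h, Complex.exp_two_pi_mul_I]

theorem mem_Om_pow (hGeo : Stmt_Geo) (ψ : ℂ) (hψ : ψ ∈ Om n) (m : ℕ) : zt n ^ m * ψ ∈ Om n := by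
  induction m with
  | zero => simpa using hψ
  | succ m ih =>
    rw [pow_succ', mul_assoc]
    exact (hGeo n).2.2.2.1 _ ih

theorem mem_Om_inv (hGeo : Stmt_Geo) (ψ : ℂ) (hψ : ψ ∈ Om n) : (zt n)⁻¹ * ψ ∈ Om n := by
  have h : (zt n)⁻¹ = zt n ^ n := by
    apply inv_eq_of_mul_eq_one_right
    rw [← pow_succ']
    exact zt_pow
  rw [h]
  exact mem_Om_pow hGeo ψ hψ n

theorem Pm_rel (hRot : Stmt_Rot) (hGeo : Stmt_Geo) (hBilO : Stmt_BilO) (hn0 : 0 < n)
    (hn : Even n) : (Pm n).transpose * Qm n ℂ * Pm n = Qm n ℂ := by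
  have h0 : (0 : ℂ) ∈ Om n := (hGeo n).2.2.1 (mem_ball_self one_pos)
  have hB := hBilO n hn0 hn 0 h0
  have hR := hRot n hn0 0 h0
  rw [mul_zero] at hR
  unfold Tors at hB
  set X := Mx n 0 with hX
  set κ : ℂ := (2 * Real.pi * Complex.I) ^ (n - 1) with hκ
  have hκ0 : κ ≠ 0 := pow_ne_zero _ Complex.two_pi_I_ne_zero
  have hD : (Dm n).transpose * Rm n 0 * Dm n = Rm n 0 := by
    unfold Dm
    rw [Matrix.diagonal_transpose]
    ext a b
    rw [Matrix.mul_diagonal, Matrix.diagonal_mul]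
    have hRm : Rm n 0 a b = if (a : ℕ) + b + 1 = n then (-1) ^ (b : ℕ) else 0 := by
      simp [Rm]
    rw [hRm]
    split_ifs with hab
    · have h1 : (zt n ^ ((a : ℕ) + 1))⁻¹ * (zt n ^ ((b : ℕ) + 1))⁻¹ = 1 := by
        rw [← mul_inv, ← pow_add]
        have : (a : ℕ) + 1 + ((b : ℕ) + 1) = n + 1 := by omega
        rw [this, zt_pow, inv_one]
      calc (zt n ^ ((a : ℕ) + 1))⁻¹ * (-1) ^ (b : ℕ) * (zt n ^ ((b : ℕ) + 1))⁻¹
          = ((zt n ^ ((a : ℕ) + 1))⁻¹ * (zt n ^ ((b : ℕ) + 1))⁻¹) * (-1) ^ (b : ℕ) := by ring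
        _ = (-1) ^ (b : ℕ) := by rw [h1, one_mul]
    · simp
  have h1 : κ • ((Pm n).transpose * Qm n ℂ * Pm n) = κ • Qm n ℂ := by
    calc κ • ((Pm n).transpose * Qm n ℂ * Pm n)
        = (Pm n).transpose * (κ • Qm n ℂ) * Pm n := by
          rw [Matrix.mul_smul, Matrix.smul_mul]
      _ = (Pm n).transpose * (X.transpose * Rm n 0 * X) * Pm n := by rw [hB]
      _ = (Pm n).transpose * (X.transpose * ((Dm n).transpose * Rm n 0 * Dm n) * X) * Pm n := by
          rw [hD]
      _ = (Dm n * X * Pm n).transpose * Rm n 0 * (Dm n * X * Pm n) := by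
          simp only [Matrix.transpose_mul, Matrix.mul_assoc]
      _ = X.transpose * Rm n 0 * X := by rw [← hR]
      _ = κ • Qm n ℂ := hB
  exact smul_right_injective _ hκ0 h1

theorem Pm_single (k k' : Fin n) (hk : (k' : ℕ) = k + 1) :
    (Pm n).mulVec (Pi.single k 1) = Pi.single k' 1 := by
  rw [Matrix.mulVec_single_one]
  ext i
  have h1 : (k : ℕ) + 1 ≠ n := by
    have := k'.2
    omega
  simp only [Matrix.col_apply, Pm, Matrix.of_apply, if_neg h1, Pi.single_apply, Fin.ext_iff, hk]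

theorem comm_rs (hP : (Pm n).transpose * Qm n ℂ * Pm n = Qm n ℂ) (k k' : Fin n)
    (hk : (k' : ℕ) = k + 1) : Pm n * rs n k = rs n k' * Pm n := by
  unfold rs GPH.res
  rw [Matrix.mul_vecMulVec, Matrix.vecMulVec_mul, Pm_single k k' hk, ← Matrix.mulVec_transpose]
  congr 1
  rw [← Pm_single k k' hk, Matrix.mulVec_mulVec, Matrix.mulVec_mulVec, hP]

theorem step (hRot : Stmt_Rot) (hGeo : Stmt_Geo) (hBilO : Stmt_BilO) (hQdet : Stmt_Qdet)
    (hn0 : 0 < n) (hn : Even n) (k k' : Fin n) (hk : (k' : ℕ) = k + 1)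
    (ih : ∀ P : MvPolynomial (Option (Fin n × Fin n)) ℂ, Rel n P 1 →
      ∀ c : ℂ, Rel n P (1 + c • rs n k))
    (P : MvPolynomial (Option (Fin n × Fin n)) ℂ) (hP : Rel n P 1) (c : ℂ) :
    Rel n P (1 + c • rs n k') := by
  have hPm := Pm_rel hRot hGeo hBilO hn0 hn
  have hdet : (Pm n).det ≠ 0 := by
    intro h
    apply hQdet n hn
    rw [← hPm, Matrix.det_mul, h, mul_zero]
  have hu : IsUnit (Pm n).det := isUnit_iff_ne_zero.2 hdet
  set D' : Matrix (Fin n) (Fin n) ℂ := Matrix.diagonal fun j => zt n ^ ((j : ℕ) + 1) with hD'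
  have hDD : D' * Dm n = 1 := by
    rw [hD', Dm, Matrix.diagonal_mul_diagonal]
    rw [← Matrix.diagonal_one]
    congr 1
    funext j
    exact mul_inv_cancel₀ (pow_ne_zero _ zt_ne)
  have hz : (zt n)⁻¹ * zt n = 1 := inv_mul_cancel₀ zt_ne
  set P' := MvPolynomial.bind₁ (gsub (zt n)⁻¹ D' (Pm n)⁻¹) P with hP'
  have a1 : Rel n P' 1 := by
    intro ψ hψ
    rw [hP', eval_sub, Matrix.mul_one]
    have hψ' := mem_Om_inv hGeo ψ hψ
    have hR := hRot n hn0 _ hψ'
    rw [← mul_assoc, mul_inv_cancel₀ zt_ne, one_mul] at hR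
    have h2 : D' * Mx n ψ * (Pm n)⁻¹ = Mx n ((zt n)⁻¹ * ψ) * 1 := by
      rw [hR, Matrix.mul_one]
      calc D' * (Dm n * Mx n ((zt n)⁻¹ * ψ) * Pm n) * (Pm n)⁻¹
          = (D' * Dm n) * Mx n ((zt n)⁻¹ * ψ) * (Pm n * (Pm n)⁻¹) := by
            simp only [Matrix.mul_assoc]
        _ = Mx n ((zt n)⁻¹ * ψ) := by
            rw [hDD, Matrix.mul_nonsing_inv _ hu, Matrix.one_mul, Matrix.mul_one]
    rw [h2]
    exact hP _ hψ'
  intro ψ hψ
  have a2 := ih P' a1 c (zt n * ψ) ((hGeo n).2.2.2.1 ψ hψ)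
  rw [hP', eval_sub, ← mul_assoc, hz, one_mul, hRot n hn0 ψ hψ] at a2
  have h3 : D' * (Dm n * Mx n ψ * Pm n * (1 + c • rs n k)) * (Pm n)⁻¹ =
      Mx n ψ * (1 + c • rs n k') := by
    have h4 : Pm n * (1 + c • rs n k) = (1 + c • rs n k') * Pm n := by
      rw [Matrix.mul_add, Matrix.add_mul, Matrix.mul_one, Matrix.one_mul, Matrix.mul_smul,
        Matrix.smul_mul, comm_rs hPm k k' hk]
    calc D' * (Dm n * Mx n ψ * Pm n * (1 + c • rs n k)) * (Pm n)⁻¹
        = (D' * Dm n) * Mx n ψ * (Pm n * (1 + c • rs n k)) * (Pm n)⁻¹ := by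
          simp only [Matrix.mul_assoc]
      _ = Mx n ψ * ((1 + c • rs n k') * Pm n) * (Pm n)⁻¹ := by
          rw [hDD, Matrix.one_mul, h4]
      _ = Mx n ψ * (1 + c • rs n k') * (Pm n * (Pm n)⁻¹) := by
          simp only [Matrix.mul_assoc]
      _ = Mx n ψ * (1 + c • rs n k') := by
          rw [Matrix.mul_nonsing_inv _ hu, Matrix.mul_one]
  rw [h3] at a2
  exact a2

end TRV_

open TRV_ in
theorem trv_proof (hJump : Stmt_Jump) (hVc : Stmt_Vc) (hRot : Stmt_Rot) (hGeo : Stmt_Geo)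
    (hBilO : Stmt_BilO) (hQdet : Stmt_Qdet) : Stmt_Trv := by
  intro n hn0 hn
  have key : ∀ (m : ℕ) (k : Fin n), (k : ℕ) = m →
      ∀ P : MvPolynomial (Option (Fin n × Fin n)) ℂ, Rel n P 1 →
        ∀ c : ℂ, Rel n P (1 + c • rs n k) := by
    intro m
    induction m with
    | zero =>
      intro k hk P hP c
      exact base hJump hVc hn k hk P hP c
    | succ m ih =>
      intro k hk P hP c
      have hm : m < n := by
        have := k.2
        omega
      exact step hRot hGeo hBilO hQdet hn0 hn ⟨m, hm⟩ k hk (ih ⟨m, hm⟩ rfl) P hP c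
  intro P hP k c
  exact key k k rfl P hP c

end Pool.Agent.CYP
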