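import Pool.Agent.CYP.Stmts

/-!
# CYP, module ODED: the Picard-Fuchs equation on the disc
-/

open scoped BigOperators Topology
open Metric Set MeasureTheory

namespace Pool.Agent.CYP

noncomputable section

namespace ODED_

theorem stir (m : ℕ) : ∀ i : ℕ,
    ∑ k ∈ Finset.range (i + 1), Nat.stirlingSecond (i + 1) (k + 1) * m.descFactorial k =
      (m + 1) ^ i
  | 0 => by simp [Nat.stirlingSecond]
  | i + 1 => by
    have ih := stir m i
    have h1 : ∀ k, (k + 1) * m.descFactorial k + m.descFactorial (k + 1) =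
        (m + 1) * m.descFactorial k := by
      intro k
      rw [Nat.descFactorial_succ]
      rcases Nat.lt_or_ge m k with h | h
      · rw [Nat.descFactorial_eq_zero_iff_lt.2 h]; simp
      · rw [← add_mul]
        congr 1
        omega
    have h2 : ∑ k ∈ Finset.range (i + 1 + 1),
        Nat.stirlingSecond (i + 1 + 1) (k + 1) * m.descFactorial k =
        ∑ k ∈ Finset.range (i + 2), (k + 1) * Nat.stirlingSecond (i + 1) (k + 1) *
          m.descFactorial k +
        ∑ k ∈ Finset.range (i + 2), Nat.stirlingSecond (i + 1) k * m.descFactorial k := by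
      rw [← Finset.sum_add_distrib]
      refine Finset.sum_congr rfl fun k _ => ?_
      rw [Nat.stirlingSecond_succ_succ]
      ring
    rw [h2, Finset.sum_range_succ, Finset.sum_range_succ' (fun k =>
      Nat.stirlingSecond (i + 1) k * m.descFactorial k)]
    have h3 : Nat.stirlingSecond (i + 1) (i + 1 + 1) = 0 :=
      Nat.stirlingSecond_eq_zero_of_lt (by omega)
    have h4 : Nat.stirlingSecond (i + 1) 0 = 0 := by simp
    rw [h3, h4]
    simp only [mul_zero, zero_mul, add_zero]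
    rw [← Finset.sum_add_distrib, pow_succ, ← ih, Finset.sum_mul]
    refine Finset.sum_congr rfl fun k _ => ?_
    have := h1 k
    calc (k + 1) * Nat.stirlingSecond (i + 1) (k + 1) * m.descFactorial k +
        Nat.stirlingSecond (i + 1) (k + 1) * m.descFactorial (k + 1)
        = Nat.stirlingSecond (i + 1) (k + 1) *
          ((k + 1) * m.descFactorial k + m.descFactorial (k + 1)) := by ring
      _ = _ := by rw [this]; ring

theorem dF (m n : ℕ) : ((m + 1 + n).descFactorial n : ℝ) =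
    ∏ i ∈ Finset.range n, ((m : ℝ) + 2 + i) := by
  induction n with
  | zero => simp
  | succ n ih =>
    rw [Finset.prod_range_succ, ← ih]
    have : (m + 1 + (n + 1)).descFactorial (n + 1) =
        (m + 1 + n + 1) * (m + 1 + n).descFactorial n := by
      rw [← add_assoc, Nat.succ_descFactorial_succ]
    rw [this]
    push_cast
    ring

theorem zt_pow (n : ℕ) : zt n ^ (n + 1) = 1 := by
  unfold zt
  have h : (n : ℂ) + 1 = ((n + 1 : ℕ) : ℂ) := by push_cast; ring
  rw [h]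
  exact (Complex.isPrimitiveRoot_exp (n + 1) (by omega)).pow_eq_one

theorem zt_norm (n : ℕ) : ‖zt n‖ = 1 :=
  Complex.norm_eq_one_of_pow_eq_one (zt_pow n) (by omega)

theorem acf_bdd (h1 : Stmt_Rec) (n : ℕ) : ∃ C : ℝ, ∀ m, acf n m ≤ C := by
  refine ⟨∑ i ∈ Finset.range (n + 1), acf n i, ?_⟩
  intro m
  induction m using Nat.strong_induction_on with
  | _ m ih =>
    rcases Nat.lt_or_ge m (n + 1) with h | h
    · exact Finset.single_le_sum (f := fun i => acf n i)
        (fun i _ => (h1 n i).1.le) (Finset.mem_range.2 h)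
    · obtain ⟨k, rfl⟩ := Nat.exists_eq_add_of_le h
      have e : n + 1 + k = k + n + 1 := by omega
      have h2 := (h1 n k).2
      have h3 := (h1 n k).1
      have h4 := (h1 n (k + n + 1)).1
      rw [e]
      refine le_trans ?_ (ih k (by omega))
      have h5 : ((k : ℝ) + 1) ^ n ≤ ∏ i ∈ Finset.range n, ((k : ℝ) + 2 + i) := by
        rw [← Finset.card_range n, ← Finset.prod_const]
        simp only [Finset.card_range]
        refine Finset.prod_le_prod (fun i _ => by positivity) fun i _ => ?_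
        have : (0 : ℝ) ≤ i := Nat.cast_nonneg i
        linarith
      have h6 : (0 : ℝ) < ((k : ℝ) + 1) ^ n := by positivity
      by_contra hc
      push Not at hc
      have : ((k : ℝ) + 1) ^ n * acf n k < acf n (k + n + 1) * ∏ i ∈ Finset.range n, ((k : ℝ) + 2 + i) := by
        calc ((k : ℝ) + 1) ^ n * acf n k < ((k : ℝ) + 1) ^ n * acf n (k + n + 1) :=
              mul_lt_mul_of_pos_left hc h6
          _ = acf n (k + n + 1) * ((k : ℝ) + 1) ^ n := mul_comm _ _
          _ ≤ _ := mul_le_mul_of_nonneg_left h5 h4.le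
      linarith

theorem pc_bdd (h1 : Stmt_Rec) (n j : ℕ) : ∃ C : ℝ, ∀ m, ‖pc n j m‖ ≤ C := by
  obtain ⟨C, hC⟩ := acf_bdd h1 n
  refine ⟨‖(2 * Real.pi * Complex.I : ℂ)⁻¹‖ * 2 ^ (n + 1) * C, fun m => ?_⟩
  unfold pc
  rw [norm_mul, norm_mul, norm_mul, norm_pow, norm_pow, zt_norm, one_pow, mul_one]
  have h2 : ‖(acf n m : ℂ)‖ = acf n m := by
    rw [Complex.norm_real, Real.norm_of_nonneg (h1 n m).1.le]
  rw [h2]
  have h3 : ‖1 - zt n ^ (m + 1)‖ ≤ 2 := by
    calc ‖1 - zt n ^ (m + 1)‖ ≤ ‖(1 : ℂ)‖ + ‖zt n ^ (m + 1)‖ := norm_sub_le _ _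
      _ = 2 := by rw [norm_pow, zt_norm]; norm_num
  have h4 := (h1 n m).1.le
  have h5 := hC m
  gcongr

theorem pc_rec (h1 : Stmt_Rec) (n j m : ℕ) :
    ((m + 1 + n).descFactorial n : ℂ) * pc n j (m + 1 + n) = ((m : ℂ) + 1) ^ n * pc n j m := by
  have e : m + 1 + n = m + n + 1 := by omega
  have h2 := (h1 n m).2
  rw [← dF m n] at h2
  have h3 : (acf n (m + 1 + n) : ℂ) * ((m + 1 + n).descFactorial n : ℂ) =
      ((m : ℂ) + 1) ^ n * (acf n m : ℂ) := by
    rw [e] at h2 ⊢
    exact_mod_cast h2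
  have h4 : zt n ^ (j * (m + 1 + n + 1)) = zt n ^ (j * (m + 1)) := by
    rw [show j * (m + 1 + n + 1) = j * (m + 1) + (n + 1) * j by ring, pow_add, pow_mul (zt n) (n + 1),
      zt_pow, one_pow, mul_one]
  have h5 : zt n ^ (m + 1 + n + 1) = zt n ^ (m + 1) := by
    rw [add_assoc (m + 1) n 1, pow_add, zt_pow, mul_one]
  unfold pc
  rw [h4, h5]
  linear_combination ((2 * Real.pi * Complex.I)⁻¹ * zt n ^ (j * (m + 1)) *
    (1 - zt n ^ (m + 1)) ^ (n + 1)) * h3

theorem pc_n (n j : ℕ) : pc n j n = 0 := by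
  unfold pc
  rw [zt_pow]
  simp

theorem shift (c : ℕ → ℂ) (ψ : ℂ) (k : ℕ) (s : ℂ)
    (h : HasSum (fun m : ℕ => ((m + k).descFactorial k : ℂ) * c (m + k) * ψ ^ m) s) :
    HasSum (fun m : ℕ => (m.descFactorial k : ℂ) * c m * ψ ^ (m + 1)) (ψ ^ (k + 1) * s) := by
  have h2 := h.mul_left (ψ ^ (k + 1))
  have h3 : HasSum (fun m : ℕ => ((m + k).descFactorial k : ℂ) * c (m + k) * ψ ^ (m + k + 1))
      (ψ ^ (k + 1) * s) := by
    refine h2.congr_fun ?_ |> fun h => h
    intro m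
    ring
  have h4 := (hasSum_nat_add_iff' (f := fun m : ℕ => (m.descFactorial k : ℂ) * c m * ψ ^ (m + 1))
    (g := ψ ^ (k + 1) * s) k).1
  have h5 : ∑ i ∈ Finset.range k, ((i.descFactorial k : ℂ) * c i * ψ ^ (i + 1)) = 0 := by
    refine Finset.sum_eq_zero fun i hi => ?_
    rw [Nat.descFactorial_eq_zero_iff_lt.2 (Finset.mem_range.1 hi)]
    simp
  rw [h5, sub_zero] at h4
  exact h4 h3

end ODED_

open ODED_ in
theorem oded_proof (h1 : Stmt_Rec) (h2 : Stmt_Pser) : Stmt_OdeD := by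
  intro n hn j
  obtain ⟨C, hC⟩ := pc_bdd h1 n j
  obtain ⟨h3, h4⟩ := h2 (pc n j) C hC
  refine ⟨h3, ?_⟩
  intro ψ hψ
  change iteratedDeriv n (fun z => ∑' m : ℕ, pc n j m * z ^ m) ψ =
    ∑ k ∈ Finset.range (n + 1), (Nat.stirlingSecond (n + 1) (k + 1) : ℂ) * ψ ^ (k + 1) *
      iteratedDeriv k (fun z => ∑' m : ℕ, pc n j m * z ^ m) ψ
  set F := fun z : ℂ => ∑' m : ℕ, pc n j m * z ^ m with hF
  have h5 : HasSum (fun m : ℕ => ∑ k ∈ Finset.range (n + 1),
      (Nat.stirlingSecond (n + 1) (k + 1) : ℂ) *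
        ((m.descFactorial k : ℂ) * pc n j m * ψ ^ (m + 1)))
      (∑ k ∈ Finset.range (n + 1), (Nat.stirlingSecond (n + 1) (k + 1) : ℂ) *
        (ψ ^ (k + 1) * iteratedDeriv k F ψ)) :=
    hasSum_sum fun k _ => (shift _ ψ k _ (h4 k ψ hψ)).mul_left _
  have h6 : ∀ m : ℕ, ∑ k ∈ Finset.range (n + 1),
      (Nat.stirlingSecond (n + 1) (k + 1) : ℂ) *
        ((m.descFactorial k : ℂ) * pc n j m * ψ ^ (m + 1)) =
      ((m + 1 + n).descFactorial n : ℂ) * pc n j (m + 1 + n) * ψ ^ (m + 1) := by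
    intro m
    rw [pc_rec h1]
    have h7 : (∑ k ∈ Finset.range (n + 1), (Nat.stirlingSecond (n + 1) (k + 1) : ℂ) *
        (m.descFactorial k : ℂ)) = ((m : ℂ) + 1) ^ n := by exact_mod_cast stir m n
    rw [← h7, Finset.sum_mul, Finset.sum_mul]
    exact Finset.sum_congr rfl fun k _ => by ring
  simp only [h6] at h5
  have h8 := (hasSum_nat_add_iff' (f := fun m : ℕ => ((m + n).descFactorial n : ℂ) *
    pc n j (m + n) * ψ ^ m) (g := iteratedDeriv n F ψ) 1).2 (h4 n ψ hψ)
  have h9 : ∑ i ∈ Finset.range 1, ((i + n).descFactorial n : ℂ) * pc n j (i + n) * ψ ^ i = 0 := by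
    simp [pc_n]
  rw [h9, sub_zero] at h8
  rw [h8.unique h5]
  exact Finset.sum_congr rfl fun k _ => by ring

end

end Pool.Agent.CYP
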