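import Pool.Agent.CYP.Stmts

/-!
# PSER: derivatives of power series with bounded coefficients
-/

set_option autoImplicit false

open scoped BigOperators Topology
open Metric Set MeasureTheory

namespace Pool.Agent.CYP

noncomputable section

namespace PSER

/-- the coefficients grow at most polynomially -/
def PB (c : ℕ → ℂ) : Prop := ∃ (C : ℝ) (j : ℕ), ∀ m, ‖c m‖ ≤ C * ((m : ℝ) + 1) ^ j

/-- the coefficients of the derivative -/
def Dc (c : ℕ → ℂ) : ℕ → ℂ := fun m => ((m : ℂ) + 1) * c (m + 1)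

/-- the sum -/
def fs (c : ℕ → ℂ) : ℂ → ℂ := fun z => ∑' m : ℕ, c m * z ^ m

theorem PB_Dc {c : ℕ → ℂ} (h : PB c) : PB (Dc c) := by
  obtain ⟨C, j, hC⟩ := h
  have hC0 : 0 ≤ C := by
    have h1 := hC 0
    have h2 := norm_nonneg (c 0)
    simp at h1
    linarith
  refine ⟨C * 2 ^ j, j + 1, fun m => ?_⟩
  have h1 := hC (m + 1)
  have h2 : ‖Dc c m‖ = ((m : ℝ) + 1) * ‖c (m + 1)‖ := by
    unfold Dc
    rw [norm_mul]
    congr 1
    have : ((m : ℂ) + 1) = ((m + 1 : ℕ) : ℂ) := by push_cast; ring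
    rw [this, Complex.norm_natCast]
    push_cast; ring
  rw [h2]
  have h3 : ((m : ℝ) + 1 + 1) ^ j ≤ (2 * ((m : ℝ) + 1)) ^ j := by
    apply pow_le_pow_left₀ (by positivity)
    have : (0 : ℝ) ≤ m := Nat.cast_nonneg m
    linarith
  have h4 : ‖c (m + 1)‖ ≤ C * (2 * ((m : ℝ) + 1)) ^ j := by
    refine le_trans h1 ?_
    push_cast
    exact mul_le_mul_of_nonneg_left h3 hC0
  calc ((m : ℝ) + 1) * ‖c (m + 1)‖ ≤ ((m : ℝ) + 1) * (C * (2 * ((m : ℝ) + 1)) ^ j) :=
        mul_le_mul_of_nonneg_left h4 (by positivity)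
    _ = C * 2 ^ j * ((m : ℝ) + 1) ^ (j + 1) := by rw [mul_pow]; ring

theorem summable_poly (j : ℕ) {r : ℝ} (h0 : 0 < r) (h1 : r < 1) :
    Summable (fun m : ℕ => ((m : ℝ) + 1) ^ j * r ^ m) := by
  have h2 : Summable (fun n : ℕ => ((n : ℝ) ^ j * r ^ n : ℝ)) :=
    summable_pow_mul_geometric_of_norm_lt_one j (by rw [Real.norm_eq_abs, abs_of_pos h0]; exact h1)
  have h3 := (summable_nat_add_iff 1).mpr h2
  have h4 := h3.mul_left r⁻¹
  refine h4.congr ?_
  intro m
  push_cast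
  rw [pow_succ]
  field_simp

theorem summable_of_PB {c : ℕ → ℂ} (h : PB c) {r : ℝ} (h0 : 0 < r) (h1 : r < 1) :
    Summable (fun m : ℕ => ‖c m‖ * r ^ m) := by
  obtain ⟨C, j, hC⟩ := h
  refine Summable.of_nonneg_of_le (fun m => by positivity) (fun m => ?_)
    ((summable_poly j h0 h1).mul_left C)
  calc ‖c m‖ * r ^ m ≤ (C * ((m : ℝ) + 1) ^ j) * r ^ m :=
        mul_le_mul_of_nonneg_right (hC m) (by positivity)
    _ = C * (((m : ℝ) + 1) ^ j * r ^ m) := by ring

theorem exists_radius {z : ℂ} (hz : z ∈ ball (0 : ℂ) 1) : ∃ r : ℝ, 0 < r ∧ r < 1 ∧ ‖z‖ < r := by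
  have h1 : ‖z‖ < 1 := by simpa using hz
  have h2 : 0 ≤ ‖z‖ := norm_nonneg z
  exact ⟨(‖z‖ + 1) / 2, by linarith, by linarith, by linarith⟩

theorem summable_at {c : ℕ → ℂ} (h : PB c) {z : ℂ} (hz : z ∈ ball (0 : ℂ) 1) :
    Summable (fun m : ℕ => c m * z ^ m) := by
  obtain ⟨r, h0, h1, h2⟩ := exists_radius hz
  refine Summable.of_norm_bounded (summable_of_PB h h0 h1) (fun m => ?_)
  rw [norm_mul, norm_pow]
  exact mul_le_mul_of_nonneg_left (pow_le_pow_left₀ (norm_nonneg _) h2.le m) (norm_nonneg _)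

theorem hasDerivAt_fs {c : ℕ → ℂ} (h : PB c) {z : ℂ} (hz : z ∈ ball (0 : ℂ) 1) :
    HasDerivAt (fs c) (fs (Dc c) z) z := by
  obtain ⟨r, h0, h1, h2⟩ := exists_radius hz
  set u : ℕ → ℝ := fun n => ‖c n‖ * (n * r ^ (n - 1)) with hu
  have hsum : Summable u := by
    rw [← summable_nat_add_iff 1]
    refine (summable_of_PB (PB_Dc h) h0 h1).congr ?_
    intro m
    simp only [hu, Dc, Nat.add_sub_cancel]
    rw [norm_mul]
    have : ((m : ℂ) + 1) = ((m + 1 : ℕ) : ℂ) := by push_cast; ring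
    rw [this, Complex.norm_natCast]
    ring
  have key := hasDerivAt_tsum_of_isPreconnected (g := fun (n : ℕ) (z : ℂ) => c n * z ^ n)
    (g' := fun (n : ℕ) (z : ℂ) => c n * (n * z ^ (n - 1))) (t := ball (0 : ℂ) r) (y₀ := 0)
    (y := z) hsum isOpen_ball (convex_ball (0 : ℂ) r).isPreconnected
    (fun n y _ => (hasDerivAt_pow n y).const_mul (c n))
    (fun n y hy => by
      have hy' : ‖y‖ < r := by simpa using hy
      rw [norm_mul, norm_mul, Complex.norm_natCast, norm_pow]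
      apply mul_le_mul_of_nonneg_left _ (norm_nonneg _)
      apply mul_le_mul_of_nonneg_left _ (Nat.cast_nonneg _)
      exact pow_le_pow_left₀ (norm_nonneg _) hy'.le _)
    (by simpa using h0)
    (summable_at h (by simp))
    (by simpa using h2)
  have e : (∑' n : ℕ, c n * ((n : ℂ) * z ^ (n - 1))) = fs (Dc c) z := by
    have hs : Summable (fun n : ℕ => c n * ((n : ℂ) * z ^ (n - 1))) := by
      refine Summable.of_norm_bounded hsum (fun n => ?_)
      rw [norm_mul, norm_mul, Complex.norm_natCast, norm_pow]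
      apply mul_le_mul_of_nonneg_left _ (norm_nonneg _)
      apply mul_le_mul_of_nonneg_left _ (Nat.cast_nonneg _)
      exact pow_le_pow_left₀ (norm_nonneg _) h2.le _
    rw [hs.tsum_eq_zero_add]
    simp only [Nat.cast_zero, zero_mul, mul_zero, zero_add, Nat.add_sub_cancel]
    unfold fs Dc
    apply tsum_congr
    intro m
    push_cast
    ring
  rw [e] at key
  exact key

theorem iter_fs (k : ℕ) : ∀ {c : ℕ → ℂ}, PB c → ∀ z ∈ ball (0 : ℂ) 1,
    iteratedDeriv k (fs c) z = fs (Dc^[k] c) z := by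
  induction k with
  | zero => intro c _ z _; simp
  | succ k ih =>
    intro c h z hz
    rw [iteratedDeriv_succ']
    have h1 : iteratedDeriv k (deriv (fs c)) z = iteratedDeriv k (fs (Dc c)) z := by
      apply Filter.EventuallyEq.iteratedDeriv_eq
      filter_upwards [isOpen_ball.mem_nhds hz] with w hw
      exact (hasDerivAt_fs h hw).deriv
    rw [h1, ih (PB_Dc h) z hz]
    rfl

theorem Dc_iter (k : ℕ) : ∀ (c : ℕ → ℂ) (m : ℕ),
    (Dc^[k] c) m = ((m + k).descFactorial k : ℂ) * c (m + k) := by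
  induction k with
  | zero => intro c m; simp
  | succ k ih =>
    intro c m
    rw [Function.iterate_succ_apply, ih (Dc c) m]
    unfold Dc
    have e : m + (k + 1) = m + k + 1 := by ring
    rw [e, Nat.succ_descFactorial_succ]
    push_cast
    ring

theorem PB_iter (k : ℕ) : ∀ {c : ℕ → ℂ}, PB c → PB (Dc^[k] c) := by
  induction k with
  | zero => intro c h; exact h
  | succ k ih => intro c h; exact ih (PB_Dc h)

end PSER

open PSER in
theorem pser_proof : Stmt_Pser := by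
  intro c C hC
  have hPB : PB c := ⟨C, 0, fun m => by simpa using hC m⟩
  refine ⟨fun z hz => (hasDerivAt_fs hPB hz).differentiableAt.differentiableWithinAt, ?_⟩
  intro k ψ hψ
  have h1 := iter_fs k hPB ψ hψ
  have h2 : Summable (fun m : ℕ => (Dc^[k] c) m * ψ ^ m) := summable_at (PB_iter k hPB) hψ
  have h3 := h2.hasSum
  change iteratedDeriv k (fun z => ∑' m : ℕ, c m * z ^ m) ψ = ∑' m : ℕ, (Dc^[k] c) m * ψ ^ m at h1
  rw [h1]
  have h4 : (fun m : ℕ => ((m + k).descFactorial k : ℂ) * c (m + k) * ψ ^ m)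
      = fun m : ℕ => (Dc^[k] c) m * ψ ^ m := by
    funext m
    rw [Dc_iter]
  rw [h4]
  exact h3

end

end Pool.Agent.CYP
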