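import Pool.Agent.CYP.Stmts

open scoped BigOperators Topology
open Metric Set MeasureTheory

namespace Pool.Agent.CYP

namespace BILO_

theorem an_iter {f : ℂ → ℂ} {U : Set ℂ} (hU : IsOpen U) (hf : DifferentiableOn ℂ f U) (k : ℕ) :
    AnalyticOnNhd ℂ (iteratedDeriv k f) U := by
  have h := hf.analyticOnNhd hU
  rw [iteratedDeriv_eq_iterate]
  exact h.iterated_deriv k

theorem an_Rf (n a b : ℕ) (U : Set ℂ) : AnalyticOnNhd ℂ (Rf n a b) U := by
  have h : Differentiable ℂ (Rf n a b) := by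
    unfold Rf
    fun_prop
  exact (h.differentiableOn (s := Set.univ)).analyticOnNhd isOpen_univ |>.mono (subset_univ _)

theorem an_Bf (n : ℕ) {f g : ℂ → ℂ} {U : Set ℂ} (hU : IsOpen U) (hf : DifferentiableOn ℂ f U)
    (hg : DifferentiableOn ℂ g U) : AnalyticOnNhd ℂ (Bf n f g) U := by
  unfold Bf
  refine Finset.analyticOnNhd_fun_sum _ (fun a _ => Finset.analyticOnNhd_fun_sum _ (fun b _ => ?_))
  exact ((an_iter hU hf a).mul (an_Rf n a b U)).mul (an_iter hU hg b)

theorem entry (n : ℕ) (ψ : ℂ) (a b : Fin n) :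
    ((Mx n ψ).transpose * Rm n ψ * Mx n ψ) a b = Bf n (Yx n a) (Yx n b) ψ := by
  rw [Matrix.mul_apply]
  simp only [Matrix.mul_apply, Matrix.transpose_apply, Mx, Matrix.of_apply, Finset.sum_mul]
  rw [Finset.sum_comm, Bf, Finset.sum_range]
  refine Finset.sum_congr rfl (fun i _ => ?_)
  rw [Finset.sum_range]
  refine Finset.sum_congr rfl (fun j _ => ?_)
  rfl

end BILO_

open BILO_ in
theorem bilo_proof (hLagr : Stmt_Lagr) (hBz : Stmt_Bz) (hOdeD : Stmt_OdeD) (hYx : Stmt_Yx)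
    (hGeo : Stmt_Geo) : Stmt_BilO := by
  intro n hn he ψ hψ
  obtain ⟨hO, hst, hball, -, -⟩ := hGeo n
  unfold Tors
  ext a b
  rw [entry, Matrix.smul_apply, smul_eq_mul]
  have hdisc : ∀ z ∈ ball (0 : ℂ) 1, Bf n (Yx n a) (Yx n b) z
      = (2 * Real.pi * Complex.I) ^ (n - 1) * Qm n ℂ a b := by
    intro z hz
    have hev : ∀ j : ℕ, Yx n j =ᶠ[𝓝 z] prd n j := by
      intro j
      filter_upwards [isOpen_ball.mem_nhds hz] with w hw using (hYx n j).2 w hw
    have h1 : Bf n (Yx n a) (Yx n b) z = Bf n (prd n a) (prd n b) z := by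
      unfold Bf
      refine Finset.sum_congr rfl (fun i _ => Finset.sum_congr rfl (fun j _ => ?_))
      rw [(hev a).iteratedDeriv_eq i, (hev b).iteratedDeriv_eq j]
    rw [h1, hLagr n hn he _ _ (hOdeD n hn a).1 (hOdeD n hn b).1 (hOdeD n hn a).2
      (hOdeD n hn b).2 z hz, hBz n hn he a b]
  have h0 : (0 : ℂ) ∈ Om n := hball (mem_ball_self one_pos)
  have hpre : IsPreconnected (Om n) :=
    (hst.isPathConnected h0).isConnected.isPreconnected
  have key := AnalyticOnNhd.eqOn_of_preconnected_of_eventuallyEq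
    (an_Bf n hO (hYx n a).1 (hYx n b).1)
    (analyticOnNhd_const (v := (2 * Real.pi * Complex.I) ^ (n - 1) * Qm n ℂ a b)) hpre h0
    (by filter_upwards [isOpen_ball.mem_nhds (mem_ball_self (x := (0:ℂ)) one_pos)] with w hw
          using hdisc w hw)
  exact key hψ

end Pool.Agent.CYP
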