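import Pool.Agent.CYP.Stmts

/-!
# CYP: the bilinear form of the periods at zero
-/

open scoped BigOperators Topology
open Metric Set MeasureTheory

namespace Pool.Agent.CYP

noncomputable section

namespace BZ_

lemma acf_eq (n m : ℕ) : acf n m = ∫ s, s ^ m ∂(IntG.mu n) := (IntG.mu_moment n m).symm

lemma acf_nonneg (n m : ℕ) : 0 ≤ acf n m := by
  have h1 : (0:ℝ) ≤ ((m : ℝ) + 1) / ((n : ℝ) + 1) := by positivity
  have h2 := Real.Gamma_nonneg_of_nonneg h1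
  unfold acf
  positivity

lemma acf_le (n m : ℕ) : acf n m ≤ (IntG.mu n).real univ := by
  rw [acf_eq]
  have h1 : ∀ᵐ s ∂(IntG.mu n), ‖s ^ m‖ ≤ 1 := by
    filter_upwards [IntG.mu_ae n] with s hs
    rw [norm_pow, Real.norm_of_nonneg hs.1]
    exact pow_le_one₀ hs.1 hs.2
  have h2 := norm_integral_le_of_norm_le_const h1
  rw [one_mul] at h2
  exact (le_abs_self _).trans h2

lemma zt_norm (n : ℕ) : ‖zt n‖ = 1 := by
  unfold zt
  have h1 : 2 * (Real.pi : ℂ) * Complex.I / ((n : ℂ) + 1)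
      = ((2 * Real.pi / ((n : ℝ) + 1) : ℝ) : ℂ) * Complex.I := by
    push_cast
    ring
  rw [h1, Complex.norm_exp_ofReal_mul_I]

lemma pc_le (n j m : ℕ) : ‖pc n j m‖ ≤
    ‖(2 * Real.pi * Complex.I : ℂ)⁻¹‖ * 2 ^ (n + 1) * (IntG.mu n).real univ := by
  unfold pc
  rw [norm_mul, norm_mul, norm_mul, norm_pow, norm_pow, zt_norm, one_pow, mul_one,
    Complex.norm_real, Real.norm_of_nonneg (acf_nonneg n m)]
  have h1 : ‖1 - zt n ^ (m + 1)‖ ≤ 2 := by
    refine (norm_sub_le _ _).trans ?_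
    rw [norm_one, norm_pow, zt_norm, one_pow]
    norm_num
  have h2 : ‖1 - zt n ^ (m + 1)‖ ^ (n + 1) ≤ 2 ^ (n + 1) :=
    pow_le_pow_left₀ (norm_nonneg _) h1 _
  have h3 := acf_nonneg n m
  have h4 := acf_le n m
  gcongr

lemma iter_zero (h2 : Stmt_Pser) (n j k : ℕ) :
    iteratedDeriv k (prd n j) 0 = (k.factorial : ℂ) * pc n j k := by
  have h3 := (h2 (pc n j) _ (pc_le n j)).2 k 0 (mem_ball_self one_pos)
  have h4 : HasSum (fun m : ℕ => ((m + k).descFactorial k : ℂ) * pc n j (m + k) * (0:ℂ) ^ m)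
      (((0 + k).descFactorial k : ℂ) * pc n j (0 + k) * (0:ℂ) ^ 0) := by
    refine hasSum_single 0 fun m hm => ?_
    rw [zero_pow hm, mul_zero]
  have h5 := h3.unique h4
  have h6 : (prd n j) = fun z => ∑' m : ℕ, pc n j m * z ^ m := rfl
  rw [h6, h5, zero_add, Nat.descFactorial_self, pow_zero, mul_one]

lemma zt_pow (n : ℕ) : zt n ^ (n + 1) = 1 := by
  unfold zt
  rw [← Complex.exp_nat_mul]
  have h1 : ((n + 1 : ℕ) : ℂ) * (2 * (Real.pi : ℂ) * Complex.I / ((n : ℂ) + 1))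
      = 2 * Real.pi * Complex.I := by
    push_cast
    have : ((n : ℂ) + 1) ≠ 0 := by exact_mod_cast Nat.succ_ne_zero n
    field_simp
  rw [h1, Complex.exp_two_pi_mul_I]

/-- the product of the Gamma factors -/
lemma gam {n l : ℕ} (hl : l < n) :
    ((l.factorial : ℝ) * acf n l) * (((n - 1 - l).factorial : ℝ) * acf n (n - 1 - l))
      = ((n : ℝ) + 1) ^ (n - 1) *
        (Real.pi / Real.sin (Real.pi * (((l : ℝ) + 1) / ((n : ℝ) + 1)))) ^ (n + 1) := by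
  have hN : ((n : ℝ) + 1) ≠ 0 := by positivity
  have e1 : (l.factorial : ℝ) * acf n l
      = ((n : ℝ) + 1) ^ l * Real.Gamma (((l : ℝ) + 1) / ((n : ℝ) + 1)) ^ (n + 1) := by
    unfold acf
    field_simp
  have e2 : ((n - 1 - l).factorial : ℝ) * acf n (n - 1 - l)
      = ((n : ℝ) + 1) ^ (n - 1 - l) *
        Real.Gamma (1 - ((l : ℝ) + 1) / ((n : ℝ) + 1)) ^ (n + 1) := by
    have e3 : (((n - 1 - l : ℕ) : ℝ) + 1) / ((n : ℝ) + 1)
        = 1 - ((l : ℝ) + 1) / ((n : ℝ) + 1) := by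
      have e4 : ((n - 1 - l : ℕ) : ℝ) = (n : ℝ) - 1 - l := by
        have : n - 1 - l + 1 + l = n := by omega
        have h := congrArg (fun x : ℕ => (x : ℝ)) this
        simp only [Nat.cast_add, Nat.cast_one] at h
        linarith
      rw [e4]
      field_simp
      ring
    unfold acf
    rw [e3]
    field_simp
  rw [e1, e2]
  have e5 : ((n : ℝ) + 1) ^ (n - 1) = ((n : ℝ) + 1) ^ l * ((n : ℝ) + 1) ^ (n - 1 - l) := by
    rw [← pow_add]
    congr 1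
    omega
  rw [← Real.Gamma_mul_Gamma_one_sub, e5, mul_pow]
  ring

/-- one term of the sum -/
lemma term {n l a b : ℕ} (hl : l < n) (ha : a < n) :
    (-1 : ℂ) ^ (n - 1 - l) * (((l.factorial : ℂ) * pc n a l) *
      (((n - 1 - l).factorial : ℂ) * pc n b (n - 1 - l)))
      = (2 * Real.pi * Complex.I) ^ (n - 1) * -(((n : ℂ) + 1) ^ (n - 1) *
        (zt n ^ ((n - l) * (b + (n + 1 - a))) * (1 - zt n ^ (n - l)) ^ (n + 1))) := by
  have hN : ((n : ℂ) + 1) ≠ 0 := by exact_mod_cast Nat.succ_ne_zero n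
  have hpi : (Real.pi : ℂ) ≠ 0 := by exact_mod_cast Real.pi_ne_zero
  have hI := Complex.I_ne_zero
  set e : ℂ := Complex.exp (Real.pi * (((l : ℂ) + 1) / ((n : ℂ) + 1)) * Complex.I) with he
  have he0 : e ≠ 0 := Complex.exp_ne_zero _
  have heN : e ^ (n + 1) = (-1) ^ (l + 1) := by
    rw [he, ← Complex.exp_nat_mul]
    have h1 : ((n + 1 : ℕ) : ℂ) * (Real.pi * (((l : ℂ) + 1) / ((n : ℂ) + 1)) * Complex.I)
        = ((l + 1 : ℕ) : ℂ) * (Real.pi * Complex.I) := by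
      push_cast
      field_simp
    rw [h1, Complex.exp_nat_mul, Complex.exp_pi_mul_I]
  have hw : zt n ^ (l + 1) = e ^ 2 := by
    rw [he, ← Complex.exp_nat_mul]
    unfold zt
    rw [← Complex.exp_nat_mul]
    congr 1
    push_cast
    field_simp
  have hw' : zt n ^ (n - l) = (e ^ 2)⁻¹ := by
    rw [← hw]
    refine eq_inv_of_mul_eq_one_left ?_
    rw [← pow_add]
    have h1 : n - l + (l + 1) = n + 1 := by omega
    rw [h1, zt_pow]
  have hsin : ((Real.sin (Real.pi * (((l : ℝ) + 1) / ((n : ℝ) + 1))) : ℝ) : ℂ)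
      = (e - e⁻¹) / (2 * Complex.I) := by
    rw [Complex.ofReal_sin, Complex.sin, he, ← Complex.exp_neg]
    push_cast
    have h1 : -(Real.pi * (((l : ℂ) + 1) / ((n : ℂ) + 1))) * Complex.I
        = -(Real.pi * (((l : ℂ) + 1) / ((n : ℂ) + 1)) * Complex.I) := by ring
    rw [h1]
    have hI2 : Complex.I * Complex.I = -1 := Complex.I_mul_I
    field_simp
    ring_nf
    simp only [Complex.I_sq]
    ring
  have hsin0 : Real.sin (Real.pi * (((l : ℝ) + 1) / ((n : ℝ) + 1))) ≠ 0 := by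
    have h1 : (0:ℝ) < ((l : ℝ) + 1) / ((n : ℝ) + 1) := by positivity
    have h2 : ((l : ℝ) + 1) / ((n : ℝ) + 1) < 1 := by
      rw [div_lt_one (by positivity)]
      have : (l : ℝ) < n := by exact_mod_cast hl
      linarith
    refine (Real.sin_pos_of_pos_of_lt_pi (by positivity) ?_).ne'
    calc Real.pi * (((l : ℝ) + 1) / ((n : ℝ) + 1)) < Real.pi * 1 :=
          mul_lt_mul_of_pos_left h2 Real.pi_pos
      _ = Real.pi := mul_one _
  have hd0 : e - e⁻¹ ≠ 0 := by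
    intro h
    rw [h, zero_div] at hsin
    exact hsin0 (by exact_mod_cast hsin)
  -- the Gamma factors
  have hgam : ((l.factorial : ℂ) * (acf n l : ℂ)) *
      (((n - 1 - l).factorial : ℂ) * (acf n (n - 1 - l) : ℂ))
      = ((n : ℂ) + 1) ^ (n - 1) * (Real.pi / ((e - e⁻¹) / (2 * Complex.I))) ^ (n + 1) := by
    have h := congrArg (fun x : ℝ => (x : ℂ)) (gam hl)
    simp only [Complex.ofReal_mul, Complex.ofReal_pow, Complex.ofReal_div, Complex.ofReal_add,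
      Complex.ofReal_natCast, Complex.ofReal_one] at h
    rw [h, ← hsin]
  have e1 : n - 1 - l + 1 = n - l := by omega
  have hL : (-1 : ℂ) ^ (n - 1 - l) * (((l.factorial : ℂ) * pc n a l) *
      (((n - 1 - l).factorial : ℂ) * pc n b (n - 1 - l)))
      = (-1 : ℂ) ^ (n - 1 - l) * ((2 * Real.pi * Complex.I)⁻¹ * (2 * Real.pi * Complex.I)⁻¹) *
        ((e ^ 2) ^ a * ((e ^ 2)⁻¹) ^ b) * ((1 - e ^ 2) * (1 - (e ^ 2)⁻¹)) ^ (n + 1) *
        (((l.factorial : ℂ) * (acf n l : ℂ)) *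
      (((n - 1 - l).factorial : ℂ) * (acf n (n - 1 - l) : ℂ))) := by
    unfold pc
    rw [e1, mul_comm a, mul_comm b, pow_mul, pow_mul, hw, hw', mul_pow]
    ring
  rw [hL, hgam]
  have hprod : (1 - e ^ 2) * (1 - (e ^ 2)⁻¹) = -(e - e⁻¹) ^ 2 := by
    field_simp
    ring
  have h3 : ((1 - e ^ 2) * (1 - (e ^ 2)⁻¹)) ^ (n + 1) *
      (((n : ℂ) + 1) ^ (n - 1) * (Real.pi / ((e - e⁻¹) / (2 * Complex.I))) ^ (n + 1))
      = ((n : ℂ) + 1) ^ (n - 1) *
        ((-1) ^ (n + 1) * (2 * Real.pi * Complex.I) ^ (n + 1) * (e - e⁻¹) ^ (n + 1)) := by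
    rw [hprod]
    have h4 : -(e - e⁻¹) ^ 2 * (Real.pi / ((e - e⁻¹) / (2 * Complex.I)))
        = (-1) * (2 * Real.pi * Complex.I) * (e - e⁻¹) := by
      field_simp
    calc (-(e - e⁻¹) ^ 2) ^ (n + 1) *
        (((n : ℂ) + 1) ^ (n - 1) * (Real.pi / ((e - e⁻¹) / (2 * Complex.I))) ^ (n + 1))
        = ((n : ℂ) + 1) ^ (n - 1) *
          (-(e - e⁻¹) ^ 2 * (Real.pi / ((e - e⁻¹) / (2 * Complex.I)))) ^ (n + 1) := by
          rw [mul_pow]; ring
      _ = _ := by rw [h4, mul_pow, mul_pow]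
  have h5 : (1 - (e ^ 2)⁻¹) ^ (n + 1) = (-1) ^ (l + 1) * (e - e⁻¹) ^ (n + 1) := by
    have h6 : 1 - (e ^ 2)⁻¹ = e⁻¹ * (e - e⁻¹) := by
      field_simp
    rw [h6, mul_pow, inv_pow, heN]
    congr 1
    rw [← inv_pow]
    norm_num
  have h7 : (zt n ^ (n - l)) ^ (b + (n + 1 - a)) = (e ^ 2) ^ a * ((e ^ 2)⁻¹) ^ b := by
    rw [hw', pow_add]
    have h8 : ((e ^ 2)⁻¹) ^ (n + 1 - a) = (e ^ 2) ^ a := by
      have h9 : ((e ^ 2)⁻¹) ^ (n + 1 - a) * ((e ^ 2)⁻¹) ^ a = 1 := by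
        rw [← pow_add]
        have h10 : n + 1 - a + a = n + 1 := by omega
        rw [h10, ← hw', ← pow_mul, mul_comm, pow_mul, zt_pow, one_pow]
      have h11 : ((e ^ 2)⁻¹) ^ a * (e ^ 2) ^ a = 1 := by
        rw [← mul_pow, inv_mul_cancel₀ (pow_ne_zero 2 he0), one_pow]
      calc ((e ^ 2)⁻¹) ^ (n + 1 - a)
          = ((e ^ 2)⁻¹) ^ (n + 1 - a) * (((e ^ 2)⁻¹) ^ a * (e ^ 2) ^ a) := by
            rw [h11, mul_one]
        _ = (((e ^ 2)⁻¹) ^ (n + 1 - a) * ((e ^ 2)⁻¹) ^ a) * (e ^ 2) ^ a := by ring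
        _ = (e ^ 2) ^ a := by rw [h9, one_mul]
    rw [h8]
    ring
  rw [pow_mul, h7, hw', h5]
  have h12 : (-1 : ℂ) ^ (n - 1 - l) * (-1) ^ (n + 1) = -(-1) ^ (l + 1) := by
    have h13 : (-1 : ℂ) ^ (n + 1) = (-1) ^ (n - 1 - l) * (-1) ^ (l + 1) * (-1) := by
      have h14 : n + 1 = (n - 1 - l) + (l + 1) + 1 := by omega
      conv_lhs => rw [h14]
      rw [pow_succ, pow_add]
    have h15 : (-1 : ℂ) ^ (n - 1 - l) * (-1) ^ (n - 1 - l) = 1 := by
      rw [← mul_pow]; norm_num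
    rw [h13]
    calc (-1 : ℂ) ^ (n - 1 - l) * ((-1) ^ (n - 1 - l) * (-1) ^ (l + 1) * (-1))
        = ((-1 : ℂ) ^ (n - 1 - l) * (-1) ^ (n - 1 - l)) * (-1) ^ (l + 1) * (-1) := by ring
      _ = -(-1) ^ (l + 1) := by rw [h15]; ring
  have h16 : (2 * Real.pi * Complex.I : ℂ)⁻¹ * (2 * Real.pi * Complex.I)⁻¹ *
      (2 * Real.pi * Complex.I) ^ (n + 1) = (2 * Real.pi * Complex.I) ^ (n - 1) := by
    have h17 : n + 1 = (n - 1) + 1 + 1 := by omega
    have h18 : (2 * Real.pi * Complex.I : ℂ) ≠ 0 :=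
      mul_ne_zero (mul_ne_zero two_ne_zero hpi) hI
    conv_lhs => rw [h17]
    rw [pow_succ, pow_succ]
    field_simp
  calc (-1 : ℂ) ^ (n - 1 - l) * ((2 * Real.pi * Complex.I)⁻¹ * (2 * Real.pi * Complex.I)⁻¹) *
        ((e ^ 2) ^ a * ((e ^ 2)⁻¹) ^ b) * ((1 - e ^ 2) * (1 - (e ^ 2)⁻¹)) ^ (n + 1) *
        (((n : ℂ) + 1) ^ (n - 1) * (Real.pi / ((e - e⁻¹) / (2 * Complex.I))) ^ (n + 1))
      = (-1 : ℂ) ^ (n - 1 - l) * ((2 * Real.pi * Complex.I)⁻¹ * (2 * Real.pi * Complex.I)⁻¹) *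
        ((e ^ 2) ^ a * ((e ^ 2)⁻¹) ^ b) * (((1 - e ^ 2) * (1 - (e ^ 2)⁻¹)) ^ (n + 1) *
        (((n : ℂ) + 1) ^ (n - 1) * (Real.pi / ((e - e⁻¹) / (2 * Complex.I))) ^ (n + 1))) := by
        ring
    _ = ((-1 : ℂ) ^ (n - 1 - l) * (-1) ^ (n + 1)) *
        ((2 * Real.pi * Complex.I : ℂ)⁻¹ * (2 * Real.pi * Complex.I)⁻¹ *
      (2 * Real.pi * Complex.I) ^ (n + 1)) * (((n : ℂ) + 1) ^ (n - 1) *
        (((e ^ 2) ^ a * ((e ^ 2)⁻¹) ^ b) * (e - e⁻¹) ^ (n + 1))) := by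
        rw [h3]; ring
    _ = _ := by rw [h12, h16]; ring

end BZ_

open BZ_

theorem bz_proof (h1 : Stmt_Qft) (h2 : Stmt_Pser) : Stmt_Bz := by
  intro n hn hne a b
  have hR : ∀ x y : ℕ, Rf n x y 0 = if x + y + 1 = n then (-1) ^ y else 0 := by
    intro x y
    unfold Rf
    rw [zero_pow (by omega), zero_mul, sub_zero]
  have hB : Bf n (prd n a) (prd n b) 0 = ∑ l ∈ Finset.range n,
      (-1 : ℂ) ^ (n - 1 - l) * (((l.factorial : ℂ) * pc n a l) *
      (((n - 1 - l).factorial : ℂ) * pc n b (n - 1 - l))) := by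
    unfold Bf
    refine Finset.sum_congr rfl fun l hl => ?_
    rw [Finset.mem_range] at hl
    rw [Finset.sum_eq_single (n - 1 - l)]
    · rw [hR, if_pos (by omega), iter_zero h2, iter_zero h2]
      ring
    · intro y _ hy
      rw [hR, if_neg (by omega), mul_zero, zero_mul]
    · intro hy
      exact absurd (Finset.mem_range.mpr (by omega)) hy
  have hQ : Qm n ℂ a b = -(((n : ℂ) + 1) ^ (n - 1) * ∑ l ∈ Finset.range n,
      zt n ^ ((n - l) * ((b : ℕ) + (n + 1 - (a : ℕ)))) * (1 - zt n ^ (n - l)) ^ (n + 1)) := by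
    rw [h1 n hne a b, Finset.sum_range_succ', pow_zero (zt n), sub_self,
      zero_pow (Nat.succ_ne_zero n), mul_zero, add_zero, ← Finset.sum_range_reflect]
    congr 2
    refine Finset.sum_congr rfl fun l hl => ?_
    rw [Finset.mem_range] at hl
    have h3 : n - 1 - l + 1 = n - l := by omega
    rw [h3]
  rw [hB, hQ, Finset.mul_sum, ← Finset.sum_neg_distrib, Finset.mul_sum]
  refine Finset.sum_congr rfl fun l hl => ?_
  rw [Finset.mem_range] at hl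
  exact term hl a.2

end

end Pool.Agent.CYP
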