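import Pool.Agent.CYP.Stmts

/-! CYP module CAUC: the Cauchy transform of the moment measure. -/

open scoped BigOperators Topology
open Metric Set MeasureTheory

namespace Pool.Agent.CYP

namespace CAUC_

theorem slit_seg {ψ : ℂ} (h : 1 - ψ ∈ Complex.slitPlane) {s : ℝ} (hs : s ∈ Icc (0 : ℝ) 1) :
    1 - (s : ℂ) * ψ ≠ 0 := by
  intro h0
  have h1 : s ≠ 0 := by
    intro hs0
    rw [hs0] at h0
    simp at h0
  have hspos : 0 < s := lt_of_le_of_ne hs.1 (Ne.symm h1)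
  have h2 : ψ = ((s⁻¹ : ℝ) : ℂ) := by
    have h3 : (s : ℂ) * ψ = 1 := (sub_eq_zero.1 h0).symm
    have h4 : (s : ℂ) ≠ 0 := Complex.ofReal_ne_zero.2 h1
    rw [Complex.ofReal_inv]
    field_simp
    rw [mul_comm]
    exact h3
  rw [h2, Complex.mem_slitPlane_iff] at h
  rcases h with h | h
  · rw [Complex.sub_re, Complex.one_re, Complex.ofReal_re] at h
    have := one_le_inv_iff₀.2 ⟨hspos, hs.2⟩
    linarith
  · apply h
    simp

theorem lower {ψ₀ : ℂ} (h : 1 - ψ₀ ∈ Complex.slitPlane) : ∃ δ : ℝ, 0 < δ ∧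
    ∀ ψ ∈ ball ψ₀ δ, ∀ s ∈ Icc (0 : ℝ) 1, δ ≤ ‖1 - (s : ℂ) * ψ‖ := by
  have hc : ContinuousOn (fun s : ℝ => ‖1 - (s : ℂ) * ψ₀‖) (Icc 0 1) := by fun_prop
  obtain ⟨s₀, hs₀, hmin⟩ := isCompact_Icc.exists_isMinOn
    (nonempty_Icc.2 (zero_le_one (α := ℝ))) hc
  set m := ‖1 - (s₀ : ℂ) * ψ₀‖ with hm
  have hmpos : 0 < m := norm_pos_iff.2 (slit_seg h hs₀)
  refine ⟨m / 2, by positivity, ?_⟩
  intro ψ hψ s hs
  have h1 : m ≤ ‖1 - (s : ℂ) * ψ₀‖ := hmin hs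
  have h2 : 1 - (s : ℂ) * ψ₀ = (1 - (s : ℂ) * ψ) + (s : ℂ) * (ψ - ψ₀) := by ring
  have h3 : ‖(s : ℂ) * (ψ - ψ₀)‖ ≤ m / 2 := by
    rw [norm_mul, Complex.norm_real, Real.norm_of_nonneg hs.1]
    rw [mem_ball, dist_eq_norm] at hψ
    calc s * ‖ψ - ψ₀‖ ≤ 1 * ‖ψ - ψ₀‖ := by
          gcongr
          exact hs.2
      _ ≤ m / 2 := by linarith
  have h4 := norm_add_le (1 - (s : ℂ) * ψ) ((s : ℂ) * (ψ - ψ₀))
  rw [← h2] at h4
  linarith

theorem diff_aux (μ : Measure ℝ) [IsFiniteMeasure μ] (hμ : ∀ᵐ s ∂μ, s ∈ Icc (0 : ℝ) 1)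
    {ψ₀ : ℂ} (h : 1 - ψ₀ ∈ Complex.slitPlane) :
    DifferentiableAt ℂ (fun ψ : ℂ => ∫ s : ℝ, (1 - (s : ℂ) * ψ)⁻¹ ∂μ) ψ₀ := by
  obtain ⟨δ, hδ, hlow⟩ := lower h
  have hmeas : ∀ ψ : ℂ, AEStronglyMeasurable (fun s : ℝ => (1 - (s : ℂ) * ψ)⁻¹) μ := by
    intro ψ
    apply Measurable.aestronglyMeasurable
    fun_prop
  have key := hasDerivAt_integral_of_dominated_loc_of_deriv_le (μ := μ) (𝕜 := ℂ)
    (F := fun (ψ : ℂ) (s : ℝ) => (1 - (s : ℂ) * ψ)⁻¹)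
    (F' := fun (ψ : ℂ) (s : ℝ) => (s : ℂ) / (1 - (s : ℂ) * ψ) ^ 2)
    (x₀ := ψ₀) (s := ball ψ₀ δ) (bound := fun _ => (δ ^ 2)⁻¹)
    (ball_mem_nhds ψ₀ hδ)
    (Filter.Eventually.of_forall hmeas)
    (by
      apply Integrable.of_bound (hmeas ψ₀) δ⁻¹
      filter_upwards [hμ] with s hs
      rw [norm_inv]
      exact inv_anti₀ hδ (hlow ψ₀ (mem_ball_self hδ) s hs))
    (by
      apply Measurable.aestronglyMeasurable
      fun_prop)
    (by
      filter_upwards [hμ] with s hs ψ hψ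
      have h1 := hlow ψ hψ s hs
      rw [norm_div, norm_pow, Complex.norm_real, Real.norm_of_nonneg hs.1, div_eq_mul_inv]
      calc s * (‖1 - (s : ℂ) * ψ‖ ^ 2)⁻¹ ≤ 1 * (δ ^ 2)⁻¹ := by
            apply mul_le_mul hs.2 _ (by positivity) zero_le_one
            apply inv_anti₀ (by positivity)
            gcongr
        _ = (δ ^ 2)⁻¹ := one_mul _)
    (integrable_const _)
    (by
      filter_upwards [hμ] with s hs ψ hψ
      have hne : 1 - (s : ℂ) * ψ ≠ 0 := by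
        intro h0
        have := hlow ψ hψ s hs
        rw [h0, norm_zero] at this
        linarith
      have h1 : HasDerivAt (fun ψ : ℂ => 1 - (s : ℂ) * ψ) (-(s : ℂ)) ψ := by
        have h2 := ((hasDerivAt_id ψ).const_mul (s : ℂ)).const_sub 1
        simpa using h2
      have h3 := h1.inv hne
      have h4 : (s : ℂ) / (1 - (s : ℂ) * ψ) ^ 2 = -(-(s : ℂ)) / (1 - (s : ℂ) * ψ) ^ 2 := by
        rw [neg_neg]
      rw [h4]
      exact h3)
  exact key.2.differentiableAt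

theorem sum_aux (μ : Measure ℝ) [IsFiniteMeasure μ] (hμ : ∀ᵐ s ∂μ, s ∈ Icc (0 : ℝ) 1)
    {ψ : ℂ} (h : ‖ψ‖ < 1) :
    HasSum (fun m : ℕ => ((∫ s, s ^ m ∂μ : ℝ) : ℂ) * ψ ^ m)
      (∫ s : ℝ, (1 - (s : ℂ) * ψ)⁻¹ ∂μ) := by
  set F : ℕ → ℝ → ℂ := fun m s => ((s ^ m : ℝ) : ℂ) * ψ ^ m with hF
  have hFm : ∀ m, AEStronglyMeasurable (F m) μ := by
    intro m
    apply Measurable.aestronglyMeasurable
    rw [hF]
    fun_prop
  have hFb : ∀ m, ∀ᵐ s ∂μ, ‖F m s‖ ≤ ‖ψ‖ ^ m := by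
    intro m
    filter_upwards [hμ] with s hs
    rw [hF]
    simp only [norm_mul, norm_pow, Complex.norm_real]
    rw [Real.norm_of_nonneg hs.1]
    calc s ^ m * ‖ψ‖ ^ m ≤ 1 * ‖ψ‖ ^ m := by
          gcongr
          exact pow_le_one₀ hs.1 hs.2
      _ = ‖ψ‖ ^ m := one_mul _
  have hFi : ∀ m, Integrable (F m) μ := fun m => Integrable.of_bound (hFm m) _ (hFb m)
  have hsum : Summable fun m => ∫ s, ‖F m s‖ ∂μ := by
    apply Summable.of_nonneg_of_le (fun m => integral_nonneg fun s => norm_nonneg _)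
      (f := fun m => ‖ψ‖ ^ m * μ.real univ)
    · intro m
      have h1 : ∫ s, ‖F m s‖ ∂μ ≤ ∫ _, ‖ψ‖ ^ m ∂μ :=
        integral_mono_ae (hFi m).norm (integrable_const _) (hFb m)
      rw [integral_const, smul_eq_mul, mul_comm] at h1
      exact h1
    · exact (summable_geometric_of_lt_one (norm_nonneg _) h).mul_right _
  have key := hasSum_integral_of_summable_integral_norm hFi hsum
  have e1 : ∀ m, ∫ s, F m s ∂μ = ((∫ s, s ^ m ∂μ : ℝ) : ℂ) * ψ ^ m := by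
    intro m
    rw [hF]
    simp only
    rw [integral_mul_const, integral_complex_ofReal]
  have e2 : ∫ s, ∑' m, F m s ∂μ = ∫ s : ℝ, (1 - (s : ℂ) * ψ)⁻¹ ∂μ := by
    apply integral_congr_ae
    filter_upwards [hμ] with s hs
    have h1 : ‖(s : ℂ) * ψ‖ < 1 := by
      rw [norm_mul, Complex.norm_real, Real.norm_of_nonneg hs.1]
      calc s * ‖ψ‖ ≤ 1 * ‖ψ‖ := by
            gcongr
            exact hs.2
        _ < 1 := by rw [one_mul]; exact h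
    rw [← (hasSum_geometric_of_norm_lt_one h1).tsum_eq]
    congr 1
    funext m
    rw [hF]
    simp only
    rw [Complex.ofReal_pow, mul_pow]
  simp only [e1] at key
  rw [e2] at key
  exact key

end CAUC_

open CAUC_ in
theorem cauc_proof : Stmt_Cauc := by
  intro n
  constructor
  · intro ψ hψ
    exact (diff_aux (IntG.mu n) (IntG.mu_ae n) hψ).differentiableWithinAt
  · intro ψ hψ
    have h1 := sum_aux (IntG.mu n) (IntG.mu_ae n) hψ
    simp only [IntG.mu_moment] at h1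
    exact h1

end Pool.Agent.CYP
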