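import Pool.Agent.CYP.Stmts
import Pool.Agent.HGP.CELLA
import Pool.Agent.HGP.CELLQ

/-!
CYP/CELLG (helper96): the matrix is a fraction in the coordinates `gvec`.
-/

open Matrix

namespace Pool.Agent.CYP

namespace CELLG_

/-- the ring of coordinates -/
abbrev Rg (g : ℕ) := MvPolynomial (Option (Idx g)) ℤ

/-- generic symmetric matrix -/
noncomputable def gsym {g : ℕ} (f : HGP.Up g → Idx g) : Matrix (Fin g) (Fin g) (Rg g) :=
  Matrix.of fun i j => if h : i ≤ j then MvPolynomial.X (some (f ⟨(i, j), h⟩))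
    else MvPolynomial.X (some (f ⟨(j, i), le_of_not_ge h⟩))

/-- generic block `A` -/
noncomputable def gA (g : ℕ) : Matrix (Fin g) (Fin g) (Rg g) :=
  Matrix.of fun i j => MvPolynomial.X (some (.inl (i, j)))

theorem gsym_map {g : ℕ} (f : HGP.Up g → Idx g) (φ : Rg g →+* ℂ) (x : Option (Idx g) → ℂ)
    (hφ : ∀ o, φ (MvPolynomial.X o) = x o) (S : Matrix (Fin g) (Fin g) ℂ) (hS : S.transpose = S)
    (hx : ∀ q : HGP.Up g, x (some (f q)) = S q.1.1 q.1.2) : (gsym f).map φ = S := by
  ext i j
  simp only [Matrix.map_apply, gsym, Matrix.of_apply]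
  split_ifs with h
  · rw [hφ, hx]
  · rw [hφ, hx]
    exact congrFun (congrFun hS i) j

theorem symm_transpose {g : ℕ} (σ : HGP.Up g → ℂ) : (HGP.symm σ).transpose = HGP.symm σ := by
  ext i j
  simp only [Matrix.transpose_apply, HGP.symm, Matrix.of_apply]
  rcases lt_trichotomy i j with h | h | h
  · rw [dif_neg (not_le.mpr h), dif_pos h.le]
  · subst h; rfl
  · rw [dif_pos h.le, dif_neg (not_le.mpr h)]

end CELLG_

open CELLG_ in
theorem cellg_proof : Stmt_CellG := by
  intro g
  let XS : Matrix (Fin g) (Fin g) (Rg g) := gsym fun q => .inr (.inl q)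
  let XT : Matrix (Fin g) (Fin g) (Rg g) := gsym fun q => .inr (.inr q)
  let XA : Matrix (Fin g) (Fin g) (Rg g) := gA g
  let Q : Matrix (Ix g) (Ix g) (Rg g) := Matrix.fromBlocks (XA.det ^ 2 • XA) (XA.det • (XA * XT))
    (XA.det • (XS * XA)) (XS * XA * XT + (MvPolynomial.X none * XA.det) • XA.adjugate.transpose)
  refine ⟨fun p => Q p.1 p.2, ?_⟩
  intro M lam hlam hM hdet p
  obtain ⟨hA, hMv⟩ := HGP.cella_proof g M lam hlam hM hdet
  set A : Matrix (Fin g) (Fin g) ℂ := M.toBlocks₁₁ with hAdef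
  set S : Matrix (Fin g) (Fin g) ℂ :=
    HGP.symm (fun p => HGP.fvec M (.inr (.inl p))) with hSdef
  set T : Matrix (Fin g) (Fin g) ℂ :=
    HGP.symm (fun p => HGP.fvec M (.inr (.inr p))) with hTdef
  have hM' : M = Matrix.fromBlocks A (A * T) (S * A) (S * A * T + lam • (A⁻¹).transpose) := by
    rw [← hMv]
    unfold HGP.mvec
    rw [hA]
  have hS : S.transpose = S := symm_transpose _
  have hT : T.transpose = T := symm_transpose _
  have hB : M.toBlocks₁₂ = A * T := by
    rw [hM', Matrix.toBlocks_fromBlocks₁₂]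
  have hC : M.toBlocks₂₁ = S * A := by
    rw [hM', Matrix.toBlocks_fromBlocks₂₁]
  have hu : IsUnit A.det := isUnit_iff_ne_zero.2 hdet
  let φ : Rg g →+* ℂ :=
    (MvPolynomial.aeval (R := ℤ) (HGP.opt lam (gvec M)) : Rg g →ₐ[ℤ] ℂ).toRingHom
  have hφ : ∀ o, φ (MvPolynomial.X o) = HGP.opt lam (gvec M) o := fun o =>
    MvPolynomial.aeval_X _ _
  have hXA : XA.map φ = A := by
    ext i j
    exact hφ _
  have hXS : XS.map φ = A.det • S := by
    refine gsym_map _ φ _ hφ _ (by rw [Matrix.transpose_smul, hS]) fun q => ?_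
    show (M.toBlocks₂₁ * A.adjugate) q.1.1 q.1.2 = _
    rw [hC, Matrix.mul_assoc, Matrix.mul_adjugate, Matrix.mul_smul, Matrix.mul_one]
  have hXT : XT.map φ = A.det • T := by
    refine gsym_map _ φ _ hφ _ (by rw [Matrix.transpose_smul, hT]) fun q => ?_
    show (A.adjugate * M.toBlocks₁₂) q.1.1 q.1.2 = _
    rw [hB, ← Matrix.mul_assoc, Matrix.adjugate_mul, Matrix.smul_mul, Matrix.one_mul]
  have hdet' : φ XA.det = A.det := by
    rw [← hXA]
    exact RingHom.map_det φ XA
  have hadj : XA.adjugate.map φ = A.adjugate := by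
    rw [← hXA]
    exact RingHom.map_adjugate φ XA
  have key : Q.map φ = A.det ^ 2 • M := by
    have hs : ∀ (c : Rg g) (Y : Matrix (Fin g) (Fin g) (Rg g)), (c • Y).map φ = φ c • Y.map φ := by
      intro c Y
      ext i j
      simp only [Matrix.map_apply, Matrix.smul_apply, smul_eq_mul, map_mul]
    show (Matrix.fromBlocks _ _ _ _).map φ = _
    rw [Matrix.fromBlocks_map]
    conv_rhs => rw [hM', Matrix.fromBlocks_smul]
    congr 1
    · rw [hs, map_pow, hdet', hXA]
    · rw [hs, Matrix.map_mul, hdet', hXA, hXT, Matrix.mul_smul, smul_smul, pow_two]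
    · rw [hs, Matrix.map_mul, hdet', hXA, hXS, Matrix.smul_mul, smul_smul, pow_two]
    · have hadd : ∀ Y Z : Matrix (Fin g) (Fin g) (Rg g), (Y + Z).map φ = Y.map φ + Z.map φ := by
        intro Y Z
        ext i j
        simp only [Matrix.map_apply, Matrix.add_apply, map_add]
      have ht : XA.adjugate.transpose.map φ = A.adjugate.transpose := by
        rw [← hadj]; rfl
      have hl : φ (MvPolynomial.X none) = lam := hφ none
      rw [hadd, hs, Matrix.map_mul, Matrix.map_mul, hXS, hXA, hXT, map_mul, hdet', hl, ht,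
        smul_add, Matrix.smul_mul, Matrix.smul_mul, Matrix.mul_smul, smul_smul, pow_two,
        HGP.CELLQX.det_smul_inv A hdet, Matrix.transpose_smul, smul_smul, smul_smul]
      congr 2
      ring
  exact congrFun (congrFun key p.1) p.2

end Pool.Agent.CYP
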