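import Pool.Agent.CYP.Stmts

namespace Pool.Agent.CYP

namespace COMM_

lemma q_ne (n : ℕ) (j k : Fin n) (h : j ≠ k) : Qm n ℂ j k ≠ 0 := by
  have hn : ((n : ℂ) + 1) ^ n ≠ 0 := by
    apply pow_ne_zero
    exact_mod_cast Nat.succ_ne_zero n
  have hs : ∀ m : ℕ, ((-1 : ℂ)) ^ m ≠ 0 := fun m => pow_ne_zero _ (by norm_num)
  have hc : ∀ a b : Fin n, (((n + 1).choose ((b : ℕ) - a) : ℕ) : ℂ) ≠ 0 := by
    intro a b
    have : 0 < (n + 1).choose ((b : ℕ) - a) := Nat.choose_pos (by omega)
    exact_mod_cast this.ne'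
  simp only [Qm, Matrix.of_apply]
  rcases lt_trichotomy j k with hjk | hjk | hjk
  · rw [if_pos hjk]
    exact mul_ne_zero (mul_ne_zero (hs _) hn) (hc _ _)
  · exact absurd hjk h
  · rw [if_neg (not_lt.mpr hjk.le), if_pos hjk]
    exact neg_ne_zero.mpr (mul_ne_zero (mul_ne_zero (hs _) hn) (hc _ _))

lemma rs_apply (n : ℕ) (k i j : Fin n) :
    rs n k i j = (if i = k then 1 else 0) * Qm n ℂ j k := by
  unfold rs GPH.res
  rw [Matrix.vecMulVec_apply, Matrix.mulVec_single_one]
  by_cases h : i = k
  · subst h; simp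
  · simp [h]

end COMM_

open COMM_ in
theorem comm_proof : Stmt_Comm := by
  intro n Z hZ
  have h1 : ∀ i k : Fin n, i ≠ k → Z i k = 0 := by
    intro i k hik
    have := congrFun (congrFun (hZ k) i) i
    rw [Matrix.mul_apply, Matrix.mul_apply] at this
    simp only [rs_apply] at this
    rw [Finset.sum_eq_single k (fun b _ hb => by simp [hb]) (by simp)] at this
    simp only [hik, if_false, zero_mul, Finset.sum_const_zero, if_true, one_mul] at this
    exact (mul_eq_zero.mp this).resolve_right (q_ne n i k hik)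
  have h2 : ∀ j k : Fin n, j ≠ k → Z k k = Z j j := by
    intro j k hjk
    have := congrFun (congrFun (hZ k) k) j
    rw [Matrix.mul_apply, Matrix.mul_apply] at this
    simp only [rs_apply] at this
    rw [Finset.sum_eq_single k (fun b _ hb => by simp [hb]) (by simp),
      Finset.sum_eq_single j (fun b _ hb => by rw [h1 b j hb]; simp) (by simp)] at this
    simp only [if_true, one_mul] at this
    rw [mul_comm] at this
    exact mul_left_cancel₀ (q_ne n j k hjk) this
  rcases n with _ | n
  · exact ⟨0, by ext i; exact i.elim0⟩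
  · refine ⟨Z 0 0, ?_⟩
    ext i j
    rw [Matrix.smul_apply, smul_eq_mul]
    by_cases hij : i = j
    · subst hij
      rw [Matrix.one_apply_eq, mul_one]
      by_cases h0 : i = 0
      · rw [h0]
      · exact (h2 0 i (fun h => h0 h.symm))
    · rw [h1 i j hij, Matrix.one_apply_ne hij, mul_zero]

end Pool.Agent.CYP
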