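import Pool.Agent.CYP.Stmts

/-!
# CYP, module DARB: symplectic bases over the rational numbers
-/

namespace Pool.Agent.CYP

namespace DARB_

/-- Symplectic bases, for vector spaces. -/
theorem symp (g : ℕ) : ∀ (V : Type) [AddCommGroup V] [Module ℚ V] [FiniteDimensional ℚ V]
    (B : V →ₗ[ℚ] V →ₗ[ℚ] ℚ), (∀ v, B v v = 0) → (∀ v, (∀ w, B v w = 0) → v = 0) →
    Module.finrank ℚ V = 2 * g →
    ∃ e f : Fin g → V, (∀ i j, B (e i) (e j) = 0) ∧ (∀ i j, B (f i) (f j) = 0) ∧
      (∀ i j, B (e i) (f j) = if i = j then 1 else 0) := by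
  induction g with
  | zero =>
    intro V _ _ _ B _ _ _
    exact ⟨Fin.elim0, Fin.elim0, fun i => i.elim0, fun i => i.elim0, fun i => i.elim0⟩
  | succ g ih =>
    intro V _ _ _ B halt hnd hdim
    have hskew : ∀ v w, B w v = - B v w := by
      intro v w
      have h := halt (v + w)
      simp only [map_add, LinearMap.add_apply, halt, zero_add, add_zero] at h
      linarith
    have hpos : 0 < Module.finrank ℚ V := by omega
    have : Nontrivial V := Module.finrank_pos_iff.mp hpos
    obtain ⟨x, hx⟩ := exists_ne (0 : V)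
    obtain ⟨y', hy'⟩ : ∃ y, B x y ≠ 0 := by
      by_contra hcon
      push Not at hcon
      exact hx (hnd x hcon)
    set y : V := (B x y')⁻¹ • y' with hydef
    have hxy : B x y = 1 := by
      rw [hydef, map_smul, smul_eq_mul, inv_mul_cancel₀ hy']
    have hyx : B y x = -1 := by rw [hskew x y, hxy]
    -- the map to the plane
    set φ : V →ₗ[ℚ] ℚ × ℚ := (B x).prod (B y) with hφ
    have hsurj : Function.Surjective φ := by
      rintro ⟨a, b⟩
      refine ⟨a • y - b • x, ?_⟩
      simp [hφ, hxy, hyx, halt]
    have hrank := LinearMap.finrank_range_add_finrank_ker φ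
    rw [LinearMap.range_eq_top.mpr hsurj, finrank_top] at hrank
    have h2 : Module.finrank ℚ (ℚ × ℚ) = 2 := by simp
    have hker : Module.finrank ℚ (LinearMap.ker φ) = 2 * g := by omega
    have hmem : ∀ w : V, w ∈ LinearMap.ker φ ↔ B x w = 0 ∧ B y w = 0 := by
      intro w
      simp [hφ, LinearMap.mem_ker]
    obtain ⟨e, f, hee, hff, hef⟩ := ih (LinearMap.ker φ)
      (B.domRestrict₁₂ (LinearMap.ker φ) (LinearMap.ker φ))
      (fun v => by simp [LinearMap.domRestrict₁₂_apply, halt])
      (fun v hv => by
        apply Subtype.ext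
        apply hnd
        intro w
        have hv1 := (hmem v.1).mp v.2
        have hw : w - (-(B y w)) • x - (B x w) • y ∈ LinearMap.ker φ := by
          rw [hmem]
          constructor
          · simp [hxy, halt]
          · simp [hyx, halt]
        have h1 := hv ⟨_, hw⟩
        rw [LinearMap.domRestrict₁₂_apply] at h1
        simp only [map_sub, map_smul, smul_eq_mul] at h1
        rw [hskew x v.1, hskew y v.1, hv1.1, hv1.2] at h1
        linarith)
      hker
    have ex : ∀ i, B x (e i : V) = 0 := fun i => ((hmem _).mp (e i).2).1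
    have ey : ∀ i, B y (e i : V) = 0 := fun i => ((hmem _).mp (e i).2).2
    have fx : ∀ i, B x (f i : V) = 0 := fun i => ((hmem _).mp (f i).2).1
    have fy : ∀ i, B y (f i : V) = 0 := fun i => ((hmem _).mp (f i).2).2
    refine ⟨Fin.cons x (fun i => (e i : V)), Fin.cons y (fun i => (f i : V)), ?_, ?_, ?_⟩
    · intro i j
      refine Fin.cases ?_ (fun i => ?_) i <;> refine Fin.cases ?_ (fun j => ?_) j
      · simpa using halt x
      · simpa using ex j
      · simp only [Fin.cons_succ, Fin.cons_zero]
        rw [hskew, ex, neg_zero]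
      · have := hee i j
        rw [LinearMap.domRestrict₁₂_apply] at this
        simpa using this
    · intro i j
      refine Fin.cases ?_ (fun i => ?_) i <;> refine Fin.cases ?_ (fun j => ?_) j
      · simpa using halt y
      · simpa using fy j
      · simp only [Fin.cons_succ, Fin.cons_zero]
        rw [hskew, fy, neg_zero]
      · have := hff i j
        rw [LinearMap.domRestrict₁₂_apply] at this
        simpa using this
    · intro i j
      refine Fin.cases ?_ (fun i => ?_) i <;> refine Fin.cases ?_ (fun j => ?_) j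
      · simpa using hxy
      · rw [if_neg (Fin.succ_ne_zero j).symm]
        simpa using fx j
      · rw [if_neg (Fin.succ_ne_zero i)]
        simp only [Fin.cons_succ, Fin.cons_zero]
        rw [hskew, ey, neg_zero]
      · have := hef i j
        rw [LinearMap.domRestrict₁₂_apply] at this
        simp only [Fin.cons_succ, Fin.succ_inj]
        exact this

end DARB_

open Matrix in
theorem darb_proof : Stmt_Darb := by
  intro g Q hQ hdet
  have hsk : ∀ v : Fin (2 * g) → ℚ, v ⬝ᵥ Q *ᵥ v = 0 := by
    intro v
    have h1 : v ⬝ᵥ Q *ᵥ v = v ⬝ᵥ Q.transpose *ᵥ v := by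
      rw [Matrix.mulVec_transpose, Matrix.dotProduct_mulVec, dotProduct_comm]
    rw [hQ, Matrix.neg_mulVec, dotProduct_neg] at h1
    linarith
  obtain ⟨e, f, hee, hff, hef⟩ := DARB_.symp g (Fin (2 * g) → ℚ) (Matrix.toLinearMap₂' ℚ Q)
    (fun v => by rw [Matrix.toLinearMap₂'_apply']; exact hsk v)
    (fun v hv => by
      have h1 : v ᵥ* Q = 0 := by
        funext j
        have := hv (Pi.single j 1)
        rw [Matrix.toLinearMap₂'_apply', Matrix.dotProduct_mulVec] at this
        simpa using this
      exact Matrix.eq_zero_of_vecMul_eq_zero hdet h1)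
    (by simp)
  simp only [Matrix.toLinearMap₂'_apply'] at hee hff hef
  have hfe : ∀ i j, f i ⬝ᵥ Q *ᵥ e j = if i = j then -1 else 0 := by
    intro i j
    have h1 : f i ⬝ᵥ Q *ᵥ e j = e j ⬝ᵥ Q.transpose *ᵥ f i := by
      rw [Matrix.mulVec_transpose, Matrix.dotProduct_mulVec, dotProduct_comm]
    rw [h1, hQ, Matrix.neg_mulVec, dotProduct_neg, hef]
    by_cases h : i = j
    · subst h
      simp
    · rw [if_neg h, if_neg (fun h' => h h'.symm), neg_zero]
  set W : Matrix (Fin (2 * g)) (Ix g) ℚ :=
    Matrix.of fun k s => Sum.elim (fun i => f i k) (fun i => e i k) s with hW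
  have hent : ∀ s t : Ix g, (W.transpose * Q * W) s t =
      (fun k => W k s) ⬝ᵥ Q *ᵥ (fun k => W k t) := by
    intro s t
    rw [Matrix.mul_assoc, Matrix.mul_apply]
    simp only [dotProduct, Matrix.mulVec, Matrix.transpose_apply, Matrix.mul_apply]
  have hWQ : W.transpose * Q * W = Matrix.J (Fin g) ℚ := by
    ext s t
    rw [hent]
    rcases s with s | s <;> rcases t with t | t
    · simp only [hW, Matrix.of_apply, Sum.elim_inl, Matrix.J, Matrix.fromBlocks_apply₁₁,
        Matrix.zero_apply]
      exact hff s t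
    · simp only [hW, Matrix.of_apply, Sum.elim_inl, Sum.elim_inr, Matrix.J,
        Matrix.fromBlocks_apply₁₂, Matrix.neg_apply, Matrix.one_apply]
      rw [hfe s t]
      by_cases h : s = t
      · rw [if_pos h, if_pos h]
      · rw [if_neg h, if_neg h, neg_zero]
    · simp only [hW, Matrix.of_apply, Sum.elim_inl, Sum.elim_inr, Matrix.J,
        Matrix.fromBlocks_apply₂₁, Matrix.one_apply]
      exact hef s t
    · simp only [hW, Matrix.of_apply, Sum.elim_inr, Matrix.J, Matrix.fromBlocks_apply₂₂,
        Matrix.zero_apply]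
      exact hee s t
  set U : Matrix (Ix g) (Fin (2 * g)) ℚ := -(Matrix.J (Fin g) ℚ) * W.transpose * Q with hU
  have hUW : U * W = 1 := by
    rw [hU, Matrix.mul_assoc, Matrix.mul_assoc, ← Matrix.mul_assoc W.transpose Q W, hWQ,
      Matrix.neg_mul, Matrix.J_squared, neg_neg]
  have hWU : W * U = 1 := by
    rw [Matrix.mul_eq_one_comm_of_card_eq]
    · exact hUW
    · simp [two_mul]
  clear_value U
  clear hU
  refine ⟨U.transpose, W, ⟨?_, ?_, ?_⟩⟩
  · rw [Matrix.transpose_transpose, ← hWQ]
    have h1 : U.transpose * (W.transpose * Q * W) * U = (W * U).transpose * Q * (W * U) := by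
      rw [Matrix.transpose_mul W U]
      simp only [Matrix.mul_assoc]
    rw [h1, hWU]
    simp
  · rw [← Matrix.transpose_mul, hWU, Matrix.transpose_one]
  · rw [← Matrix.transpose_mul, hUW, Matrix.transpose_one]

end Pool.Agent.CYP
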