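import Pool.Agent.CYP.Stmts

/-!
# CYP: module FIBER
-/

open scoped BigOperators Topology
open Metric Set MeasureTheory

namespace Pool.Agent.CYP

noncomputable section

namespace FIBER_

theorem diff_eval {α : Type} {S : Set ℂ} (f : α → ℂ → ℂ) (hf : ∀ i, DifferentiableOn ℂ (f i) S)
    (P : MvPolynomial (Option α) ℂ) :
    DifferentiableOn ℂ (fun t => MvPolynomial.eval (HGP.opt t (fun p => f p t)) P) S := by
  induction P using MvPolynomial.induction_on with
  | C c => simp
  | add p q hp hq =>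
    simp only [map_add]
    exact hp.add hq
  | mul_X p i hp =>
    simp only [map_mul, MvPolynomial.eval_X]
    refine hp.mul ?_
    cases i with
    | none => exact differentiableOn_id
    | some i => exact hf i

/-- The right multiplication by `h`. -/
def sub {n : ℕ} (h : Matrix (Fin n) (Fin n) ℂ) (o : Option (Fin n × Fin n)) :
    MvPolynomial (Option (Fin n × Fin n)) ℂ :=
  o.elim (MvPolynomial.X none)
    (fun p => ∑ k : Fin n, MvPolynomial.X (some (p.1, k)) * MvPolynomial.C (h k p.2))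

theorem eval_sub {n : ℕ} (h M : Matrix (Fin n) (Fin n) ℂ) (t : ℂ)
    (P : MvPolynomial (Option (Fin n × Fin n)) ℂ) :
    MvPolynomial.eval (HGP.opt t (fun p => M p.1 p.2)) (MvPolynomial.bind₁ (sub h) P) =
      MvPolynomial.eval (HGP.opt t (fun p => (M * h) p.1 p.2)) P := by
  have h1 := MvPolynomial.aeval_bind₁ (HGP.opt t (fun p : Fin n × Fin n => M p.1 p.2)) (sub h) P
  simp only [MvPolynomial.aeval_eq_eval] at h1
  rw [h1]
  congr 2
  funext o
  cases o with
  | none => simp [sub, HGP.opt]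
  | some p =>
    simp [sub, HGP.opt, Matrix.mul_apply]

/-- two points of the torsor differ by an element of the group -/
theorem inv_tors {n : ℕ} {c : ℂ} (hc : c ≠ 0) {R Q : Matrix (Fin n) (Fin n) ℂ} (hQ : Q.det ≠ 0)
    (A M : Matrix (Fin n) (Fin n) ℂ) (hA : A.transpose * R * A = c • Q)
    (hM : M.transpose * R * M = c • Q) : ∃ h, h.transpose * Q * h = Q ∧ M = A * h := by
  have hdet : IsUnit A.det := by
    rw [isUnit_iff_ne_zero]
    intro h0
    have h1 := congrArg Matrix.det hA
    rw [Matrix.det_mul, Matrix.det_mul, Matrix.det_smul, h0, mul_zero] at h1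
    have h2 : c ^ Fintype.card (Fin n) ≠ 0 := pow_ne_zero _ hc
    exact (mul_ne_zero h2 hQ) h1.symm
  have hAi : A * A⁻¹ = 1 := Matrix.mul_nonsing_inv A hdet
  have hAi' : (A⁻¹).transpose * A.transpose = 1 := by
    rw [← Matrix.transpose_mul, hAi, Matrix.transpose_one]
  have h3 : c • ((A⁻¹).transpose * Q * A⁻¹) = R := by
    calc c • ((A⁻¹).transpose * Q * A⁻¹)
        = (A⁻¹).transpose * (c • Q) * A⁻¹ := by
          rw [Matrix.mul_smul, Matrix.smul_mul]
      _ = (A⁻¹).transpose * (A.transpose * R * A) * A⁻¹ := by rw [hA]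
      _ = ((A⁻¹).transpose * A.transpose) * R * (A * A⁻¹) := by
          simp only [Matrix.mul_assoc]
      _ = R := by rw [hAi, hAi', Matrix.one_mul, Matrix.mul_one]
  refine ⟨A⁻¹ * M, ?_, ?_⟩
  · have h4 : c • ((A⁻¹ * M).transpose * Q * (A⁻¹ * M)) = c • Q := by
      rw [Matrix.transpose_mul]
      calc c • (M.transpose * (A⁻¹).transpose * Q * (A⁻¹ * M))
          = M.transpose * (c • ((A⁻¹).transpose * Q * A⁻¹)) * M := by
            rw [Matrix.mul_smul, Matrix.smul_mul]
            simp only [Matrix.mul_assoc]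
        _ = c • Q := by rw [h3, hM]
    have h5 := congrArg (fun X => c⁻¹ • X) h4
    simp only [smul_smul, inv_mul_cancel₀ hc, one_smul] at h5
    exact h5
  · rw [← Matrix.mul_assoc, hAi, Matrix.one_mul]

/-- the entries of `Mx` are holomorphic on the cut plane -/
theorem mx_diff (hYx : Stmt_Yx) (hGeo : Stmt_Geo) (n : ℕ) (i j : Fin n) :
    DifferentiableOn ℂ (fun ψ => Mx n ψ i j) (Om n) := by
  have h1 : AnalyticOnNhd ℂ (Yx n (j : ℕ)) (Om n) :=
    (hYx n (j : ℕ)).1.analyticOnNhd (hGeo n).1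
  have h2 : AnalyticOnNhd ℂ (iteratedDeriv (i : ℕ) (Yx n (j : ℕ))) (Om n) := by
    rw [iteratedDeriv_eq_iterate]
    exact h1.iterated_deriv _
  exact h2.differentiableOn

/-- relations are invariant under the group -/
theorem rel_closure (hTrv : Stmt_Trv) {n : ℕ} (hn : 0 < n) (he : Even n)
    (h : Matrix (Fin n) (Fin n) ℂ)
    (hh : h ∈ Submonoid.closure {M | ∃ (k : Fin n) (c : ℂ), M = 1 + c • rs n k}) :
    ∀ P : MvPolynomial (Option (Fin n × Fin n)) ℂ, Rel n P 1 → Rel n P h := by
  induction hh using Submonoid.closure_induction with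
  | mem x hx =>
    obtain ⟨k, c, rfl⟩ := hx
    intro P hP
    exact hTrv n hn he P hP k c
  | one => exact fun P hP => hP
  | mul x y _ _ hx hy =>
    intro P hP
    have h1 : Rel n (MvPolynomial.bind₁ (sub y) P) 1 := by
      intro ψ hψ
      rw [eval_sub, Matrix.mul_one]
      exact hy P hP ψ hψ
    have h2 := hx _ h1
    intro ψ hψ
    have h3 := h2 ψ hψ
    rw [eval_sub, Matrix.mul_assoc] at h3
    exact h3

end FIBER_

open FIBER_ in
/-- FIBER -/
theorem fiber_proof (hTrv : Stmt_Trv) (hGrpQ : Stmt_GrpQ) (hBilO : Stmt_BilO) (hYx : Stmt_Yx)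
    (hGeo : Stmt_Geo) (hQdet : Stmt_Qdet) : Stmt_Fiber := by
  intro g hg P z0 R hR hsub hP ψ hψ X hX
  have hn : 0 < 2 * g := by omega
  have he : Even (2 * g) := even_two_mul g
  obtain ⟨hopen, hstar, hball, _, _⟩ := hGeo (2 * g)
  have h0 : (0 : ℂ) ∈ Om (2 * g) := hball (mem_ball_self one_pos)
  -- the relation holds on the cut plane
  have hrel : Rel (2 * g) P 1 := by
    have hd : DifferentiableOn ℂ (fun t => MvPolynomial.eval
        (HGP.opt t (fun p : Fin (2 * g) × Fin (2 * g) => Mx (2 * g) t p.1 p.2)) P)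
        (Om (2 * g)) :=
      diff_eval (fun (p : Fin (2 * g) × Fin (2 * g)) t => Mx (2 * g) t p.1 p.2)
        (fun p => mx_diff hYx hGeo (2 * g) p.1 p.2) P
    have han := hd.analyticOnNhd hopen
    have hz0 : z0 ∈ Om (2 * g) := hball (hsub (mem_ball_self hR))
    have hev : (fun t => MvPolynomial.eval
        (HGP.opt t (fun p : Fin (2 * g) × Fin (2 * g) => Mx (2 * g) t p.1 p.2)) P)
        =ᶠ[𝓝 z0] 0 := by
      filter_upwards [ball_mem_nhds z0 hR] with t ht
      exact hP t ht
    have hpre : IsPreconnected (Om (2 * g)) :=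
      (StarConvex.isPathConnected hstar h0).isConnected.isPreconnected
    have := han.eqOn_zero_of_preconnected_of_eventuallyEq_zero hpre hz0 hev
    intro t ht
    rw [Matrix.mul_one]
    exact this ht
  have hlam : (2 * Real.pi * Complex.I : ℂ) ^ (2 * g - 1) ≠ 0 :=
    pow_ne_zero _ (by simp [Real.pi_ne_zero])
  obtain ⟨h, hh, rfl⟩ := inv_tors hlam (hQdet (2 * g) he) (Mx (2 * g) ψ) X
    (hBilO (2 * g) hn he ψ (hball hψ)) hX
  exact rel_closure hTrv hn he h (hGrpQ g hg h hh) P hrel ψ (hball hψ)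

end

end Pool.Agent.CYP
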