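import Pool.Agent.CYP.Stmts

/-!
# CYP, module FMAT: Darboux coordinates for the form `R`
-/

open scoped BigOperators Topology
open Polynomial

namespace Pool.Agent.CYP

noncomputable section

namespace FMAT_

/-- the entries of `Rm` as polynomials -/
def rp (n a b : ℕ) : ℤ[X] := (if a + b + 1 = n then (-1) ^ b else 0) -
  X ^ (a + b + 2) * ∑ i ∈ Finset.range n, (-1) ^ (n - 1 - i) *
    ((Nat.stirlingSecond (i + 1) (a + 1) : ℤ[X]) * (Nat.stirlingSecond (n - i) (b + 1) : ℤ[X]))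

theorem aeval_rp (n : ℕ) (ψ : ℂ) (a b : Fin n) : aeval ψ (rp n a b) = Rm n ψ a b := by
  unfold rp Rm
  simp only [Matrix.of_apply, map_sub, map_mul, map_sum, map_pow, map_neg, map_one, aeval_X,
    map_natCast]
  congr 1
  split_ifs
  · simp
  · simp

theorem term_zero {n a b : ℕ} (h : n ≤ a + b) (i : ℕ) (hi : i < n) :
    Nat.stirlingSecond (i + 1) (a + 1) * Nat.stirlingSecond (n - i) (b + 1) = 0 := by
  rcases lt_or_ge i a with h1 | h1
  · rw [Nat.stirlingSecond_eq_zero_of_lt (by omega), zero_mul]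
  · rw [Nat.stirlingSecond_eq_zero_of_lt (n := n - i) (by omega), mul_zero]

theorem rp_zero {n a b : ℕ} (h : n ≤ a + b) : rp n a b = 0 := by
  unfold rp
  rw [if_neg (by omega), Finset.sum_eq_zero, mul_zero, sub_zero]
  intro i hi
  have h1 := term_zero h i (Finset.mem_range.mp hi)
  have h2 : ((Nat.stirlingSecond (i + 1) (a + 1) : ℤ[X]) *
      (Nat.stirlingSecond (n - i) (b + 1) : ℤ[X])) = 0 := by
    rw [← Nat.cast_mul, h1, Nat.cast_zero]
  rw [h2, mul_zero]

theorem rp_diag {n a b : ℕ} (h : a + b + 1 = n) :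
    rp n a b = (-1) ^ b * (1 - X ^ (n + 1)) := by
  unfold rp
  rw [if_pos h, Finset.sum_eq_single a]
  · have e1 : n - a = b + 1 := by omega
    have e2 : n - 1 - a = b := by omega
    have e3 : a + b + 2 = n + 1 := by omega
    rw [e1, e2, e3, Nat.stirlingSecond_self, Nat.stirlingSecond_self]
    push_cast
    ring
  · intro i hi hia
    have hi' := Finset.mem_range.mp hi
    have h1 : Nat.stirlingSecond (i + 1) (a + 1) * Nat.stirlingSecond (n - i) (b + 1) = 0 := by
      rcases lt_or_ge i a with h1 | h1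
      · rw [Nat.stirlingSecond_eq_zero_of_lt (by omega), zero_mul]
      · rw [Nat.stirlingSecond_eq_zero_of_lt (n := n - i) (by omega), mul_zero]
    have h2 : ((Nat.stirlingSecond (i + 1) (a + 1) : ℤ[X]) *
        (Nat.stirlingSecond (n - i) (b + 1) : ℤ[X])) = 0 := by
      rw [← Nat.cast_mul, h1, Nat.cast_zero]
    rw [h2, mul_zero]
  · intro ha
    exact absurd (Finset.mem_range.mpr (by omega)) ha

theorem neg_one_pow_flip {n i : ℕ} (hn : Even n) (hi : i < n) :
    ((-1 : ℤ[X])) ^ i = -(-1) ^ (n - 1 - i) := by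
  obtain ⟨m, rfl⟩ := hn
  have h1 : ((-1 : ℤ[X])) ^ (m + m - 1 - i) * (-1) ^ i = -1 := by
    rw [← pow_add]
    have e : m + m - 1 - i + i = 2 * (m - 1) + 1 := by omega
    rw [e, pow_succ, pow_mul]
    simp
  have h2 : ((-1 : ℤ[X])) ^ (m + m - 1 - i) * (-1) ^ (m + m - 1 - i) = 1 := by
    rw [← mul_pow]; simp
  calc ((-1 : ℤ[X])) ^ i = ((-1 : ℤ[X])) ^ (m + m - 1 - i) * (-1) ^ (m + m - 1 - i) *
        (-1) ^ i := by rw [h2, one_mul]
    _ = (-1) ^ (m + m - 1 - i) * (((-1 : ℤ[X])) ^ (m + m - 1 - i) * (-1) ^ i) := by ring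
    _ = -(-1) ^ (m + m - 1 - i) := by rw [h1]; ring

theorem rp_anti {n : ℕ} (hn : Even n) (a b : ℕ) : rp n a b = - rp n b a := by
  unfold rp
  have e1 : (if b + a + 1 = n then ((-1 : ℤ[X])) ^ a else 0) =
      - (if a + b + 1 = n then (-1) ^ b else 0) := by
    rw [add_comm b a]
    split_ifs with h
    · rw [neg_one_pow_flip hn (i := a) (by omega)]
      have : n - 1 - a = b := by omega
      rw [this]
    · simp
  have e2 : ∑ i ∈ Finset.range n, ((-1 : ℤ[X])) ^ (n - 1 - i) *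
      ((Nat.stirlingSecond (i + 1) (b + 1) : ℤ[X]) * (Nat.stirlingSecond (n - i) (a + 1) : ℤ[X]))
      = - ∑ i ∈ Finset.range n, ((-1 : ℤ[X])) ^ (n - 1 - i) *
      ((Nat.stirlingSecond (i + 1) (a + 1) : ℤ[X]) *
        (Nat.stirlingSecond (n - i) (b + 1) : ℤ[X])) := by
    rw [← Finset.sum_range_reflect, ← Finset.sum_neg_distrib]
    refine Finset.sum_congr rfl fun i hi => ?_
    have hi' := Finset.mem_range.mp hi
    have f1 : n - 1 - (n - 1 - i) = i := by omega
    have f2 : n - 1 - i + 1 = n - i := by omega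
    have f3 : n - (n - 1 - i) = i + 1 := by omega
    rw [f1, f2, f3, neg_one_pow_flip hn hi']
    ring
  rw [e1, e2, add_comm b a]
  ring

theorem rp_self {n : ℕ} (hn : Even n) (a : ℕ) : rp n a a = 0 :=
  self_eq_neg.mp (rp_anti hn a a)

variable (g : ℕ)

/-- the index map -/
def eq2 : Fin g ⊕ Fin g ≃ Fin (2 * g) := finSumFinEquiv.trans (finCongr (two_mul g).symm)

theorem eq2_inl (a : Fin g) : ((eq2 g (Sum.inl a) : Fin (2 * g)) : ℕ) = a := by
  simp [eq2]

theorem eq2_inr (a : Fin g) : ((eq2 g (Sum.inr a) : Fin (2 * g)) : ℕ) = g + a := by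
  simp [eq2, add_comm]

/-- the block `Y` -/
def Yb : Matrix (Fin g) (Fin g) ℤ[X] := Matrix.of fun a b => rp (2 * g) a (g + b)

/-- the block `b` -/
def bb : Matrix (Fin g) (Fin g) ℤ[X] := Matrix.of fun a b =>
  if a < b then rp (2 * g) a b else 0

/-- the matrix `F` with rows indexed by the sum -/
def Fs : Matrix (Fin g ⊕ Fin g) (Fin g ⊕ Fin g) ℤ[X] :=
  Matrix.fromBlocks 1 (bb g) 0 (-(Yb g).transpose)

theorem Fs_rel : Fs g * Matrix.J (Fin g) ℤ[X] * (Fs g).transpose =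
    Matrix.fromBlocks (bb g - (bb g).transpose) (Yb g) (-(Yb g).transpose) 0 := by
  unfold Fs Matrix.J
  rw [Matrix.fromBlocks_transpose, Matrix.fromBlocks_multiply, Matrix.fromBlocks_multiply]
  simp [sub_eq_add_neg]

theorem Fs_entry (x y : Fin g ⊕ Fin g) :
    (Fs g * Matrix.J (Fin g) ℤ[X] * (Fs g).transpose) x y =
      rp (2 * g) (eq2 g x : Fin (2 * g)) (eq2 g y : Fin (2 * g)) := by
  have hn : Even (2 * g) := even_two_mul g
  rw [Fs_rel]
  rcases x with a | a <;> rcases y with b | b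
  · rw [Matrix.fromBlocks_apply₁₁, eq2_inl, eq2_inl]
    simp only [Matrix.sub_apply, Matrix.transpose_apply, bb, Matrix.of_apply]
    rcases lt_trichotomy a b with h | h | h
    · rw [if_pos h, if_neg h.asymm, sub_zero]
    · subst h
      rw [if_neg (lt_irrefl _), sub_zero, rp_self hn]
    · rw [if_neg h.asymm, if_pos h, zero_sub, ← rp_anti hn]
  · rw [Matrix.fromBlocks_apply₁₂, eq2_inl, eq2_inr]
    rfl
  · rw [Matrix.fromBlocks_apply₂₁, eq2_inl, eq2_inr]
    simp only [Matrix.neg_apply, Matrix.transpose_apply, Yb, Matrix.of_apply]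
    rw [← rp_anti hn]
  · rw [Matrix.fromBlocks_apply₂₂, eq2_inr, eq2_inr, rp_zero (by omega)]
    rfl

theorem det_Yb : ∃ ε : ℤ[X], ε * ε = 1 ∧ (Yb g).det = ε * (1 - X ^ (2 * g + 1)) ^ g := by
  have h1 := Matrix.det_permute' (Fin.revPerm : Equiv.Perm (Fin g)) (Yb g)
  have h2 : ((Yb g).submatrix id (Fin.revPerm : Equiv.Perm (Fin g))).BlockTriangular id := by
    intro i j hij
    simp only [id] at hij
    have hij' : (j : ℕ) < i := hij
    simp only [Matrix.submatrix_apply, id, Fin.revPerm_apply, Yb, Matrix.of_apply, Fin.val_rev]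
    exact rp_zero (by omega)
  rw [Matrix.det_of_isUpperTriangular h2] at h1
  have h3 : ∏ i : Fin g, ((Yb g).submatrix id (Fin.revPerm : Equiv.Perm (Fin g))) i i =
      (∏ i : Fin g, ((-1 : ℤ[X])) ^ (g + (g - ((i : ℕ) + 1)))) * (1 - X ^ (2 * g + 1)) ^ g := by
    have e : ∀ i : Fin g, ((Yb g).submatrix id (Fin.revPerm : Equiv.Perm (Fin g))) i i =
        ((-1 : ℤ[X])) ^ (g + (g - ((i : ℕ) + 1))) * (1 - X ^ (2 * g + 1)) := by
      intro i
      simp only [Matrix.submatrix_apply, id, Fin.revPerm_apply, Yb, Matrix.of_apply, Fin.val_rev]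
      exact rp_diag (by omega)
    rw [Finset.prod_congr rfl fun i _ => e i, Finset.prod_mul_distrib, Finset.prod_const,
      Finset.card_univ, Fintype.card_fin]
  have h4 : (∏ i : Fin g, ((-1 : ℤ[X])) ^ (g + (g - ((i : ℕ) + 1)))) *
      (∏ i : Fin g, ((-1 : ℤ[X])) ^ (g + (g - ((i : ℕ) + 1)))) = 1 := by
    rw [← Finset.prod_mul_distrib]
    refine Finset.prod_eq_one fun i _ => ?_
    rw [← mul_pow]; simp
  have h5 : (((Equiv.Perm.sign (Fin.revPerm : Equiv.Perm (Fin g)) : ℤˣ) : ℤ) : ℤ[X]) *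
      (((Equiv.Perm.sign (Fin.revPerm : Equiv.Perm (Fin g)) : ℤˣ) : ℤ) : ℤ[X]) = 1 := by
    rw [← Int.cast_mul, ← Units.val_mul, Int.units_mul_self]
    simp
  rw [h3] at h1
  refine ⟨(((Equiv.Perm.sign (Fin.revPerm : Equiv.Perm (Fin g)) : ℤˣ) : ℤ) : ℤ[X]) *
    ∏ i : Fin g, ((-1 : ℤ[X])) ^ (g + (g - ((i : ℕ) + 1))), ?_, ?_⟩
  · calc _ = ((((Equiv.Perm.sign (Fin.revPerm : Equiv.Perm (Fin g)) : ℤˣ) : ℤ) : ℤ[X]) *
      (((Equiv.Perm.sign (Fin.revPerm : Equiv.Perm (Fin g)) : ℤˣ) : ℤ) : ℤ[X])) *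
      ((∏ i : Fin g, ((-1 : ℤ[X])) ^ (g + (g - ((i : ℕ) + 1)))) *
      (∏ i : Fin g, ((-1 : ℤ[X])) ^ (g + (g - ((i : ℕ) + 1))))) := by ring
      _ = 1 := by rw [h4, h5, one_mul]
  · rw [mul_assoc, h1, ← mul_assoc, h5, one_mul]

theorem det_Fs : ∃ ε : ℤ[X], ε * ε = 1 ∧ (Fs g).det = ε * (1 - X ^ (2 * g + 1)) ^ g := by
  obtain ⟨ε, h1, h2⟩ := det_Yb g
  refine ⟨(-1) ^ g * ε, ?_, ?_⟩
  · calc (-1 : ℤ[X]) ^ g * ε * ((-1) ^ g * ε) = ((-1) ^ g * (-1) ^ g) * (ε * ε) := by ring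
      _ = 1 := by rw [h1, ← mul_pow]; simp
  · unfold Fs
    rw [Matrix.det_fromBlocks_zero₂₁, Matrix.det_one, one_mul, Matrix.det_neg,
      Matrix.det_transpose, h2, Fintype.card_fin]
    ring

/-- evaluation commutes with products -/
theorem ev_eq {m n : Type} (F : Matrix m n ℤ[X]) (ψ : ℂ) :
    (F.map fun p => aeval ψ p) = F.map ((aeval ψ : ℤ[X] →ₐ[ℤ] ℂ) : ℤ[X] →+* ℂ) := rfl

end FMAT_

open FMAT_ in
theorem fmat_proof : Stmt_Fmat := by
  intro g
  obtain ⟨ε, hε, hdet⟩ := det_Fs g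
  refine ⟨(Fs g).submatrix (eq2 g).symm id,
    (ε • (Fs g).adjugate.transpose).submatrix (eq2 g).symm id, ?_, ?_, ?_⟩
  · intro ψ
    unfold ev
    rw [ev_eq]
    have hJ : Matrix.J (Fin g) ℂ =
        (Matrix.J (Fin g) ℤ[X]).map ((aeval ψ : ℤ[X] →ₐ[ℤ] ℂ) : ℤ[X] →+* ℂ) := by
      unfold Matrix.J
      rw [Matrix.fromBlocks_map]
      congr 1
      · ext i j; simp
      · ext i j
        by_cases h : i = j <;> simp [h]
      · ext i j
        by_cases h : i = j <;> simp [h, Matrix.one_apply]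
      · ext i j; simp
    rw [hJ, ← Matrix.transpose_map, ← Matrix.map_mul, ← Matrix.map_mul]
    ext a b
    rw [Matrix.map_apply]
    have h1 : ((Fs g).submatrix (eq2 g).symm id * Matrix.J (Fin g) ℤ[X] *
        ((Fs g).submatrix (eq2 g).symm id).transpose) a b =
        (Fs g * Matrix.J (Fin g) ℤ[X] * (Fs g).transpose) ((eq2 g).symm a) ((eq2 g).symm b) := by
      rfl
    rw [h1, Fs_entry, Equiv.apply_symm_apply, Equiv.apply_symm_apply]
    exact aeval_rp (2 * g) ψ a b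
  · intro ψ
    unfold ev
    rw [ev_eq, ev_eq, ← Matrix.transpose_map, ← Matrix.map_mul]
    have h1 : (Fs g).submatrix (eq2 g).symm id *
        ((ε • (Fs g).adjugate.transpose).submatrix (eq2 g).symm id).transpose =
        ((1 - X ^ (2 * g + 1)) ^ g : ℤ[X]) • (1 : Matrix (Fin (2 * g)) (Fin (2 * g)) ℤ[X]) := by
      ext a b
      have h2 : ((Fs g).submatrix (eq2 g).symm id *
        ((ε • (Fs g).adjugate.transpose).submatrix (eq2 g).symm id).transpose) a b =
        (Fs g * (ε • (Fs g).adjugate)) ((eq2 g).symm a) ((eq2 g).symm b) := rfl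
      rw [h2, Matrix.mul_smul, Matrix.mul_adjugate, hdet]
      simp only [Matrix.smul_apply, smul_eq_mul, Matrix.one_apply, EmbeddingLike.apply_eq_iff_eq]
      rw [← mul_assoc, ← mul_assoc, hε, one_mul]
    rw [h1]
    ext a b
    rw [Matrix.map_apply, Matrix.smul_apply, Matrix.smul_apply, smul_eq_mul, smul_eq_mul,
      map_mul]
    by_cases h : a = b
    · subst h
      simp
    · simp [h]
  · intro ψ
    unfold ev
    rw [ev_eq, ev_eq, ← Matrix.transpose_map, ← Matrix.map_mul]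
    have h1 : ((ε • (Fs g).adjugate.transpose).submatrix (eq2 g).symm id).transpose *
        (Fs g).submatrix (eq2 g).symm id =
        ((1 - X ^ (2 * g + 1)) ^ g : ℤ[X]) • (1 : Matrix (Ix g) (Ix g) ℤ[X]) := by
      have h2 : ((ε • (Fs g).adjugate.transpose).submatrix (eq2 g).symm id).transpose *
        (Fs g).submatrix (eq2 g).symm id = (ε • (Fs g).adjugate) * Fs g := by
        refine Matrix.ext fun a b => ?_
        rw [Matrix.mul_apply, Matrix.mul_apply]
        exact Equiv.sum_comp (eq2 g).symm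
          (fun x => (ε • (Fs g).adjugate) a x * Fs g x b)
      rw [h2, Matrix.smul_mul, Matrix.adjugate_mul, hdet, smul_smul, ← mul_assoc, hε, one_mul]
    rw [h1]
    ext a b
    rw [Matrix.map_apply, Matrix.smul_apply, Matrix.smul_apply, smul_eq_mul, smul_eq_mul,
      map_mul]
    by_cases h : a = b
    · subst h
      simp
    · simp [h]

end

end Pool.Agent.CYP
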