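import Pool.Agent.CYP.Stmts

/-!
# CYP: module GEO, the cut plane
-/

open scoped BigOperators Topology
open Metric Set MeasureTheory

namespace Pool.Agent.CYP

namespace GEO_

lemma zt_prim (n : ℕ) : IsPrimitiveRoot (zt n) (n + 1) := by
  have h := Complex.isPrimitiveRoot_exp (n + 1) (Nat.succ_ne_zero n)
  have e : zt n = Complex.exp (2 * Real.pi * Complex.I / ((n + 1 : ℕ) : ℂ)) := by
    unfold zt
    push_cast
    rfl
  rw [e]
  exact h

lemma zt_pow (n : ℕ) : zt n ^ (n + 1) = 1 := (zt_prim n).pow_eq_one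

lemma zt_pow_mod (n k : ℕ) : zt n ^ k = zt n ^ (k % (n + 1)) := by
  rw [← pow_mod_orderOf, ← (zt_prim n).eq_orderOf]

lemma norm_zt (n : ℕ) : ‖zt n‖ = 1 :=
  Complex.norm_eq_one_of_pow_eq_one (zt_pow n) (Nat.succ_ne_zero n)

lemma Om_eq (n : ℕ) :
    Om n = ⋂ k ∈ Finset.range (n + 1), {ψ : ℂ | 1 - zt n ^ k * ψ ∈ Complex.slitPlane} := by
  ext ψ
  simp only [Om, Set.mem_ofPred_eq, Set.mem_iInter, Finset.mem_range]
  constructor
  · intro h k _
    exact h k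
  · intro h k
    rw [zt_pow_mod n k]
    exact h _ (Nat.mod_lt _ (Nat.succ_pos n))

lemma isOpen_Om (n : ℕ) : IsOpen (Om n) := by
  rw [Om_eq]
  refine isOpen_biInter_finset fun k _ => ?_
  exact Complex.isOpen_slitPlane.preimage (by fun_prop)

lemma star_Om (n : ℕ) : StarConvex ℝ 0 (Om n) := by
  rw [starConvex_zero_iff]
  intro ψ hψ t ht0 ht1 k
  have h1 : (1 : ℂ) - zt n ^ k * (t • ψ) = (1 - t) • (1 : ℂ) + t • (1 - zt n ^ k * ψ) := by
    simp only [Complex.real_smul]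
    push_cast
    ring
  rw [h1]
  exact Complex.starConvex_one_slitPlane (hψ k) (by linarith) ht0 (by ring)

lemma ball_Om (n : ℕ) : ball (0 : ℂ) 1 ⊆ Om n := by
  intro ψ hψ k
  rw [mem_ball_zero_iff] at hψ
  left
  have h1 : ‖zt n ^ k * ψ‖ < 1 := by
    rw [norm_mul, norm_pow, norm_zt, one_pow, one_mul]
    exact hψ
  have h2 := Complex.re_le_norm (zt n ^ k * ψ)
  rw [Complex.sub_re, Complex.one_re]
  linarith

lemma rot_Om (n : ℕ) (ψ : ℂ) (hψ : ψ ∈ Om n) : zt n * ψ ∈ Om n := by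
  intro k
  have h := hψ (k + 1)
  rw [pow_succ, mul_assoc] at h
  exact h

lemma ne_Om (n : ℕ) (ψ : ℂ) (hψ : ψ ∈ Om n) : 1 - ψ ^ (n + 1) ≠ 0 := by
  intro h
  have h1 : ψ ^ (n + 1) = 1 := (sub_eq_zero.mp h).symm
  obtain ⟨m, hm, rfl⟩ := (zt_prim n).eq_pow_of_pow_eq_one h1
  have h2 := hψ (n + 1 - m)
  rw [← pow_add, Nat.sub_add_cancel hm.le, zt_pow, sub_self] at h2
  exact Complex.zero_notMem_slitPlane h2

end GEO_

theorem geo_proof : Stmt_Geo := fun n =>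
  ⟨GEO_.isOpen_Om n, GEO_.star_Om n, GEO_.ball_Om n, GEO_.rot_Om n, GEO_.ne_Om n⟩

end Pool.Agent.CYP
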