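import Pool.Agent.CYP.Stmts
import Pool.Agent.HGP.INDUC

/-!
# CYP module GIND: tuples of systems (induction on the number of systems)
-/

open scoped BigOperators Topology
open Metric Set MeasureTheory

namespace Pool.Agent.CYP

noncomputable section

namespace Gind_

open Pool.Agent.HGP.InducX

/-- The equivalence of index sets for the step from `r` to `r + 1`. -/
def idx {r : ℕ} (ν : Fin (r + 1) → Type) :
    Option (Σ i : Fin r, ν i.castSucc) ⊕ ν (Fin.last r) → Option (Σ i : Fin (r + 1), ν i) :=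
  Sum.elim (fun o => o.elim none (fun p => some ⟨p.1.castSucc, p.2⟩))
    (fun j => some ⟨Fin.last r, j⟩)

lemma idx_bij {r : ℕ} (ν : Fin (r + 1) → Type) : Function.Bijective (idx ν) := by
  constructor
  · rintro (o | j) (o' | j') h
    · rcases o with _ | ⟨i, j⟩ <;> rcases o' with _ | ⟨i', j'⟩
      · rfl
      · simp [idx] at h
      · simp [idx] at h
      · simp only [idx, Sum.elim_inl, Option.elim_some, Option.some.injEq] at h
        have h1 : i = i' := by
          have := congrArg Sigma.fst h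
          simpa using this
        subst h1
        have h2 : j = j' := by
          have := (Sigma.mk.inj_iff.mp h).2
          exact eq_of_heq this
        rw [h2]
    · rcases o with _ | ⟨i, j⟩
      · simp [idx] at h
      · simp only [idx, Sum.elim_inl, Option.elim_some, Sum.elim_inr, Option.some.injEq] at h
        have := congrArg Sigma.fst h
        exact absurd this (Fin.castSucc_lt_last i).ne
    · rcases o' with _ | ⟨i, j⟩
      · simp [idx] at h
      · simp only [idx, Sum.elim_inl, Option.elim_some, Sum.elim_inr, Option.some.injEq] at h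
        have := congrArg Sigma.fst h
        exact absurd this (Fin.castSucc_lt_last i).ne'
    · simp only [idx, Sum.elim_inr, Option.some.injEq] at h
      have := eq_of_heq (Sigma.mk.inj_iff.mp h).2
      rw [this]
  · rintro (_ | ⟨i, j⟩)
    · exact ⟨Sum.inl none, rfl⟩
    · revert j
      refine Fin.lastCases ?_ (fun i => ?_) i
      · exact fun j => ⟨Sum.inr j, rfl⟩
      · exact fun j => ⟨Sum.inl (some ⟨i, j⟩), rfl⟩

/-- The vector of constants attached to the tuple `t`. -/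
def cv {r : ℕ} {ν : Fin r → Type} (f : ∀ i, ν i → ℂ → ℂ) (t : Fin r → ℚ) :
    Option (Σ i : Fin r, ν i) → ℂ :=
  HGP.opt (2 * Real.pi * Complex.I) (fun p : Σ i, ν i => f p.1 p.2 (t p.1 : ℂ))

lemma free_snoc {r : ℕ} {ν : Fin (r + 1) → Type} (f : ∀ i, ν i → ℂ → ℂ) (D B : ℕ)
    (t : Fin (r + 1) → ℚ)
    (h : GPC.Free D B (Sum.elim (cv (ν := fun i : Fin r => ν i.castSucc)
      (fun i => f i.castSucc) (fun i => t i.castSucc))
      (fun x => f (Fin.last r) x (t (Fin.last r) : ℂ)))) :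
    GPC.Free D B (cv f t) := by
  apply free_rename (Equiv.ofBijective (idx ν) (idx_bij ν))
  have e : cv f t ∘ (Equiv.ofBijective (idx ν) (idx_bij ν)) =
      Sum.elim (cv (ν := fun i : Fin r => ν i.castSucc)
      (fun i => f i.castSucc) (fun i => t i.castSucc))
      (fun x => f (Fin.last r) x (t (Fin.last r) : ℂ)) := by
    funext x
    rcases x with (_ | ⟨i, j⟩) | j
    · rfl
    · rfl
    · rfl
  rw [e]
  exact h

/-- The two index sets for `r = 0`. -/
def e0 (ν : Fin 0 → Type) :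
    Option (Σ i : Fin 0, HGP.Idx ((fun _ : Fin 0 => 0) i)) ≃ Option (Σ i : Fin 0, ν i) where
  toFun _ := none
  invFun _ := none
  left_inv := by
    rintro (_ | ⟨i, _⟩)
    · rfl
    · exact i.elim0
  right_inv := by
    rintro (_ | ⟨i, _⟩)
    · rfl
    · exact i.elim0

lemma base' (D B : ℕ) {ν : Fin 0 → Type} (f : ∀ i, ν i → ℂ → ℂ) (t : Fin 0 → ℚ) :
    GPC.Free D B (cv f t) := by
  apply free_rename (e0 ν)
  have h := base D B (fun _ : Fin 0 => 0) (fun _ _ => 0) (fun _ => 0)
  have e : cv f t ∘ (e0 ν) = HGP.cvec (fun _ : Fin 0 => 0) (fun _ _ => 0) (fun _ => 0) := by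
    funext x
    rcases x with _ | ⟨i, _⟩
    · rfl
    · exact i.elim0
  rw [e]
  exact h

end Gind_

open Gind_ Pool.Agent.HGP.InducX in
/-- GIND. -/
theorem gind_proof (hStep : Stmt_Gstep) : Stmt_Gind := by
  intro r
  induction r with
  | zero =>
    intro ν _ f _ ρ _ D A ε _
    refine ⟨0, fun H _ => ?_⟩
    have : IsEmpty {t : Fin 0 → ℚ // (∀ i, |(t i : ℝ)| ≤ ρ ∧ (t i).num.natAbs ≤ H ∧
        (t i).den ≤ H) ∧ ¬ GPC.Free D (H ^ A) (HGP.opt (2 * Real.pi * Complex.I)
        (fun p : Σ i, ν i => f p.1 p.2 (t p.1 : ℂ)))} := by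
      constructor
      rintro ⟨t, _, h⟩
      exact h (base' _ _ f t)
    rw [Nat.card_of_isEmpty]
    simp
  | succ r ih =>
    intro ν _ f hf ρ hρ D A ε hε
    obtain ⟨C1, hC1⟩ := hStep (ν (Fin.last r)) (f (Fin.last r)) (hf _) ρ hρ ε hε
      (Option (Σ i : Fin r, ν i.castSucc)) D A
    obtain ⟨C2, hC2⟩ := ih (fun i => ν i.castSucc) (fun i => f i.castSucc) (fun i => hf _)
      ρ hρ D A ε hε
    refine ⟨3 * |C2| + 3 ^ r * |C1|, fun H hH => ?_⟩
    have hH1 : (1 : ℝ) ≤ H := by exact_mod_cast hH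
    have hH0 : (0 : ℝ) < H := by linarith
    have hbox := card_bx hH
    have key := count_step (r := r) (bx H)
      (fun t => (∀ i, |(t i : ℝ)| ≤ ρ ∧ (t i).num.natAbs ≤ H ∧ (t i).den ≤ H) ∧
        ¬ GPC.Free D (H ^ A) (cv f t))
      (fun t => (∀ i, |(t i : ℝ)| ≤ ρ ∧ (t i).num.natAbs ≤ H ∧ (t i).den ≤ H) ∧
        ¬ GPC.Free D (H ^ A) (cv (ν := fun i : Fin r => ν i.castSucc) (fun i => f i.castSucc) t))
      (fun t q => GPC.Free D (H ^ A) (cv (ν := fun i : Fin r => ν i.castSucc)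
          (fun i => f i.castSucc) t) ∧
        (|(q : ℝ)| ≤ ρ ∧ q.num.natAbs ≤ H ∧ q.den ≤ H ∧
        ¬ GPC.Free D (H ^ A) (Sum.elim (cv (ν := fun i : Fin r => ν i.castSucc)
          (fun i => f i.castSucc) t) (fun x => f (Fin.last r) x (q : ℂ)))))
      (|C1| * (H : ℝ) ^ ε)
      (fun t ht i => mem_bx (ht.1 i).2.1 (ht.1 i).2.2)
      (fun t ht i => mem_bx (ht.1 i).2.1 (ht.1 i).2.2)
      (by
        intro t' T hTS
        rcases T.eq_empty_or_nonempty with rfl | ⟨q0, hq0⟩
        · simp only [Finset.card_empty, Nat.cast_zero]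
          positivity
        · refine (hC1 H hH _ (hTS q0 hq0).1 T (fun q hq => (hTS q hq).2)).trans ?_
          exact mul_le_mul_of_nonneg_right (le_abs_self _) (by positivity))
      (by
        rintro t ⟨ht, hnf⟩
        by_cases hfr : GPC.Free D (H ^ A) (cv (ν := fun i : Fin r => ν i.castSucc)
          (fun i => f i.castSucc) (fun i => t i.castSucc))
        · right
          exact ⟨hfr, (ht _).1, (ht _).2.1, (ht _).2.2, fun hcon => hnf (free_snoc f _ _ t hcon)⟩
        · left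
          exact ⟨fun i => ht _, hfr⟩)
    refine key.trans ?_
    have h1 := hC2 H hH
    have h1' : C2 * (H : ℝ) ^ (2 * (r : ℝ) - 2 + ε) ≤ |C2| * (H : ℝ) ^ (2 * (r : ℝ) - 2 + ε) :=
      mul_le_mul_of_nonneg_right (le_abs_self _) (by positivity)
    have h2 : ((bx H).card : ℝ) ^ r ≤ (3 * (H : ℝ) ^ 2) ^ r :=
      pow_le_pow_left₀ (by positivity) hbox r
    have e1 : (H : ℝ) ^ (2 * (r : ℝ) - 2 + ε) * (H : ℝ) ^ 2 =
        (H : ℝ) ^ (2 * ((r + 1 : ℕ) : ℝ) - 2 + ε) := by
      rw [← Real.rpow_natCast (H : ℝ) 2, ← Real.rpow_add hH0]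
      congr 1
      push_cast
      ring
    have e2 : ((H : ℝ) ^ 2) ^ r * (H : ℝ) ^ ε = (H : ℝ) ^ (2 * ((r + 1 : ℕ) : ℝ) - 2 + ε) := by
      rw [← pow_mul, ← Real.rpow_natCast (H : ℝ) (2 * r), ← Real.rpow_add hH0]
      congr 1
      push_cast
      ring
    calc _ ≤ (|C2| * (H : ℝ) ^ (2 * (r : ℝ) - 2 + ε)) * (3 * (H : ℝ) ^ 2) +
          (3 * (H : ℝ) ^ 2) ^ r * (|C1| * (H : ℝ) ^ ε) := by
          have := h1.trans h1'
          gcongr
          exact this
      _ = 3 * |C2| * ((H : ℝ) ^ (2 * (r : ℝ) - 2 + ε) * (H : ℝ) ^ 2) +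
          3 ^ r * |C1| * (((H : ℝ) ^ 2) ^ r * (H : ℝ) ^ ε) := by
          rw [mul_pow]
          ring
      _ = _ := by
          rw [e1, e2]
          ring

end

end Pool.Agent.CYP
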