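import Pool.Agent.CYP.Stmts

/-! CYP module GRPQ: the transvections along the basis vectors generate the symplectic group. -/

open scoped BigOperators Topology
open Metric Set MeasureTheory

namespace Pool.Agent.CYP

namespace GRPQ_

theorem qm_map (n : ℕ) : (Qm n ℚ).map (Rat.castHom ℂ) = Qm n ℂ := by
  ext a b
  simp only [Qm, Matrix.map_apply, Matrix.of_apply]
  split_ifs <;> simp

theorem qm_anti (n : ℕ) (R : Type) [CommRing R] : (Qm n R).transpose = -Qm n R := by
  ext a b
  simp only [Qm, Matrix.transpose_apply, Matrix.of_apply, Matrix.neg_apply]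
  rcases lt_trichotomy a b with h | h | h
  · rw [if_neg (lt_asymm h), if_pos h, if_pos h]
  · subst h
    simp
  · rw [if_pos h, if_neg (lt_asymm h), if_pos h, neg_neg]

theorem qm_det (hQ : Stmt_Qdet) (g : ℕ) : (Qm (2 * g) ℚ).det ≠ 0 := by
  intro h0
  have h1 := hQ (2 * g) (even_two_mul g)
  apply h1
  rw [← qm_map]
  have h2 := RingHom.map_det (Rat.castHom ℂ) (Qm (2 * g) ℚ)
  rw [h0, map_zero] at h2
  exact h2.symm

end GRPQ_

open GRPQ_ in
theorem grpq_proof (hC : Stmt_Comm) (hQ : Stmt_Qdet) (hD : Stmt_Darb) (hG : GPH.Stmt_Grp) :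
    Stmt_GrpQ := by
  intro g hg h hh
  obtain ⟨E, E', hE⟩ := hD g (Qm (2 * g) ℚ) (qm_anti _ _) (qm_det hQ g)
  have hJ : E'.transpose * Qm (2 * g) ℚ * E' = Matrix.J (Fin g) ℚ := by
    rw [← hE.rel]
    have h1 : E.transpose * E' = 1 := by
      have := congrArg Matrix.transpose hE.inv2
      rw [Matrix.transpose_mul, Matrix.transpose_transpose, Matrix.transpose_one] at this
      exact this
    calc E'.transpose * (E * Matrix.J (Fin g) ℚ * E.transpose) * E' =
        (E'.transpose * E) * Matrix.J (Fin g) ℚ * (E.transpose * E') := by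
          simp only [Matrix.mul_assoc]
      _ = Matrix.J (Fin g) ℚ := by rw [hE.inv2, h1, Matrix.one_mul, Matrix.mul_one]
  have hJC : (cx E').transpose * Qm (2 * g) ℂ * cx E' = (1 : ℂ) • Matrix.J (Fin g) ℂ := by
    rw [one_smul, ← qm_map]
    have h1 : cx E' = E'.map (Rat.castHom ℂ) := rfl
    have h2 := congrArg (fun M => Matrix.map M (Rat.castHom ℂ)) hJ
    simp only [Matrix.map_mul] at h2
    rw [h1, ← Matrix.transpose_map, h2]
    ext a b
    rcases a with a | a <;> rcases b with b | b <;>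
      simp [Matrix.J, Matrix.map_apply, Matrix.fromBlocks, Matrix.one_apply] <;>
      split_ifs <;> simp
  have key := hG g (2 * g) (Qm (2 * g) ℂ) (cx E') 1 (fun k => Pi.single k 1) hg one_ne_zero
    (qm_anti _ _) (hQ (2 * g) (even_two_mul g)) hJC (fun Z hZ => hC (2 * g) Z hZ) h hh
  exact key

end Pool.Agent.CYP
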