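import Pool.Agent.CYP.Stmts

open scoped BigOperators Topology

namespace Pool.Agent.CYP

noncomputable section

theorem gvec_proof : Stmt_Gvec := by
  intro g
  let N : Matrix (Ix g) (Ix g) (MvPolynomial (Ix g × Ix g) ℤ) :=
    Matrix.of fun i j => MvPolynomial.X (i, j)
  let G : Idx g → MvPolynomial (Ix g × Ix g) ℤ := fun x => match x with
    | .inl p => N.toBlocks₁₁ p.1 p.2
    | .inr (.inl q) => (N.toBlocks₂₁ * N.toBlocks₁₁.adjugate) q.1.1 q.1.2
    | .inr (.inr q) => (N.toBlocks₁₁.adjugate * N.toBlocks₁₂) q.1.1 q.1.2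
  refine ⟨G, fun M x => ?_⟩
  let f : MvPolynomial (Ix g × Ix g) ℤ →ₐ[ℤ] ℂ :=
    MvPolynomial.aeval (fun p : Ix g × Ix g => M p.1 p.2)
  have hN : ∀ i j, f (N i j) = M i j := fun i j => by simp [N, f]
  have h11 : N.toBlocks₁₁.map f = M.toBlocks₁₁ := by
    ext i j
    exact hN _ _
  have h12 : N.toBlocks₁₂.map f = M.toBlocks₁₂ := by
    ext i j
    exact hN _ _
  have h21 : N.toBlocks₂₁.map f = M.toBlocks₂₁ := by
    ext i j
    exact hN _ _
  have hadj : (N.toBlocks₁₁.adjugate).map f = M.toBlocks₁₁.adjugate := by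
    rw [← h11]
    exact RingHom.map_adjugate (f : MvPolynomial (Ix g × Ix g) ℤ →+* ℂ) _
  change f (G x) = gvec M x
  rcases x with p | q | q
  · exact hN _ _
  · change f ((N.toBlocks₂₁ * N.toBlocks₁₁.adjugate) q.1.1 q.1.2) =
      (M.toBlocks₂₁ * M.toBlocks₁₁.adjugate) q.1.1 q.1.2
    rw [← h21, ← hadj, ← Matrix.map_mul]
    rfl
  · change f ((N.toBlocks₁₁.adjugate * N.toBlocks₁₂) q.1.1 q.1.2) =
      (M.toBlocks₁₁.adjugate * M.toBlocks₁₂) q.1.1 q.1.2
    rw [← h12, ← hadj, ← Matrix.map_mul]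
    rfl

end

end Pool.Agent.CYP
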