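import Pool.Agent.CYP.Stmts

/-!
# CYP: module HOLG, the coordinates of the period matrix are holomorphic
-/

open scoped BigOperators Topology
open Metric Set MeasureTheory

namespace Pool.Agent.CYP

namespace HOLG_

lemma diff_det {m : Type} [Fintype m] [DecidableEq m] {A : ℂ → Matrix m m ℂ} {s : Set ℂ}
    (h : ∀ i j, DifferentiableOn ℂ (fun z => A z i j) s) :
    DifferentiableOn ℂ (fun z => (A z).det) s := by
  simp only [Matrix.det_apply']
  refine DifferentiableOn.fun_sum fun σ _ => ?_
  refine DifferentiableOn.const_mul ?_ _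
  exact DifferentiableOn.fun_finsetProd fun i _ => h _ _

lemma diff_adj {m : Type} [Fintype m] [DecidableEq m] {A : ℂ → Matrix m m ℂ} {s : Set ℂ}
    (h : ∀ i j, DifferentiableOn ℂ (fun z => A z i j) s) (i j : m) :
    DifferentiableOn ℂ (fun z => (A z).adjugate i j) s := by
  simp only [Matrix.adjugate_apply]
  refine diff_det fun k l => ?_
  by_cases hk : k = j
  · subst hk
    simp only [Matrix.updateRow_self]
    exact differentiableOn_const _
  · simp only [Matrix.updateRow_ne hk]
    exact h k l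

lemma diff_mul {l m p : Type} [Fintype m] {A : ℂ → Matrix l m ℂ} {B : ℂ → Matrix m p ℂ}
    {s : Set ℂ} (h : ∀ i j, DifferentiableOn ℂ (fun z => A z i j) s)
    (h' : ∀ i j, DifferentiableOn ℂ (fun z => B z i j) s) (i : l) (j : p) :
    DifferentiableOn ℂ (fun z => (A z * B z) i j) s := by
  simp only [Matrix.mul_apply]
  exact DifferentiableOn.fun_sum fun k _ => (h i k).mul (h' k j)

lemma diff_iter {U : Set ℂ} (hU : IsOpen U) {f : ℂ → ℂ} (hf : DifferentiableOn ℂ f U) (k : ℕ) :
    DifferentiableOn ℂ (iteratedDeriv k f) U := by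
  induction k with
  | zero => simpa using hf
  | succ k ih =>
    rw [iteratedDeriv_succ]
    exact ih.deriv hU

lemma diff_Mx (hY : Stmt_Yx) (hG : Stmt_Geo) (n : ℕ) (k j : Fin n) :
    DifferentiableOn ℂ (fun ψ => Mx n ψ k j) (ball 0 1) := by
  simp only [Mx, Matrix.of_apply]
  exact (diff_iter (hG n).1 (hY n j).1 k).mono (hG n).2.2.1

lemma diff_ev {g : ℕ} (F : Matrix (Fin (2 * g)) (Ix g) (Polynomial ℤ)) (i : Fin (2 * g))
    (a : Ix g) : DifferentiableOn ℂ (fun ψ => ev F ψ i a) (ball 0 1) := by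
  simp only [ev, Matrix.map_apply]
  exact (Polynomial.differentiable_aeval _).differentiableOn

lemma diff_Ps (hY : Stmt_Yx) (hG : Stmt_Geo) {g : ℕ}
    (F : Matrix (Fin (2 * g)) (Ix g) (Polynomial ℤ))
    (E' : Matrix (Fin (2 * g)) (Ix g) ℚ) (a b : Ix g) :
    DifferentiableOn ℂ (fun ψ => Ps F E' ψ (Mx (2 * g) ψ) a b) (ball 0 1) := by
  unfold Ps
  refine diff_mul (diff_mul (fun i j => ?_) (fun i j => diff_Mx hY hG _ _ _)) (fun i j => ?_) a b
  · simp only [Matrix.transpose_apply]
    exact diff_ev F j i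
  · exact differentiableOn_const _

end HOLG_

theorem holg_proof (hY : Stmt_Yx) (hG : Stmt_Geo) : Stmt_HolG := by
  intro g F E' x
  have h := HOLG_.diff_Ps hY hG F E'
  rcases x with p | q | q
  · simp only [gvec, Matrix.toBlocks₁₁, Matrix.of_apply]
    exact h _ _
  · simp only [gvec]
    refine HOLG_.diff_mul (fun i j => ?_) (HOLG_.diff_adj fun i j => ?_) _ _
    · simp only [Matrix.toBlocks₂₁, Matrix.of_apply]
      exact h _ _
    · simp only [Matrix.toBlocks₁₁, Matrix.of_apply]
      exact h _ _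
  · simp only [gvec]
    refine HOLG_.diff_mul (HOLG_.diff_adj fun i j => ?_) (fun i j => ?_) _ _
    · simp only [Matrix.toBlocks₁₁, Matrix.of_apply]
      exact h _ _
    · simp only [Matrix.toBlocks₁₂, Matrix.of_apply]
      exact h _ _

end Pool.Agent.CYP
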