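import Pool.Agent.CYP.Stmts

/-!
# CYP / IND: algebraic independence of the coordinates of the period matrix
-/

open scoped BigOperators Topology
open Metric Set MeasureTheory

namespace Pool.Agent.CYP

noncomputable section

namespace IND_

theorem opt_eta {α : Type} (v : Option α → ℂ) : HGP.opt (v none) (fun x => v (some x)) = v := by
  funext o
  cases o <;> rfl

/-- Evaluation of a substitution into an integral polynomial. -/
theorem eval_aeval {σ τ : Type} (v : τ → ℂ) (f : σ → MvPolynomial τ ℂ) (p : MvPolynomial σ ℤ) :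
    MvPolynomial.eval v (MvPolynomial.aeval f p) =
      MvPolynomial.aeval (fun i => MvPolynomial.eval v (f i)) p := by
  rw [MvPolynomial.map_aeval, MvPolynomial.aeval_def]
  have h : (MvPolynomial.eval v).comp (algebraMap ℤ (MvPolynomial τ ℂ)) = algebraMap ℤ ℂ :=
    RingHom.ext_int _ _
  rw [h]
  rfl

theorem eval_paeval {τ : Type} (v : τ → ℂ) (f : MvPolynomial τ ℂ) (p : Polynomial ℤ) :
    MvPolynomial.eval v (Polynomial.aeval f p) = Polynomial.aeval (MvPolynomial.eval v f) p := by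
  have h := Polynomial.map_aeval_eq_aeval_map (R := ℤ) (S := MvPolynomial τ ℂ) (T := ℤ) (U := ℂ)
    (φ := RingHom.id ℤ) (ψ := MvPolynomial.eval v) (RingHom.ext_int _ _) p f
  rw [Polynomial.map_id] at h
  exact h

/-- The entries of `Ps` as polynomials. -/
def psP {g : ℕ} (F : Matrix (Fin (2 * g)) (Ix g) (Polynomial ℤ))
    (E' : Matrix (Fin (2 * g)) (Ix g) ℚ) (p : Ix g × Ix g) :
    MvPolynomial (Option (Fin (2 * g) × Fin (2 * g))) ℂ :=
  ∑ j, (∑ i, Polynomial.aeval (MvPolynomial.X none) (F i p.1) *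
    MvPolynomial.X (some (i, j))) * MvPolynomial.C ((E' j p.2 : ℚ) : ℂ)

theorem eval_psP {g : ℕ} (F : Matrix (Fin (2 * g)) (Ix g) (Polynomial ℤ))
    (E' : Matrix (Fin (2 * g)) (Ix g) ℚ) (p : Ix g × Ix g) (ψ : ℂ)
    (X : Matrix (Fin (2 * g)) (Fin (2 * g)) ℂ) :
    MvPolynomial.eval (HGP.opt ψ (fun p => X p.1 p.2)) (psP F E' p) = Ps F E' ψ X p.1 p.2 := by
  unfold psP Ps
  rw [map_sum, Matrix.mul_apply]
  refine Finset.sum_congr rfl fun j _ => ?_
  rw [map_mul, map_sum, MvPolynomial.eval_C, Matrix.mul_apply]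
  congr 1
  refine Finset.sum_congr rfl fun i _ => ?_
  rw [map_mul, eval_paeval, MvPolynomial.eval_X, MvPolynomial.eval_X]
  rfl

theorem adj_eq {g : ℕ} {A : Matrix (Fin g) (Fin g) ℂ} (hA : A.det ≠ 0) :
    A.adjugate = A.det • A⁻¹ := by
  rw [Matrix.inv_def, smul_smul, Ring.mul_inverse_cancel _ (isUnit_iff_ne_zero.2 hA), one_smul]

/-- The determinant of the block as a polynomial. -/
def Dl (g : ℕ) : MvPolynomial (Option (Idx g)) ℂ :=
  (Matrix.of fun i j : Fin g =>
    (MvPolynomial.X (some (Sum.inl (i, j))) : MvPolynomial (Option (Idx g)) ℂ)).det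

theorem eval_Dl {g : ℕ} (v : Option (Idx g) → ℂ) :
    MvPolynomial.eval v (Dl g) = (HGP.Aof (fun x => v (some x))).det := by
  unfold Dl
  rw [RingHom.map_det]
  congr 1
  ext i j
  simp [HGP.Aof]

theorem Dl_ne (g : ℕ) : Dl g ≠ 0 := by
  intro h
  have h1 := eval_Dl (g := g) (fun o => o.elim 0 (fun x => match x with
    | .inl p => if p.1 = p.2 then 1 else 0
    | .inr _ => 0))
  rw [h, map_zero] at h1
  have h2 : HGP.Aof (g := g) (fun x => (some x : Option (Idx g)).elim 0 (fun x => match x with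
    | .inl p => if p.1 = p.2 then (1 : ℂ) else 0
    | .inr _ => 0)) = 1 := by
    ext i j
    simp [HGP.Aof, Matrix.one_apply]
  rw [h2, Matrix.det_one] at h1
  exact zero_ne_one h1

end IND_

open IND_ in
theorem ind_proof (hFiber : Stmt_Fiber) (hPsi : Stmt_Psi) (hGvec : Stmt_Gvec)
    (hCellB : HGP.Stmt_CellB) : Stmt_Ind := by
  intro g F F' E E' hg hF hE z0 R hR hball Q hQ
  obtain ⟨G, hG⟩ := hGvec g
  set GP : Idx g → MvPolynomial (Option (Fin (2 * g) × Fin (2 * g))) ℂ := fun x =>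
    MvPolynomial.aeval (psP F E') (G x) with hGP
  set P : MvPolynomial (Option (Fin (2 * g) × Fin (2 * g))) ℂ :=
    MvPolynomial.bind₁ (fun o : Option (Idx g) => o.elim (MvPolynomial.X none) GP) Q with hP
  have hGPe : ∀ (ψ : ℂ) (X : Matrix (Fin (2 * g)) (Fin (2 * g)) ℂ) (x : Idx g),
      MvPolynomial.eval (HGP.opt ψ (fun p => X p.1 p.2)) (GP x) = gvec (Ps F E' ψ X) x := by
    intro ψ X x
    rw [hGP]
    simp only
    rw [eval_aeval]
    simp only [eval_psP]
    exact hG _ x
  have hPe : ∀ (ψ : ℂ) (X : Matrix (Fin (2 * g)) (Fin (2 * g)) ℂ),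
      MvPolynomial.eval (HGP.opt ψ (fun p => X p.1 p.2)) P =
        MvPolynomial.eval (HGP.opt ψ (gvec (Ps F E' ψ X))) Q := by
    intro ψ X
    have h1 : MvPolynomial.aeval (HGP.opt ψ (fun p : Fin (2 * g) × Fin (2 * g) => X p.1 p.2)) P =
        MvPolynomial.aeval (HGP.opt ψ (gvec (Ps F E' ψ X))) Q := by
      rw [hP, MvPolynomial.aeval_bind₁]
      congr 1
      congr 1
      funext o
      cases o with
      | none =>
        show MvPolynomial.aeval _ (MvPolynomial.X none) = ψ
        rw [MvPolynomial.aeval_X]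
        rfl
      | some x => exact hGPe ψ X x
    exact h1
  have hfib := hFiber g hg P z0 R hR hball (fun ψ hψ => by
    rw [hPe]
    exact hQ ψ hψ)
  have hkey : ∀ ψ ∈ ball (0 : ℂ) 1, ∀ u : Idx g → ℂ, (HGP.Aof u).det ≠ 0 →
      MvPolynomial.eval (HGP.opt ψ u) Q = 0 := by
    intro ψ hψ u hu
    set kap : ℂ := (2 * Real.pi * Complex.I) ^ (2 * g - 1) with hkap
    set w : Idx g → ℂ := fun x => match x with
      | .inl p => u (.inl p)
      | .inr q => (HGP.Aof u).det⁻¹ * u (.inr q) with hw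
    have hAw : HGP.Aof w = HGP.Aof u := rfl
    have hdw : (HGP.Aof w).det ≠ 0 := by rw [hAw]; exact hu
    obtain ⟨h1, h2, h3⟩ := hCellB g w kap hdw
    have hψ1 : 1 - ψ ^ (2 * g + 1) ≠ 0 := by
      intro h0
      have h4 : ψ ^ (2 * g + 1) = 1 := (sub_eq_zero.1 h0).symm
      have h5 : ‖ψ‖ ^ (2 * g + 1) = 1 := by rw [← norm_pow, h4, norm_one]
      have h6 : ‖ψ‖ < 1 := by simpa using hψ
      have h7 : ‖ψ‖ ^ (2 * g + 1) < 1 := pow_lt_one₀ (norm_nonneg _) h6 (by omega)
      exact absurd h5 h7.ne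
    obtain ⟨h4, h5⟩ := (hPsi g F F' E E' hF hE ψ (2 * Real.pi * Complex.I) hψ1).2
      (HGP.mvec w kap) h1
    have h6 := hfib ψ hψ _ h4
    rw [hPe, h5] at h6
    have h7 : gvec (HGP.mvec w kap) = u := by
      funext x
      have h8 := congrFun h3 x
      rw [hAw] at h2
      rcases x with p | q | q
      · exact h8
      · have h9 : gvec (HGP.mvec w kap) (.inr (.inl q)) =
            (HGP.Aof u).det * HGP.fvec (HGP.mvec w kap) (.inr (.inl q)) := by
          show ((HGP.mvec w kap).toBlocks₂₁ * (HGP.mvec w kap).toBlocks₁₁.adjugate) q.1.1 q.1.2 =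
            (HGP.Aof u).det *
              ((HGP.mvec w kap).toBlocks₂₁ * (HGP.mvec w kap).toBlocks₁₁⁻¹) q.1.1 q.1.2
          rw [h2, adj_eq hu, Matrix.mul_smul, Matrix.smul_apply, smul_eq_mul]
        rw [h9, h8]
        show (HGP.Aof u).det * ((HGP.Aof u).det⁻¹ * u (.inr (.inl q))) = u (.inr (.inl q))
        rw [← mul_assoc, mul_inv_cancel₀ hu, one_mul]
      · have h9 : gvec (HGP.mvec w kap) (.inr (.inr q)) =
            (HGP.Aof u).det * HGP.fvec (HGP.mvec w kap) (.inr (.inr q)) := by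
          show ((HGP.mvec w kap).toBlocks₁₁.adjugate * (HGP.mvec w kap).toBlocks₁₂) q.1.1 q.1.2 =
            (HGP.Aof u).det *
              ((HGP.mvec w kap).toBlocks₁₁⁻¹ * (HGP.mvec w kap).toBlocks₁₂) q.1.1 q.1.2
          rw [h2, adj_eq hu, Matrix.smul_mul, Matrix.smul_apply, smul_eq_mul]
        rw [h9, h8]
        show (HGP.Aof u).det * ((HGP.Aof u).det⁻¹ * u (.inr (.inr q))) = u (.inr (.inr q))
        rw [← mul_assoc, mul_inv_cancel₀ hu, one_mul]
    rw [h7] at h6
    exact h6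
  have hprod : Q * Dl g = 0 := by
    have hinf : ∀ o : Option (Idx g),
        (o.elim (ball (0 : ℂ) 1) (fun _ => (Set.univ : Set ℂ))).Infinite := by
      intro o
      cases o with
      | none =>
        have h1 : (ball (0 : ℂ) 1).Infinite :=
          infinite_of_mem_nhds (0 : ℂ) (ball_mem_nhds _ one_pos)
        exact h1
      | some x => exact Set.infinite_univ
    refine MvPolynomial.funext_set _ hinf fun v hv => ?_
    rw [map_mul, map_zero, eval_Dl]
    by_cases hd : (HGP.Aof (fun x => v (some x))).det = 0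
    · rw [hd, mul_zero]
    · have h1 := hkey (v none) (hv none (Set.mem_univ _)) (fun x => v (some x)) hd
      rw [opt_eta] at h1
      rw [h1, zero_mul]
  rcases mul_eq_zero.1 hprod with h | h
  · exact h
  · exact absurd h (Dl_ne g)

end

end Pool.Agent.CYP
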