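import Pool.Agent.CYP.Stmts

/-!
# CYP: INV, Stieltjes inversion
-/

open scoped BigOperators Topology
open Metric Set MeasureTheory

namespace Pool.Agent.CYP

namespace INV_

noncomputable section

variable {μ : Measure ℝ} [IsFiniteMeasure μ]

lemma ne0 {x ε s : ℝ} (hε : ε ≠ 0) : ((x : ℂ) + ε * Complex.I) - s ≠ 0 := by
  intro h
  have := congrArg Complex.im h
  simp at this
  exact hε this

lemma int_inv {x ε : ℝ} (hε : ε ≠ 0) :
    Integrable (fun s : ℝ => (((x : ℂ) + ε * Complex.I) - s)⁻¹) μ := by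
  have hc : Continuous (fun s : ℝ => (((x : ℂ) + ε * Complex.I) - s)⁻¹) := by
    refine Continuous.inv₀ (by fun_prop) fun s => ne0 hε
  refine Integrable.of_bound hc.aestronglyMeasurable |ε|⁻¹ (Filter.Eventually.of_forall fun s => ?_)
  rw [norm_inv]
  refine inv_anti₀ (abs_pos.mpr hε) ?_
  have h1 := Complex.abs_im_le_norm (((x : ℂ) + ε * Complex.I) - s)
  simpa using h1

lemma poisson {x ε : ℝ} (hε : 0 < ε) :
    Integrable (fun s : ℝ => 2 * ε / ((x - s) ^ 2 + ε ^ 2)) μ ∧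
    ‖(∫ s : ℝ, (((x : ℂ) + ((-ε : ℝ) : ℂ) * Complex.I) - s)⁻¹ ∂μ) -
      ∫ s : ℝ, (((x : ℂ) + ε * Complex.I) - s)⁻¹ ∂μ‖ =
      ∫ s : ℝ, 2 * ε / ((x - s) ^ 2 + ε ^ 2) ∂μ := by
  have hpos : ∀ s : ℝ, 0 < (x - s) ^ 2 + ε ^ 2 := fun s => by positivity
  have hpt : ∀ s : ℝ, (((x : ℂ) + ((-ε : ℝ) : ℂ) * Complex.I) - s)⁻¹ -
      (((x : ℂ) + ε * Complex.I) - s)⁻¹ =
      ((2 * ε / ((x - s) ^ 2 + ε ^ 2) : ℝ) : ℂ) * Complex.I := by
    intro s
    have h1 : ((x : ℂ) + ((-ε : ℝ) : ℂ) * Complex.I) - s ≠ 0 := ne0 (neg_ne_zero.mpr hε.ne')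
    have h2 : ((x : ℂ) + ε * Complex.I) - s ≠ 0 := ne0 hε.ne'
    have h3 : (((x : ℂ) - s) ^ 2 + (ε : ℂ) ^ 2) ≠ 0 := by
      have := (hpos s).ne'
      exact_mod_cast this
    have h4 : (((x : ℂ) + ((-ε : ℝ) : ℂ) * Complex.I) - s) * (((x : ℂ) + ε * Complex.I) - s) =
        ((x : ℂ) - s) ^ 2 + (ε : ℂ) ^ 2 := by
      push_cast
      linear_combination (-(ε : ℂ) ^ 2) * Complex.I_sq
    rw [inv_sub_inv h1 h2, h4]
    push_cast
    rw [div_mul_eq_mul_div]
    congr 1
    ring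
  have hi := (int_inv (μ := μ) (x := x) (neg_ne_zero.mpr hε.ne')).sub
    (int_inv (μ := μ) (x := x) hε.ne')
  have hc : Continuous (fun s : ℝ => 2 * ε / ((x - s) ^ 2 + ε ^ 2)) :=
    Continuous.div (by fun_prop) (by fun_prop) fun s => (hpos s).ne'
  have hb : Integrable (fun s : ℝ => 2 * ε / ((x - s) ^ 2 + ε ^ 2)) μ := by
    refine Integrable.of_bound hc.aestronglyMeasurable (2 * ε / ε ^ 2)
      (Filter.Eventually.of_forall fun s => ?_)
    rw [Real.norm_eq_abs, abs_of_nonneg (div_nonneg (by linarith) (hpos s).le)]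
    exact div_le_div_of_nonneg_left (by linarith) (by positivity)
      (by nlinarith [sq_nonneg (x - s)])
  refine ⟨hb, ?_⟩
  rw [← integral_sub (int_inv (neg_ne_zero.mpr hε.ne')) (int_inv hε.ne')]
  simp only [hpt]
  have hof : ∫ s : ℝ, ((2 * ε / ((x - s) ^ 2 + ε ^ 2) : ℝ) : ℂ) ∂μ =
      ((∫ s : ℝ, 2 * ε / ((x - s) ^ 2 + ε ^ 2) ∂μ : ℝ) : ℂ) := integral_ofReal
  rw [integral_mul_const, hof, norm_mul, Complex.norm_I, mul_one, Complex.norm_real,
    Real.norm_eq_abs, abs_of_nonneg]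
  exact integral_nonneg fun s => div_nonneg (by linarith) (hpos s).le

lemma small {x ε δ : ℝ} (hε : 0 < ε) (h : ∫ s : ℝ, 2 * ε / ((x - s) ^ 2 + ε ^ 2) ∂μ ≤ δ) :
    μ.real (Icc (x - ε) (x + ε)) ≤ δ * ε := by
  have hpos : ∀ s : ℝ, 0 < (x - s) ^ 2 + ε ^ 2 := fun s => by positivity
  have h1 := mul_meas_ge_le_integral_of_nonneg (μ := μ)
    (f := fun s : ℝ => 2 * ε / ((x - s) ^ 2 + ε ^ 2))
    (Filter.Eventually.of_forall fun s => div_nonneg (by linarith) (hpos s).le)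
    (poisson hε).1 (1 / ε)
  have h2 : μ.real (Icc (x - ε) (x + ε)) ≤
      μ.real {s : ℝ | 1 / ε ≤ 2 * ε / ((x - s) ^ 2 + ε ^ 2)} := by
    refine measureReal_mono ?_
    intro s hs
    show 1 / ε ≤ 2 * ε / ((x - s) ^ 2 + ε ^ 2)
    rw [div_le_div_iff₀ hε (hpos s)]
    have h3 : (x - s) ^ 2 ≤ ε ^ 2 := by
      rw [mem_Icc] at hs
      nlinarith [hs.1, hs.2]
    nlinarith
  have h4 : 1 / ε * μ.real (Icc (x - ε) (x + ε)) ≤ δ :=
    (mul_le_mul_of_nonneg_left h2 (by positivity)).trans (h1.trans h)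
  rw [one_div, inv_mul_le_iff₀ hε] at h4
  linarith

/-- the points `1 / w` lie in the sector -/
lemma inv_mem {η a b x y : ℝ} (ha : 0 < a) (hb : b < 1) (hx : x ∈ Icc a b)
    (hy1 : y ^ 2 < a * (1 - b)) (hy2 : |y| < η * a) :
    ((x : ℂ) + y * Complex.I)⁻¹ ∈ Sec η ∧ (y ≠ 0 → (((x : ℂ) + y * Complex.I)⁻¹).im ≠ 0) := by
  have hx0 : 0 < x := ha.trans_le hx.1
  have hns : Complex.normSq ((x : ℂ) + y * Complex.I) = x ^ 2 + y ^ 2 := by
    rw [Complex.normSq_add_mul_I]
  have hp : 0 < x ^ 2 + y ^ 2 := by positivity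
  have hre : (((x : ℂ) + y * Complex.I)⁻¹).re = x / (x ^ 2 + y ^ 2) := by
    rw [Complex.inv_re, hns]
    simp
  have him : (((x : ℂ) + y * Complex.I)⁻¹).im = -y / (x ^ 2 + y ^ 2) := by
    rw [Complex.inv_im, hns]
    simp
  have hη : 0 < η := by
    have h1 := abs_nonneg y
    by_contra h
    push Not at h
    nlinarith
  refine ⟨⟨?_, ?_⟩, fun hy => ?_⟩
  · rw [hre, lt_div_iff₀ hp, one_mul]
    nlinarith [hx.1, hx.2]
  · rw [him, hre, abs_div, abs_neg, abs_of_pos hp, mul_div_assoc']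
    exact div_lt_div_of_pos_right (by nlinarith [hx.1]) hp
  · rw [him]
    exact div_ne_zero (neg_ne_zero.mpr hy) hp.ne'

lemma on_Icc {η : ℝ} {g : ℂ → ℂ} (hη : 0 < η) (hg : DifferentiableOn ℂ g (Sec η))
    (h : ∀ ψ ∈ Sec η, ψ.im ≠ 0 → ∫ s : ℝ, (1 - (s : ℂ) * ψ)⁻¹ ∂μ = g ψ) {a b : ℝ} (ha : 0 < a)
    (hb : b < 1) (hab : a < b) : μ (Icc a b) = 0 := by
  -- the height of the rectangle
  obtain ⟨e, he0, he1, he2⟩ : ∃ e : ℝ, 0 < e ∧ e ^ 2 < a * (1 - b) ∧ e < η * a := by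
    have h1 : 0 < a * (1 - b) := mul_pos ha (by linarith)
    have h2 : 0 < η * a := mul_pos hη ha
    refine ⟨min (Real.sqrt (a * (1 - b)) / 2) (η * a / 2), ?_, ?_, ?_⟩
    · exact lt_min (by positivity) (by positivity)
    · have h3 : min (Real.sqrt (a * (1 - b)) / 2) (η * a / 2) ≤ Real.sqrt (a * (1 - b)) / 2 :=
        min_le_left _ _
      have h4 : 0 < min (Real.sqrt (a * (1 - b)) / 2) (η * a / 2) :=
        lt_min (by positivity) (by positivity)
      have h5 : Real.sqrt (a * (1 - b)) ^ 2 = a * (1 - b) := Real.sq_sqrt h1.le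
      nlinarith
    · exact lt_of_le_of_lt (min_le_right _ _) (by linarith)
  have hmem : ∀ x ∈ Icc a b, ∀ y : ℝ, |y| ≤ e → ((x : ℂ) + y * Complex.I)⁻¹ ∈ Sec η ∧
      (y ≠ 0 → (((x : ℂ) + y * Complex.I)⁻¹).im ≠ 0) := by
    intro x hx y hy
    refine inv_mem ha hb hx ?_ (lt_of_le_of_lt hy he2)
    have : y ^ 2 ≤ e ^ 2 := by
      rw [← sq_abs y]
      exact pow_le_pow_left₀ (abs_nonneg y) hy 2
    linarith
  -- the boundary function
  set w : ℝ × ℝ → ℂ := fun p => (p.1 : ℂ) + p.2 * Complex.I with hw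
  set F : ℝ × ℝ → ℂ := fun p => g (w p)⁻¹ * (w p)⁻¹ with hF
  set K : Set (ℝ × ℝ) := Icc a b ×ˢ Icc (-e) e with hK
  have hKc : IsCompact K := isCompact_Icc.prod isCompact_Icc
  have hcw : Continuous w := by rw [hw]; fun_prop
  have hw0 : ∀ p ∈ K, w p ≠ 0 := by
    intro p hp h0
    have h1 := congrArg Complex.re h0
    simp [hw] at h1
    have := hp.1.1
    linarith
  have hwS : ∀ p ∈ K, (w p)⁻¹ ∈ Sec η := fun p hp =>
    (hmem p.1 hp.1 p.2 (abs_le.mpr hp.2)).1
  have hcinv : ContinuousOn (fun p => (w p)⁻¹) K := hcw.continuousOn.inv₀ hw0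
  have hFc : ContinuousOn F K := (hg.continuousOn.comp hcinv hwS).mul hcinv
  have huc := Metric.uniformContinuousOn_iff.mp (hKc.uniformContinuousOn_of_continuous hFc)
  -- the transform
  have hT : ∀ x ∈ Icc a b, ∀ y : ℝ, y ≠ 0 → |y| ≤ e →
      ∫ s : ℝ, (((x : ℂ) + y * Complex.I) - s)⁻¹ ∂μ = F (x, y) := by
    intro x hx y hy0 hy
    obtain ⟨h1, h2⟩ := hmem x hx y hy
    have h3 := h _ h1 (h2 hy0)
    have hz : (x : ℂ) + y * Complex.I ≠ 0 := by
      have := ne0 (x := x) (s := 0) hy0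
      simpa using this
    simp only [hF, hw]
    rw [← h3, ← integral_mul_const]
    refine integral_congr_ae (Filter.Eventually.of_forall fun s => ?_)
    have h4 : ((x : ℂ) + y * Complex.I) - s ≠ 0 := ne0 hy0
    simp only
    rw [← mul_inv, sub_mul, one_mul, mul_assoc, inv_mul_cancel₀ hz, mul_one]
  have key : ∀ δ : ℝ, 0 < δ → μ.real (Icc a b) ≤ δ * (2 * (b - a)) := by
    intro δ hδ
    obtain ⟨d, hd, hd2⟩ := huc δ hδ
    obtain ⟨m, hm⟩ := exists_nat_gt (max ((b - a) / e) (2 * (b - a) / d))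
    have hba : 0 < b - a := by linarith
    have hm1 : (b - a) / e < m := lt_of_le_of_lt (le_max_left _ _) hm
    have hm2 : 2 * (b - a) / d < m := lt_of_le_of_lt (le_max_right _ _) hm
    have hmp : (0 : ℝ) < m := lt_trans (by positivity) hm1
    set ε : ℝ := (b - a) / m with hε
    have hεp : 0 < ε := by positivity
    have hεe : ε ≤ e := by
      rw [hε, div_le_iff₀ hmp]
      rw [div_lt_iff₀ he0] at hm1
      linarith
    have hεd : 2 * ε < d := by
      rw [hε, mul_div_assoc', div_lt_iff₀ hmp]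
      rw [div_lt_iff₀ hd] at hm2
      linarith
    have hx : ∀ x ∈ Icc a b, μ.real (Icc (x - ε) (x + ε)) ≤ δ * ε := by
      intro x hx
      refine small hεp ?_
      rw [← (poisson hεp).2, hT x hx (-ε) (neg_ne_zero.mpr hεp.ne') (by
        rw [abs_neg, abs_of_pos hεp]; exact hεe), hT x hx ε hεp.ne' (by
        rw [abs_of_pos hεp]; exact hεe)]
      have h5 := hd2 (x, -ε) ⟨hx, by constructor <;> simp only <;> linarith⟩ (x, ε)
        ⟨hx, by constructor <;> simp only <;> linarith⟩ (by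
          rw [Prod.dist_eq, dist_self, max_lt_iff]
          refine ⟨hd, ?_⟩
          rw [Real.dist_eq]
          have : |(-ε) - ε| = 2 * ε := by
            rw [show (-ε) - ε = -(2 * ε) by ring, abs_neg, abs_of_pos (by linarith)]
          simp only
          rw [this]
          exact hεd)
      rw [dist_eq_norm] at h5
      exact h5.le
    have hcov : Icc a b ⊆ ⋃ i ∈ Finset.range (m + 1), Icc (a + i * ε - ε) (a + i * ε + ε) := by
      intro s hs
      have h6 : 0 ≤ (s - a) / ε := div_nonneg (by linarith [hs.1]) hεp.le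
      have h7 : (s - a) / ε ≤ m := by
        rw [div_le_iff₀ hεp, hε, mul_div_cancel₀ _ hmp.ne']
        linarith [hs.2]
      have h8 := Nat.floor_le h6
      have h9 := Nat.lt_floor_add_one ((s - a) / ε)
      rw [le_div_iff₀ hεp] at h8
      rw [div_lt_iff₀ hεp] at h9
      rw [mem_iUnion₂]
      refine ⟨⌊(s - a) / ε⌋₊, ?_, ?_, ?_⟩
      · rw [Finset.mem_range]
        have h10 : ⌊(s - a) / ε⌋₊ ≤ m := by
          have := Nat.floor_le_floor h7
          rwa [Nat.floor_natCast] at this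
        omega
      · linarith
      · linarith
    have hxi : ∀ i ∈ Finset.range (m + 1), a + (i : ℝ) * ε ∈ Icc a b := by
      intro i hi
      rw [Finset.mem_range] at hi
      have h11 : (i : ℝ) ≤ m := by exact_mod_cast (by omega : i ≤ m)
      have h12 : (m : ℝ) * ε = b - a := by
        rw [hε, mul_div_cancel₀ _ hmp.ne']
      have h13 : (0 : ℝ) ≤ i := Nat.cast_nonneg i
      constructor <;> nlinarith
    have hsum : μ.real (Icc a b) ≤ ∑ i ∈ Finset.range (m + 1), δ * ε := by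
      refine (measureReal_mono hcov ?_).trans ((measureReal_biUnion_finset_le _ _).trans ?_)
      · exact measure_ne_top _ _
      · exact Finset.sum_le_sum fun i hi => hx _ (hxi i hi)
    rw [Finset.sum_const, Finset.card_range, nsmul_eq_mul] at hsum
    have hm1' : (1 : ℝ) ≤ m := by
      have : 0 < m := by exact_mod_cast hmp
      exact_mod_cast this
    have h12 : (m : ℝ) * ε = b - a := by
      rw [hε, mul_div_cancel₀ _ hmp.ne']
    have h14 : ε ≤ b - a := by nlinarith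
    push_cast at hsum
    have h15 : ((m : ℝ) + 1) * (δ * ε) = δ * (b - a + ε) := by
      rw [← h12]; ring
    rw [h15] at hsum
    refine hsum.trans (mul_le_mul_of_nonneg_left (by linarith) hδ.le)
  have h0 : μ.real (Icc a b) ≤ 0 := by
    refine le_of_forall_pos_le_add fun t ht => ?_
    have hba : 0 < b - a := by linarith
    have h1 := key (t / (2 * (b - a))) (by positivity)
    rw [div_mul_cancel₀ _ (by positivity)] at h1
    linarith
  have h1 : μ.real (Icc a b) = 0 := le_antisymm h0 measureReal_nonneg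
  rwa [measureReal_eq_zero_iff] at h1

end

end INV_

theorem inv_proof : Stmt_Inv := by
  intro μ _ _ η g hη hg h
  have hcov : Ioo (0 : ℝ) 1 ⊆ ⋃ k : ℕ, Icc (1 / ((k : ℝ) + 3)) (1 - 1 / ((k : ℝ) + 3)) := by
    intro s hs
    obtain ⟨k, hk⟩ := exists_nat_gt (max (1 / s) (1 / (1 - s)))
    have h1 : 1 / s < k := lt_of_le_of_lt (le_max_left _ _) hk
    have h2 : 1 / (1 - s) < k := lt_of_le_of_lt (le_max_right _ _) hk
    have hs0 := hs.1
    have hs1 : 0 < 1 - s := by linarith [hs.2]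
    rw [mem_iUnion]
    refine ⟨k, ?_, ?_⟩
    · rw [div_le_iff₀ (by positivity)]
      rw [div_lt_iff₀ hs0] at h1
      nlinarith
    · have h3 : 1 / ((k : ℝ) + 3) ≤ 1 - s := by
        rw [div_le_iff₀ (by positivity)]
        rw [div_lt_iff₀ hs1] at h2
        nlinarith
      linarith
  refine measure_mono_null hcov (measure_iUnion_null fun k => ?_)
  have hk : (0 : ℝ) < (k : ℝ) + 3 := by positivity
  have h3 : 1 / ((k : ℝ) + 3) ≤ 1 / 3 := by
    refine one_div_le_one_div_of_le (by norm_num) ?_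
    have : (0 : ℝ) ≤ k := Nat.cast_nonneg k
    linarith
  have h4 : 0 < 1 / ((k : ℝ) + 3) := by positivity
  exact INV_.on_Icc hη hg h h4 (by linarith) (by linarith)

end Pool.Agent.CYP
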