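import Pool.Agent.CYP.Stmts

/-!
# CYP, module LAGR: the Lagrange identity of the Picard-Fuchs equation
-/

open scoped BigOperators Topology
open Metric Set

namespace Pool.Agent.CYP

namespace LAGR_

noncomputable section

/-- `D (ψ D)^(i-1) (ψ f)`. -/
def thp (i : ℕ) (f : ℂ → ℂ) (ψ : ℂ) : ℂ :=
  ∑ k ∈ Finset.range (i + 1), (Nat.stirlingSecond (i + 1) (k + 1) : ℂ) * ψ ^ k *
    iteratedDeriv k f ψ

lemma hasDeriv_iter {f : ℂ → ℂ} (hf : DifferentiableOn ℂ f (ball 0 1)) {ψ : ℂ}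
    (hψ : ψ ∈ ball (0 : ℂ) 1) (k : ℕ) :
    HasDerivAt (iteratedDeriv k f) (iteratedDeriv (k + 1) f ψ) ψ := by
  have h1 : AnalyticOnNhd ℂ f (ball 0 1) := hf.analyticOnNhd isOpen_ball
  have h2 := h1.iterated_deriv k
  rw [← iteratedDeriv_eq_iterate] at h2
  rw [iteratedDeriv_succ]
  exact (h2 ψ hψ).differentiableAt.hasDerivAt

lemma thp_hasDeriv {f : ℂ → ℂ} (hf : DifferentiableOn ℂ f (ball 0 1)) {ψ : ℂ}
    (hψ : ψ ∈ ball (0 : ℂ) 1) (i : ℕ) :
    HasDerivAt (fun z => z * thp i f z) (thp (i + 1) f ψ) ψ := by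
  have h1 : ∀ k ∈ Finset.range (i + 1), HasDerivAt
      (fun z => (Nat.stirlingSecond (i + 1) (k + 1) : ℂ) * (z ^ (k + 1) * iteratedDeriv k f z))
      ((Nat.stirlingSecond (i + 1) (k + 1) : ℂ) * ((((k + 1 : ℕ) : ℂ) * ψ ^ k) *
        iteratedDeriv k f ψ + ψ ^ (k + 1) * iteratedDeriv (k + 1) f ψ)) ψ := by
    intro k _
    have h2 := (hasDerivAt_pow (k + 1) ψ).mul (hasDeriv_iter hf hψ k)
    exact h2.const_mul _
  have h3 := HasDerivAt.fun_sum h1
  have h4 : (fun z => z * thp i f z) = fun z => ∑ k ∈ Finset.range (i + 1),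
      (Nat.stirlingSecond (i + 1) (k + 1) : ℂ) * (z ^ (k + 1) * iteratedDeriv k f z) := by
    funext z
    rw [thp, Finset.mul_sum]
    exact Finset.sum_congr rfl fun k _ => by ring
  rw [h4]
  have h5 : thp (i + 1) f ψ = ∑ k ∈ Finset.range (i + 1),
      ((Nat.stirlingSecond (i + 1) (k + 1) : ℂ) * ((((k + 1 : ℕ) : ℂ) * ψ ^ k) *
        iteratedDeriv k f ψ + ψ ^ (k + 1) * iteratedDeriv (k + 1) f ψ)) := by
    have e1 : thp (i + 1) f ψ = ∑ k ∈ Finset.range (i + 1 + 1),
        (((k + 1 : ℕ) : ℂ) * (Nat.stirlingSecond (i + 1) (k + 1) : ℂ) * ψ ^ k *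
          iteratedDeriv k f ψ) + ∑ k ∈ Finset.range (i + 1 + 1),
        ((Nat.stirlingSecond (i + 1) k : ℂ) * ψ ^ k * iteratedDeriv k f ψ) := by
      rw [thp, ← Finset.sum_add_distrib]
      refine Finset.sum_congr rfl fun k _ => ?_
      rw [Nat.stirlingSecond_succ_succ]
      push_cast
      ring
    rw [e1, Finset.sum_range_succ, Nat.stirlingSecond_eq_zero_of_lt (by omega), add_assoc,
      Finset.sum_range_succ' (fun k => (Nat.stirlingSecond (i + 1) k : ℂ) * ψ ^ k *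
        iteratedDeriv k f ψ), Nat.stirlingSecond_succ_zero]
    simp only [Nat.cast_zero, mul_zero, zero_mul, add_zero, zero_add]
    rw [← Finset.sum_add_distrib]
    exact Finset.sum_congr rfl fun k _ => by push_cast; ring
  rw [h5]
  exact h3

lemma psi_thp {n i : ℕ} (hi : i < n) (f : ℂ → ℂ) (ψ : ℂ) :
    ψ * thp i f ψ = ∑ a ∈ Finset.range n, (Nat.stirlingSecond (i + 1) (a + 1) : ℂ) *
      ψ ^ (a + 1) * iteratedDeriv a f ψ := by
  rw [thp, Finset.mul_sum]
  have h : Finset.range (i + 1) ⊆ Finset.range n := Finset.range_subset_range.2 (by omega)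
  rw [← Finset.sum_subset h]
  · exact Finset.sum_congr rfl fun k _ => by ring
  · intro k _ hk
    rw [Finset.mem_range, not_lt] at hk
    rw [Nat.stirlingSecond_eq_zero_of_lt (by omega)]
    simp

lemma bf_eq {n : ℕ} (f g : ℂ → ℂ) (ψ : ℂ) : Bf n f g ψ =
    ∑ i ∈ Finset.range n, ((-1) ^ i * (iteratedDeriv (n - 1 - i) f ψ * iteratedDeriv i g ψ) -
      (-1) ^ i * ((ψ * thp (n - 1 - i) f ψ) * (ψ * thp i g ψ))) := by
  have e0 : Bf n f g ψ = ∑ a ∈ Finset.range n, ∑ b ∈ Finset.range n,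
      (iteratedDeriv a f ψ * (if a + b + 1 = n then (-1) ^ b else 0) * iteratedDeriv b g ψ) -
      ∑ a ∈ Finset.range n, ∑ b ∈ Finset.range n,
      (iteratedDeriv a f ψ * (ψ ^ (a + b + 2) * ∑ i ∈ Finset.range n, (-1) ^ (n - 1 - i) *
      ((Nat.stirlingSecond (i + 1) (a + 1) : ℂ) * (Nat.stirlingSecond (n - i) (b + 1) : ℂ))) *
        iteratedDeriv b g ψ) := by
    rw [Bf, ← Finset.sum_sub_distrib]
    refine Finset.sum_congr rfl fun a _ => ?_
    rw [← Finset.sum_sub_distrib]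
    refine Finset.sum_congr rfl fun b _ => ?_
    rw [Rf]
    ring
  rw [e0, Finset.sum_sub_distrib]
  congr 1
  · rw [Finset.sum_comm]
    refine Finset.sum_congr rfl fun b hb => ?_
    rw [Finset.mem_range] at hb
    rw [Finset.sum_eq_single (n - 1 - b)]
    · rw [if_pos (by omega)]
      ring
    · intro a _ hab
      rw [if_neg (by omega)]
      ring
    · intro h
      exact absurd (Finset.mem_range.2 (by omega)) h
  · rw [← Finset.sum_range_reflect (fun i => (-1 : ℂ) ^ i *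
      ((ψ * thp (n - 1 - i) f ψ) * (ψ * thp i g ψ)))]
    have e1 : ∀ i ∈ Finset.range n, (-1 : ℂ) ^ (n - 1 - i) *
        ((ψ * thp (n - 1 - (n - 1 - i)) f ψ) * (ψ * thp (n - 1 - i) g ψ)) =
        ∑ a ∈ Finset.range n, ∑ b ∈ Finset.range n, ((-1) ^ (n - 1 - i) *
        (((Nat.stirlingSecond (i + 1) (a + 1) : ℂ) * ψ ^ (a + 1) * iteratedDeriv a f ψ) *
        ((Nat.stirlingSecond (n - i) (b + 1) : ℂ) * ψ ^ (b + 1) * iteratedDeriv b g ψ))) := by
      intro i hi
      rw [Finset.mem_range] at hi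
      rw [show n - 1 - (n - 1 - i) = i by omega, psi_thp hi f ψ,
        psi_thp (show n - 1 - i < n by omega) g ψ, show n - 1 - i + 1 = n - i by omega,
        Finset.sum_mul_sum, Finset.mul_sum]
      exact Finset.sum_congr rfl fun a _ => by rw [Finset.mul_sum]
    rw [Finset.sum_congr rfl e1]
    symm
    rw [Finset.sum_comm]
    refine Finset.sum_congr rfl fun a _ => ?_
    rw [Finset.sum_comm]
    refine Finset.sum_congr rfl fun b _ => ?_
    rw [Finset.mul_sum, Finset.mul_sum, Finset.sum_mul]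
    exact Finset.sum_congr rfl fun i _ => by ring

lemma tele (u v : ℕ → ℂ) (n : ℕ) : ∑ i ∈ Finset.range n,
    ((-1) ^ i * (u (n - i) * v i + u (n - 1 - i) * v (i + 1))) =
    u n * v 0 - (-1) ^ n * (u 0 * v n) := by
  have h : ∀ i ∈ Finset.range n, ((-1 : ℂ) ^ i * (u (n - i) * v i + u (n - 1 - i) * v (i + 1))) =
      (-1) ^ i * (u (n - i) * v i) - (-1) ^ (i + 1) * (u (n - (i + 1)) * v (i + 1)) := by
    intro i _
    rw [show n - 1 - i = n - (i + 1) by omega]
    ring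
  rw [Finset.sum_congr rfl h, Finset.sum_range_sub']
  simp

lemma bf_hasDeriv {n : ℕ} (hn : 0 < n) (he : Even n) {f g : ℂ → ℂ}
    (hf : DifferentiableOn ℂ f (ball 0 1)) (hg : DifferentiableOn ℂ g (ball 0 1))
    (of : Ode n f) (og : Ode n g) {ψ : ℂ} (hψ : ψ ∈ ball (0 : ℂ) 1) :
    HasDerivAt (Bf n f g) 0 ψ := by
  have h0 : Bf n f g = fun z => ∑ i ∈ Finset.range n,
      ((-1) ^ i * (iteratedDeriv (n - 1 - i) f z * iteratedDeriv i g z) -
      (-1) ^ i * ((z * thp (n - 1 - i) f z) * (z * thp i g z))) := by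
    funext z
    exact bf_eq f g z
  rw [h0]
  have h1 : ∀ i ∈ Finset.range n, HasDerivAt (fun z : ℂ =>
      ((-1) ^ i * (iteratedDeriv (n - 1 - i) f z * iteratedDeriv i g z) -
      (-1) ^ i * ((z * thp (n - 1 - i) f z) * (z * thp i g z))))
      ((-1) ^ i * (iteratedDeriv (n - 1 - i + 1) f ψ * iteratedDeriv i g ψ +
        iteratedDeriv (n - 1 - i) f ψ * iteratedDeriv (i + 1) g ψ) -
      (-1) ^ i * (thp (n - 1 - i + 1) f ψ * (ψ * thp i g ψ) +
        (ψ * thp (n - 1 - i) f ψ) * thp (i + 1) g ψ)) ψ := by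
    intro i _
    exact (((hasDeriv_iter hf hψ _).mul (hasDeriv_iter hg hψ _)).const_mul _).sub
      (((thp_hasDeriv hf hψ _).mul (thp_hasDeriv hg hψ _)).const_mul _)
  have h2 := HasDerivAt.fun_sum h1
  have h3 : ∑ i ∈ Finset.range n,
      ((-1) ^ i * (iteratedDeriv (n - 1 - i + 1) f ψ * iteratedDeriv i g ψ +
        iteratedDeriv (n - 1 - i) f ψ * iteratedDeriv (i + 1) g ψ) -
      (-1) ^ i * (thp (n - 1 - i + 1) f ψ * (ψ * thp i g ψ) +
        (ψ * thp (n - 1 - i) f ψ) * thp (i + 1) g ψ)) = 0 := by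
    rw [Finset.sum_sub_distrib]
    have a1 : ∑ i ∈ Finset.range n,
        ((-1) ^ i * (iteratedDeriv (n - 1 - i + 1) f ψ * iteratedDeriv i g ψ +
        iteratedDeriv (n - 1 - i) f ψ * iteratedDeriv (i + 1) g ψ)) =
        iteratedDeriv n f ψ * g ψ - f ψ * iteratedDeriv n g ψ := by
      have := tele (fun k => iteratedDeriv k f ψ) (fun k => iteratedDeriv k g ψ) n
      rw [he.neg_one_pow, one_mul] at this
      simp only [iteratedDeriv_zero] at this
      rw [← this]
      refine Finset.sum_congr rfl fun i hi => ?_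
      rw [Finset.mem_range] at hi
      rw [show n - 1 - i + 1 = n - i by omega]
    have a2 : ∑ i ∈ Finset.range n,
        ((-1) ^ i * (thp (n - 1 - i + 1) f ψ * (ψ * thp i g ψ) +
        (ψ * thp (n - 1 - i) f ψ) * thp (i + 1) g ψ)) =
        ψ * thp n f ψ * g ψ - f ψ * (ψ * thp n g ψ) := by
      have := tele (fun k => thp k f ψ) (fun k => thp k g ψ) n
      rw [he.neg_one_pow, one_mul] at this
      have b1 : ∀ h : ℂ → ℂ, thp 0 h ψ = h ψ := by
        intro h
        simp [thp, Nat.stirlingSecond_self]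
      rw [b1, b1] at this
      have b2 : ψ * thp n f ψ * g ψ - f ψ * (ψ * thp n g ψ) =
          ψ * (thp n f ψ * g ψ - f ψ * thp n g ψ) := by ring
      rw [b2, ← this, Finset.mul_sum]
      refine Finset.sum_congr rfl fun i hi => ?_
      rw [Finset.mem_range] at hi
      rw [show n - 1 - i + 1 = n - i by omega]
      ring
    have a3 : ∀ h : ℂ → ℂ, Ode n h → ψ * thp n h ψ = iteratedDeriv n h ψ := by
      intro h oh
      rw [oh ψ hψ, thp, Finset.mul_sum]
      exact Finset.sum_congr rfl fun k _ => by ring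
    rw [a1, a2, a3 f of, a3 g og, sub_self]
  rw [h3] at h2
  exact h2

end

end LAGR_

open LAGR_ in
theorem lagr_proof : Stmt_Lagr := by
  intro n hn he f g hf hg of og ψ hψ
  have h0 : (0 : ℂ) ∈ ball (0 : ℂ) 1 := mem_ball_self one_pos
  have hd : DifferentiableOn ℂ (Bf n f g) (ball 0 1) := fun z hz =>
    (bf_hasDeriv hn he hf hg of og hz).differentiableAt.differentiableWithinAt
  have hz : EqOn (deriv (Bf n f g)) 0 (ball 0 1) := fun z hz =>
    (bf_hasDeriv hn he hf hg of og hz).deriv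
  exact isOpen_ball.is_const_of_deriv_eq_zero (convex_ball 0 1).isPreconnected hd hz hψ h0

end Pool.Agent.CYP
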