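import Pool.Agent.CYP.Stmts

/-!
# CYP, module LINK: the honest integrals are the derivatives of the functions on the cut plane
-/

open scoped BigOperators Topology
open Metric Set MeasureTheory

namespace Pool.Agent.CYP

noncomputable section

namespace LINK_

theorem norm_zt (n : ℕ) : ‖zt n‖ = 1 := by
  have h : zt n = Complex.exp (((2 * Real.pi / ((n : ℝ) + 1) : ℝ) : ℂ) * Complex.I) := by
    rw [zt]
    congr 1
    push_cast
    ring
  rw [h, Complex.norm_exp_ofReal_mul_I]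

theorem acf_nonneg (n m : ℕ) : 0 ≤ acf n m := by
  unfold acf
  have h1 : 0 < ((m : ℝ) + 1) / ((n : ℝ) + 1) := by positivity
  have h2 := Real.Gamma_pos_of_pos h1
  positivity

theorem acf_le (n m : ℕ) : acf n m ≤ (IntG.mu n).real univ := by
  have h1 : acf n m = ∫ s, s ^ m ∂(IntG.mu n) := by
    rw [IntG.mu_moment]
    rfl
  rw [h1]
  have h2 : ∫ s, s ^ m ∂(IntG.mu n) ≤ ∫ _ : ℝ, (1 : ℝ) ∂(IntG.mu n) := by
    refine integral_mono_of_nonneg ?_ (integrable_const 1) ?_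
    · filter_upwards [IntG.mu_ae n] with s hs
      exact pow_nonneg hs.1 m
    · filter_upwards [IntG.mu_ae n] with s hs
      exact pow_le_one₀ hs.1 hs.2
  simpa using h2

theorem pc_bound (n j : ℕ) : ∃ C : ℝ, ∀ m, ‖pc n j m‖ ≤ C := by
  refine ⟨‖(2 * Real.pi * Complex.I : ℂ)⁻¹‖ * 1 * 2 ^ (n + 1) * (IntG.mu n).real univ,
    fun m => ?_⟩
  rw [pc, norm_mul, norm_mul, norm_mul, norm_pow, norm_pow, norm_zt, one_pow]
  have h1 : ‖1 - zt n ^ (m + 1)‖ ≤ 2 := by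
    refine (norm_sub_le _ _).trans ?_
    rw [norm_pow, norm_zt, one_pow, norm_one]
    norm_num
  have h2 : ‖(acf n m : ℂ)‖ ≤ (IntG.mu n).real univ := by
    rw [Complex.norm_real, Real.norm_of_nonneg (acf_nonneg n m)]
    exact acf_le n m
  have h3 : (0 : ℝ) ≤ (IntG.mu n).real univ := measureReal_nonneg
  gcongr

theorem dint_eq (n k : ℕ) (z : ℂ) : dint n k z = ∫ x, IntG.G n k z x ∂(IntG.om n) := by
  rw [dint, IntG.om_eq]
  refine integral_congr_ae (Filter.Eventually.of_forall fun x => ?_)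
  simp only [IntG.G, IntG.P, IntG.S]
  push_cast
  rfl

theorem dint_hasSum (n k : ℕ) {z : ℂ} (hz : ‖z‖ < 1) :
    HasSum (fun m : ℕ => ((m + k).descFactorial k : ℂ) * (acf n (m + k) : ℂ) * z ^ m)
      (((n : ℂ) + 1) ^ n * ((k.factorial : ℂ) * ((n : ℂ) + 1) ^ k) * dint n k z) := by
  have h := (IntG.G_hasSum n k hz).mul_left
    (((n : ℂ) + 1) ^ n * ((k.factorial : ℂ) * ((n : ℂ) + 1) ^ k))
  rw [← dint_eq] at h
  refine h.congr_fun ?_
  intro m
  have hk : (k.factorial : ℂ) ≠ 0 := by exact_mod_cast k.factorial_ne_zero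
  have hm : (m.factorial : ℂ) ≠ 0 := by exact_mod_cast m.factorial_ne_zero
  have hmk : ((m + k).factorial : ℂ) ≠ 0 := by exact_mod_cast (m + k).factorial_ne_zero
  have hn : ((n : ℂ) + 1) ≠ 0 := by exact_mod_cast n.succ_ne_zero
  have hd : ((m + k).descFactorial k : ℂ) * (m.factorial : ℂ) = ((m + k).factorial : ℂ) := by
    have := Nat.factorial_mul_descFactorial (Nat.le_add_left k m)
    rw [Nat.add_sub_cancel] at this
    rw [mul_comm]
    exact_mod_cast this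
  have hd2 : ((m + k).descFactorial k : ℂ) = ((m + k).factorial : ℂ) / (m.factorial : ℂ) := by
    rw [← hd, mul_div_assoc, div_self hm, mul_one]
  have hg : (((k + m : ℕ) : ℝ) + 1) / ((n : ℝ) + 1) = (((m + k : ℕ) : ℝ) + 1) / ((n : ℝ) + 1) := by
    rw [add_comm k m]
  rw [hg, hd2, acf]
  generalize Real.Gamma ((((m + k : ℕ) : ℝ) + 1) / ((n : ℝ) + 1)) ^ (n + 1) = Γ
  push_cast
  have h1 : ((1 : ℂ) / ((n : ℂ) + 1)) ^ n * ((n : ℂ) + 1) ^ n = 1 := by
    rw [← mul_pow, one_div, inv_mul_cancel₀ hn, one_pow]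
  rw [mul_pow]
  generalize ((1 : ℂ) / ((n : ℂ) + 1)) ^ n = w at h1 ⊢
  field_simp
  rw [pow_add]
  linear_combination (-(((n : ℂ) + 1) ^ m * ((n : ℂ) + 1) ^ k * (Γ : ℂ) * z ^ m)) * h1

theorem per_hasSum (n k j : ℕ) {ψ : ℂ} (hψ : ‖ψ‖ < 1) :
    HasSum (fun m : ℕ => ((m + k).descFactorial k : ℂ) * pc n j (m + k) * ψ ^ m)
      ((2 * Real.pi * Complex.I)⁻¹ * ((n : ℂ) + 1) ^ n *
        ((k.factorial : ℂ) * ((n : ℂ) + 1) ^ k) * ∑ i ∈ Finset.range (n + 2),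
        (-1) ^ i * ((n + 1).choose i : ℂ) *
          ((zt n ^ (i + j)) ^ (k + 1) * dint n k (zt n ^ (i + j) * ψ))) := by
  have h1 : ∀ i ∈ Finset.range (n + 2), HasSum (fun m : ℕ => ((2 * Real.pi * Complex.I)⁻¹ *
      ((-1) ^ i * ((n + 1).choose i : ℂ) * (zt n ^ (i + j)) ^ (k + 1))) *
        (((m + k).descFactorial k : ℂ) * (acf n (m + k) : ℂ) * (zt n ^ (i + j) * ψ) ^ m))
      (((2 * Real.pi * Complex.I)⁻¹ *
      ((-1) ^ i * ((n + 1).choose i : ℂ) * (zt n ^ (i + j)) ^ (k + 1))) *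
      (((n : ℂ) + 1) ^ n * ((k.factorial : ℂ) * ((n : ℂ) + 1) ^ k) *
        dint n k (zt n ^ (i + j) * ψ))) := by
    intro i _
    refine (dint_hasSum n k ?_).mul_left _
    rw [norm_mul, norm_pow, norm_zt, one_pow, one_mul]
    exact hψ
  have h2 := hasSum_sum h1
  have e2 : ∑ i ∈ Finset.range (n + 2), ((2 * Real.pi * Complex.I)⁻¹ *
      ((-1) ^ i * ((n + 1).choose i : ℂ) * (zt n ^ (i + j)) ^ (k + 1))) *
      (((n : ℂ) + 1) ^ n * ((k.factorial : ℂ) * ((n : ℂ) + 1) ^ k) *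
        dint n k (zt n ^ (i + j) * ψ)) = (2 * Real.pi * Complex.I)⁻¹ * ((n : ℂ) + 1) ^ n *
        ((k.factorial : ℂ) * ((n : ℂ) + 1) ^ k) * ∑ i ∈ Finset.range (n + 2),
        (-1) ^ i * ((n + 1).choose i : ℂ) *
          ((zt n ^ (i + j)) ^ (k + 1) * dint n k (zt n ^ (i + j) * ψ)) := by
    rw [Finset.mul_sum]
    refine Finset.sum_congr rfl fun i _ => ?_
    ring
  rw [e2] at h2
  refine h2.congr_fun ?_
  intro m
  have h3 : (1 - zt n ^ (m + k + 1)) ^ (n + 1) = ∑ i ∈ Finset.range (n + 2),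
      (-1) ^ i * ((n + 1).choose i : ℂ) * (zt n ^ (m + k + 1)) ^ i := by
    have h4 := add_pow (-(zt n ^ (m + k + 1))) 1 (n + 1)
    rw [neg_add_eq_sub] at h4
    rw [h4]
    refine Finset.sum_congr rfl fun i _ => ?_
    rw [neg_pow, one_pow]
    ring
  rw [pc, h3]
  rw [Finset.mul_sum, Finset.sum_mul, Finset.mul_sum, Finset.sum_mul]
  refine Finset.sum_congr rfl fun i _ => ?_
  have h5 : (zt n ^ (i + j)) ^ (k + 1) * (zt n ^ (i + j) * ψ) ^ m =
      zt n ^ (j * (m + k + 1)) * (zt n ^ (m + k + 1)) ^ i * ψ ^ m := by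
    rw [mul_pow, ← pow_mul, ← pow_mul, ← pow_mul, ← mul_assoc, ← pow_add, ← pow_add]
    congr 2
    ring
  linear_combination ((2 * Real.pi * Complex.I)⁻¹ * ((-1) ^ i * ((n + 1).choose i : ℂ)) *
    ((m + k).descFactorial k : ℂ) * (acf n (m + k) : ℂ)) * h5

end LINK_

open LINK_ in
theorem link_proof (hYx : Stmt_Yx) (hPser : Stmt_Pser) : Stmt_Link := by
  intro n _ ψ hψ
  ext k j
  obtain ⟨C, hC⟩ := pc_bound n (j : ℕ)
  have h1 := (hPser (pc n (j : ℕ)) C hC).2 (k : ℕ) ψ hψ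
  have h2 : Yx n (j : ℕ) =ᶠ[𝓝 ψ] fun z => ∑' m : ℕ, pc n (j : ℕ) m * z ^ m := by
    filter_upwards [isOpen_ball.mem_nhds hψ] with z hz
    exact (hYx n (j : ℕ)).2 z hz
  have h3 : iteratedDeriv (k : ℕ) (Yx n (j : ℕ)) ψ =
      iteratedDeriv (k : ℕ) (fun z => ∑' m : ℕ, pc n (j : ℕ) m * z ^ m) ψ :=
    h2.iteratedDeriv_eq (k : ℕ)
  have h4 := per_hasSum n (k : ℕ) (j : ℕ) (mem_ball_zero_iff.mp hψ)
  rw [Per, Mx, Matrix.of_apply, Matrix.of_apply, h3]
  exact h4.unique h1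

end

end Pool.Agent.CYP
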