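import Pool.Agent.CYP.Stmts

/-!
# CYP: NX, the function does not extend across the cut
-/

open scoped BigOperators Topology
open Metric Set MeasureTheory

namespace Pool.Agent.CYP

namespace NX_

lemma mom (n : ℕ) (h0 : IntG.mu n (Ioo 0 1) = 0) (m : ℕ) : acf n (m + 1) = acf n 1 := by
  have e : ∀ k, acf n k = ∫ s, s ^ k ∂(IntG.mu n) := fun k => (IntG.mu_moment n k).symm
  rw [e, e]
  refine integral_congr_ae ?_
  filter_upwards [IntG.mu_ae n, measure_eq_zero_iff_ae_notMem.mp h0] with s h1 h2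
  have h3 : s = 0 ∨ s = 1 := by
    by_contra h
    push Not at h
    exact h2 ⟨lt_of_le_of_ne h1.1 (Ne.symm h.1), lt_of_le_of_ne h1.2 h.2⟩
  rcases h3 with rfl | rfl
  · simp
  · simp

end NX_

theorem nx_proof (hRec : Stmt_Rec) (hInv : Stmt_Inv) : Stmt_Nx := by
  rintro n hn η hη ⟨g, hg, h⟩
  have h0 : IntG.mu n (Ioo 0 1) = 0 := hInv (IntG.mu n) (IntG.mu_compl n) η g hη hg h
  have h1 := (hRec n 1).1
  have h2 := (hRec n 1).2
  have h3 : acf n (1 + n + 1) = acf n 1 := NX_.mom n h0 (1 + n)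
  rw [h3] at h2
  have h4 : (2 : ℝ) ^ n < ∏ i ∈ Finset.range n, (((1 : ℕ) : ℝ) + 2 + i) := by
    have h5 : ∏ i ∈ Finset.range n, (2 : ℝ) < ∏ i ∈ Finset.range n, (((1 : ℕ) : ℝ) + 2 + i) := by
      refine Finset.prod_lt_prod_of_nonempty (fun i _ => by norm_num) (fun i _ => ?_) ?_
      · have : (0 : ℝ) ≤ i := Nat.cast_nonneg i
        push_cast
        linarith
      · exact Finset.nonempty_range_iff.mpr hn.ne'
    simpa using h5
  have h6 : ((1 : ℕ) : ℝ) + 1 = 2 := by norm_num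
  rw [h6] at h2
  nlinarith

end Pool.Agent.CYP
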