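import Pool.Agent.CYP.Stmts

/-!
# CYP: PSI. `Ps` and `Pi'` are inverse bijections
-/

open scoped BigOperators Topology
open Matrix

namespace Pool.Agent.CYP

noncomputable section

namespace PSI_

/-- Linear algebra over a field. -/
theorem core {m n : Type} [Fintype m] [Fintype n] [DecidableEq m] [DecidableEq n]
    (f f' e e' : Matrix m n ℂ) (J : Matrix n n ℂ) (R Q : Matrix m m ℂ) (d mu : ℂ) (hd : d ≠ 0)
    (hR : f * J * f.transpose = R) (h1 : f * f'.transpose = d • (1 : Matrix m m ℂ))
    (h2 : f'.transpose * f = d • (1 : Matrix n n ℂ))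
    (hQ : e * J * e.transpose = Q) (h3 : e * e'.transpose = 1) (h4 : e'.transpose * e = 1) :
    (∀ X : Matrix m m ℂ, X.transpose * R * X = mu • Q →
      ((f.transpose * X * e').transpose * J * (f.transpose * X * e') = mu • J) ∧
      d⁻¹ • (f' * (f.transpose * X * e') * e.transpose) = X) ∧
    ∀ Y : Matrix n n ℂ, Y.transpose * J * Y = mu • J →
      ((d⁻¹ • (f' * Y * e.transpose)).transpose * R * (d⁻¹ • (f' * Y * e.transpose)) = mu • Q) ∧
      f.transpose * (d⁻¹ • (f' * Y * e.transpose)) * e' = Y := by
  have h1' : f' * f.transpose = d • (1 : Matrix m m ℂ) := by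
    have := congrArg Matrix.transpose h1
    simpa [Matrix.transpose_mul, Matrix.transpose_smul] using this
  have h2' : f.transpose * f' = d • (1 : Matrix n n ℂ) := by
    have := congrArg Matrix.transpose h2
    simpa [Matrix.transpose_mul, Matrix.transpose_smul] using this
  have h3' : e' * e.transpose = 1 := by
    have := congrArg Matrix.transpose h3
    simpa [Matrix.transpose_mul] using this
  have h4' : e.transpose * e' = 1 := by
    have := congrArg Matrix.transpose h4
    simpa [Matrix.transpose_mul] using this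
  refine ⟨fun X hX => ⟨?_, ?_⟩, fun Y hY => ⟨?_, ?_⟩⟩
  · calc (f.transpose * X * e').transpose * J * (f.transpose * X * e')
        = e'.transpose * (X.transpose * (f * J * f.transpose) * X) * e' := by
          simp only [Matrix.transpose_mul, Matrix.transpose_transpose, Matrix.mul_assoc]
      _ = e'.transpose * (mu • Q) * e' := by rw [hR, hX]
      _ = mu • ((e'.transpose * e) * J * (e.transpose * e')) := by
          rw [← hQ]
          simp only [Matrix.mul_smul, Matrix.smul_mul, Matrix.mul_assoc]
      _ = mu • J := by rw [h4, h4', Matrix.one_mul, Matrix.mul_one]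
  · calc d⁻¹ • (f' * (f.transpose * X * e') * e.transpose)
        = d⁻¹ • ((f' * f.transpose) * X * (e' * e.transpose)) := by
          simp only [Matrix.mul_assoc]
      _ = X := by
          rw [h1', h3', Matrix.mul_one, Matrix.smul_mul, Matrix.one_mul, smul_smul,
            inv_mul_cancel₀ hd, one_smul]
  · calc (d⁻¹ • (f' * Y * e.transpose)).transpose * R * (d⁻¹ • (f' * Y * e.transpose))
        = (d⁻¹ * d⁻¹) • (e * Y.transpose * (f'.transpose * f) * J * (f.transpose * f') * Y *
            e.transpose) := by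
          rw [← hR]
          simp only [Matrix.transpose_mul, Matrix.transpose_transpose, Matrix.mul_assoc,
            Matrix.transpose_smul, Matrix.mul_smul, Matrix.smul_mul, smul_smul]
      _ = (d⁻¹ * d⁻¹ * d * d) • (e * (Y.transpose * J * Y) * e.transpose) := by
          rw [h2, h2']
          simp only [Matrix.mul_smul, Matrix.smul_mul, smul_smul, Matrix.mul_one,
            Matrix.mul_assoc, mul_assoc]
      _ = mu • Q := by
          have : d⁻¹ * d⁻¹ * d * d = 1 := by field_simp
          rw [this, one_smul, hY, ← hQ]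
          simp only [Matrix.mul_smul, Matrix.smul_mul]
  · calc f.transpose * (d⁻¹ • (f' * Y * e.transpose)) * e'
        = d⁻¹ • ((f.transpose * f') * Y * (e.transpose * e')) := by
          simp only [Matrix.mul_smul, Matrix.smul_mul, Matrix.mul_assoc]
      _ = Y := by
          rw [h2', h4', Matrix.mul_one, Matrix.smul_mul, Matrix.one_mul, smul_smul,
            inv_mul_cancel₀ hd, one_smul]

theorem Qm_map (n : ℕ) : (Qm n ℚ).map (fun x : ℚ => (x : ℂ)) = Qm n ℂ := by
  ext a b
  simp only [Qm, Matrix.map_apply, Matrix.of_apply]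
  split_ifs
  · push_cast; rfl
  · push_cast; rfl
  · simp

theorem J_map (g : ℕ) : (Matrix.J (Fin g) ℚ).map (fun x : ℚ => (x : ℂ)) =
    Matrix.J (Fin g) ℂ := by
  ext a b
  rcases a with a | a <;> rcases b with b | b <;>
    simp [Matrix.J, Matrix.fromBlocks, Matrix.one_apply] <;> split_ifs <;> simp

theorem mul_map {l m n : Type} [Fintype m] (A : Matrix l m ℚ) (B : Matrix m n ℚ) :
    (A * B).map (fun x : ℚ => (x : ℂ)) =
      A.map (fun x : ℚ => (x : ℂ)) * B.map (fun x : ℚ => (x : ℂ)) := by
  ext a b
  simp only [Matrix.map_apply, Matrix.mul_apply]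
  push_cast
  rfl

theorem one_map {n : Type} [DecidableEq n] :
    (1 : Matrix n n ℚ).map (fun x : ℚ => (x : ℂ)) = 1 := by
  ext a b
  simp only [Matrix.map_apply, Matrix.one_apply]
  split_ifs <;> simp

end PSI_

open PSI_ in
theorem psi_proof : Stmt_Psi := by
  intro g F F' E E' hF hE ψ lam hψ
  have hd : (1 - ψ ^ (2 * g + 1)) ^ g ≠ 0 := pow_ne_zero _ hψ
  have hQ : cx E * Matrix.J (Fin g) ℂ * (cx E).transpose = Qm (2 * g) ℂ := by
    rw [← Qm_map, ← hE.rel, mul_map, mul_map, J_map, Matrix.transpose_map]
    rfl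
  have h3 : cx E * (cx E').transpose = 1 := by
    have := congrArg (fun M => Matrix.map M (fun x : ℚ => (x : ℂ))) hE.inv1
    simp only [mul_map, one_map] at this
    exact this
  have h4 : (cx E').transpose * cx E = 1 := by
    have := congrArg (fun M => Matrix.map M (fun x : ℚ => (x : ℂ))) hE.inv2
    simp only [mul_map, one_map] at this
    exact this
  have key := core (ev F ψ) (ev F' ψ) (cx E) (cx E') (Matrix.J (Fin g) ℂ) (Rm (2 * g) ψ)
    (Qm (2 * g) ℂ) ((1 - ψ ^ (2 * g + 1)) ^ g) (lam ^ (2 * g - 1)) hd (hF.rel ψ) (hF.inv1 ψ)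
    (hF.inv2 ψ) hQ h3 h4
  refine ⟨fun X hX => ?_, fun Y hY => ?_⟩
  · exact key.1 X hX
  · exact key.2 Y hY

end

end Pool.Agent.CYP
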