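import Pool.Agent.CYP.Stmts

/-!
# CYP, module QDET: the intersection matrix is invertible
-/

open scoped BigOperators

namespace Pool.Agent.CYP

namespace QDET_

noncomputable section

lemma prim (n : ℕ) : IsPrimitiveRoot (zt n) (n + 1) := by
  have h := Complex.isPrimitiveRoot_exp (n + 1) (Nat.succ_ne_zero n)
  unfold zt
  push_cast at h
  exact h

/-- The nodes. -/
def nd (n : ℕ) (l : Fin n) : ℂ := zt n ^ ((l : ℕ) + 1)

lemma nd_ne (n : ℕ) (l : Fin n) : nd n l ≠ 0 := pow_ne_zero _ ((prim n).ne_zero (Nat.succ_ne_zero n))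

lemma nd_inj (n : ℕ) : Function.Injective (nd n) := by
  intro l k h
  have := (prim n).pow_inj (i := (l : ℕ) + 1) (j := (k : ℕ) + 1) (by omega) (by omega) h
  exact Fin.ext (by omega)

lemma nd_pow (n : ℕ) (l : Fin n) : nd n l ^ (n + 1) = 1 := by
  unfold nd
  rw [← pow_mul, mul_comm, pow_mul, (prim n).pow_eq_one, one_pow]

lemma nd_one (n : ℕ) (l : Fin n) : (1 - nd n l) ^ (n + 1) ≠ 0 := by
  apply pow_ne_zero
  intro h
  have h1 : zt n ^ ((l : ℕ) + 1) = 1 := (sub_eq_zero.1 h).symm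
  exact (prim n).pow_ne_one_of_pos_of_lt (Nat.succ_ne_zero _) (by omega) h1

lemma fact (h : Stmt_Qft) (n : ℕ) (hn : Even n) : Qm n ℂ =
    (-(((n : ℂ) + 1) ^ (n - 1))) • ((Matrix.vandermonde fun l => (nd n l)⁻¹).transpose *
      Matrix.diagonal (fun l => (1 - nd n l) ^ (n + 1)) * Matrix.vandermonde (nd n)) := by
  ext a b
  rw [h n hn a b, Matrix.smul_apply, Matrix.mul_apply, smul_eq_mul, neg_mul, Finset.sum_range_succ']
  congr 2
  have h0 : zt n ^ (0 * ((b : ℕ) + (n + 1 - (a : ℕ)))) * (1 - zt n ^ 0) ^ (n + 1) = 0 := by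
    simp
  rw [h0, add_zero, Finset.sum_range]
  refine Finset.sum_congr rfl fun l _ => ?_
  rw [Matrix.mul_diagonal, Matrix.transpose_apply, Matrix.vandermonde_apply,
    Matrix.vandermonde_apply]
  have h1 : zt n ^ (((l : ℕ) + 1) * ((b : ℕ) + (n + 1 - (a : ℕ)))) =
      ((nd n l)⁻¹) ^ (a : ℕ) * nd n l ^ (b : ℕ) := by
    rw [pow_mul, pow_add]
    show nd n l ^ (b : ℕ) * nd n l ^ (n + 1 - (a : ℕ)) = _
    have h2 : nd n l ^ (n + 1 - (a : ℕ)) * nd n l ^ (a : ℕ) = 1 := by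
      rw [← pow_add, Nat.sub_add_cancel (by omega), nd_pow]
    have h3 : ((nd n l)⁻¹) ^ (a : ℕ) * nd n l ^ (a : ℕ) = 1 := by
      rw [inv_pow, inv_mul_cancel₀ (pow_ne_zero _ (nd_ne n l))]
    have h4 : nd n l ^ (n + 1 - (a : ℕ)) = ((nd n l)⁻¹) ^ (a : ℕ) := by
      have h5 := pow_ne_zero (a : ℕ) (nd_ne n l)
      exact mul_right_cancel₀ h5 (h2.trans h3.symm)
    rw [h4, mul_comm]
  rw [h1]
  show _ * (1 - nd n l) ^ (n + 1) = _
  ring

end

end QDET_

open QDET_ in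
theorem qdet_proof (h : Stmt_Qft) : Stmt_Qdet := by
  intro n hn
  rw [fact h n hn, Matrix.det_smul, Matrix.det_mul, Matrix.det_mul, Matrix.det_transpose,
    Matrix.det_diagonal]
  refine mul_ne_zero (pow_ne_zero _ (neg_ne_zero.2 (pow_ne_zero _ (Nat.cast_add_one_ne_zero n))))
    (mul_ne_zero (mul_ne_zero ?_ ?_) ?_)
  · rw [Matrix.det_vandermonde_ne_zero_iff]
    exact fun l k hlk => nd_inj n (inv_injective hlk)
  · exact Finset.prod_ne_zero_iff.2 fun l _ => nd_one n l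
  · rw [Matrix.det_vandermonde_ne_zero_iff]
    exact nd_inj n

end Pool.Agent.CYP
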