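import Pool.Agent.CYP.Stmts

/-!
# CYP: the intersection matrix as a finite Fourier sum
-/

open scoped BigOperators Topology
open Metric Set MeasureTheory

namespace Pool.Agent.CYP

noncomputable section

namespace QFT_

lemma prim (n : ℕ) : IsPrimitiveRoot (zt n) (n + 1) := by
  have h := Complex.isPrimitiveRoot_exp (n + 1) (Nat.succ_ne_zero n)
  have h1 : zt n = Complex.exp (2 * Real.pi * Complex.I / ((n + 1 : ℕ) : ℂ)) := by
    unfold zt
    push_cast
    rfl
  rw [h1]
  exact h

lemma orth (n c : ℕ) : ∑ l ∈ Finset.range (n + 1), (zt n ^ c) ^ l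
    = if n + 1 ∣ c then ((n : ℂ) + 1) else 0 := by
  split_ifs with h
  · rw [((prim n).pow_eq_one_iff_dvd c).mpr h]
    simp
  · have h1 : zt n ^ c ≠ 1 := fun h2 => h (((prim n).pow_eq_one_iff_dvd c).mp h2)
    have h2 := mul_geom_sum (zt n ^ c) (n + 1)
    have h3 : (zt n ^ c) ^ (n + 1) = 1 := by
      rw [← pow_mul, mul_comm, pow_mul, (prim n).pow_eq_one, one_pow]
    rw [h3, sub_self] at h2
    exact (mul_eq_zero.mp h2).resolve_left (sub_ne_zero.mpr h1)

lemma expand (n c : ℕ) : ∑ l ∈ Finset.range (n + 1), zt n ^ (l * c) * (1 - zt n ^ l) ^ (n + 1)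
    = ∑ m ∈ Finset.range (n + 2), (-1 : ℂ) ^ m * ((n + 1).choose m : ℂ) *
      (if n + 1 ∣ c + m then ((n : ℂ) + 1) else 0) := by
  have h1 : ∀ l ∈ Finset.range (n + 1), zt n ^ (l * c) * (1 - zt n ^ l) ^ (n + 1)
      = ∑ m ∈ Finset.range (n + 2), (-1 : ℂ) ^ m * ((n + 1).choose m : ℂ) *
        (zt n ^ (c + m)) ^ l := by
    intro l _
    have h2 : (1 - zt n ^ l) = (-(zt n ^ l) + 1) := by ring
    rw [h2, add_pow, Finset.mul_sum]
    refine Finset.sum_congr rfl fun m _ => ?_
    rw [one_pow, mul_one, neg_pow, ← pow_mul, ← pow_mul, Nat.add_mul, pow_add, mul_comm l c,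
      mul_comm l m]
    ring
  rw [Finset.sum_congr rfl h1, Finset.sum_comm]
  refine Finset.sum_congr rfl fun m _ => ?_
  rw [← Finset.mul_sum, orth]

end QFT_

open QFT_

theorem qft_proof : Stmt_Qft := by
  intro n hn a b
  have hn1 : 0 < n := a.pos
  have ha := a.2
  have hb := b.2
  rw [expand n ((b : ℕ) + (n + 1 - (a : ℕ)))]
  have hpow : ((n : ℂ) + 1) ^ n = ((n : ℂ) + 1) ^ (n - 1) * ((n : ℂ) + 1) := by
    rw [← pow_succ]
    congr 1
    omega
  unfold Qm
  rw [Matrix.of_apply]
  rcases lt_trichotomy (a : ℕ) (b : ℕ) with hab | hab | hab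
  · have h1 : a < b := hab
    rw [if_pos h1, Finset.sum_eq_single (n + 1 - ((b : ℕ) - a))]
    · rw [if_pos (by
        have h2 : (b : ℕ) + (n + 1 - (a : ℕ)) + (n + 1 - ((b : ℕ) - a)) = (n + 1) * 2 := by omega
        rw [h2]
        exact dvd_mul_right _ _)]
      have h3 : (n + 1).choose (n + 1 - ((b : ℕ) - a)) = (n + 1).choose ((b : ℕ) - a) :=
        Nat.choose_symm (by omega)
      have h4 : (-1 : ℂ) ^ (n + 1 - ((b : ℕ) - a)) = -(-1) ^ ((b : ℕ) - a) := by
        have h5 : (-1 : ℂ) ^ (n + 1 - ((b : ℕ) - a)) * (-1) ^ ((b : ℕ) - a) = -1 := by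
          rw [← pow_add]
          have h6 : n + 1 - ((b : ℕ) - a) + ((b : ℕ) - a) = n + 1 := by omega
          rw [h6, pow_succ, hn.neg_one_pow]
          ring
        have h7 : (-1 : ℂ) ^ ((b : ℕ) - a) * (-1) ^ ((b : ℕ) - a) = 1 := by
          rw [← mul_pow]; norm_num
        calc (-1 : ℂ) ^ (n + 1 - ((b : ℕ) - a))
            = (-1 : ℂ) ^ (n + 1 - ((b : ℕ) - a)) *
              ((-1 : ℂ) ^ ((b : ℕ) - a) * (-1) ^ ((b : ℕ) - a)) := by rw [h7, mul_one]
          _ = ((-1 : ℂ) ^ (n + 1 - ((b : ℕ) - a)) * (-1) ^ ((b : ℕ) - a)) *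
              (-1) ^ ((b : ℕ) - a) := by ring
          _ = _ := by rw [h5]; ring
      rw [h3, h4, hpow]
      ring
    · intro m hm hne
      rw [Finset.mem_range] at hm
      rw [if_neg, mul_zero]
      rintro ⟨k, hk⟩
      have hk1 : k < 3 := by
        by_contra hcon
        have h2 : (n + 1) * 3 ≤ (n + 1) * k := Nat.mul_le_mul_left _ (not_lt.mp hcon)
        omega
      interval_cases k <;> omega
    · intro h2
      exact absurd (Finset.mem_range.mpr (by omega)) h2
  · have h1 : ¬ a < b := by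
      intro h; exact absurd h (by rw [Fin.lt_def]; omega)
    have h2 : ¬ b < a := by
      intro h; exact absurd h (by rw [Fin.lt_def]; omega)
    rw [if_neg h1, if_neg h2, Finset.sum_range_succ, Finset.sum_eq_single 0]
    · rw [if_pos (by
        have h3 : (b : ℕ) + (n + 1 - (a : ℕ)) + 0 = n + 1 := by omega
        rw [h3]), if_pos (by
        have h3 : (b : ℕ) + (n + 1 - (a : ℕ)) + (n + 1) = (n + 1) * 2 := by omega
        rw [h3]
        exact dvd_mul_right _ _), Nat.choose_zero_right, Nat.choose_self, pow_succ,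
        hn.neg_one_pow]
      push_cast
      ring
    · intro m hm hne
      rw [Finset.mem_range] at hm
      rw [if_neg, mul_zero]
      rintro ⟨k, hk⟩
      have hk1 : k < 3 := by
        by_contra hcon
        have h2 : (n + 1) * 3 ≤ (n + 1) * k := Nat.mul_le_mul_left _ (not_lt.mp hcon)
        omega
      interval_cases k <;> omega
    · intro h3
      exact absurd (Finset.mem_range.mpr (by omega)) h3
  · have h1 : b < a := hab
    have h2 : ¬ a < b := by
      intro h; exact absurd h (by rw [Fin.lt_def]; omega)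
    rw [if_neg h2, if_pos h1, Finset.sum_eq_single ((a : ℕ) - b)]
    · rw [if_pos (by
        have h3 : (b : ℕ) + (n + 1 - (a : ℕ)) + ((a : ℕ) - b) = n + 1 := by omega
        rw [h3]), hpow]
      ring
    · intro m hm hne
      rw [Finset.mem_range] at hm
      rw [if_neg, mul_zero]
      rintro ⟨k, hk⟩
      have hk1 : k < 3 := by
        by_contra hcon
        have h2 : (n + 1) * 3 ≤ (n + 1) * k := Nat.mul_le_mul_left _ (not_lt.mp hcon)
        omega
      interval_cases k <;> omega
    · intro h3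
      exact absurd (Finset.mem_range.mpr (by omega)) h3

end

end Pool.Agent.CYP
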