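import Pool.Agent.CYP.Stmts

/-!
# CYP, module ROT: the rotation `ψ ↦ ζ ψ`
-/

open scoped BigOperators Topology
open Metric Set MeasureTheory

namespace Pool.Agent.CYP

namespace ROT_

theorem iter_mul (f : ℂ → ℂ) (c : ℂ) (k : ℕ) :
    iteratedDeriv k (fun x => c * f x) = fun x => c * iteratedDeriv k f x := by
  induction k with
  | zero => simp
  | succ k ih =>
    rw [iteratedDeriv_succ, ih]
    funext x
    rw [deriv_const_mul_field, iteratedDeriv_succ]

theorem iter_comp (f : ℂ → ℂ) (c : ℂ) (k : ℕ) :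
    iteratedDeriv k (fun x => f (c * x)) = fun x => c ^ k * iteratedDeriv k f (c * x) := by
  induction k with
  | zero => simp
  | succ k ih =>
    rw [iteratedDeriv_succ, ih]
    funext x
    rw [deriv_const_mul_field, iteratedDeriv_succ]
    have h := deriv_comp_mul_left c (iteratedDeriv k f) x
    rw [h, smul_eq_mul]
    ring

theorem sum_per (h : ℕ → ℂ) (N : ℕ) (hp : ∀ l, h (l + N) = h l) (i : ℕ) :
    ∑ j ∈ Finset.range N, h (i + j) = ∑ l ∈ Finset.range N, h l := by
  induction i with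
  | zero => simp
  | succ i ih =>
    rw [← ih]
    have h1 := Finset.sum_range_succ (fun j => h (i + j)) N
    have h2 := Finset.sum_range_succ' (fun j => h (i + j)) N
    rw [h1] at h2
    simp only [add_zero, hp] at h2
    have h3 : ∑ j ∈ Finset.range N, h (i + 1 + j) = ∑ j ∈ Finset.range N, h (i + (j + 1)) :=
      Finset.sum_congr rfl fun j _ => by rw [add_assoc, add_comm 1 j]
    rw [h3]
    linear_combination -h2

theorem zt_ne (n : ℕ) : zt n ≠ 0 := by
  unfold zt
  exact Complex.exp_ne_zero _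

theorem zt_pow (n : ℕ) : zt n ^ (n + 1) = 1 := by
  unfold zt
  rw [← Complex.exp_nat_mul]
  have h : ((n : ℂ) + 1) ≠ 0 := by
    exact_mod_cast Nat.succ_ne_zero n
  have h2 : ((n + 1 : ℕ) : ℂ) * (2 * Real.pi * Complex.I / ((n : ℂ) + 1)) =
      2 * Real.pi * Complex.I := by
    push_cast
    field_simp
  rw [h2]
  exact Complex.exp_two_pi_mul_I

theorem yrot (n j : ℕ) (ψ : ℂ) : Yx n j (zt n * ψ) = (zt n)⁻¹ * Yx n (j + 1) ψ := by
  unfold Yx
  have hz := zt_ne n
  have h0 : ∀ (A B : ℂ) (f : ℕ → ℂ), A * (B * ∑ i ∈ Finset.range (n + 2), f i) =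
      B * ∑ i ∈ Finset.range (n + 2), A * f i := by
    intro A B f
    rw [← Finset.mul_sum]
    ring
  rw [h0]
  congr 1
  refine Finset.sum_congr rfl fun i _ => ?_
  have h1 : zt n ^ (i + j) * (zt n * ψ) = zt n ^ (i + (j + 1)) * ψ := by ring
  have h2 : zt n ^ (i + (j + 1)) = zt n * zt n ^ (i + j) := by ring
  rw [h1]
  rw [h2]
  field_simp

theorem ysum (n : ℕ) (ψ : ℂ) : ∑ j ∈ Finset.range (n + 1), Yx n j ψ = 0 := by
  unfold Yx
  rw [← Finset.mul_sum, Finset.sum_comm]
  set h : ℕ → ℂ := fun l => zt n ^ l * Gf n (zt n ^ l * ψ) with hh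
  have hp : ∀ l, h (l + (n + 1)) = h l := by
    intro l
    have h3 : zt n ^ (l + (n + 1)) = zt n ^ l := by
      rw [pow_add, zt_pow, mul_one]
    simp only [hh, h3]
  have h1 : ∀ i ∈ Finset.range (n + 2), ∑ j ∈ Finset.range (n + 1),
      (-1) ^ i * ((n + 1).choose i : ℂ) * (zt n ^ (i + j) * Gf n (zt n ^ (i + j) * ψ)) =
      (-1) ^ i * ((n + 1).choose i : ℂ) * ∑ l ∈ Finset.range (n + 1), h l := by
    intro i _
    rw [← Finset.mul_sum]
    congr 1
    exact sum_per h (n + 1) hp i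
  rw [Finset.sum_congr rfl h1, ← Finset.sum_mul]
  have h2 : ∑ i ∈ Finset.range (n + 2), (-1 : ℂ) ^ i * ((n + 1).choose i : ℂ) = 0 := by
    have h3 := Int.alternating_sum_range_choose (n := n + 1)
    rw [if_neg (Nat.succ_ne_zero n)] at h3
    have h4 := congrArg (fun x : ℤ => (x : ℂ)) h3
    push_cast at h4
    exact h4
  rw [h2, zero_mul, mul_zero]

end ROT_

open ROT_ in
/-- ROT -/
theorem rot_proof (hYx : Stmt_Yx) (hGeo : Stmt_Geo) (_hCauc : Stmt_Cauc) : Stmt_Rot := by
  intro n hn ψ hψ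
  obtain ⟨hopen, -, -, -, -⟩ := hGeo n
  have hz := zt_ne n
  -- derivatives of the rotated functions
  have key : ∀ j k : ℕ, iteratedDeriv k (Yx n j) (zt n * ψ) =
      (zt n ^ (k + 1))⁻¹ * iteratedDeriv k (Yx n (j + 1)) ψ := by
    intro j k
    have h1 : (fun x => Yx n j (zt n * x)) = fun x => (zt n)⁻¹ * Yx n (j + 1) x := by
      funext x
      exact yrot n j x
    have h2 := congrFun (iter_comp (Yx n j) (zt n) k) ψ
    rw [h1, iter_mul] at h2
    have h3 : iteratedDeriv k (Yx n j) (zt n * ψ) =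
        (zt n ^ k)⁻¹ * (zt n ^ k * iteratedDeriv k (Yx n j) (zt n * ψ)) := by
      field_simp
    rw [h3, ← h2, pow_succ, mul_inv]
    ring
  -- the last function
  have hcd : ∀ (k j : ℕ), ContDiffAt ℂ k (Yx n j) ψ := fun k j =>
    ((hYx n j).1.analyticAt (hopen.mem_nhds hψ)).contDiffAt
  have hlast : ∀ k : ℕ, iteratedDeriv k (Yx n n) ψ =
      -∑ i ∈ Finset.range n, iteratedDeriv k (Yx n i) ψ := by
    intro k
    have h1 : Yx n n = fun x => -∑ i ∈ Finset.range n, Yx n i x := by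
      funext x
      have := ysum n x
      rw [Finset.sum_range_succ] at this
      linear_combination this
    conv_lhs => rw [h1]
    rw [iteratedDeriv_fun_neg]
    congr 1
    rw [iteratedDeriv_fun_sum]
    intro i _
    exact hcd k i
  ext k j
  have hlhs : Mx n (zt n * ψ) k j = (zt n ^ ((k : ℕ) + 1))⁻¹ *
      iteratedDeriv (k : ℕ) (Yx n ((j : ℕ) + 1)) ψ := by
    unfold Mx
    rw [Matrix.of_apply, key]
  rw [hlhs, Matrix.mul_apply]
  have hD : ∀ i, (Dm n * Mx n ψ) k i = (zt n ^ ((k : ℕ) + 1))⁻¹ * Mx n ψ k i := by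
    intro i
    unfold Dm
    rw [Matrix.diagonal_mul]
  simp only [hD]
  simp_rw [mul_assoc]
  rw [← Finset.mul_sum]
  congr 1
  by_cases hj : (j : ℕ) + 1 = n
  · rw [hj, hlast]
    have h1 : ∀ i : Fin n, Mx n ψ k i * Pm n i j = -iteratedDeriv (k : ℕ) (Yx n (i : ℕ)) ψ := by
      intro i
      unfold Pm Mx
      rw [Matrix.of_apply, Matrix.of_apply, if_pos hj]
      ring
    rw [Finset.sum_congr rfl fun i _ => h1 i, Finset.sum_neg_distrib]
    congr 1
    exact (Finset.sum_range (fun i => iteratedDeriv (k : ℕ) (Yx n i) ψ))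
  · have hj2 : (j : ℕ) + 1 < n := by
      have := j.2
      omega
    rw [Finset.sum_eq_single (⟨(j : ℕ) + 1, hj2⟩ : Fin n)]
    · unfold Pm Mx
      rw [Matrix.of_apply, Matrix.of_apply, if_neg hj, if_pos rfl, mul_one]
    · intro i _ hi
      unfold Pm
      rw [Matrix.of_apply, if_neg hj, if_neg, mul_zero]
      intro h
      exact hi (Fin.ext h)
    · intro h
      exact absurd (Finset.mem_univ _) h

end Pool.Agent.CYP
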