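import Pool.Agent.CYP.Stmts

/-!
# CYP: SEC, the sector
-/

open scoped BigOperators Topology
open Metric Set MeasureTheory

namespace Pool.Agent.CYP

namespace SEC_

lemma prim (n : ℕ) : IsPrimitiveRoot (zt n) (n + 1) := by
  have h := Complex.isPrimitiveRoot_exp (n + 1) (Nat.succ_ne_zero n)
  unfold zt
  push_cast at h
  exact h

lemma norm_zt (n k : ℕ) : ‖zt n ^ k‖ = 1 := by
  rw [norm_pow, (prim n).norm'_eq_one (Nat.succ_ne_zero n), one_pow]

lemma eta (n : ℕ) : ∃ η : ℝ, 0 < η ∧ ∀ k : ℕ, k < n + 1 → (zt n ^ k).im ≠ 0 →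
    η < |(zt n ^ k).im| := by
  have h : ∀ᶠ η : ℝ in 𝓝[>] 0, ∀ k ∈ Finset.range (n + 1), (zt n ^ k).im ≠ 0 →
      η < |(zt n ^ k).im| := by
    rw [Filter.eventually_all_finset]
    intro k _
    by_cases h0 : (zt n ^ k).im = 0
    · exact Filter.Eventually.of_forall fun η h1 => absurd h0 h1
    · have h1 : 0 < |(zt n ^ k).im| := abs_pos.mpr h0
      filter_upwards [Ioo_mem_nhdsGT h1] with η hη _
      exact hη.2
  have h2 : ∀ᶠ η : ℝ in 𝓝[>] 0, 0 < η := self_mem_nhdsWithin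
  obtain ⟨η, h3, h4⟩ := (h.and h2).exists
  exact ⟨η, h4, fun k hk => h3 k (Finset.mem_range.mpr hk)⟩

lemma slit {n k : ℕ} (hk0 : 0 < k) (hk : k < n + 1) {η : ℝ}
    (hη : (zt n ^ k).im ≠ 0 → η < |(zt n ^ k).im|) {ψ : ℂ} (hψ : ψ ∈ Sec η) :
    1 - zt n ^ k * ψ ∈ Complex.slitPlane := by
  have hre : 1 < ψ.re := hψ.1
  have him : |ψ.im| < η * ψ.re := hψ.2
  have hn := norm_zt n k
  rw [Complex.mem_slitPlane_iff]
  by_cases h0 : (zt n ^ k).im = 0
  · left
    have h1 : (zt n ^ k).re ^ 2 = 1 := by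
      have h2 : Complex.normSq (zt n ^ k) = 1 := by
        rw [Complex.normSq_eq_norm_sq, hn, one_pow]
      rw [Complex.normSq_apply, h0] at h2
      nlinarith
    have h3 : (zt n ^ k).re ≠ 1 := by
      intro h4
      have h5 : zt n ^ k = 1 := Complex.ext h4 h0
      exact (prim n).pow_ne_one_of_pos_of_lt hk0.ne' hk h5
    have h6 : (zt n ^ k).re = -1 := by
      rcases sq_eq_one_iff.mp h1 with h | h
      · exact absurd h h3
      · exact h
    rw [Complex.sub_re, Complex.one_re, Complex.mul_re, h6, h0]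
    linarith
  · right
    intro h1
    rw [Complex.sub_im, Complex.one_im, Complex.mul_im] at h1
    have h2 : (zt n ^ k).im * ψ.re = -((zt n ^ k).re * ψ.im) := by linarith
    have h3 : |(zt n ^ k).im| * |ψ.re| = |(zt n ^ k).re| * |ψ.im| := by
      rw [← abs_mul, ← abs_mul, h2, abs_neg]
    have h4 : |(zt n ^ k).re| ≤ 1 := hn ▸ Complex.abs_re_le_norm _
    have h5 := hη h0
    rw [abs_of_pos (by linarith : 0 < ψ.re)] at h3
    have h6 : |(zt n ^ k).re| * |ψ.im| ≤ |ψ.im| :=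
      mul_le_of_le_one_left (abs_nonneg _) h4
    nlinarith

end SEC_

theorem sec_proof : Stmt_Sec := by
  intro n _
  obtain ⟨η, hη, h⟩ := SEC_.eta n
  refine ⟨η, hη, fun ψ hψ => ⟨fun k hk0 hk => SEC_.slit hk0 hk (h k hk) hψ, ?_, fun him k => ?_⟩⟩
  · intro h0
    have h1 : ψ ^ (n + 1) = 1 := (sub_eq_zero.mp h0).symm
    have h2 : 1 < ‖ψ‖ := lt_of_lt_of_le hψ.1 (Complex.re_le_norm ψ)
    have h3 : 1 < ‖ψ‖ ^ (n + 1) := one_lt_pow₀ h2 (Nat.succ_ne_zero n)
    rw [← norm_pow, h1, norm_one] at h3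
    exact lt_irrefl _ h3
  · have h1 : zt n ^ k = zt n ^ (k % (n + 1)) := pow_eq_pow_mod k (SEC_.prim n).pow_eq_one
    rw [h1]
    rcases Nat.eq_zero_or_pos (k % (n + 1)) with h2 | h2
    · rw [h2, pow_zero, one_mul, Complex.mem_slitPlane_iff]
      right
      simpa using him
    · exact SEC_.slit h2 (Nat.mod_lt _ (Nat.succ_pos n)) (h _ (Nat.mod_lt _ (Nat.succ_pos n))) hψ

end Pool.Agent.CYP
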