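import Pool.Agent.CYP.Stmts

/-!
# CYP: module SOLO, the Picard-Fuchs system on the cut plane
-/

open scoped BigOperators Topology
open Metric Set MeasureTheory

namespace Pool.Agent.CYP

noncomputable section

namespace SOLO_

/-- iterated derivatives of a holomorphic function are holomorphic -/
lemma analytic_iter {U : Set ℂ} (hU : IsOpen U) {f : ℂ → ℂ} (hf : DifferentiableOn ℂ f U)
    (k : ℕ) : AnalyticOnNhd ℂ (iteratedDeriv k f) U := by
  rw [iteratedDeriv_eq_iterate]
  exact (hf.analyticOnNhd hU).iterated_deriv k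

lemma hasDerivAt_iter {U : Set ℂ} (hU : IsOpen U) {f : ℂ → ℂ} (hf : DifferentiableOn ℂ f U)
    (k : ℕ) {s : ℂ} (hs : s ∈ U) :
    HasDerivAt (iteratedDeriv k f) (iteratedDeriv (k + 1) f s) s := by
  rw [iteratedDeriv_succ]
  exact ((analytic_iter hU hf k) s hs).differentiableAt.hasDerivAt

/-- iterated derivatives of functions which agree on an open set -/
lemma iter_congr {U : Set ℂ} (hU : IsOpen U) {f g : ℂ → ℂ} (h : ∀ z ∈ U, f z = g z)
    (k : ℕ) {s : ℂ} (hs : s ∈ U) : iteratedDeriv k f s = iteratedDeriv k g s := by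
  have : f =ᶠ[𝓝 s] g := by
    filter_upwards [hU.mem_nhds hs] with z hz using h z hz
  exact this.iteratedDeriv_eq k

/-- the equation on the cut plane -/
lemma ode_om (h1 : Stmt_OdeD) (h2 : Stmt_Yx) (h3 : Stmt_Geo) (n : ℕ) (hn : 0 < n) (j : ℕ) :
    ∀ s ∈ Om n, iteratedDeriv n (Yx n j) s = ∑ k ∈ Finset.range (n + 1),
      (Nat.stirlingSecond (n + 1) (k + 1) : ℂ) * s ^ (k + 1) * iteratedDeriv k (Yx n j) s := by
  obtain ⟨hO, hstar, hball, -, -⟩ := h3 n
  obtain ⟨hd, heq⟩ := h2 n j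
  have h0 : (0 : ℂ) ∈ ball (0 : ℂ) 1 := mem_ball_self one_pos
  have hpre : IsPreconnected (Om n) :=
    (hstar.isPathConnected (hball h0)).isConnected.isPreconnected
  have a1 : AnalyticOnNhd ℂ (iteratedDeriv n (Yx n j)) (Om n) := analytic_iter hO hd n
  have a2 : AnalyticOnNhd ℂ (fun s => ∑ k ∈ Finset.range (n + 1),
      (Nat.stirlingSecond (n + 1) (k + 1) : ℂ) * s ^ (k + 1) * iteratedDeriv k (Yx n j) s)
      (Om n) := by
    refine Finset.analyticOnNhd_fun_sum _ fun k _ => ?_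
    exact (analyticOnNhd_const.mul (analyticOnNhd_id.pow _)).mul (analytic_iter hO hd k)
  refine a1.eqOn_of_preconnected_of_eventuallyEq a2 hpre (hball h0) ?_
  filter_upwards [isOpen_ball.mem_nhds h0] with s hs
  have := (h1 n hn j).2 s hs
  rw [iter_congr isOpen_ball heq n hs, this]
  refine Finset.sum_congr rfl fun k _ => ?_
  rw [iter_congr isOpen_ball heq k hs]

end SOLO_

open SOLO_ in
theorem solo_proof (h1 : Stmt_OdeD) (h2 : Stmt_Yx) (h3 : Stmt_Geo) : Stmt_SolO := by
  intro n hn s hs k j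
  obtain ⟨hO, hstar, hball, -, hne⟩ := h3 n
  obtain ⟨hd, heq⟩ := h2 n j
  have key : (Lc n s * Mx n s) k j = iteratedDeriv ((k : ℕ) + 1) (Yx n (j : ℕ)) s := by
    rw [Matrix.mul_apply]
    simp only [Lc, Mx, Matrix.of_apply]
    by_cases hk : (k : ℕ) + 1 = n
    · have hstep : ∀ l : Fin n, (if (k : ℕ) + 1 = (l : ℕ) then (1:ℂ) else
          if (k : ℕ) + 1 = n then (Nat.stirlingSecond (n + 1) ((l : ℕ) + 1) : ℂ) *
            s ^ ((l : ℕ) + 1) / (1 - s ^ (n + 1)) else 0) *
            iteratedDeriv (l : ℕ) (Yx n (j : ℕ)) s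
          = (1 - s ^ (n + 1))⁻¹ * ((Nat.stirlingSecond (n + 1) ((l : ℕ) + 1) : ℂ) *
            s ^ ((l : ℕ) + 1) * iteratedDeriv (l : ℕ) (Yx n (j : ℕ)) s) := by
        intro l
        have hl : (k : ℕ) + 1 ≠ (l : ℕ) := by have := l.isLt; omega
        rw [if_neg hl, if_pos hk]
        ring
      rw [Finset.sum_congr rfl fun l _ => hstep l, ← Finset.mul_sum,
        Fin.sum_univ_eq_sum_range (fun l => (Nat.stirlingSecond (n + 1) (l + 1) : ℂ) *
            s ^ (l + 1) * iteratedDeriv l (Yx n (j : ℕ)) s) n]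
      have hode := ode_om h1 h2 h3 n hn j s hs
      rw [Finset.sum_range_succ, Nat.stirlingSecond_self, Nat.cast_one, one_mul] at hode
      rw [hk]
      have hden := hne s hs
      rw [inv_mul_eq_iff_eq_mul₀ hden]
      linear_combination -hode
    · have hk1 : (k : ℕ) + 1 < n := by have := k.isLt; omega
      rw [Finset.sum_eq_single (⟨(k : ℕ) + 1, hk1⟩ : Fin n)]
      · simp
      · intro l _ hl
        have hl' : (k : ℕ) + 1 ≠ (l : ℕ) := by
          intro h
          exact hl (Fin.ext h.symm)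
        rw [if_neg hl', if_neg hk, zero_mul]
      · intro h
        exact absurd (Finset.mem_univ _) h
  rw [key]
  exact hasDerivAt_iter hO hd k hs

end

end Pool.Agent.CYP
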