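import Pool.Agent.CYP.Stmts

/-! CYP, module SPEC: specialization of some variables at rational numbers. -/

open scoped BigOperators

namespace Pool.Agent.CYP

namespace SPEC_

noncomputable section

/-- the factor of the monomial m -/
def kf {W : Type} {r : ℕ} (D : ℕ) (t : Fin r → ℚ) (m : (W ⊕ Fin r) →₀ ℕ) : ℤ :=
  ∏ i, ((t i).num ^ m (Sum.inr i) * ((t i).den : ℤ) ^ (D - m (Sum.inr i)))

/-- the part of the monomial m in the variables W -/
def rst {W : Type} [Fintype W] {r : ℕ} (m : (W ⊕ Fin r) →₀ ℕ) : W →₀ ℕ :=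
  Finsupp.equivFunOnFinite.symm (fun w => m (Sum.inl w))

theorem sum_le {W : Type} [Fintype W] {r : ℕ} (P : MvPolynomial (W ⊕ Fin r) ℤ)
    {m : (W ⊕ Fin r) →₀ ℕ} (hm : m ∈ P.support) :
    (∑ w, m (Sum.inl w)) + ∑ i, m (Sum.inr i) ≤ P.totalDegree := by
  have h := MvPolynomial.le_totalDegree hm
  rw [Finsupp.sum_fintype _ _ (fun _ => rfl), Fintype.sum_sum_type] at h
  exact h

theorem kf_le {W : Type} {r : ℕ} (D H : ℕ) (t : Fin r → ℚ) (m : (W ⊕ Fin r) →₀ ℕ)
    (ht : ∀ i, (t i).num.natAbs ≤ H ∧ (t i).den ≤ H) (hm : ∀ i, m (Sum.inr i) ≤ D) :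
    (kf D t m).natAbs ≤ H ^ (r * D) := by
  have h1 : (kf D t m).natAbs =
      ∏ i, ((t i).num.natAbs ^ m (Sum.inr i) * (t i).den ^ (D - m (Sum.inr i))) := by
    unfold kf
    rw [← Int.natAbsHom_apply, map_prod]
    refine Finset.prod_congr rfl fun i _ => ?_
    rw [Int.natAbsHom_apply, Int.natAbs_mul, Int.natAbs_pow, Int.natAbs_pow, Int.natAbs_natCast]
  rw [h1]
  have h2 : ∀ i ∈ Finset.univ, (t i).num.natAbs ^ m (Sum.inr i) *
      (t i).den ^ (D - m (Sum.inr i)) ≤ H ^ D := by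
    intro i _
    calc (t i).num.natAbs ^ m (Sum.inr i) * (t i).den ^ (D - m (Sum.inr i)) ≤
        H ^ m (Sum.inr i) * H ^ (D - m (Sum.inr i)) :=
          Nat.mul_le_mul (Nat.pow_le_pow_left (ht i).1 _) (Nat.pow_le_pow_left (ht i).2 _)
      _ = H ^ D := by rw [← pow_add, Nat.add_sub_cancel' (hm i)]
  refine (Finset.prod_le_prod' h2).trans ?_
  rw [Finset.prod_const, Finset.card_univ, Fintype.card_fin, ← pow_mul, mul_comm]

end

end SPEC_

open SPEC_ in
theorem spec_proof : Stmt_Spec := by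
  classical
  intro W _ r D
  set S : Finset ((W ⊕ Fin r) →₀ ℕ) :=
    Finset.Iic (Finsupp.equivFunOnFinite.symm (fun _ => D)) with hS
  refine ⟨S.card, ?_⟩
  intro B H P hP hH t ht
  obtain ⟨hD, hB⟩ := hP
  have hsub : P.support ⊆ S := by
    intro m hm
    rw [hS, Finset.mem_Iic]
    intro v
    simp only [Finsupp.equivFunOnFinite_symm_apply_apply]
    have h1 := MvPolynomial.le_totalDegree hm
    rw [Finsupp.sum_fintype _ _ (fun _ => rfl)] at h1
    exact ((Finset.single_le_sum (f := fun v => m v) (fun _ _ => Nat.zero_le _)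
      (Finset.mem_univ v)).trans h1).trans hD
  have hr : ∀ m ∈ P.support, ∀ i, m (Sum.inr i) ≤ D := by
    intro m hm i
    have h1 := sum_le P hm
    have h2 := Finset.single_le_sum (f := fun i => m (Sum.inr i)) (fun _ _ => Nat.zero_le _)
      (Finset.mem_univ i)
    omega
  refine ⟨∑ m ∈ P.support, MvPolynomial.monomial (rst m) (P.coeff m * kf D t m), ⟨?_, ?_⟩, ?_⟩
  · refine MvPolynomial.totalDegree_finsetSum_le (fun m hm => ?_)
    refine (MvPolynomial.totalDegree_monomial_le _ _).trans ?_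
    have h1 := sum_le P hm
    have h2 : (rst m).sum (fun _ => id) = ∑ w, m (Sum.inl w) := by
      rw [Finsupp.sum_fintype _ _ (fun _ => rfl)]
      rfl
    rw [h2]
    omega
  · intro n
    rw [MvPolynomial.coeff_sum]
    refine (Int.natAbs_sum_le _ _).trans ?_
    have h1 : ∀ m ∈ P.support, (MvPolynomial.coeff n
        (MvPolynomial.monomial (rst m) (P.coeff m * kf D t m))).natAbs ≤ B * H ^ (r * D) := by
      intro m hm
      rw [MvPolynomial.coeff_monomial]
      split_ifs
      · rw [Int.natAbs_mul]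
        exact Nat.mul_le_mul (hB m) (kf_le D H t m ht (hr m hm))
      · simp
    refine (Finset.sum_le_card_nsmul _ _ _ h1).trans ?_
    rw [smul_eq_mul, mul_assoc]
    exact Nat.mul_le_mul_right _ (Finset.card_le_card hsub)
  · intro w
    rw [map_sum]
    have h1 : MvPolynomial.aeval (Sum.elim w (fun i => (t i : ℂ))) P =
        ∑ m ∈ P.support, ((P.coeff m : ℤ) : ℂ) *
          ∏ v, (Sum.elim w (fun i => (t i : ℂ)) v) ^ m v := by
      rw [MvPolynomial.aeval_def, MvPolynomial.eval₂_eq']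
      rfl
    rw [h1, Finset.mul_sum]
    refine Finset.sum_congr rfl fun m hm => ?_
    rw [MvPolynomial.aeval_monomial, Finsupp.prod_fintype _ _ (fun _ => pow_zero _),
      Fintype.prod_sum_type]
    simp only [Sum.elim_inl, Sum.elim_inr, algebraMap_int_eq, eq_intCast]
    have h2 : ((kf D t m : ℤ) : ℂ) =
        (∏ i, ((t i).den : ℂ) ^ D) * ∏ i, ((t i : ℚ) : ℂ) ^ m (Sum.inr i) := by
      unfold kf
      rw [← Finset.prod_mul_distrib, Int.cast_prod]
      refine Finset.prod_congr rfl fun i _ => ?_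
      have h3 : ((t i).den : ℂ) ≠ 0 := by exact_mod_cast (t i).den_nz
      have h4 : ((t i : ℚ) : ℂ) = ((t i).num : ℂ) / ((t i).den : ℂ) := by
        exact Rat.cast_def (t i)
      push_cast
      rw [h4, div_pow, pow_sub₀ _ h3 (hr m hm i)]
      field_simp
    rw [Int.cast_mul, h2]
    have h5 : ∏ x, w x ^ (rst m) x = ∏ x, w x ^ m (Sum.inl x) := rfl
    rw [h5]
    ring

end Pool.Agent.CYP
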