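import Pool.Agent.CYP.Stmts

/-!
# CYP, module TRANS: relations on the torsor give relations between the coordinates
-/

open scoped BigOperators Topology
open MvPolynomial

namespace Pool.Agent.CYP

noncomputable section

namespace TRANS_

/-- Indices of the entries of the matrices. -/
abbrev VV {r : ℕ} (g : Fin r → ℕ) := Option (Σ i : Fin r, Fin (2 * g i) × Fin (2 * g i))

/-- A polynomial function along a path. -/
lemma eval_path {V : Type} (P : MvPolynomial V ℤ) (f : V → Polynomial ℂ) (s : ℂ) :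
    (aeval f P).eval s = aeval (fun v => (f v).eval s) P := by
  have h := MvPolynomial.comp_aeval_apply (f := f)
    ((Polynomial.aeval s : Polynomial ℂ →ₐ[ℂ] ℂ).restrictScalars ℤ) P
  simpa [Polynomial.coe_aeval_eq_eval] using h

/-- The entries of `Pi'` along a path. -/
def pent {g : ℕ} (F' : Matrix (Fin (2 * g)) (Ix g) (Polynomial ℤ))
    (E : Matrix (Fin (2 * g)) (Ix g) ℚ) (ψ : ℂ) (p : Ix g → Ix g → Polynomial ℂ)
    (a b : Fin (2 * g)) : Polynomial ℂ :=
  Polynomial.C ((1 - ψ ^ (2 * g + 1)) ^ g)⁻¹ *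
    ∑ y, (∑ x, Polynomial.C (ev F' ψ a x) * p x y) * Polynomial.C (cx E b y)

lemma pent_eval {g : ℕ} (F' : Matrix (Fin (2 * g)) (Ix g) (Polynomial ℤ))
    (E : Matrix (Fin (2 * g)) (Ix g) ℚ) (ψ : ℂ) (p : Ix g → Ix g → Polynomial ℂ)
    (a b : Fin (2 * g)) (s : ℂ) : (pent F' E ψ p a b).eval s =
      Pi' F' E ψ (Matrix.of fun x y => (p x y).eval s) a b := by
  unfold pent Pi'
  rw [Matrix.smul_apply, Matrix.mul_apply, Polynomial.eval_mul, Polynomial.eval_C,
    Polynomial.eval_finsetSum, smul_eq_mul]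
  congr 1
  refine Finset.sum_congr rfl fun y _ => ?_
  rw [Polynomial.eval_mul, Polynomial.eval_C, Polynomial.eval_finsetSum, Matrix.mul_apply,
    Matrix.transpose_apply]
  congr 1
  refine Finset.sum_congr rfl fun x _ => ?_
  rw [Polynomial.eval_mul, Polynomial.eval_C, Matrix.of_apply]

lemma big_cell (hPath : HGP.Stmt_Path) {r : ℕ} {g : Fin r → ℕ}
    (F' : ∀ i, Matrix (Fin (2 * g i)) (Ix (g i)) (Polynomial ℤ))
    (E : ∀ i, Matrix (Fin (2 * g i)) (Ix (g i)) ℚ) (ψ : Fin r → ℂ)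
    (P : MvPolynomial (VV g) ℤ) (lam : ℂ) (Y : ∀ i, Matrix (Ix (g i)) (Ix (g i)) ℂ)
    (hlam : lam ≠ 0) (hY : ∀ i, HGP.Simil (lam ^ (2 * g i - 1)) (Y i))
    (hne : aeval (tpt (n := fun i => 2 * g i) lam
      (fun i => Pi' (F' i) (E i) (ψ i) (Y i))) P ≠ 0) :
    ∃ Y' : ∀ i, Matrix (Ix (g i)) (Ix (g i)) ℂ,
      (∀ i, HGP.Simil (lam ^ (2 * g i - 1)) (Y' i)) ∧
      (∀ i, (Y' i).toBlocks₁₁.det ≠ 0) ∧ aeval (tpt (n := fun i => 2 * g i) lam
        (fun i => Pi' (F' i) (E i) (ψ i) (Y' i))) P ≠ 0 := by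
  choose p hp0 hps hp1 using fun i => hPath (g i) (Y i) (lam ^ (2 * g i - 1))
    (pow_ne_zero _ hlam) (hY i)
  let M' : ℂ → ∀ i, Matrix (Ix (g i)) (Ix (g i)) ℂ :=
    fun s i => Matrix.of fun x y => (p i x y).eval s
  let f : VV g → Polynomial ℂ := fun v => v.elim (Polynomial.C lam)
    (fun u => pent (F' u.1) (E u.1) (ψ u.1) (p u.1) u.2.1 u.2.2)
  have hf : ∀ s : ℂ, (fun v => (f v).eval s) = tpt (n := fun i => 2 * g i) lam
      (fun i => Pi' (F' i) (E i) (ψ i) (M' s i)) := by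
    intro s
    funext v
    match v with
    | none => exact Polynomial.eval_C
    | some ⟨i, x, y⟩ => exact pent_eval (F' i) (E i) (ψ i) (p i) x y s
  have hF : ∀ s : ℂ, (aeval f P).eval s = aeval (tpt (n := fun i => 2 * g i) lam
      (fun i => Pi' (F' i) (E i) (ψ i) (M' s i))) P := by
    intro s
    rw [eval_path, hf]
  have hM0 : M' 0 = Y := by
    funext i
    ext x y
    exact hp0 i x y
  have hF0 : (aeval f P : Polynomial ℂ) ≠ 0 := by
    intro h0
    apply hne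
    rw [← hM0, ← hF 0, h0, Polynomial.eval_zero]
  let G : Fin r → Polynomial ℂ := fun i =>
    (Matrix.of fun x y => p i (Sum.inl x) (Sum.inl y) :
      Matrix (Fin (g i)) (Fin (g i)) (Polynomial ℂ)).det
  have hG : ∀ i s, (G i).eval s = (M' s i).toBlocks₁₁.det := by
    intro i s
    have h := RingHom.map_det (Polynomial.evalRingHom s)
      (Matrix.of fun x y => p i (Sum.inl x) (Sum.inl y) :
        Matrix (Fin (g i)) (Fin (g i)) (Polynomial ℂ))
    rw [Polynomial.coe_evalRingHom] at h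
    show Polynomial.eval s _ = _
    rw [h]
    congr 1
  have hG0 : ∀ i, G i ≠ 0 := by
    intro i h0
    apply hp1 i
    have h := hG i 1
    rw [h0, Polynomial.eval_zero] at h
    exact h.symm
  have hprod : aeval f P * ∏ i, G i ≠ 0 :=
    mul_ne_zero hF0 (Finset.prod_ne_zero_iff.2 fun i _ => hG0 i)
  obtain ⟨s, hs⟩ : ∃ s : ℂ, (aeval f P * ∏ i, G i).eval s ≠ 0 := by
    by_contra hcon
    push Not at hcon
    exact hprod (Polynomial.funext fun s => by rw [hcon s, Polynomial.eval_zero])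
  rw [Polynomial.eval_mul, Polynomial.eval_prod] at hs
  refine ⟨M' s, fun i => hps i s, fun i => ?_, ?_⟩
  · rw [← hG i s]
    exact Finset.prod_ne_zero_iff.1 (right_ne_zero_of_mul hs) i (Finset.mem_univ i)
  · rw [← hF s]
    exact left_ne_zero_of_mul hs

lemma disc_ne (g : ℕ) (t : ℝ) (ht : |t| < 1) : (1 : ℂ) - (t : ℂ) ^ (2 * g + 1) ≠ 0 := by
  intro h
  have h1 : (t : ℂ) ^ (2 * g + 1) = 1 := (sub_eq_zero.1 h).symm
  have h2 : |t| ^ (2 * g + 1) = 1 := by
    have h3 := congrArg norm h1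
    rwa [norm_pow, Complex.norm_real, Real.norm_eq_abs, norm_one] at h3
  have h4 : |t| ^ (2 * g + 1) < 1 := pow_lt_one₀ (abs_nonneg t) ht (by omega)
  exact absurd h2 h4.ne

end TRANS_

open TRANS_ in
theorem trans_proof (hTrId : Stmt_TrId) (hPsi : Stmt_Psi) (hPath : HGP.Stmt_Path) :
    Stmt_Trans := by
  intro r g hg F F' E E' hF hE D A
  obtain ⟨D1, C, hHom⟩ := hTrId r g hg F F' E E' hF hE D
  refine ⟨D1, C + A + D1, fun H hH2 t ht lam X hlam hX hbad => ?_⟩
  obtain ⟨P, hPs, ⟨lam', X', hlam', hX', hne⟩, hP0⟩ := hbad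
  obtain ⟨P1, hP1s, K, hK, hP1⟩ := hHom (H ^ A) H P hPs (by omega) t ht
  have hdisc : ∀ i, (1 : ℂ) - ((t i : ℚ) : ℂ) ^ (2 * g i + 1) ≠ 0 := by
    intro i
    have h := disc_ne (g i) ((t i : ℚ) : ℝ) (ht i).1
    rwa [Complex.ofReal_ratCast] at h
  intro hfree
  have hzero : P1 = 0 := by
    refine hfree P1 ⟨hP1s.1, fun m => (hP1s.2 m).trans ?_⟩ ?_
    · rw [pow_add, pow_add]
      refine Nat.mul_le_mul_right _ (Nat.mul_le_mul_right _ ?_)
      calc C ≤ 2 ^ C := Nat.lt_two_pow_self.le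
        _ ≤ H ^ C := Nat.pow_le_pow_left hH2 _
    · have hps := fun i => (hPsi (g i) (F i) (F' i) (E i) (E' i) (hF i) (hE i)
        ((t i : ℚ) : ℂ) lam (hdisc i)).1 (X i) (hX i)
      rw [hP1 lam hlam (fun i => Ps (F i) (E' i) (t i : ℂ) (X i)) (fun i => (hps i).1)]
      have hfun : (fun i => Pi' (F' i) (E i) (t i : ℂ) (Ps (F i) (E' i) (t i : ℂ) (X i))) = X :=
        funext fun i => (hps i).2
      rw [hfun, hP0, mul_zero]
  have hps' := fun i => (hPsi (g i) (F i) (F' i) (E i) (E' i) (hF i) (hE i)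
    ((t i : ℚ) : ℂ) lam' (hdisc i)).1 (X' i) (hX' i)
  have hfun' : (fun i => Pi' (F' i) (E i) (t i : ℂ) (Ps (F i) (E' i) (t i : ℂ) (X' i))) = X' :=
    funext fun i => (hps' i).2
  obtain ⟨Y', hY', hdet', hne'⟩ := big_cell hPath F' E (fun i => ((t i : ℚ) : ℂ)) P lam'
    (fun i => Ps (F i) (E' i) (t i : ℂ) (X' i)) hlam' (fun i => (hps' i).1)
    (by rw [hfun']; exact hne)
  have hc := hP1 lam' hlam' Y' hY'
  rw [hzero, map_zero] at hc
  refine mul_ne_zero (mul_ne_zero hK (pow_ne_zero _ ?_)) hne' hc.symm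
  exact Finset.prod_ne_zero_iff.2 fun i _ => hdet' i

end

end Pool.Agent.CYP
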