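import Pool.Agent.CYP.Stmts

/-!
# CYP, module TRID: a relation in the coordinates of the torsor
-/

open scoped BigOperators Topology
open MvPolynomial

namespace Pool.Agent.CYP

noncomputable section

namespace TRID_

/-- Indices of the entries of the matrices. -/
abbrev VV {r : ℕ} (g : Fin r → ℕ) := Option (Σ i : Fin r, Fin (2 * g i) × Fin (2 * g i))

/-- Indices of the coordinates. -/
abbrev UU {r : ℕ} (g : Fin r → ℕ) := Option (Σ i : Fin r, Idx (g i))

/-- Coordinates and parameters. -/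
abbrev WW {r : ℕ} (g : Fin r → ℕ) := UU g ⊕ Fin r

/-- A common denominator of a rational matrix. -/
lemma common_den {m n : Type} [Fintype m] [Fintype n] [DecidableEq m] [DecidableEq n]
    (E : Matrix m n ℚ) : ∃ (d : ℤ) (e : m → n → ℤ), d ≠ 0 ∧
      ∀ b y, ((e b y : ℤ) : ℂ) = (d : ℂ) * ((E b y : ℚ) : ℂ) := by
  refine ⟨∏ p : m × n, ((E p.1 p.2).den : ℤ), fun b y => (E b y).num *
    ∏ p ∈ (Finset.univ : Finset (m × n)).erase (b, y), ((E p.1 p.2).den : ℤ), ?_, ?_⟩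
  · refine Finset.prod_ne_zero_iff.2 fun p _ => ?_
    exact_mod_cast (E p.1 p.2).den_ne_zero
  · intro b y
    have h1 : ((E b y : ℚ) : ℂ) = ((E b y).num : ℂ) / ((E b y).den : ℂ) := by
      conv_lhs => rw [← Rat.num_div_den (E b y)]
      push_cast
      rfl
    have h2 : ((E b y).den : ℂ) ≠ 0 := by exact_mod_cast (E b y).den_ne_zero
    rw [← Finset.mul_prod_erase Finset.univ (fun p : m × n => ((E p.1 p.2).den : ℤ))
      (Finset.mem_univ (b, y)), h1]
    push_cast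
    field_simp

/-- The substitution of the coordinates number `i`. -/
def sub {r : ℕ} (g : Fin r → ℕ) (i : Fin r) :
    MvPolynomial (Option (Idx (g i))) ℤ →ₐ[ℤ] MvPolynomial (WW g) ℤ :=
  aeval (fun o : Option (Idx (g i)) => o.elim ((X (Sum.inl none)) ^ (2 * g i - 1))
    (fun x => X (Sum.inl (some ⟨i, x⟩))))

lemma aeval_sub {r : ℕ} (g : Fin r → ℕ) (i : Fin r) (u : UU g → ℂ) (t : Fin r → ℂ)
    (f : MvPolynomial (Option (Idx (g i))) ℤ) :
    aeval (Sum.elim u t) (sub g i f) =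
      aeval (HGP.opt (u none ^ (2 * g i - 1)) (fun x => u (some ⟨i, x⟩))) f := by
  unfold sub
  rw [MvPolynomial.comp_aeval_apply]
  congr 2
  funext o
  cases o with
  | none => simp [HGP.opt]
  | some x => simp [HGP.opt]

/-- The determinant. -/
def dp {r : ℕ} (g : Fin r → ℕ) (i : Fin r) : MvPolynomial (WW g) ℤ :=
  (Matrix.of fun a b : Fin (g i) =>
    (X (Sum.inl (some ⟨i, Sum.inl (a, b)⟩)) : MvPolynomial (WW g) ℤ)).det

lemma aeval_dp {r : ℕ} (g : Fin r → ℕ) (i : Fin r) (w : WW g → ℂ) :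
    aeval w (dp g i) = (Matrix.of fun a b : Fin (g i) =>
      w (Sum.inl (some ⟨i, Sum.inl (a, b)⟩))).det := by
  unfold dp
  rw [AlgHom.map_det]
  congr 1
  ext a b
  simp

/-- A polynomial in the parameter number `i`. -/
def tp {r : ℕ} (g : Fin r → ℕ) (i : Fin r) (f : Polynomial ℤ) : MvPolynomial (WW g) ℤ :=
  Polynomial.aeval (X (Sum.inr i)) f

lemma aeval_tp {r : ℕ} (g : Fin r → ℕ) (i : Fin r) (w : WW g → ℂ) (f : Polynomial ℤ) :
    aeval w (tp g i f) = Polynomial.aeval (w (Sum.inr i)) f := by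
  unfold tp
  rw [← Polynomial.aeval_algHom_apply, aeval_X]

/-- The denominator number `i`. -/
def Dl {r : ℕ} (g : Fin r → ℕ) (d : Fin r → ℤ) (i : Fin r) : MvPolynomial (WW g) ℤ :=
  C (d i) * (1 - X (Sum.inr i) ^ (2 * g i + 1)) ^ (g i) * dp g i ^ 2

/-- The numerators number `i`. -/
def nm {r : ℕ} (g : Fin r → ℕ) (F' : ∀ i, Matrix (Fin (2 * g i)) (Ix (g i)) (Polynomial ℤ))
    (e : ∀ i, Fin (2 * g i) → Ix (g i) → ℤ)
    (q : ∀ i, Ix (g i) × Ix (g i) → MvPolynomial (Option (Idx (g i))) ℤ) (i : Fin r)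
    (p : Fin (2 * g i) × Fin (2 * g i)) : MvPolynomial (WW g) ℤ :=
  ∑ x, ∑ y, tp g i (F' i p.1 x) * sub g i (q i (x, y)) * C (e i p.2 y)

/-- All the numerators. -/
def qt {r : ℕ} (g : Fin r → ℕ) (d : Fin r → ℤ)
    (F' : ∀ i, Matrix (Fin (2 * g i)) (Ix (g i)) (Polynomial ℤ))
    (e : ∀ i, Fin (2 * g i) → Ix (g i) → ℤ)
    (q : ∀ i, Ix (g i) × Ix (g i) → MvPolynomial (Option (Idx (g i))) ℤ) :
    VV g → MvPolynomial (WW g) ℤ := fun v =>
  v.elim (X (Sum.inl none) * ∏ i, Dl g d i)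
    (fun p => (∏ k ∈ Finset.univ.erase p.1, Dl g d k) * nm g F' e q p.1 p.2)

lemma aeval_Dl {r : ℕ} (g : Fin r → ℕ) (d : Fin r → ℤ) (i : Fin r) (lam : ℂ)
    (Y : ∀ i, Matrix (Ix (g i)) (Ix (g i)) ℂ) (t : Fin r → ℂ) :
    aeval (Sum.elim (gv lam Y) t) (Dl g d i) =
      (d i : ℂ) * (1 - t i ^ (2 * g i + 1)) ^ (g i) * (Y i).toBlocks₁₁.det ^ 2 := by
  unfold Dl
  rw [map_mul, map_mul, map_pow, map_pow, map_sub, map_pow, map_one, aeval_X, aeval_dp,
    MvPolynomial.aeval_C]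
  rfl

lemma Pi_apply {g : ℕ} (F' : Matrix (Fin (2 * g)) (Ix g) (Polynomial ℤ))
    (E : Matrix (Fin (2 * g)) (Ix g) ℚ) (ψ : ℂ) (Y : Matrix (Ix g) (Ix g) ℂ)
    (a b : Fin (2 * g)) : Pi' F' E ψ Y a b = ((1 - ψ ^ (2 * g + 1)) ^ g)⁻¹ *
      ∑ x, ∑ y, Polynomial.aeval ψ (F' a x) * Y x y * ((E b y : ℚ) : ℂ) := by
  unfold Pi'
  rw [Matrix.smul_apply, smul_eq_mul, Matrix.mul_assoc, Matrix.mul_apply]
  congr 1
  refine Finset.sum_congr rfl fun x _ => ?_
  rw [Matrix.mul_apply, Finset.mul_sum]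
  refine Finset.sum_congr rfl fun y _ => ?_
  simp only [ev, cx, Matrix.map_apply, Matrix.transpose_apply]
  ring

lemma aeval_nm {r : ℕ} (g : Fin r → ℕ) (d : Fin r → ℤ)
    (F' : ∀ i, Matrix (Fin (2 * g i)) (Ix (g i)) (Polynomial ℤ))
    (E : ∀ i, Matrix (Fin (2 * g i)) (Ix (g i)) ℚ)
    (e : ∀ i, Fin (2 * g i) → Ix (g i) → ℤ)
    (he : ∀ i b y, ((e i b y : ℤ) : ℂ) = (d i : ℂ) * ((E i b y : ℚ) : ℂ))
    (q : ∀ i, Ix (g i) × Ix (g i) → MvPolynomial (Option (Idx (g i))) ℤ)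
    (lam : ℂ) (Y : ∀ i, Matrix (Ix (g i)) (Ix (g i)) ℂ) (t : Fin r → ℂ) (i : Fin r)
    (hq : ∀ p, aeval (HGP.opt (lam ^ (2 * g i - 1)) (gvec (Y i))) (q i p) =
      (Y i).toBlocks₁₁.det ^ 2 * Y i p.1 p.2)
    (ht : 1 - t i ^ (2 * g i + 1) ≠ 0) (p : Fin (2 * g i) × Fin (2 * g i)) :
    aeval (Sum.elim (gv lam Y) t) (nm g F' e q i p) =
      (d i : ℂ) * (1 - t i ^ (2 * g i + 1)) ^ (g i) * (Y i).toBlocks₁₁.det ^ 2 *
        Pi' (F' i) (E i) (t i) (Y i) p.1 p.2 := by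
  have h1 : ((1 - t i ^ (2 * g i + 1)) ^ (g i)) ≠ 0 := pow_ne_zero _ ht
  rw [Pi_apply]
  unfold nm
  rw [map_sum]
  have h2 : ∀ x, aeval (Sum.elim (gv lam Y) t)
      (∑ y, tp g i (F' i p.1 x) * sub g i (q i (x, y)) * C (e i p.2 y)) =
      (d i : ℂ) * (Y i).toBlocks₁₁.det ^ 2 *
        ∑ y, Polynomial.aeval (t i) (F' i p.1 x) * Y i x y * ((E i p.2 y : ℚ) : ℂ) := by
    intro x
    rw [map_sum, Finset.mul_sum]
    refine Finset.sum_congr rfl fun y _ => ?_
    rw [map_mul, map_mul, aeval_tp, aeval_sub, MvPolynomial.aeval_C]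
    have h3 := hq (x, y)
    have h4 : (fun x => gv lam Y (some ⟨i, x⟩)) = gvec (Y i) := rfl
    have h5 : gv lam Y none = lam := rfl
    rw [h4, h5, h3]
    simp only [algebraMap_int_eq, eq_intCast, Sum.elim_inr]
    rw [he]
    ring
  rw [Finset.sum_congr rfl fun x _ => h2 x, ← Finset.mul_sum]
  field_simp

/-- The value at a point of the big cell. -/
lemma key {r : ℕ} (g : Fin r → ℕ) (d : Fin r → ℤ) (hd : ∀ i, d i ≠ 0)
    (F' : ∀ i, Matrix (Fin (2 * g i)) (Ix (g i)) (Polynomial ℤ))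
    (E : ∀ i, Matrix (Fin (2 * g i)) (Ix (g i)) ℚ)
    (e : ∀ i, Fin (2 * g i) → Ix (g i) → ℤ)
    (he : ∀ i b y, ((e i b y : ℤ) : ℂ) = (d i : ℂ) * ((E i b y : ℚ) : ℂ))
    (q : ∀ i, Ix (g i) × Ix (g i) → MvPolynomial (Option (Idx (g i))) ℤ)
    (lam : ℂ) (Y : ∀ i, Matrix (Ix (g i)) (Ix (g i)) ℂ) (t : Fin r → ℂ)
    (hq : ∀ i p, aeval (HGP.opt (lam ^ (2 * g i - 1)) (gvec (Y i))) (q i p) =
      (Y i).toBlocks₁₁.det ^ 2 * Y i p.1 p.2)
    (hdet : ∀ i, (Y i).toBlocks₁₁.det ≠ 0)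
    (ht : ∀ i, 1 - t i ^ (2 * g i + 1) ≠ 0) :
    aeval (Sum.elim (gv lam Y) t) (∏ i, Dl g d i) =
      ∏ i, ((d i : ℂ) * (1 - t i ^ (2 * g i + 1)) ^ (g i) * (Y i).toBlocks₁₁.det ^ 2) ∧
    aeval (Sum.elim (gv lam Y) t) (∏ i, Dl g d i) ≠ 0 ∧
    (fun v => aeval (Sum.elim (gv lam Y) t) (qt g d F' e q v) /
      aeval (Sum.elim (gv lam Y) t) (∏ i, Dl g d i)) =
      tpt (n := fun i => 2 * g i) lam (fun i => Pi' (F' i) (E i) (t i) (Y i)) := by
  have h1 : aeval (Sum.elim (gv lam Y) t) (∏ i, Dl g d i) =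
      ∏ i, ((d i : ℂ) * (1 - t i ^ (2 * g i + 1)) ^ (g i) * (Y i).toBlocks₁₁.det ^ 2) := by
    rw [map_prod]
    exact Finset.prod_congr rfl fun i _ => aeval_Dl g d i lam Y t
  have h2 : aeval (Sum.elim (gv lam Y) t) (∏ i, Dl g d i) ≠ 0 := by
    rw [h1]
    refine Finset.prod_ne_zero_iff.2 fun i _ => ?_
    refine mul_ne_zero (mul_ne_zero ?_ (pow_ne_zero _ (ht i))) (pow_ne_zero _ (hdet i))
    exact_mod_cast hd i
  refine ⟨h1, h2, ?_⟩
  funext v
  rw [div_eq_iff h2]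
  match v with
  | none =>
    show aeval (Sum.elim (gv lam Y) t) (X (Sum.inl none) * ∏ i, Dl g d i) =
      lam * aeval (Sum.elim (gv lam Y) t) (∏ i, Dl g d i)
    rw [map_mul, aeval_X]
    rfl
  | some ⟨i, p⟩ =>
    show aeval (Sum.elim (gv lam Y) t) ((∏ k ∈ Finset.univ.erase i, Dl g d k) *
      nm g F' e q i p) = Pi' (F' i) (E i) (t i) (Y i) p.1 p.2 *
        aeval (Sum.elim (gv lam Y) t) (∏ i, Dl g d i)
    rw [map_mul, map_prod, aeval_nm g d F' E e he q lam Y t i (hq i) (ht i) p, h1,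
      ← Finset.mul_prod_erase Finset.univ (fun i => (d i : ℂ) *
        (1 - t i ^ (2 * g i + 1)) ^ (g i) * (Y i).toBlocks₁₁.det ^ 2) (Finset.mem_univ i)]
    have h3 : ∏ k ∈ Finset.univ.erase i, aeval (Sum.elim (gv lam Y) t) (Dl g d k) =
        ∏ k ∈ Finset.univ.erase i, ((d k : ℂ) * (1 - t k ^ (2 * g k + 1)) ^ (g k) *
          (Y k).toBlocks₁₁.det ^ 2) :=
      Finset.prod_congr rfl fun k _ => aeval_Dl g d k lam Y t
    rw [h3]
    ring

/-- Continuity of polynomials. -/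
lemma cont_aeval {V : Type} [Fintype V] (P : MvPolynomial V ℤ) (f : ℂ → V → ℂ)
    (hf : ∀ v, Continuous fun s => f s v) : Continuous fun s => aeval (f s) P := by
  induction P using MvPolynomial.induction_on with
  | C a => simp only [MvPolynomial.aeval_C]; exact continuous_const
  | add p q hp hq => simp only [map_add]; exact hp.add hq
  | mul_X p v hp => simp only [map_mul, aeval_X]; exact hp.mul (hf v)

lemma cont_gvec {g : ℕ} (Y : ℂ → Matrix (Ix g) (Ix g) ℂ) (hY : Continuous Y) (x : Idx g) :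
    Continuous fun s => gvec (Y s) x := by
  have h11 : Continuous fun s => (Y s).toBlocks₁₁ :=
    continuous_matrix fun i j => hY.matrix_elem _ _
  have h12 : Continuous fun s => (Y s).toBlocks₁₂ :=
    continuous_matrix fun i j => hY.matrix_elem _ _
  have h21 : Continuous fun s => (Y s).toBlocks₂₁ :=
    continuous_matrix fun i j => hY.matrix_elem _ _
  match x with
  | .inl p => exact h11.matrix_elem _ _
  | .inr (.inl p) => exact (h21.matrix_mul h11.matrix_adjugate).matrix_elem _ _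
  | .inr (.inr p) => exact (h11.matrix_adjugate.matrix_mul h12).matrix_elem _ _

lemma small_mono {V : Type} {P : MvPolynomial V ℤ} {D B D' B' : ℕ} (h : GPC.IsSmall P D B)
    (hD : D ≤ D') (hB : B ≤ B') : GPC.IsSmall P D' B' :=
  ⟨h.1.trans hD, fun m => (h.2 m).trans hB⟩

end TRID_

open TRID_ in
theorem trid_proof (hCellG : Stmt_CellG) (hSpec : Stmt_Spec) (hHomog : HGP.Stmt_Homog)
    (hPath : HGP.Stmt_Path) : Stmt_TrId := by
  intro r g hg F F' E E' hF hE D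
  choose q hqq using fun i => hCellG (g i)
  choose d e hd he using fun i => common_den (E i)
  obtain ⟨D1, C1, hHom⟩ := hHomog (VV g) (WW g) (qt g d F' e q) (∏ i, Dl g d i) D
  obtain ⟨C2, hSp⟩ := hSpec (UU g) r D1
  refine ⟨(r + 1) * D1, C2 * C1, fun B H P hP hH t ht => ?_⟩
  obtain ⟨P0, hP0s, hP0⟩ := hHom B P hP
  obtain ⟨P1, hP1s, hP1⟩ := hSp (C1 * B) H P0 hP0s hH t (fun i => (ht i).2)
  have ht1 : ∀ i, 1 - ((t i : ℚ) : ℂ) ^ (2 * g i + 1) ≠ 0 := by
    intro i h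
    have h1 : ‖((t i : ℚ) : ℂ) ^ (2 * g i + 1)‖ = 1 := by
      rw [sub_eq_zero] at h
      rw [← h, norm_one]
    rw [norm_pow] at h1
    have h2 : ‖((t i : ℚ) : ℂ)‖ < 1 := by
      have h3 : ‖((t i : ℚ) : ℂ)‖ = |((t i : ℚ) : ℝ)| := by
        rw [← Complex.ofReal_ratCast, Complex.norm_real, Real.norm_eq_abs]
      rw [h3]
      exact (ht i).1
    have h4 : ‖((t i : ℚ) : ℂ)‖ ^ (2 * g i + 1) < 1 :=
      pow_lt_one₀ (norm_nonneg _) h2 (by omega)
    linarith
  refine ⟨P1, small_mono hP1s (by nlinarith [Nat.zero_le (r * D1)]) ?_, ?_⟩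
  · have h1 : H ^ (r * D1) ≤ H ^ ((r + 1) * D1) := Nat.pow_le_pow_right hH (by nlinarith)
    calc C2 * (C1 * B) * H ^ (r * D1) ≤ C2 * (C1 * B) * H ^ ((r + 1) * D1) :=
          Nat.mul_le_mul_left _ h1
      _ = C2 * C1 * B * H ^ ((r + 1) * D1) := by ring
  set K : ℂ := (∏ i, ((t i).den : ℂ) ^ D1) *
    (∏ i, ((d i : ℂ) * (1 - ((t i : ℚ) : ℂ) ^ (2 * g i + 1)) ^ (g i))) ^ D with hK
  refine ⟨K, ?_, ?_⟩
  · rw [hK]
    refine mul_ne_zero (Finset.prod_ne_zero_iff.2 fun i _ => pow_ne_zero _ ?_)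
      (pow_ne_zero _ (Finset.prod_ne_zero_iff.2 fun i _ => mul_ne_zero ?_
        (pow_ne_zero _ (ht1 i))))
    · exact_mod_cast (t i).den_ne_zero
    · exact_mod_cast hd i
  intro lam hlam Y hY
  have hlami : ∀ i, lam ^ (2 * g i - 1) ≠ 0 := fun i => pow_ne_zero _ hlam
  -- the identity on the big cell
  have cell : ∀ Y : ∀ i, Matrix (Ix (g i)) (Ix (g i)) ℂ,
      (∀ i, HGP.Simil (lam ^ (2 * g i - 1)) (Y i)) → (∀ i, (Y i).toBlocks₁₁.det ≠ 0) →
      aeval (gv lam Y) P1 = K * (∏ i, (Y i).toBlocks₁₁.det) ^ (2 * D) *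
        aeval (tpt (n := fun i => 2 * g i) lam
          (fun i => Pi' (F' i) (E i) (t i : ℂ) (Y i))) P := by
    intro Y hY hdet
    obtain ⟨k1, k2, k3⟩ := key g d hd F' E e he q lam Y (fun i => ((t i : ℚ) : ℂ))
      (fun i p => hqq i (Y i) _ (hlami i) (hY i) (hdet i) p) hdet ht1
    have k4 : (∏ i, (Y i).toBlocks₁₁.det ^ 2) ^ D = (∏ i, (Y i).toBlocks₁₁.det) ^ (2 * D) := by
      rw [Finset.prod_pow, ← pow_mul]
    rw [hP1, hP0 _ k2, k3, k1, Finset.prod_mul_distrib, hK, mul_pow, k4]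
    ring
  -- paths into the big cell
  choose p hp0 hps hp1 using fun i => hPath (g i) (Y i) _ (hlami i) (hY i)
  let Z : ℂ → ∀ i, Matrix (Ix (g i)) (Ix (g i)) ℂ :=
    fun s i => Matrix.of fun x y => (p i x y).eval s
  have hZ0 : Z 0 = Y := by
    funext i
    ext x y
    exact hp0 i x y
  have hZc : ∀ i, Continuous fun s => Z s i := fun i =>
    continuous_matrix fun x y => (p i x y).continuous
  let G : Fin r → Polynomial ℂ := fun i =>
    (Matrix.of fun x y => p i (Sum.inl x) (Sum.inl y) :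
      Matrix (Fin (g i)) (Fin (g i)) (Polynomial ℂ)).det
  have hG : ∀ i s, (G i).eval s = (Z s i).toBlocks₁₁.det := by
    intro i s
    have h := RingHom.map_det (Polynomial.evalRingHom s)
      (Matrix.of fun x y => p i (Sum.inl x) (Sum.inl y) :
        Matrix (Fin (g i)) (Fin (g i)) (Polynomial ℂ))
    rw [Polynomial.coe_evalRingHom] at h
    show Polynomial.eval s _ = _
    rw [h]
    congr 1
  have hG0 : ∀ i, G i ≠ 0 := by
    intro i h0
    apply hp1 i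
    have h := hG i 1
    rw [h0, Polynomial.eval_zero] at h
    exact h.symm
  have hprod : (∏ i, G i) ≠ 0 := Finset.prod_ne_zero_iff.2 fun i _ => hG0 i
  have hdense : Dense {s : ℂ | (∏ i, G i).eval s ≠ 0} := by
    have h1 : {s : ℂ | (∏ i, G i).eval s ≠ 0} = ((∏ i, G i).rootSet ℂ)ᶜ := by
      ext s
      simp only [Set.mem_ofPred_eq, Set.mem_compl_iff, Polynomial.mem_rootSet, ne_eq, hprod,
        not_false_eq_true, true_and, Polynomial.coe_aeval_eq_eval]
    rw [h1]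
    exact (Polynomial.rootSet_finite _ _).countable.dense_compl ℂ
  have hL : Continuous fun s => aeval (gv lam (Z s)) P1 := by
    refine cont_aeval P1 _ fun v => ?_
    match v with
    | none => exact continuous_const
    | some ⟨i, x⟩ => exact cont_gvec _ (hZc i) x
  have hR : Continuous fun s => K * (∏ i, (Z s i).toBlocks₁₁.det) ^ (2 * D) *
      aeval (tpt (n := fun i => 2 * g i) lam
        (fun i => Pi' (F' i) (E i) (t i : ℂ) (Z s i))) P := by
    refine (continuous_const.mul ((continuous_finsetProd _ fun i _ => ?_).pow _)).mul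
      (cont_aeval P _ fun v => ?_)
    · refine Continuous.matrix_det (continuous_matrix fun x y => ?_)
      exact (hZc i).matrix_elem _ _
    · match v with
      | none => exact continuous_const
      | some ⟨i, x⟩ =>
        show Continuous fun s => Pi' (F' i) (E i) (t i : ℂ) (Z s i) x.1 x.2
        simp only [Pi_apply]
        refine continuous_const.mul (continuous_finsetSum _ fun a _ =>
          continuous_finsetSum _ fun b _ => ?_)
        exact (continuous_const.mul ((hZc i).matrix_elem _ _)).mul continuous_const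
  have heq : (fun s => aeval (gv lam (Z s)) P1) = fun s =>
      K * (∏ i, (Z s i).toBlocks₁₁.det) ^ (2 * D) *
        aeval (tpt (n := fun i => 2 * g i) lam
          (fun i => Pi' (F' i) (E i) (t i : ℂ) (Z s i))) P := by
    refine hL.ext_on hdense hR ?_
    intro s hs
    rw [Set.mem_ofPred_eq, Polynomial.eval_prod] at hs
    refine cell (Z s) (fun i => hps i s) fun i => ?_
    rw [← hG i s]
    exact Finset.prod_ne_zero_iff.1 hs i (Finset.mem_univ i)
  have h0 := congrFun heq 0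
  simp only [hZ0] at h0
  exact h0

end

end Pool.Agent.CYP
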