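import Pool.Agent.CYP.Stmts

/-!
# CYP squad, module VC: the connection matrix is a transvection along the first basis vector
-/

set_option autoImplicit false

open scoped BigOperators
open Matrix

namespace Pool.Agent.CYP

noncomputable section

namespace VC_

theorem Qm_antisymm (n : ℕ) (i j : Fin n) : Qm n ℂ i j = - Qm n ℂ j i := by
  unfold Qm
  simp only [Matrix.of_apply]
  rcases lt_trichotomy i j with h | h | h
  · rw [if_pos h, if_neg (not_lt.2 h.le), if_pos h, neg_neg]
  · subst h
    simp
  · rw [if_neg (not_lt.2 h.le), if_pos h, if_pos h]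

end VC_

open VC_ in
theorem vc_proof (hQdet : Stmt_Qdet) : Stmt_Vc := by
  classical
  intro n i0 hn hi0 h hQ h1 hu
  have hdet := hQdet n hn
  set Q : Matrix (Fin n) (Fin n) ℂ := Qm n ℂ with hQdef
  have hanti : ∀ i j, Q i j = - Q j i := Qm_antisymm n
  -- the functional is not zero
  obtain ⟨j0, hj0⟩ : ∃ j0, Q j0 i0 ≠ 0 := by
    by_contra hcon
    push Not at hcon
    exact hdet (Matrix.det_eq_zero_of_column_eq_zero i0 hcon)
  set φ : Fin n → ℂ := fun j => Q j i0 with hφ
  set v : Fin n → ℂ := fun i => (φ j0)⁻¹ * (h i j0 - (1 : Matrix (Fin n) (Fin n) ℂ) i j0) with hv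
  have hform : ∀ i k, h i k = (1 : Matrix (Fin n) (Fin n) ℂ) i k + v i * φ k := by
    intro i k
    set u : Fin n → ℂ := Pi.single k 1 - (φ k * (φ j0)⁻¹) • Pi.single j0 1 with hudef
    have h2 : ∑ j, Q j i0 * u j = 0 := by
      have h3 : ∀ j, Q j i0 * u j = φ j * (Pi.single k (1 : ℂ) : Fin n → ℂ) j -
          (φ k * (φ j0)⁻¹) * (φ j * (Pi.single j0 (1 : ℂ) : Fin n → ℂ) j) := by
        intro j
        rw [hudef, Pi.sub_apply, Pi.smul_apply, smul_eq_mul]
        simp only [hφ]
        ring
      rw [Finset.sum_congr rfl fun j _ => h3 j, Finset.sum_sub_distrib, ← Finset.mul_sum]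
      simp only [Pi.single_apply, mul_ite, mul_one, mul_zero, Finset.sum_ite_eq',
        Finset.mem_univ, if_true]
      rw [mul_assoc, inv_mul_cancel₀ hj0, mul_one, sub_self]
    have h4 := congrFun (hu u h2) i
    have h5 : h.mulVec u i = h i k - (φ k * (φ j0)⁻¹) * h i j0 := by
      rw [hudef, Matrix.mulVec_sub, Matrix.mulVec_smul, Pi.sub_apply, Pi.smul_apply,
        Matrix.mulVec_single_one, Matrix.mulVec_single_one, smul_eq_mul]
      rfl
    have h6 : u i = (1 : Matrix (Fin n) (Fin n) ℂ) i k -
        (φ k * (φ j0)⁻¹) * (1 : Matrix (Fin n) (Fin n) ℂ) i j0 := by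
      rw [hudef, Pi.sub_apply, Pi.smul_apply, smul_eq_mul, Pi.single_apply, Pi.single_apply,
        Matrix.one_apply, Matrix.one_apply]
    rw [h5, h6] at h4
    rw [hv]
    linear_combination h4
  -- the relation
  set w : Fin n → ℂ := fun i => ∑ j, Q i j * v j with hw
  have hvQ : ∀ i, ∑ j, v j * Q j i = - w i := by
    intro i
    rw [hw]
    simp only
    rw [← Finset.sum_neg_distrib]
    refine Finset.sum_congr rfl fun j _ => ?_
    rw [hanti j i]
    ring
  have hvv : ∑ i, v i * w i = 0 := by
    have h2 : ∑ i, v i * w i = - ∑ i, v i * w i := by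
      calc ∑ i, v i * w i = ∑ i, ∑ j, v i * (Q i j * v j) := by
            refine Finset.sum_congr rfl fun i _ => ?_
            rw [hw]
            simp only
            rw [Finset.mul_sum]
        _ = ∑ j, ∑ i, v i * (Q i j * v j) := Finset.sum_comm
        _ = ∑ j, (∑ i, v i * Q i j) * v j := by
            refine Finset.sum_congr rfl fun j _ => ?_
            rw [Finset.sum_mul]
            exact Finset.sum_congr rfl fun i _ => by ring
        _ = ∑ j, (- w j) * v j := by
            refine Finset.sum_congr rfl fun j _ => ?_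
            rw [hvQ j]
        _ = - ∑ i, v i * w i := by
            rw [← Finset.sum_neg_distrib]
            exact Finset.sum_congr rfl fun i _ => by ring
    have h3 : (2 : ℂ) * ∑ i, v i * w i = 0 := by linear_combination h2
    exact (mul_eq_zero.1 h3).resolve_left two_ne_zero
  have hrel : ∀ i k, w i * φ k = φ i * w k := by
    intro i k
    have h2 := congrFun (congrFun hQ i) k
    have h3 : (h.transpose * Q * h) i k = ∑ b, (∑ a, h a i * Q a b) * h b k := by
      rw [Matrix.mul_apply]
      refine Finset.sum_congr rfl fun b _ => ?_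
      rw [Matrix.mul_apply]
      rfl
    have h4 : ∀ b, ∑ a, h a i * Q a b = Q i b - φ i * w b := by
      intro b
      have h5 : ∀ a, h a i * Q a b =
          (if a = i then Q a b else 0) + φ i * (v a * Q a b) := by
        intro a
        rw [hform a i, Matrix.one_apply]
        split_ifs <;> ring
      rw [Finset.sum_congr rfl fun a _ => h5 a, Finset.sum_add_distrib, ← Finset.mul_sum, hvQ]
      simp only [Finset.sum_ite_eq', Finset.mem_univ, if_true]
      ring
    have h6 : ∑ b, (Q i b - φ i * w b) * h b k =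
        Q i k + w i * φ k - φ i * w k := by
      have h7 : ∀ b, (Q i b - φ i * w b) * h b k =
          (if b = k then Q i b - φ i * w b else 0) + φ k * (Q i b * v b) -
            (φ i * φ k) * (v b * w b) := by
        intro b
        rw [hform b k, Matrix.one_apply]
        split_ifs <;> ring
      rw [Finset.sum_congr rfl fun b _ => h7 b, Finset.sum_sub_distrib, Finset.sum_add_distrib,
        ← Finset.mul_sum, ← Finset.mul_sum, hvv]
      simp only [Finset.sum_ite_eq', Finset.mem_univ, if_true]
      have h8 : ∑ b, Q i b * v b = w i := rfl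
      rw [h8]
      ring
    rw [h3, Finset.sum_congr rfl fun b _ => by rw [h4 b], h6] at h2
    linear_combination h2
  set c : ℂ := w j0 * (φ j0)⁻¹ with hc
  have hwc : ∀ i, w i = c * φ i := by
    intro i
    have h2 := hrel i j0
    have h3 : φ j0 ≠ 0 := hj0
    rw [hc]
    field_simp
    linear_combination h2
  have hvc : v = c • (Pi.single i0 1 : Fin n → ℂ) := by
    have h2 : Q.mulVec (v - c • (Pi.single i0 1 : Fin n → ℂ)) = 0 := by
      rw [Matrix.mulVec_sub, Matrix.mulVec_smul, Matrix.mulVec_single_one]
      funext i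
      have h3 : Q.mulVec v i = w i := rfl
      rw [Pi.sub_apply, Pi.smul_apply, h3, hwc, smul_eq_mul, Pi.zero_apply]
      simp only [hφ]
      exact sub_self _
    exact sub_eq_zero.1 (Matrix.eq_zero_of_mulVec_eq_zero hdet h2)
  have hh : h = 1 + c • rs n i0 := by
    ext i k
    rw [hform i k, hvc, Matrix.add_apply, Matrix.smul_apply, Pi.smul_apply, smul_eq_mul,
      smul_eq_mul]
    unfold rs GPH.res
    rw [Matrix.vecMulVec_apply, Matrix.mulVec_single_one]
    change _ = _ + c * ((Pi.single i0 (1 : ℂ) : Fin n → ℂ) i * Q k i0)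
    simp only [hφ]
    ring
  refine ⟨c, ?_, hh⟩
  rintro hc0
  apply h1
  rw [hh, hc0, zero_smul, add_zero]

end

end Pool.Agent.CYP
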