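import Pool.Agent.CYP.Stmts

/-!
# CYP, module YX: the functions on the cut plane
-/

open scoped BigOperators Topology
open Metric Set MeasureTheory

namespace Pool.Agent.CYP

namespace YX_

lemma zt_norm (n : ℕ) : ‖zt n‖ = 1 := by
  unfold zt
  rw [Complex.norm_exp]
  have : (2 * (Real.pi : ℂ) * Complex.I / ((n : ℂ) + 1)).re = 0 := by
    have e : (2 * (Real.pi : ℂ) * Complex.I / ((n : ℂ) + 1))
        = ((2 * Real.pi / ((n : ℝ) + 1) : ℝ) : ℂ) * Complex.I := by
      push_cast
      ring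
    rw [e, Complex.re_ofReal_mul, Complex.I_re, mul_zero]
  rw [this, Real.exp_zero]

lemma binom_sum (N j m : ℕ) (z : ℂ) :
    ∑ i ∈ Finset.range (N + 1), (-1) ^ i * (N.choose i : ℂ) * (z ^ (i + j) * (z ^ (i + j)) ^ m)
      = z ^ (j * (m + 1)) * (1 - z ^ (m + 1)) ^ N := by
  have h1 : (1 - z ^ (m + 1)) ^ N = ∑ i ∈ Finset.range (N + 1),
      (-z ^ (m + 1)) ^ i * 1 ^ (N - i) * (N.choose i : ℂ) := by
    rw [← add_pow]
    congr 1
    ring
  rw [h1, Finset.mul_sum]
  apply Finset.sum_congr rfl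
  intro i _
  rw [one_pow, mul_one, neg_pow (z ^ (m + 1)) i, ← pow_succ', ← pow_mul, ← pow_mul]
  have h2 : z ^ ((i + j) * (m + 1)) = z ^ (j * (m + 1)) * z ^ ((m + 1) * i) := by
    rw [← pow_add]
    congr 1
    ring
  rw [h2]
  ring

end YX_

theorem yx_proof (hCauc : Stmt_Cauc) (_hGeo : Stmt_Geo) : Stmt_Yx := by
  intro n j
  obtain ⟨hd, hs⟩ := hCauc n
  constructor
  · unfold Yx
    apply DifferentiableOn.const_mul
    apply DifferentiableOn.fun_sum
    intro i _
    apply DifferentiableOn.const_mul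
    apply DifferentiableOn.const_mul
    apply DifferentiableOn.comp hd
    · fun_prop
    · intro ψ hψ
      exact hψ (i + j)
  · intro ψ hψ
    rw [mem_ball_zero_iff] at hψ
    have h1 : ∀ k : ℕ, HasSum (fun m : ℕ => (acf n m : ℂ) * (zt n ^ k * ψ) ^ m)
        (Gf n (zt n ^ k * ψ)) := by
      intro k
      apply hs
      rw [norm_mul, norm_pow, YX_.zt_norm, one_pow, one_mul]
      exact hψ
    have h2 : HasSum (fun m : ℕ => (2 * Real.pi * Complex.I)⁻¹ *
        ∑ i ∈ Finset.range (n + 2), (-1) ^ i * ((n + 1).choose i : ℂ) *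
          (zt n ^ (i + j) * ((acf n m : ℂ) * (zt n ^ (i + j) * ψ) ^ m))) (Yx n j ψ) := by
      unfold Yx
      apply HasSum.mul_left
      apply hasSum_sum
      intro i _
      apply HasSum.mul_left
      apply HasSum.mul_left
      exact h1 (i + j)
    rw [← h2.tsum_eq]
    unfold prd
    apply tsum_congr
    intro m
    unfold pc
    have h3 := YX_.binom_sum (n + 1) j m (zt n)
    have h4 : ∑ i ∈ Finset.range (n + 2), (-1) ^ i * ((n + 1).choose i : ℂ) *
          (zt n ^ (i + j) * ((acf n m : ℂ) * (zt n ^ (i + j) * ψ) ^ m))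
        = (∑ i ∈ Finset.range (n + 1 + 1), (-1) ^ i * ((n + 1).choose i : ℂ) *
          (zt n ^ (i + j) * (zt n ^ (i + j)) ^ m)) * ((acf n m : ℂ) * ψ ^ m) := by
      rw [Finset.sum_mul]
      apply Finset.sum_congr rfl
      intro i _
      rw [mul_pow]
      ring
    rw [h4, h3]
    ring

end Pool.Agent.CYP
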