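import Pool.Agent.CYP.REC
import Pool.Agent.CYP.PSER
import Pool.Agent.CYP.ODED
import Pool.Agent.CYP.CAUC
import Pool.Agent.CYP.INV
import Pool.Agent.CYP.NX
import Pool.Agent.CYP.GEO
import Pool.Agent.CYP.SEC
import Pool.Agent.CYP.YX
import Pool.Agent.CYP.LINK
import Pool.Agent.CYP.SOLO
import Pool.Agent.CYP.ROT
import Pool.Agent.CYP.LAGR
import Pool.Agent.CYP.QFT
import Pool.Agent.CYP.BZ
import Pool.Agent.CYP.QDET
import Pool.Agent.CYP.BILO
import Pool.Agent.CYP.JUMP
import Pool.Agent.CYP.VC
import Pool.Agent.CYP.TRV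
import Pool.Agent.CYP.COMM
import Pool.Agent.CYP.DARB
import Pool.Agent.CYP.GRPQ
import Pool.Agent.CYP.FIBER
import Pool.Agent.CYP.FMAT
import Pool.Agent.CYP.GVEC
import Pool.Agent.CYP.CELLG
import Pool.Agent.CYP.PSI
import Pool.Agent.CYP.HOLG
import Pool.Agent.CYP.IND
import Pool.Agent.CYP.GSTEP
import Pool.Agent.CYP.GIND
import Pool.Agent.CYP.SPEC
import Pool.Agent.CYP.TRID
import Pool.Agent.CYP.TRANS
import Pool.Agent.CYP.FINAL
import Pool.Agent.GPC.Main
import Pool.Agent.HGP.GENB
import Pool.Agent.HGP.CELLB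
import Pool.Agent.HGP.HOMOG
import Pool.Agent.HGP.PATH
import Pool.Agent.GPH.Lode
import Pool.Agent.GPH.Uniq
import Pool.Agent.GPH.Grpa
import Pool.Agent.GPH.GrpB
import Pool.Agent.GPH.Grp

/-!
# CYP: assembly
-/

namespace Pool.Agent.CYP.Main

theorem pser : Stmt_Pser := pser_proof
theorem rec' : Stmt_Rec := rec_proof
theorem odeD : Stmt_OdeD := oded_proof rec' pser
theorem cauc : Stmt_Cauc := cauc_proof
theorem nx : Stmt_Nx := nx_proof rec' inv_proof
theorem geo : Stmt_Geo := geo_proof
theorem yx : Stmt_Yx := yx_proof cauc geo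
theorem link : Stmt_Link := link_proof yx pser
theorem solO : Stmt_SolO := solo_proof odeD yx geo
theorem rot : Stmt_Rot := rot_proof yx geo cauc
theorem qft : Stmt_Qft := qft_proof
theorem bz : Stmt_Bz := bz_proof qft pser
theorem qdet : Stmt_Qdet := qdet_proof qft
theorem bilO : Stmt_BilO := bilo_proof lagr_proof bz odeD yx geo
theorem jump : Stmt_Jump := jump_proof solO bilO sec_proof geo nx yx cauc qdet GPH.lode_proof
  GPH.uniq_proof
theorem trv : Stmt_Trv := trv_proof jump (vc_proof qdet) rot geo bilO qdet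
theorem grpQ : Stmt_GrpQ := grpq_proof comm_proof qdet darb_proof (GPH.grp_proof GPH.grpa_proof (GPH.grpb_proof HGP.genb_proof))
theorem fiber : Stmt_Fiber := fiber_proof trv grpQ bilO yx geo qdet
theorem holG : Stmt_HolG := holg_proof yx geo
theorem ind : Stmt_Ind := ind_proof fiber psi_proof gvec_proof HGP.cellb_proof
theorem path : HGP.Stmt_Path := HGP.path_proof HGP.genb_proof
theorem gind : Stmt_Gind := gind_proof (gstep_proof GPC.Main.thmG)
theorem trId : Stmt_TrId := trid_proof cellg_proof spec_proof HGP.homog_proof path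
theorem trans : Stmt_Trans := trans_proof trId psi_proof path

/-- The period conjecture up to bounded complexity for 100 percent of the members of products of
Dwork families of Calabi-Yau varieties of odd dimension. -/
theorem final : Stmt_Final :=
  final_proof darb_proof fmat_proof qdet bilO link geo holG ind gind trans

end Pool.Agent.CYP.Main
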