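import Pool.Agent.CYP.Stmts2

/-!
# CYP2: module BRAN, the branches of the period matrix near a real point
-/

open scoped BigOperators Topology
open Metric Set MeasureTheory

namespace Pool.Agent.CYP

noncomputable section

namespace BRAN_

theorem diff_eval {α : Type} {S : Set ℂ} (f : α → ℂ → ℂ) (hf : ∀ i, DifferentiableOn ℂ (f i) S)
    (P : MvPolynomial (Option α) ℂ) :
    DifferentiableOn ℂ (fun t => MvPolynomial.eval (HGP.opt t (fun p => f p t)) P) S := by
  induction P using MvPolynomial.induction_on with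
  | C c => simp
  | add p q hp hq =>
    simp only [map_add]
    exact hp.add hq
  | mul_X p i hp =>
    simp only [map_mul, MvPolynomial.eval_X]
    refine hp.mul ?_
    cases i with
    | none => exact differentiableOn_id
    | some i => exact hf i

/-- the entries of `Mx` are holomorphic on the cut plane -/
theorem mx_diff (hYx : Stmt_Yx) (hGeo : Stmt_Geo) (n : ℕ) (i j : Fin n) :
    DifferentiableOn ℂ (fun ψ => Mx n ψ i j) (Om n) := by
  have h1 : AnalyticOnNhd ℂ (Yx n (j : ℕ)) (Om n) :=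
    (hYx n (j : ℕ)).1.analyticOnNhd (hGeo n).1
  have h2 : AnalyticOnNhd ℂ (iteratedDeriv (i : ℕ) (Yx n (j : ℕ))) (Om n) := by
    rw [iteratedDeriv_eq_iterate]
    exact h1.iterated_deriv _
  exact h2.differentiableOn

theorem zt_prim (n : ℕ) : IsPrimitiveRoot (zt n) (n + 1) := by
  have h := Complex.isPrimitiveRoot_exp (n + 1) (Nat.succ_ne_zero n)
  have e : zt n = Complex.exp (2 * Real.pi * Complex.I / ((n + 1 : ℕ) : ℂ)) := by
    unfold zt
    push_cast
    rfl
  rw [e]
  exact h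

theorem zt_pow (n : ℕ) : zt n ^ (n + 1) = 1 := (zt_prim n).pow_eq_one

theorem norm_zt (n : ℕ) : ‖zt n‖ = 1 :=
  Complex.norm_eq_one_of_pow_eq_one (zt_pow n) (Nat.succ_ne_zero n)

/-- a real power of `ζ` is `1` (the degree is odd) -/
theorem zt_real {n : ℕ} (hn : Even n) (k : ℕ) (h : (zt n ^ k).im = 0) : zt n ^ k = 1 := by
  have h1 : zt n ^ k = (((zt n ^ k).re : ℝ) : ℂ) := by
    apply Complex.ext
    · simp
    · rw [Complex.ofReal_im]
      exact h
  have h2 : |(zt n ^ k).re| = 1 := by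
    have h3 : ‖zt n ^ k‖ = 1 := by rw [norm_pow, norm_zt, one_pow]
    rw [h1, Complex.norm_real, Real.norm_eq_abs] at h3
    exact h3
  rcases (abs_eq zero_le_one).1 h2 with h3 | h3
  · rw [h1, h3, Complex.ofReal_one]
  · exfalso
    have h4 : (zt n ^ k) ^ (n + 1) = 1 := by
      rw [← pow_mul, mul_comm k (n + 1), pow_mul, zt_pow, one_pow]
    rw [h1, h3, Complex.ofReal_neg, Complex.ofReal_one, (hn.add_one).neg_one_pow] at h4
    norm_num at h4

/-- real points smaller than `1` are in the cut plane -/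
theorem real_mem {n : ℕ} (hn : Even n) {τ : ℝ} (hτ : τ < 1) : (τ : ℂ) ∈ Om n := by
  intro k
  by_cases h : (1 - zt n ^ k * (τ : ℂ)).im = 0
  · left
    have h1 : (1 - zt n ^ k * (τ : ℂ)).im = -((zt n ^ k).im * τ) := by
      simp [Complex.sub_im, Complex.mul_im]
    rw [h1, neg_eq_zero, mul_eq_zero] at h
    rcases h with h | h
    · rw [zt_real hn k h, one_mul, Complex.sub_re, Complex.one_re, Complex.ofReal_re]
      linarith
    · rw [h]
      simp
  · right
    exact h

/-- relations on an open subset of the cut plane hold on the whole torsor -/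
theorem full_of (hYx : Stmt_Yx) (hGeo : Stmt_Geo) (hFibO : Stmt_FibO) {g : ℕ} (hg : 0 < g)
    (P : MvPolynomial (Option (Fin (2 * g) × Fin (2 * g))) ℂ) {V : Set ℂ} (hV : IsOpen V)
    {z0 : ℂ} (hz0 : z0 ∈ V) (hz : z0 ∈ Om (2 * g))
    (hP : ∀ ψ ∈ V, MvPolynomial.eval (HGP.opt ψ (fun p => Mx (2 * g) ψ p.1 p.2)) P = 0) :
    ∀ ψ ∈ Om (2 * g), ∀ X : Matrix (Fin (2 * g)) (Fin (2 * g)) ℂ,
      Tors (2 * g) ψ (2 * Real.pi * Complex.I) X →
      MvPolynomial.eval (HGP.opt ψ (fun p => X p.1 p.2)) P = 0 := by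
  obtain ⟨hopen, hstar, hball, _, _⟩ := hGeo (2 * g)
  have h0 : (0 : ℂ) ∈ Om (2 * g) := hball (mem_ball_self one_pos)
  apply hFibO g hg P
  have hd : DifferentiableOn ℂ (fun t => MvPolynomial.eval
      (HGP.opt t (fun p : Fin (2 * g) × Fin (2 * g) => Mx (2 * g) t p.1 p.2)) P)
      (Om (2 * g)) :=
    diff_eval (fun (p : Fin (2 * g) × Fin (2 * g)) t => Mx (2 * g) t p.1 p.2)
      (fun p => mx_diff hYx hGeo (2 * g) p.1 p.2) P
  have han := hd.analyticOnNhd hopen
  have hev : (fun t => MvPolynomial.eval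
      (HGP.opt t (fun p : Fin (2 * g) × Fin (2 * g) => Mx (2 * g) t p.1 p.2)) P)
      =ᶠ[𝓝 z0] 0 := by
    filter_upwards [hV.mem_nhds hz0] with t ht
    exact hP t ht
  have hpre : IsPreconnected (Om (2 * g)) :=
    (StarConvex.isPathConnected hstar h0).isConnected.isPreconnected
  have := han.eqOn_zero_of_preconnected_of_eventuallyEq_zero hpre hz hev
  intro t ht
  rw [Matrix.mul_one]
  exact this ht

theorem sec_open (η : ℝ) : IsOpen (Sec η) := by
  have h1 : IsOpen {ψ : ℂ | 1 < ψ.re} := isOpen_lt continuous_const Complex.continuous_re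
  have h2 : IsOpen {ψ : ℂ | |ψ.im| < η * ψ.re} :=
    isOpen_lt Complex.continuous_im.abs (continuous_const.mul Complex.continuous_re)
  exact h1.inter h2

theorem real_sec {η τ : ℝ} (hη : 0 < η) (hτ : 1 < τ) : (τ : ℂ) ∈ Sec η := by
  refine ⟨?_, ?_⟩
  · rw [Complex.ofReal_re]
    exact hτ
  · rw [Complex.ofReal_im, Complex.ofReal_re, abs_zero]
    have : 0 < τ := by linarith
    positivity

/-- the vertical approach to a real point -/
theorem tend_vert (τ : ℝ) : Filter.Tendsto (fun ε : ℝ => (τ : ℂ) + (ε : ℂ) * Complex.I)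
    (𝓝[>] 0) (𝓝 (τ : ℂ)) := by
  have h1 : Continuous fun ε : ℝ => (τ : ℂ) + (ε : ℂ) * Complex.I := by fun_prop
  have h2 := h1.tendsto 0
  simp only [Complex.ofReal_zero, zero_mul, add_zero] at h2
  exact h2.mono_left nhdsWithin_le_nhds

end BRAN_

open BRAN_ in
/-- BRAN -/
theorem bran_proof (hLinkO : Stmt_LinkO) (hUB : Stmt_UB) (hLimB : Stmt_LimB)
    (hFibO : Stmt_FibO) (hYx : Stmt_Yx) (hGeo : Stmt_Geo) : Stmt_Bran := by
  intro g T0 T1 hg hT
  have hn : 0 < 2 * g := by omega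
  have he : Even (2 * g) := even_two_mul g
  obtain ⟨hopen, hstar, hball, _, _⟩ := hGeo (2 * g)
  rcases hT with hT | hT
  · refine ⟨Mx (2 * g), ?_, ?_⟩
    · intro τ hτ
      have h1 : τ < 1 := lt_of_le_of_lt hτ.2 hT
      rw [PerB, if_pos h1]
      exact (hLinkO (2 * g) hn _ (real_mem he h1)).symm
    · intro τ hτ
      have h1 : τ < 1 := lt_of_le_of_lt hτ.2 hT
      have h2 : (τ : ℂ) ∈ Om (2 * g) := real_mem he h1
      obtain ⟨R, hR, hRs⟩ := Metric.isOpen_iff.1 hopen _ h2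
      refine ⟨R, hR, fun i j => (mx_diff hYx hGeo (2 * g) i j).mono hRs, ?_⟩
      intro P hP
      exact full_of hYx hGeo hFibO hg P isOpen_ball (mem_ball_self hR) h2 hP
  · obtain ⟨η, U, hη, hUd, hUM, hUO, hUT⟩ := hUB (2 * g) hn he
    refine ⟨U, ?_, ?_⟩
    · intro τ hτ
      have h1 : 1 < τ := lt_of_lt_of_le hT hτ.1
      have h2 : (τ : ℂ) ∈ Sec η := real_sec hη h1
      ext k j
      have h3 := (hLimB (2 * g) hn he τ h1).1 k j
      have h4 : Filter.Tendsto (fun ε : ℝ => U ((τ : ℂ) + (ε : ℂ) * Complex.I) k j) (𝓝[>] 0)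
          (𝓝 (U (τ : ℂ) k j)) := by
        have h5 : ContinuousAt (fun ψ => U ψ k j) (τ : ℂ) :=
          ((hUd k j).differentiableAt ((sec_open η).mem_nhds h2)).continuousAt
        exact h5.tendsto.comp (tend_vert τ)
      have h6 : (fun ε : ℝ => Per (2 * g) ((τ : ℂ) + (ε : ℂ) * Complex.I) k j) =ᶠ[𝓝[>] 0]
          fun ε : ℝ => U ((τ : ℂ) + (ε : ℂ) * Complex.I) k j := by
        have h7 : ∀ᶠ ε : ℝ in 𝓝[>] 0, (τ : ℂ) + (ε : ℂ) * Complex.I ∈ Sec η :=
          (tend_vert τ).eventually ((sec_open η).mem_nhds h2)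
        filter_upwards [h7, self_mem_nhdsWithin] with ε hε hε0
        have him : 0 < ((τ : ℂ) + (ε : ℂ) * Complex.I).im := by
          simpa using hε0
        rw [hLinkO (2 * g) hn _ (hUO _ hε him.ne'), hUM _ hε him]
      exact tendsto_nhds_unique h4 ((Filter.tendsto_congr' h6).1 h3)
    · intro τ hτ
      have h1 : 1 < τ := lt_of_lt_of_le hT hτ.1
      have h2 : (τ : ℂ) ∈ Sec η := real_sec hη h1
      obtain ⟨R, hR, hRs⟩ := Metric.isOpen_iff.1 (sec_open η) _ h2
      refine ⟨R, hR, fun i j => (hUd i j).mono hRs, ?_⟩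
      intro P hP
      have hV : IsOpen (ball (τ : ℂ) R ∩ {ψ : ℂ | 0 < ψ.im}) :=
        isOpen_ball.inter (isOpen_lt continuous_const Complex.continuous_im)
      have him : 0 < ((τ : ℂ) + ((R / 2 : ℝ) : ℂ) * Complex.I).im := by
        simp
        linarith
      have hz0 : (τ : ℂ) + ((R / 2 : ℝ) : ℂ) * Complex.I ∈
          ball (τ : ℂ) R ∩ {ψ : ℂ | 0 < ψ.im} := by
        refine ⟨?_, him⟩
        rw [mem_ball, dist_eq_norm, add_sub_cancel_left, norm_mul, Complex.norm_I, mul_one,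
          Complex.norm_real, Real.norm_eq_abs, abs_of_pos (by linarith)]
        linarith
      refine full_of hYx hGeo hFibO hg P hV hz0 (hUO _ (hRs hz0.1) him.ne') ?_
      intro ψ hψ
      rw [← hUM ψ (hRs hψ.1) hψ.2]
      exact hP ψ hψ.1

end

end Pool.Agent.CYP
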