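import Pool.Agent.CYP.Stmts2

/-!
# CYP, module DENS: from boxes to all the rational points
-/

open scoped BigOperators Topology
open Metric Set MeasureTheory

namespace Pool.Agent.CYP

noncomputable section

namespace DENS_

/-- The rational numbers of height at most `H`. -/
def Qs (H : ℕ) : Finset ℚ :=
  ((Finset.Icc (-(H : ℤ)) H ×ˢ Finset.Icc 1 H).image
    (fun p : ℤ × ℕ => (p.1 : ℚ) / (p.2 : ℚ))).filter (fun q => q.num.natAbs ≤ H ∧ q.den ≤ H)

theorem mem_Qs (H : ℕ) (q : ℚ) : q ∈ Qs H ↔ q.num.natAbs ≤ H ∧ q.den ≤ H := by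
  unfold Qs
  rw [Finset.mem_filter]
  constructor
  · exact fun h => h.2
  · intro h
    refine ⟨?_, h⟩
    rw [Finset.mem_image]
    refine ⟨(q.num, q.den), ?_, ?_⟩
    · rw [Finset.mem_product, Finset.mem_Icc, Finset.mem_Icc]
      have h1 := h.1
      have h2 := h.2
      have h3 := q.den_pos
      refine ⟨⟨?_, ?_⟩, ?_, h2⟩ <;> simp only [] <;> omega
    · exact Rat.num_div_den q

theorem ncard_of {α : Type} (S : Finset α) (p : α → Prop) (h : ∀ x, p x ↔ x ∈ S) :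
    Nat.card {x // p x} = S.card := by
  rw [Nat.card_congr (Equiv.subtypeEquivRight h)]
  simp

theorem card_Icc_dvd (H d : ℕ) :
    ((Finset.Icc 1 H).filter (fun a => d ∣ a)).card = H / d := by
  have h := Nat.Ioc_filter_dvd_card_eq_div H d
  rw [← h]
  congr 1

theorem sum_inv_sq (n : ℕ) : ∑ d ∈ Finset.Icc 2 (n + 2), (1 : ℝ) / (d : ℝ) ^ 2 ≤
    3 / 4 - 1 / ((n : ℝ) + 2) := by
  induction n with
  | zero => norm_num
  | succ n ih =>
    rw [show n + 1 + 2 = (n + 2) + 1 by ring, Finset.sum_Icc_succ_top (by omega)]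
    have h1 : (1 : ℝ) / (((n + 2 + 1 : ℕ) : ℝ)) ^ 2 ≤ 1 / ((n : ℝ) + 2) - 1 / ((n : ℝ) + 1 + 2) := by
      push_cast
      have e1 : (0 : ℝ) < (n : ℝ) + 2 := by positivity
      have e2 : (0 : ℝ) < (n : ℝ) + 1 + 2 := by positivity
      rw [div_sub_div _ _ e1.ne' e2.ne', div_le_div_iff₀ (by positivity) (by positivity)]
      ring_nf
      nlinarith [(Nat.cast_nonneg n : (0 : ℝ) ≤ (n : ℝ))]
    push_cast at h1 ⊢
    linarith

/-- Coprime pairs. -/
def Cp (H : ℕ) : Finset (ℕ × ℕ) :=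
  (Finset.Icc 1 H ×ˢ Finset.Icc 1 H).filter (fun p => Nat.Coprime p.1 p.2)

theorem card_Cp (H : ℕ) : (H : ℝ) ^ 2 / 4 ≤ ((Cp H).card : ℝ) := by
  classical
  rcases Nat.lt_or_ge H 2 with hH | hH
  · interval_cases H
    · simp
    · have : (1, 1) ∈ Cp 1 := by
        unfold Cp
        simp
      have h1 : 0 < (Cp 1).card := Finset.card_pos.2 ⟨_, this⟩
      have h2 : (1 : ℝ) ≤ ((Cp 1).card : ℝ) := by exact_mod_cast h1
      norm_num
      linarith
  · have hcov : Finset.Icc 1 H ×ˢ Finset.Icc 1 H ⊆ Cp H ∪ (Finset.Icc 2 H).biUnion (fun d =>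
        ((Finset.Icc 1 H).filter (fun a => d ∣ a)) ×ˢ
          ((Finset.Icc 1 H).filter (fun a => d ∣ a))) := by
      intro p hp
      rw [Finset.mem_union]
      by_cases hc : Nat.Coprime p.1 p.2
      · left
        unfold Cp
        exact Finset.mem_filter.2 ⟨hp, hc⟩
      · right
        rw [Finset.mem_product, Finset.mem_Icc, Finset.mem_Icc] at hp
        rw [Finset.mem_biUnion]
        have hpos : 0 < Nat.gcd p.1 p.2 := Nat.gcd_pos_of_pos_left _ (by omega)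
        refine ⟨Nat.gcd p.1 p.2, ?_, ?_⟩
        · rw [Finset.mem_Icc]
          refine ⟨?_, ?_⟩
          · have : Nat.gcd p.1 p.2 ≠ 1 := hc
            omega
          · exact le_trans (Nat.gcd_le_left _ (by omega)) hp.1.2
        · rw [Finset.mem_product, Finset.mem_filter, Finset.mem_filter, Finset.mem_Icc,
            Finset.mem_Icc]
          exact ⟨⟨hp.1, Nat.gcd_dvd_left _ _⟩, hp.2, Nat.gcd_dvd_right _ _⟩
    have h1 := Finset.card_le_card hcov
    have h2 := le_trans h1 (le_trans (Finset.card_union_le _ _)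
      (Nat.add_le_add_left Finset.card_biUnion_le _))
    rw [Finset.card_product, Nat.card_Icc, Nat.add_sub_cancel] at h2
    have h3 : ((H * H : ℕ) : ℝ) ≤ ((Cp H).card : ℝ) + ∑ d ∈ Finset.Icc 2 H, (H : ℝ) ^ 2 *
        (1 / (d : ℝ) ^ 2) := by
      have h4 : ((H * H : ℕ) : ℝ) ≤ (((Cp H).card + ∑ d ∈ Finset.Icc 2 H,
        (((Finset.Icc 1 H).filter (fun a => d ∣ a)) ×ˢ
          ((Finset.Icc 1 H).filter (fun a => d ∣ a))).card : ℕ) : ℝ) := by
        exact_mod_cast h2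
      refine le_trans h4 ?_
      push_cast
      refine add_le_add le_rfl (Finset.sum_le_sum fun d hd => ?_)
      rw [Finset.mem_Icc] at hd
      rw [Finset.card_product, card_Icc_dvd H d]
      push_cast
      have h5 : ((H / d : ℕ) : ℝ) ≤ (H : ℝ) / (d : ℝ) := Nat.cast_div_le
      have h6 : (0 : ℝ) ≤ ((H / d : ℕ) : ℝ) := Nat.cast_nonneg _
      calc ((H / d : ℕ) : ℝ) * ((H / d : ℕ) : ℝ) ≤ ((H : ℝ) / (d : ℝ)) * ((H : ℝ) / (d : ℝ)) :=
            mul_le_mul h5 h5 h6 (le_trans h6 h5)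
        _ = (H : ℝ) ^ 2 * (1 / (d : ℝ) ^ 2) := by ring
    rw [← Finset.mul_sum] at h3
    obtain ⟨n, rfl⟩ : ∃ n, H = n + 2 := ⟨H - 2, by omega⟩
    have h7 := sum_inv_sq n
    have h8 : ∑ d ∈ Finset.Icc 2 (n + 2), (1 : ℝ) / (d : ℝ) ^ 2 ≤ 3 / 4 := by
      have : (0 : ℝ) < 1 / ((n : ℝ) + 2) := by positivity
      linarith
    have h9 : (((n + 2 : ℕ) : ℝ)) ^ 2 * ∑ d ∈ Finset.Icc 2 (n + 2), (1 : ℝ) / (d : ℝ) ^ 2 ≤
        (((n + 2 : ℕ) : ℝ)) ^ 2 * (3 / 4) := mul_le_mul_of_nonneg_left h8 (by positivity)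
    have h10 : (((n + 2) * (n + 2) : ℕ) : ℝ) = (((n + 2 : ℕ) : ℝ)) ^ 2 := by
      push_cast
      ring
    rw [h10] at h3
    linarith

theorem card_lower (H : ℕ) : (H : ℝ) ^ 2 / 4 ≤ ((Qs H).card : ℝ) := by
  refine le_trans (card_Cp H) ?_
  have : (Cp H).card ≤ (Qs H).card := by
    refine Finset.card_le_card_of_injOn (fun p => (p.1 : ℚ) / (p.2 : ℚ)) ?_ ?_
    · intro p hp
      have hp' : p ∈ Cp H := hp
      unfold Cp at hp'
      rw [Finset.mem_filter, Finset.mem_product, Finset.mem_Icc, Finset.mem_Icc] at hp'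
      obtain ⟨⟨⟨h1, h2⟩, h3, h4⟩, h5⟩ := hp'
      have hn : ((p.1 : ℚ) / (p.2 : ℚ)).num = (p.1 : ℤ) := by
        have := Rat.num_div_eq_of_coprime (a := (p.1 : ℤ)) (b := (p.2 : ℤ)) (by exact_mod_cast h3)
          (by simpa using h5)
        simpa using this
      have hd : ((p.1 : ℚ) / (p.2 : ℚ)).den = p.2 := by
        have := Rat.den_div_eq_of_coprime (a := (p.1 : ℤ)) (b := (p.2 : ℤ)) (by exact_mod_cast h3)
          (by simpa using h5)
        have h6 : ((((p.1 : ℤ) : ℚ) / ((p.2 : ℤ) : ℚ)).den : ℤ) = (p.2 : ℤ) := this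
        push_cast at h6
        exact_mod_cast h6
      show ((p.1 : ℚ) / (p.2 : ℚ)) ∈ ((Qs H : Finset ℚ) : Set ℚ)
      rw [Finset.mem_coe, mem_Qs, hn, hd]
      exact ⟨by simpa using h2, h4⟩
    · intro p hp p' hp' heq
      have hq : p ∈ Cp H := hp
      have hq' : p' ∈ Cp H := hp'
      unfold Cp at hq hq'
      rw [Finset.mem_filter, Finset.mem_product, Finset.mem_Icc, Finset.mem_Icc] at hq hq'
      obtain ⟨⟨⟨h1, h2⟩, h3, h4⟩, h5⟩ := hq
      obtain ⟨⟨⟨h1', h2'⟩, h3', h4'⟩, h5'⟩ := hq'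
      have heq' : (p.1 : ℚ) / (p.2 : ℚ) = (p'.1 : ℚ) / (p'.2 : ℚ) := heq
      have hb : (p.2 : ℚ) ≠ 0 := by
        have : p.2 ≠ 0 := by omega
        exact_mod_cast this
      have hb' : (p'.2 : ℚ) ≠ 0 := by
        have : p'.2 ≠ 0 := by omega
        exact_mod_cast this
      rw [div_eq_div_iff hb hb'] at heq'
      have h6 : p.1 * p'.2 = p'.1 * p.2 := by exact_mod_cast heq'
      have e1 : p.1 ∣ p'.1 := by
        have : p.1 ∣ p'.1 * p.2 := ⟨p'.2, h6.symm⟩
        exact Nat.Coprime.dvd_of_dvd_mul_right h5 this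
      have e2 : p'.1 ∣ p.1 := by
        have : p'.1 ∣ p.1 * p'.2 := ⟨p.2, h6⟩
        exact Nat.Coprime.dvd_of_dvd_mul_right h5' this
      have e3 : p.1 = p'.1 := Nat.dvd_antisymm e1 e2
      have e4 : p.2 = p'.2 := by
        rw [e3] at h6
        exact (Nat.eq_of_mul_eq_mul_left (by omega) h6).symm
      exact Prod.ext e3 e4
  exact_mod_cast this

/-- The bad rational numbers. -/
def Bd (H K : ℕ) : Finset ℚ :=
  (Qs H).filter (fun q => (K : ℚ) < |q| ∨ |q - 1| < 1 / (K : ℚ))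

theorem card_Bd (H K : ℕ) (hK : 0 < K) (hH : 1 ≤ H) :
    ((Bd H K).card : ℝ) ≤ 5 * (H : ℝ) ^ 2 / K + H := by
  classical
  have hKQ : (0 : ℚ) < K := by exact_mod_cast hK
  have h1 : (Bd H K) ⊆ (Qs H).filter (fun q => (K : ℚ) < |q|) ∪
      (Qs H).filter (fun q => |q - 1| < 1 / (K : ℚ)) := by
    intro q hq
    unfold Bd at hq
    rw [Finset.mem_filter] at hq
    rw [Finset.mem_union, Finset.mem_filter, Finset.mem_filter]
    rcases hq.2 with h | h
    · exact Or.inl ⟨hq.1, h⟩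
    · exact Or.inr ⟨hq.1, h⟩
  have h2 : ((Qs H).filter (fun q => (K : ℚ) < |q|)).card ≤ (2 * H + 1) * (H / K) := by
    have : (Finset.Icc (-(H : ℤ)) H ×ˢ Finset.Icc 1 (H / K)).card = (2 * H + 1) * (H / K) := by
      rw [Finset.card_product, Int.card_Icc, Nat.card_Icc]
      congr 1
      · omega
    rw [← this]
    refine Finset.card_le_card_of_injOn (fun q => (q.num, q.den)) ?_ ?_
    · intro q hq
      have hq' : q ∈ (Qs H).filter (fun q => (K : ℚ) < |q|) := hq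
      rw [Finset.mem_filter, mem_Qs] at hq'
      obtain ⟨⟨a1, a2⟩, a3⟩ := hq'
      have hd : (0 : ℚ) < q.den := by exact_mod_cast q.den_pos
      have a4 : |q| * q.den = |(q.num : ℚ)| := by
        have := Rat.mul_den_eq_num q
        calc |q| * q.den = |q| * |(q.den : ℚ)| := by rw [abs_of_pos hd]
          _ = |q * q.den| := (abs_mul _ _).symm
          _ = _ := by rw [this]
      have a5 : (K : ℚ) * q.den < |(q.num : ℚ)| := by
        rw [← a4]
        exact mul_lt_mul_of_pos_right a3 hd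
      have a6 : ((K * q.den : ℕ) : ℚ) < ((q.num.natAbs : ℕ) : ℚ) := by
        push_cast
        rw [Nat.cast_natAbs]
        push_cast
        exact a5
      have a7 : K * q.den < q.num.natAbs := by exact_mod_cast a6
      have a8 : q.den ≤ H / K := by
        rw [Nat.le_div_iff_mul_le hK]
        calc q.den * K = K * q.den := Nat.mul_comm _ _
          _ ≤ H := le_trans a7.le a1
      show (q.num, q.den) ∈ ((Finset.Icc (-(H : ℤ)) H ×ˢ Finset.Icc 1 (H / K) :
        Finset (ℤ × ℕ)) : Set (ℤ × ℕ))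
      rw [Finset.mem_coe, Finset.mem_product, Finset.mem_Icc, Finset.mem_Icc]
      have := q.den_pos
      refine ⟨⟨?_, ?_⟩, ?_, a8⟩ <;> simp only [] <;> omega
    · intro q _ q' _ h
      have h' : (q.num, q.den) = (q'.num, q'.den) := h
      rw [Prod.mk.injEq] at h'
      exact Rat.ext h'.1 h'.2
  have h3 : ((Qs H).filter (fun q => |q - 1| < 1 / (K : ℚ))).card ≤ (2 * (H / K) + 1) * H := by
    have : (Finset.Icc (-((H / K : ℕ) : ℤ)) ((H / K : ℕ) : ℤ) ×ˢ Finset.Icc 1 H).card =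
        (2 * (H / K) + 1) * H := by
      rw [Finset.card_product, Int.card_Icc, Nat.card_Icc]
      congr 1
      · omega
    rw [← this]
    refine Finset.card_le_card_of_injOn (fun q => (q.num - (q.den : ℤ), q.den)) ?_ ?_
    · intro q hq
      have hq' : q ∈ (Qs H).filter (fun q => |q - 1| < 1 / (K : ℚ)) := hq
      rw [Finset.mem_filter, mem_Qs] at hq'
      obtain ⟨⟨a1, a2⟩, a3⟩ := hq'
      have hd : (0 : ℚ) < q.den := by exact_mod_cast q.den_pos
      have a4 : |q - 1| * q.den = |(q.num : ℚ) - q.den| := by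
        have := Rat.mul_den_eq_num q
        calc |q - 1| * q.den = |q - 1| * |(q.den : ℚ)| := by rw [abs_of_pos hd]
          _ = |(q - 1) * q.den| := (abs_mul _ _).symm
          _ = _ := by rw [sub_mul, this, one_mul]
      have a5 : |(q.num : ℚ) - q.den| * K < q.den := by
        rw [← a4]
        rw [lt_div_iff₀ hKQ] at a3
        calc |q - 1| * q.den * K = (|q - 1| * K) * q.den := by ring
          _ < 1 * q.den := mul_lt_mul_of_pos_right a3 hd
          _ = q.den := one_mul _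
      have a6 : (((q.num - (q.den : ℤ)).natAbs * K : ℕ) : ℚ) < (q.den : ℚ) := by
        push_cast
        rw [Nat.cast_natAbs]
        push_cast
        exact a5
      have a7 : (q.num - (q.den : ℤ)).natAbs * K < q.den := by exact_mod_cast a6
      have a8 : (q.num - (q.den : ℤ)).natAbs ≤ H / K := by
        rw [Nat.le_div_iff_mul_le hK]
        exact le_trans a7.le a2
      show (q.num - (q.den : ℤ), q.den) ∈ ((Finset.Icc (-((H / K : ℕ) : ℤ)) ((H / K : ℕ) : ℤ) ×ˢ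
        Finset.Icc 1 H : Finset (ℤ × ℕ)) : Set (ℤ × ℕ))
      rw [Finset.mem_coe, Finset.mem_product, Finset.mem_Icc, Finset.mem_Icc]
      have := q.den_pos
      refine ⟨⟨?_, ?_⟩, ?_, a2⟩ <;> simp only [] <;> omega
    · intro q _ q' _ h
      have h' : (q.num - (q.den : ℤ), q.den) = (q'.num - (q'.den : ℤ), q'.den) := h
      rw [Prod.mk.injEq] at h'
      obtain ⟨b1, b2⟩ := h'
      rw [b2] at b1
      exact Rat.ext (by linarith) b2
  have h4 : (Bd H K).card ≤ (2 * H + 1) * (H / K) + (2 * (H / K) + 1) * H :=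
    le_trans (Finset.card_le_card h1) (le_trans (Finset.card_union_le _ _) (Nat.add_le_add h2 h3))
  have h5 : ((Bd H K).card : ℝ) ≤ (2 * (H : ℝ) + 1) * ((H / K : ℕ) : ℝ) +
      (2 * ((H / K : ℕ) : ℝ) + 1) * H := by exact_mod_cast h4
  have h6 : ((H / K : ℕ) : ℝ) ≤ (H : ℝ) / (K : ℝ) := Nat.cast_div_le
  have h7 : (1 : ℝ) ≤ H := by exact_mod_cast hH
  have h8 : (0 : ℝ) ≤ ((H / K : ℕ) : ℝ) := Nat.cast_nonneg _
  calc ((Bd H K).card : ℝ) ≤ (2 * (H : ℝ) + 1) * ((H / K : ℕ) : ℝ) +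
      (2 * ((H / K : ℕ) : ℝ) + 1) * H := h5
    _ ≤ (2 * (H : ℝ) + H) * ((H : ℝ) / K) + (2 * ((H : ℝ) / K) + 1) * H := by
      gcongr
    _ = 5 * (H : ℝ) ^ 2 / K + H := by ring

/-- The boxes. -/
def t0 {r : ℕ} (K : ℕ) (s : Fin r → Bool) (i : Fin r) : ℝ :=
  if s i then 1 + 1 / (K : ℝ) else -(K : ℝ)

def t1 {r : ℕ} (K : ℕ) (s : Fin r → Bool) (i : Fin r) : ℝ :=
  if s i then (K : ℝ) else 1 - 1 / (K : ℝ)

theorem main_bound (r : ℕ) (W : ℕ → (Fin r → ℚ) → Prop) (hr : 0 < r) (K : ℕ) (hK : 0 < K)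
    (C : ℝ) (H : ℕ) (hH : 1 ≤ H)
    (hC : ∀ s : Fin r → Bool, (Nat.card {ψ : Fin r → ℚ // (∀ i, t0 K s i ≤ ψ i ∧
      (ψ i : ℝ) ≤ t1 K s i ∧ (ψ i).num.natAbs ≤ H ∧ (ψ i).den ≤ H) ∧ W H ψ} : ℝ) ≤
        C * (H : ℝ) ^ (2 * (r : ℝ) - 2 + 1)) :
    (Nat.card {ψ : Fin r → ℚ // (∀ i, ψ i ≠ 1 ∧ (ψ i).num.natAbs ≤ H ∧ (ψ i).den ≤ H) ∧
      W H ψ} : ℝ) ≤ 2 ^ r * (C * (H : ℝ) ^ (2 * (r : ℝ) - 2 + 1)) +
        r * ((5 * (H : ℝ) ^ 2 / K + H) * ((Qs H).card : ℝ) ^ (r - 1)) := by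
  classical
  have hKR : (0 : ℝ) < K := by exact_mod_cast hK
  set P : Finset (Fin r → ℚ) := Fintype.piFinset (fun _ : Fin r => Qs H) with hP
  have memP : ∀ ψ : Fin r → ℚ, ψ ∈ P ↔ ∀ i, (ψ i).num.natAbs ≤ H ∧ (ψ i).den ≤ H := by
    intro ψ
    rw [hP, Fintype.mem_piFinset]
    exact forall_congr' fun i => mem_Qs H (ψ i)
  have e1 : Nat.card {ψ : Fin r → ℚ // (∀ i, ψ i ≠ 1 ∧ (ψ i).num.natAbs ≤ H ∧ (ψ i).den ≤ H) ∧
      W H ψ} = (P.filter (fun ψ => (∀ i, ψ i ≠ 1) ∧ W H ψ)).card := by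
    apply ncard_of
    intro ψ
    rw [Finset.mem_filter, memP]
    constructor
    · rintro ⟨h1, h2⟩
      exact ⟨fun i => (h1 i).2, fun i => (h1 i).1, h2⟩
    · rintro ⟨h1, h2, h3⟩
      exact ⟨fun i => ⟨h2 i, h1 i⟩, h3⟩
  have e2 : ∀ s : Fin r → Bool, Nat.card {ψ : Fin r → ℚ // (∀ i, t0 K s i ≤ ψ i ∧
      (ψ i : ℝ) ≤ t1 K s i ∧ (ψ i).num.natAbs ≤ H ∧ (ψ i).den ≤ H) ∧ W H ψ} =
      (P.filter (fun ψ => (∀ i, t0 K s i ≤ ψ i ∧ (ψ i : ℝ) ≤ t1 K s i) ∧ W H ψ)).card := by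
    intro s
    apply ncard_of
    intro ψ
    rw [Finset.mem_filter, memP]
    constructor
    · rintro ⟨h1, h2⟩
      exact ⟨fun i => (h1 i).2.2, fun i => ⟨(h1 i).1, (h1 i).2.1⟩, h2⟩
    · rintro ⟨h1, h2, h3⟩
      exact ⟨fun i => ⟨(h2 i).1, (h2 i).2, h1 i⟩, h3⟩
  have e3 : P.filter (fun ψ => (∀ i, ψ i ≠ 1) ∧ W H ψ) ⊆
      (Finset.univ : Finset (Fin r → Bool)).biUnion (fun s =>
        P.filter (fun ψ => (∀ i, t0 K s i ≤ ψ i ∧ (ψ i : ℝ) ≤ t1 K s i) ∧ W H ψ)) ∪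
      (Finset.univ : Finset (Fin r)).biUnion (fun i =>
        Fintype.piFinset (fun j => if j = i then Bd H K else Qs H)) := by
    intro ψ hψ
    rw [Finset.mem_filter] at hψ
    obtain ⟨h1, h2, h3⟩ := hψ
    rw [Finset.mem_union, Finset.mem_biUnion, Finset.mem_biUnion]
    by_cases hb : ∃ i, ψ i ∈ Bd H K
    · right
      obtain ⟨i, hi⟩ := hb
      refine ⟨i, Finset.mem_univ _, ?_⟩
      rw [Fintype.mem_piFinset]
      intro j
      by_cases hj : j = i
      · rw [if_pos hj, hj]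
        exact hi
      · rw [if_neg hj]
        rw [hP, Fintype.mem_piFinset] at h1
        exact h1 j
    · left
      push Not at hb
      refine ⟨fun i => decide (1 < ψ i), Finset.mem_univ _, ?_⟩
      rw [Finset.mem_filter]
      refine ⟨h1, fun i => ?_, h3⟩
      have h4 := hb i
      unfold Bd at h4
      rw [Finset.mem_filter] at h4
      have h5 : ψ i ∈ Qs H := by
        rw [hP, Fintype.mem_piFinset] at h1
        exact h1 i
      have h6 : ¬ ((K : ℚ) < |ψ i| ∨ |ψ i - 1| < 1 / (K : ℚ)) := fun h => h4 ⟨h5, h⟩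
      push Not at h6
      obtain ⟨h7, h8⟩ := h6
      have h7' : |(ψ i : ℝ)| ≤ (K : ℝ) := by exact_mod_cast h7
      have h8' : 1 / (K : ℝ) ≤ |(ψ i : ℝ) - 1| := by
        have h81 : ((1 / (K : ℚ) : ℚ) : ℝ) ≤ ((|ψ i - 1| : ℚ) : ℝ) := by exact_mod_cast h8
        rw [Rat.cast_abs] at h81
        push_cast at h81
        exact h81
      rw [abs_le] at h7'
      unfold t0 t1
      by_cases h9 : 1 < ψ i
      · simp only [h9, decide_true, if_true]
        have h10 : (1 : ℝ) < (ψ i : ℝ) := by exact_mod_cast h9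
        rw [abs_of_pos (by linarith)] at h8'
        exact ⟨by linarith, h7'.2⟩
      · simp only [h9, decide_false, Bool.false_eq_true, if_false]
        have h10 : (ψ i : ℝ) ≤ 1 := by exact_mod_cast not_lt.1 h9
        rw [abs_of_nonpos (by linarith)] at h8'
        exact ⟨h7'.1, by linarith⟩
  have e4 := le_trans (Finset.card_le_card e3) (le_trans (Finset.card_union_le _ _)
    (Nat.add_le_add Finset.card_biUnion_le Finset.card_biUnion_le))
  have e5 : ∀ i : Fin r, (Fintype.piFinset (fun j => if j = i then Bd H K else Qs H)).card =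
      (Bd H K).card * (Qs H).card ^ (r - 1) := by
    intro i
    rw [Fintype.card_piFinset, ← Finset.mul_prod_erase Finset.univ _ (Finset.mem_univ i),
      if_pos rfl]
    congr 1
    rw [Finset.prod_congr rfl (g := fun _ => (Qs H).card)
      (fun j hj => by rw [if_neg (Finset.ne_of_mem_erase hj)]), Finset.prod_const,
      Finset.card_erase_of_mem (Finset.mem_univ i), Finset.card_univ, Fintype.card_fin]
  rw [e1]
  have e6 : ((P.filter (fun ψ => (∀ i, ψ i ≠ 1) ∧ W H ψ)).card : ℝ) ≤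
      ∑ s : Fin r → Bool, ((P.filter (fun ψ => (∀ i, t0 K s i ≤ ψ i ∧
        (ψ i : ℝ) ≤ t1 K s i) ∧ W H ψ)).card : ℝ) +
      ∑ i : Fin r, ((Fintype.piFinset (fun j => if j = i then Bd H K else Qs H)).card : ℝ) := by
    exact_mod_cast e4
  refine le_trans e6 (add_le_add ?_ ?_)
  · calc ∑ s : Fin r → Bool, ((P.filter (fun ψ => (∀ i, t0 K s i ≤ ψ i ∧
        (ψ i : ℝ) ≤ t1 K s i) ∧ W H ψ)).card : ℝ) ≤
        ∑ s : Fin r → Bool, C * (H : ℝ) ^ (2 * (r : ℝ) - 2 + 1) := by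
          refine Finset.sum_le_sum fun s _ => ?_
          rw [← e2 s]
          exact hC s
      _ = 2 ^ r * (C * (H : ℝ) ^ (2 * (r : ℝ) - 2 + 1)) := by
          rw [Finset.sum_const, Finset.card_univ, Fintype.card_fun, Fintype.card_bool,
            Fintype.card_fin, nsmul_eq_mul]
          push_cast
          ring
  · calc ∑ i : Fin r, ((Fintype.piFinset (fun j => if j = i then Bd H K else Qs H)).card : ℝ)
        = ∑ i : Fin r, ((Bd H K).card : ℝ) * ((Qs H).card : ℝ) ^ (r - 1) := by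
          refine Finset.sum_congr rfl fun i _ => ?_
          rw [e5 i]
          push_cast
          ring
      _ = r * (((Bd H K).card : ℝ) * ((Qs H).card : ℝ) ^ (r - 1)) := by
          rw [Finset.sum_const, Finset.card_univ, Fintype.card_fin, nsmul_eq_mul]
      _ ≤ _ := by
          have := card_Bd H K hK hH
          gcongr

end DENS_

open DENS_ in
theorem dens_proof : Stmt_Dens := by
  classical
  intro r W hr hbox
  have hden : ∀ H : ℕ, (Nat.card {ψ : Fin r → ℚ // ∀ i, (ψ i).num.natAbs ≤ H ∧ (ψ i).den ≤ H} : ℝ)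
      = ((Qs H).card : ℝ) ^ r := by
    intro H
    rw [ncard_of (Fintype.piFinset (fun _ : Fin r => Qs H)) _ (fun ψ => by
      rw [Fintype.mem_piFinset]
      exact forall_congr' fun i => (mem_Qs H (ψ i)).symm)]
    rw [Fintype.card_piFinset, Finset.prod_const, Finset.card_univ, Fintype.card_fin]
    push_cast
    rfl
  rw [Metric.tendsto_atTop]
  intro ε hε
  obtain ⟨K, hK⟩ := exists_nat_gt (40 * (r : ℝ) / ε)
  have hrR : (0 : ℝ) < r := by exact_mod_cast hr
  have hK0 : (0 : ℝ) < K := lt_trans (by positivity) hK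
  have hKpos : 0 < K := by exact_mod_cast hK0
  have hT : ∀ s : Fin r → Bool, ∀ i, t1 K s i < 1 ∨ 1 < t0 K s i := by
    intro s i
    unfold t0 t1
    by_cases h : s i
    · right
      rw [if_pos h]
      have : (0 : ℝ) < 1 / K := by positivity
      linarith
    · left
      rw [if_neg h]
      have : (0 : ℝ) < 1 / K := by positivity
      linarith
  choose Cs hCs using fun s : Fin r → Bool => hbox (t0 K s) (t1 K s) (hT s) 1 one_pos
  set C : ℝ := ∑ s : Fin r → Bool, |Cs s| with hCdef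
  have hC0 : 0 ≤ C := Finset.sum_nonneg fun s _ => abs_nonneg _
  have hCle : ∀ s, Cs s ≤ C := fun s =>
    le_trans (le_abs_self _) (Finset.single_le_sum (f := fun s => |Cs s|)
      (fun s _ => abs_nonneg _) (Finset.mem_univ s))
  obtain ⟨H0, hH0⟩ := exists_nat_gt (2 * (2 ^ r * C * 4 ^ r + 4 * (r : ℝ)) / ε)
  refine ⟨H0 + 1, fun H hH => ?_⟩
  have hH1 : 1 ≤ H := by omega
  have hHR : (0 : ℝ) < H := by exact_mod_cast hH1
  rw [hden H, Real.dist_0_eq_abs, abs_of_nonneg (by positivity)]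
  have hN := card_lower H
  have hN0 : (0 : ℝ) < ((Qs H).card : ℝ) := lt_of_lt_of_le (by positivity) hN
  have hmain := main_bound r W hr K hKpos C H hH1 (fun s => le_trans (hCs s H hH1)
    (mul_le_mul_of_nonneg_right (hCle s) (by positivity)))
  have hpow : (H : ℝ) ^ (2 * (r : ℝ) - 2 + 1) = ((H : ℝ) ^ 2) ^ r / H := by
    rw [show 2 * (r : ℝ) - 2 + 1 = ((2 * r : ℕ) : ℝ) - 1 by push_cast; ring,
      Real.rpow_sub hHR, Real.rpow_natCast, Real.rpow_one, pow_mul]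
  rw [hpow] at hmain
  set N : ℝ := ((Qs H).card : ℝ) with hNdef
  have hNr : ((H : ℝ) ^ 2) ^ r ≤ 4 ^ r * N ^ r := by
    rw [← mul_pow]
    exact pow_le_pow_left₀ (by positivity) (by linarith) r
  have hNs : N ^ r = N * N ^ (r - 1) := by
    rw [← pow_succ', Nat.sub_add_cancel hr]
  have hNr0 : 0 < N ^ r := by positivity
  rw [div_lt_iff₀ hNr0]
  refine lt_of_le_of_lt hmain ?_
  have p1 : 2 ^ r * (C * (((H : ℝ) ^ 2) ^ r / H)) ≤ (2 ^ r * C * 4 ^ r / H) * N ^ r := by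
    calc 2 ^ r * (C * (((H : ℝ) ^ 2) ^ r / H)) = (2 ^ r * C / H) * ((H : ℝ) ^ 2) ^ r := by ring
      _ ≤ (2 ^ r * C / H) * (4 ^ r * N ^ r) := mul_le_mul_of_nonneg_left hNr (by positivity)
      _ = _ := by ring
  have p2 : (r : ℝ) * ((5 * (H : ℝ) ^ 2 / K + H) * N ^ (r - 1)) ≤
      (20 * r / K + 4 * r / H) * N ^ r := by
    rw [hNs]
    have q1 : (5 * (H : ℝ) ^ 2 / K + H) ≤ (20 / K + 4 / H) * N := by
      calc (5 * (H : ℝ) ^ 2 / K + H) = (20 / K + 4 / H) * ((H : ℝ) ^ 2 / 4) := by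
            field_simp
            ring
        _ ≤ (20 / K + 4 / H) * N := mul_le_mul_of_nonneg_left hN (by positivity)
    calc (r : ℝ) * ((5 * (H : ℝ) ^ 2 / K + H) * N ^ (r - 1)) ≤
          (r : ℝ) * (((20 / K + 4 / H) * N) * N ^ (r - 1)) := by gcongr
      _ = _ := by ring
  have p3 : 20 * (r : ℝ) / K < ε / 2 := by
    rw [div_lt_iff₀ hK0]
    rw [div_lt_iff₀ hε] at hK
    linarith
  have p4 : (2 ^ r * C * 4 ^ r / H) + 4 * (r : ℝ) / H < ε / 2 := by
    rw [← add_div, div_lt_iff₀ hHR]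
    rw [div_lt_iff₀ hε] at hH0
    have : (H0 : ℝ) < H := by exact_mod_cast (by omega : H0 < H)
    nlinarith
  calc 2 ^ r * (C * (((H : ℝ) ^ 2) ^ r / H)) + (r : ℝ) * ((5 * (H : ℝ) ^ 2 / K + H) * N ^ (r - 1))
      ≤ (2 ^ r * C * 4 ^ r / H) * N ^ r + (20 * r / K + 4 * r / H) * N ^ r := add_le_add p1 p2
    _ = ((2 ^ r * C * 4 ^ r / H) + 4 * (r : ℝ) / H + 20 * r / K) * N ^ r := by ring
    _ < ε * N ^ r := mul_lt_mul_of_pos_right (by linarith) hNr0

end

end Pool.Agent.CYP
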