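import Pool.Agent.CYP.Stmts2
import Pool.Agent.CYP.FIBER

/-!
# CYP: module FIBO
-/

open scoped BigOperators Topology
open Metric Set MeasureTheory

namespace Pool.Agent.CYP

noncomputable section

open FIBER_ in
/-- FIBO -/
theorem fibo_proof (hTrv : Stmt_Trv) (hGrpQ : Stmt_GrpQ) (hBilO : Stmt_BilO)
    (hQdet : Stmt_Qdet) : Stmt_FibO := by
  intro g hg P hrel ψ hψ X hX
  have hn : 0 < 2 * g := by omega
  have he : Even (2 * g) := even_two_mul g
  have hlam : (2 * Real.pi * Complex.I : ℂ) ^ (2 * g - 1) ≠ 0 :=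
    pow_ne_zero _ (by simp [Real.pi_ne_zero])
  obtain ⟨h, hh, rfl⟩ := inv_tors hlam (hQdet (2 * g) he) (Mx (2 * g) ψ) X
    (hBilO (2 * g) hn he ψ hψ) hX
  exact rel_closure hTrv hn he h (hGrpQ g hg h hh) P hrel ψ hψ

end

end Pool.Agent.CYP
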