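import Pool.Agent.CYP.Stmts2
import Pool.Agent.CYP.FINAL

/-!
# CYP: the final statement for all rational parameters from the modules
-/

open scoped BigOperators Topology
open Metric Set MeasureTheory

namespace Pool.Agent.CYP

noncomputable section

namespace FINAL2_

/-- Boxes contain finitely many rational points of bounded height. -/
lemma fin_rat (r H : ℕ) (T0 T1 : Fin r → ℝ) : Finite {ψ : Fin r → ℚ // ∀ i, T0 i ≤ ψ i ∧
    (ψ i : ℝ) ≤ T1 i ∧ (ψ i).num.natAbs ≤ H ∧ (ψ i).den ≤ H} := by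
  have h1 : Finite {q : ℚ // q.num.natAbs ≤ H ∧ q.den ≤ H} := by
    refine Finite.of_injective (β := Fin (2 * H + 1) × Fin (H + 1))
      (fun q => (⟨(q.1.num + H).toNat, by have := q.2.1; omega⟩,
        ⟨q.1.den, by have := q.2.2; omega⟩)) ?_
    rintro ⟨p, hp⟩ ⟨q, hq⟩ h
    simp only [Prod.mk.injEq, Fin.mk.injEq] at h
    apply Subtype.ext
    apply Rat.ext
    · have h1 := h.1
      have h2 := hp.1
      have h3 := hq.1
      show p.num = q.num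
      omega
    · exact h.2
  refine Finite.of_injective (β := Fin r → {q : ℚ // q.num.natAbs ≤ H ∧ q.den ≤ H})
    (fun ψ i => ⟨ψ.1 i, (ψ.2 i).2.2⟩) ?_
  rintro ⟨p, hp⟩ ⟨q, hq⟩ h
  apply Subtype.ext
  funext i
  exact congrArg Subtype.val (congrFun h i)

/-- A real number `< 1` lies in the cut plane if `n` is even. -/
lemma mem_cut {n : ℕ} (hn : Even n) {τ : ℝ} (hτ : τ < 1) : (τ : ℂ) ∈ Cut n := by
  intro k
  have hprim : IsPrimitiveRoot (zt n) (n + 1) := by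
    have h := Complex.isPrimitiveRoot_exp (n + 1) (Nat.succ_ne_zero n)
    unfold zt
    push_cast at h
    exact h
  set z := zt n ^ k with hz
  have hzN : z ^ (n + 1) = 1 := by
    rw [hz, ← pow_mul, mul_comm, pow_mul, hprim.pow_eq_one, one_pow]
  by_contra hcon
  rw [Complex.mem_slitPlane_iff, not_or, not_lt, not_not] at hcon
  obtain ⟨h1, h2⟩ := hcon
  simp only [Complex.sub_re, Complex.one_re, Complex.mul_re, Complex.ofReal_re,
    Complex.ofReal_im, mul_zero, sub_zero, Complex.sub_im, Complex.one_im, Complex.mul_im,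
    zero_add, zero_sub, neg_eq_zero] at h1 h2
  have h3 : τ ≠ 0 := by
    rintro rfl
    simp at h1
    linarith
  have h4 : z.im = 0 := by
    rcases mul_eq_zero.mp h2 with h | h
    · exact h
    · exact absurd h h3
  have h5 : z = (z.re : ℂ) := Complex.ext rfl (by simpa using h4)
  have h6 : z.re ^ (n + 1) = 1 := by
    have h7 := hzN
    rw [h5] at h7
    exact_mod_cast h7
  have hodd : Odd (n + 1) := hn.add_one
  have h8 : z.re = 1 := by
    have h9 : z.re ^ (n + 1) = 1 ^ (n + 1) := by rw [h6, one_pow]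
    exact hodd.strictMono_pow.injective h9
  rw [h8] at h1
  linarith

end FINAL2_

open FINAL_ FINAL2_ in
/-- FINAL2 -/
theorem final2_proof (hDarb : Stmt_Darb) (hFmat : Stmt_Fmat) (hQdet : Stmt_Qdet)
    (hBil : Stmt_BilO) (hLinkO : Stmt_LinkO) (hLimB : Stmt_LimB) (hBran : Stmt_Bran)
    (hHol : Stmt_HolG2) (hInd : Stmt_Ind2) (hGind : Stmt_Gind2) (hTrans : Stmt_Trans2)
    (hDens : Stmt_Dens) : Stmt_FinalB := by
  intro r n hn
  have hT : ∀ i, ∀ ψ ∈ Cut (n i), Tors (n i) ψ (2 * Real.pi * Complex.I) (Per (n i) ψ) := by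
    intro i ψ hψ
    rw [hLinkO (n i) (hn i).1 ψ hψ]
    exact hBil (n i) (hn i).1 (hn i).2 ψ hψ
  have hTB : ∀ i, ∀ ψ : ℝ, ψ ≠ 1 →
      Tors (n i) (ψ : ℂ) (2 * Real.pi * Complex.I) (PerB (n i) ψ) := by
    intro i ψ hψ
    rcases lt_or_gt_of_ne hψ with h | h
    · have h1 : PerB (n i) ψ = Per (n i) (ψ : ℂ) := by
        unfold PerB
        rw [if_pos h]
      rw [h1]
      exact hT i _ (mem_cut (hn i).2 h)
    · exact (hLimB (n i) (hn i).1 (hn i).2 ψ h).2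
  have hcount : ∀ (T0 T1 : Fin r → ℝ), (∀ i, T1 i < 1 ∨ 1 < T0 i) → ∀ (D A : ℕ) (ε : ℝ),
      0 < ε → ∃ C : ℝ, ∀ H : ℕ, 1 ≤ H →
      (Nat.card {ψ : Fin r → ℚ // (∀ i, T0 i ≤ ψ i ∧ (ψ i : ℝ) ≤ T1 i ∧
        (ψ i).num.natAbs ≤ H ∧ (ψ i).den ≤ H) ∧ BadB n D (H ^ A) (fun i => (ψ i : ℝ))} : ℝ) ≤
          C * (H : ℝ) ^ (2 * (r : ℝ) - 2 + ε) := by
    obtain ⟨g, hg⟩ : ∃ g : Fin r → ℕ, n = fun i => 2 * g i := by
      choose g hg using fun i => (hn i).2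
      exact ⟨g, funext fun i => by rw [hg i]; ring⟩
    subst hg
    have hn1 : ∀ i, 0 < 2 * g i := fun i => (hn i).1
    have hg0 : ∀ i, 0 < g i := fun i => by have := hn1 i; omega
    choose F F' hF using fun i => hFmat (g i)
    choose E E' hE using fun i => hDarb (g i) (Qm (2 * g i) ℚ) (qm_anti _)
      (qm_det (hQdet _ (by simp)))
    intro T0 T1 hTT D A ε hε
    obtain ⟨D1, A1, hTr⟩ := hTrans r g hg0 F F' E E' hF hE D A
    choose B hB1 hB2 using fun i => hBran (g i) (T0 i) (T1 i) (hg0 i) (hTT i)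
    have hsys : ∀ i, SysI (Idx (g i)) (fun x ψ => gvec (Ps (F i) (E' i) ψ (B i ψ)) x)
        (T0 i) (T1 i) := by
      intro i τ hτ
      obtain ⟨R, hR, hd, hfull⟩ := hB2 i τ hτ
      exact ⟨R, hR, fun x => hHol (g i) (F i) (E' i) x _ (B i) hd, fun Q hQ =>
        hInd (g i) (F i) (F' i) (E i) (E' i) (hg0 i) (hF i) (hE i) τ R (B i) hfull Q hQ⟩
    obtain ⟨C, hC⟩ := hGind r (fun i => Idx (g i)) _ T0 T1 hsys D1 A1 ε hε
    set K : ℝ := (Nat.card {ψ : Fin r → ℚ // ∀ i, T0 i ≤ ψ i ∧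
      (ψ i : ℝ) ≤ T1 i ∧ (ψ i).num.natAbs ≤ 1 ∧ (ψ i).den ≤ 1} : ℝ) with hK
    have hK0 : 0 ≤ K := by rw [hK]; positivity
    refine ⟨max C 0 + K, fun H hH => ?_⟩
    rcases Nat.lt_or_ge 1 H with hH2 | hH1
    · have hHpos : (0 : ℝ) < (H : ℝ) ^ (2 * (r : ℝ) - 2 + ε) := by
        apply Real.rpow_pos_of_pos
        exact_mod_cast hH
      have h1 := hC H hH
      have hfin2 : Finite {t : Fin r → ℚ // (∀ i, T0 i ≤ t i ∧ (t i : ℝ) ≤ T1 i ∧
          (t i).num.natAbs ≤ H ∧ (t i).den ≤ H) ∧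
          ¬ GPC.Free D1 (H ^ A1) (HGP.opt (2 * Real.pi * Complex.I)
          (fun p : Σ i, Idx (g i) => gvec (Ps (F p.1) (E' p.1) (t p.1 : ℂ)
            (B p.1 (t p.1 : ℂ))) p.2))} := by
        have := fin_rat r H T0 T1
        exact Finite.of_injective (fun t => (⟨t.1, t.2.1⟩ : {ψ : Fin r → ℚ // ∀ i,
          T0 i ≤ ψ i ∧ (ψ i : ℝ) ≤ T1 i ∧ (ψ i).num.natAbs ≤ H ∧ (ψ i).den ≤ H}))
          (fun a b h => Subtype.ext (congrArg (fun x => x.1) h))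
      have himp : ∀ ψ : Fin r → ℚ, ((∀ i, T0 i ≤ ψ i ∧ (ψ i : ℝ) ≤ T1 i ∧
          (ψ i).num.natAbs ≤ H ∧ (ψ i).den ≤ H) ∧
          BadB (fun i => 2 * g i) D (H ^ A) (fun i => (ψ i : ℝ))) →
          ((∀ i, T0 i ≤ ψ i ∧ (ψ i : ℝ) ≤ T1 i ∧ (ψ i).num.natAbs ≤ H ∧
          (ψ i).den ≤ H) ∧ ¬ GPC.Free D1 (H ^ A1) (HGP.opt (2 * Real.pi * Complex.I)
          (fun p : Σ i, Idx (g i) => gvec (Ps (F p.1) (E' p.1) (ψ p.1 : ℂ)
            (B p.1 (ψ p.1 : ℂ))) p.2))) := by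
        rintro ψ ⟨hψ, P, hPs, hPn, hP0⟩
        refine ⟨hψ, ?_⟩
        have hcast : ∀ i, (((ψ i : ℚ) : ℝ) : ℂ) = ((ψ i : ℚ) : ℂ) := fun i => by push_cast; rfl
        have hne : ∀ i, ((ψ i : ℚ) : ℝ) ≠ 1 := fun i => by
          rcases hTT i with h | h
          · exact ((hψ i).2.1.trans_lt h).ne
          · exact (h.trans_le (hψ i).1).ne'
        have hBi : ∀ i, B i ((ψ i : ℚ) : ℂ) = PerB (2 * g i) (ψ i : ℝ) := fun i => by
          rw [← hcast i]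
          exact hB1 i _ ⟨(hψ i).1, (hψ i).2.1⟩
        refine hTr H hH2 ψ (fun i => ⟨fun h => hne i (by rw [h]; norm_num), (hψ i).2.2.1,
          (hψ i).2.2.2⟩) (2 * Real.pi * Complex.I) (fun i => B i (ψ i : ℂ))
          Complex.two_pi_I_ne_zero (fun i => ?_) ⟨P, hPs, ?_, ?_⟩
        · have h3 := hTB i (ψ i : ℝ) (hne i)
          rw [hBi i, ← hcast i]
          exact h3
        · have h4 : (fun i => ((ψ i : ℚ) : ℂ)) = fun i => (((ψ i : ℚ) : ℝ) : ℂ) :=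
            funext fun i => (hcast i).symm
          rw [h4]
          exact hPn
        · have h5 : (fun i => B i ((ψ i : ℚ) : ℂ)) = fun i => PerB (2 * g i) (ψ i : ℝ) :=
            funext hBi
          rw [h5]
          exact hP0
      have hle := Nat.card_le_card_of_injective
        (fun ψ : {ψ : Fin r → ℚ // (∀ i, T0 i ≤ ψ i ∧ (ψ i : ℝ) ≤ T1 i ∧
          (ψ i).num.natAbs ≤ H ∧ (ψ i).den ≤ H) ∧
          BadB (fun i => 2 * g i) D (H ^ A) (fun i => (ψ i : ℝ))} =>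
          (⟨ψ.1, himp ψ.1 ψ.2⟩ : {t : Fin r → ℚ // (∀ i, T0 i ≤ t i ∧ (t i : ℝ) ≤ T1 i ∧
            (t i).num.natAbs ≤ H ∧ (t i).den ≤ H) ∧
            ¬ GPC.Free D1 (H ^ A1) (HGP.opt (2 * Real.pi * Complex.I)
          (fun p : Σ i, Idx (g i) => gvec (Ps (F p.1) (E' p.1) (t p.1 : ℂ)
            (B p.1 (t p.1 : ℂ))) p.2))}))
        (fun a b h => Subtype.ext (congrArg (fun x => x.1) h))
      have hmono : (Nat.card {ψ : Fin r → ℚ // (∀ i, T0 i ≤ ψ i ∧ (ψ i : ℝ) ≤ T1 i ∧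
          (ψ i).num.natAbs ≤ H ∧ (ψ i).den ≤ H) ∧
          BadB (fun i => 2 * g i) D (H ^ A) (fun i => (ψ i : ℝ))} : ℝ) ≤
          (Nat.card {t : Fin r → ℚ // (∀ i, T0 i ≤ t i ∧ (t i : ℝ) ≤ T1 i ∧
            (t i).num.natAbs ≤ H ∧ (t i).den ≤ H) ∧
            ¬ GPC.Free D1 (H ^ A1) (HGP.opt (2 * Real.pi * Complex.I)
          (fun p : Σ i, Idx (g i) => gvec (Ps (F p.1) (E' p.1) (t p.1 : ℂ)
            (B p.1 (t p.1 : ℂ))) p.2))} : ℝ) := by
        exact_mod_cast hle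
      refine hmono.trans (h1.trans ?_)
      refine mul_le_mul_of_nonneg_right ?_ hHpos.le
      have := le_max_left C 0
      linarith
    · have hH' : H = 1 := by omega
      subst hH'
      have hf1 := fin_rat r 1 T0 T1
      have hle := Nat.card_le_card_of_injective
        (fun ψ : {ψ : Fin r → ℚ // (∀ i, T0 i ≤ ψ i ∧ (ψ i : ℝ) ≤ T1 i ∧
          (ψ i).num.natAbs ≤ 1 ∧ (ψ i).den ≤ 1) ∧
          BadB (fun i => 2 * g i) D (1 ^ A) (fun i => (ψ i : ℝ))} =>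
          (⟨ψ.1, ψ.2.1⟩ : {ψ : Fin r → ℚ // ∀ i, T0 i ≤ ψ i ∧
            (ψ i : ℝ) ≤ T1 i ∧ (ψ i).num.natAbs ≤ 1 ∧ (ψ i).den ≤ 1}))
        (fun a b h => Subtype.ext (congrArg (fun x => x.1) h))
      have h7 : (Nat.card {ψ : Fin r → ℚ // (∀ i, T0 i ≤ ψ i ∧ (ψ i : ℝ) ≤ T1 i ∧
          (ψ i).num.natAbs ≤ 1 ∧ (ψ i).den ≤ 1) ∧
          BadB (fun i => 2 * g i) D (1 ^ A) (fun i => (ψ i : ℝ))} : ℝ) ≤ K := by
        rw [hK]
        exact_mod_cast hle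
      refine h7.trans ?_
      rw [Nat.cast_one, Real.one_rpow, mul_one]
      have := le_max_right C 0
      linarith
  refine ⟨hT, fun i ψ hψ => hLimB (n i) (hn i).1 (hn i).2 ψ hψ, hcount, fun hr D A => ?_⟩
  exact hDens r (fun H ψ => BadB n D (H ^ A) (fun i => (ψ i : ℝ))) hr
    (fun T0 T1 hTT ε hε => hcount T0 T1 hTT D A ε hε)

end

end Pool.Agent.CYP
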