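import Pool.Agent.CYP.Stmts2
import Pool.Agent.CYP.GIND

/-!
# CYP module GIND2: tuples of systems on intervals (induction on the number of systems)
-/

open scoped BigOperators Topology
open Metric Set MeasureTheory

namespace Pool.Agent.CYP

noncomputable section

open Gind_ Pool.Agent.HGP.InducX in
/-- GIND2. -/
theorem gind2_proof (hStep : Stmt_Gstep2) : Stmt_Gind2 := by
  intro r
  induction r with
  | zero =>
    intro ν _ f T0 T1 _ D A ε _
    refine ⟨0, fun H _ => ?_⟩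
    have : IsEmpty {t : Fin 0 → ℚ // (∀ i, T0 i ≤ t i ∧ (t i : ℝ) ≤ T1 i ∧ (t i).num.natAbs ≤ H ∧
        (t i).den ≤ H) ∧ ¬ GPC.Free D (H ^ A) (HGP.opt (2 * Real.pi * Complex.I)
        (fun p : Σ i, ν i => f p.1 p.2 (t p.1 : ℂ)))} := by
      constructor
      rintro ⟨t, _, h⟩
      exact h (base' _ _ f t)
    rw [Nat.card_of_isEmpty]
    simp
  | succ r ih =>
    intro ν _ f T0 T1 hf D A ε hε
    obtain ⟨C1, hC1⟩ := hStep (ν (Fin.last r)) (f (Fin.last r)) (T0 (Fin.last r)) (T1 (Fin.last r)) (hf _) ε hε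
      (Option (Σ i : Fin r, ν i.castSucc)) D A
    obtain ⟨C2, hC2⟩ := ih (fun i => ν i.castSucc) (fun i => f i.castSucc)
      (fun i => T0 i.castSucc) (fun i => T1 i.castSucc) (fun i => hf _) D A ε hε
    refine ⟨3 * |C2| + 3 ^ r * |C1|, fun H hH => ?_⟩
    have hH1 : (1 : ℝ) ≤ H := by exact_mod_cast hH
    have hH0 : (0 : ℝ) < H := by linarith
    have hbox := card_bx hH
    have key := count_step (r := r) (bx H)
      (fun t => (∀ i, T0 i ≤ t i ∧ (t i : ℝ) ≤ T1 i ∧ (t i).num.natAbs ≤ H ∧ (t i).den ≤ H) ∧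
        ¬ GPC.Free D (H ^ A) (cv f t))
      (fun t => (∀ i : Fin r, T0 i.castSucc ≤ t i ∧ (t i : ℝ) ≤ T1 i.castSucc ∧
        (t i).num.natAbs ≤ H ∧ (t i).den ≤ H) ∧
        ¬ GPC.Free D (H ^ A) (cv (ν := fun i : Fin r => ν i.castSucc) (fun i => f i.castSucc) t))
      (fun t q => GPC.Free D (H ^ A) (cv (ν := fun i : Fin r => ν i.castSucc)
          (fun i => f i.castSucc) t) ∧
        (T0 (Fin.last r) ≤ q ∧ (q : ℝ) ≤ T1 (Fin.last r) ∧ q.num.natAbs ≤ H ∧ q.den ≤ H ∧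
        ¬ GPC.Free D (H ^ A) (Sum.elim (cv (ν := fun i : Fin r => ν i.castSucc)
          (fun i => f i.castSucc) t) (fun x => f (Fin.last r) x (q : ℂ)))))
      (|C1| * (H : ℝ) ^ ε)
      (fun t ht i => mem_bx (ht.1 i).2.2.1 (ht.1 i).2.2.2)
      (fun t ht i => mem_bx (ht.1 i).2.2.1 (ht.1 i).2.2.2)
      (by
        intro t' T hTS
        rcases T.eq_empty_or_nonempty with rfl | ⟨q0, hq0⟩
        · simp only [Finset.card_empty, Nat.cast_zero]
          positivity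
        · refine (hC1 H hH _ (hTS q0 hq0).1 T (fun q hq => (hTS q hq).2)).trans ?_
          exact mul_le_mul_of_nonneg_right (le_abs_self _) (by positivity))
      (by
        rintro t ⟨ht, hnf⟩
        by_cases hfr : GPC.Free D (H ^ A) (cv (ν := fun i : Fin r => ν i.castSucc)
          (fun i => f i.castSucc) (fun i => t i.castSucc))
        · right
          exact ⟨hfr, (ht _).1, (ht _).2.1, (ht _).2.2.1, (ht _).2.2.2, fun hcon => hnf (free_snoc f _ _ t hcon)⟩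
        · left
          exact ⟨fun i => ht _, hfr⟩)
    refine key.trans ?_
    have h1 := hC2 H hH
    have h1' : C2 * (H : ℝ) ^ (2 * (r : ℝ) - 2 + ε) ≤ |C2| * (H : ℝ) ^ (2 * (r : ℝ) - 2 + ε) :=
      mul_le_mul_of_nonneg_right (le_abs_self _) (by positivity)
    have h2 : ((bx H).card : ℝ) ^ r ≤ (3 * (H : ℝ) ^ 2) ^ r :=
      pow_le_pow_left₀ (by positivity) hbox r
    have e1 : (H : ℝ) ^ (2 * (r : ℝ) - 2 + ε) * (H : ℝ) ^ 2 =
        (H : ℝ) ^ (2 * ((r + 1 : ℕ) : ℝ) - 2 + ε) := by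
      rw [← Real.rpow_natCast (H : ℝ) 2, ← Real.rpow_add hH0]
      congr 1
      push_cast
      ring
    have e2 : ((H : ℝ) ^ 2) ^ r * (H : ℝ) ^ ε = (H : ℝ) ^ (2 * ((r + 1 : ℕ) : ℝ) - 2 + ε) := by
      rw [← pow_mul, ← Real.rpow_natCast (H : ℝ) (2 * r), ← Real.rpow_add hH0]
      congr 1
      push_cast
      ring
    calc _ ≤ (|C2| * (H : ℝ) ^ (2 * (r : ℝ) - 2 + ε)) * (3 * (H : ℝ) ^ 2) +
          (3 * (H : ℝ) ^ 2) ^ r * (|C1| * (H : ℝ) ^ ε) := by
          have := h1.trans h1'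
          gcongr
          exact this
      _ = 3 * |C2| * ((H : ℝ) ^ (2 * (r : ℝ) - 2 + ε) * (H : ℝ) ^ 2) +
          3 ^ r * |C1| * (((H : ℝ) ^ 2) ^ r * (H : ℝ) ^ ε) := by
          rw [mul_pow]
          ring
      _ = _ := by
          rw [e1, e2]
          ring

end

end Pool.Agent.CYP
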