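import Pool.Agent.CYP.Stmts2

/-!
# CYP, module GSTEP2: the counting theorem for one system of functions on an interval
-/

open scoped BigOperators Topology
open Metric Set MeasureTheory

namespace Pool.Agent.CYP

noncomputable section

namespace GSTEP2_

lemma indep {ν : Type} [Fintype ν] {f : ν → ℂ → ℂ} {τ R : ℝ} (hR : 0 < R)
    (hhol : ∀ x, DifferentiableOn ℂ (f x) (ball (τ : ℂ) R))
    (hind : ∀ Q : MvPolynomial (Option ν) ℂ,
      (∀ z ∈ ball (τ : ℂ) R, MvPolynomial.eval (HGP.opt z (fun x => f x z)) Q = 0) → Q = 0)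
    {N : ℕ} (e : ν ≃ Fin N) :
    GPC.Indep N (τ : ℂ) (R / 10) (fun z => z) (fun j z => f (e.symm j) z) := by
  have hRR : 10 * (R / 10) = R := by ring
  refine ⟨by positivity, differentiableOn_id, fun j => ?_, fun Q hQ => ?_⟩
  · rw [hRR]
    exact hhol (e.symm j)
  · rw [hRR] at hQ
    have h1 := hind (MvPolynomial.rename (Option.map e.symm) Q) (fun z hz => by
        rw [MvPolynomial.eval_rename]
        have h2 : HGP.opt z (fun x => f x z) ∘ Option.map e.symm =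
            GPC.pt z (fun j => f (e.symm j) z) := by
          funext o
          cases o <;> rfl
        rw [h2]
        exact hQ z hz)
    have hinj : Function.Injective (MvPolynomial.rename (R := ℂ) (Option.map e.symm)) :=
      MvPolynomial.rename_injective _ (Option.map_injective e.symm.injective)
    exact hinj (by rw [h1, map_zero])

lemma isSmall_rename {σ τ : Type} (E : σ ≃ τ) {Q : MvPolynomial σ ℤ} {D B : ℕ}
    (h : GPC.IsSmall Q D B) : GPC.IsSmall (MvPolynomial.rename E Q) D B := by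
  refine ⟨(MvPolynomial.totalDegree_rename_le _ _).trans h.1, fun m => ?_⟩
  have h1 : m = Finsupp.mapDomain E (Finsupp.mapDomain E.symm m) := by
    rw [← Finsupp.mapDomain_comp]
    simp
  rw [h1, MvPolynomial.coeff_rename_mapDomain E E.injective]
  exact h.2 _

lemma isBad {ν : Type} [Fintype ν] {f : ν → ℂ → ℂ}
    {κ : Type} [Fintype κ] {c : κ → ℂ} {D B : ℕ} {r : ℚ} {N : ℕ}
    (e : ν ≃ Fin N) {τ ρ : ℝ} (hρ : |(r : ℝ) - τ| ≤ ρ)
    (h : ¬ GPC.Free D B (Sum.elim c (fun x => f x (r : ℂ)))) :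
    GPC.IsBad (τ : ℂ) (τ : ℂ) ρ ρ (fun z => z) (fun j z => f (e.symm j) z) c D B r := by
  unfold GPC.Free at h
  push Not at h
  obtain ⟨Q, hQs, hQ0, hQne⟩ := h
  have hn : ‖((r : ℝ) : ℂ) - (τ : ℂ)‖ ≤ ρ := by
    rw [← Complex.ofReal_sub, Complex.norm_real]
    exact hρ
  refine ⟨((r : ℝ) : ℂ), ?_, hn, ?_, MvPolynomial.rename
    ((Equiv.sumComm κ ν).trans (Equiv.sumCongr e (Equiv.refl κ))) Q, ?_,
    isSmall_rename _ hQs, ?_⟩
  · rw [mem_closedBall, dist_eq_norm]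
    exact hn
  · simp
  · intro h0
    apply hQne
    have hinj := MvPolynomial.rename_injective (R := ℤ) _
      ((Equiv.sumComm κ ν).trans (Equiv.sumCongr e (Equiv.refl κ))).injective
    exact hinj (by rw [h0, map_zero])
  · rw [MvPolynomial.aeval_rename, ← hQ0]
    beta_reduce
    congr 2
    funext x
    rcases x with x | x
    · simp
    · simp

end GSTEP2_

open GSTEP2_ in
/-- GSTEP2 -/
theorem gstep2_proof (hG : GPC.Stmt_ThmG) : Stmt_Gstep2 := by
  classical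
  intro ν _ f T0 T1 hf ε hε κ _ D A
  let e := Fintype.equivFin ν
  have hx : ∀ τ : ℝ, ∃ R : ℝ, 0 < R ∧ ∃ C : ℝ, 0 ≤ C ∧ (τ ∈ Icc T0 T1 → ∀ H : ℕ, 1 ≤ H →
      ∀ c : κ → ℂ, GPC.Free D (H ^ A) c → ∀ T : Finset ℚ, (∀ r ∈ T, r.num.natAbs ≤ H ∧ r.den ≤ H ∧
        GPC.IsBad (τ : ℂ) (τ : ℂ) R R (fun z => z)
          (fun j z => f (e.symm j) z) c D (H ^ A) r) → (T.card : ℝ) ≤ C * (H : ℝ) ^ ε) := by
    intro τ
    by_cases hτ : τ ∈ Icc T0 T1
    · obtain ⟨R, hR, hhol, hind⟩ := hf τ hτ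
      obtain ⟨C, hC⟩ := hG _ κ (τ : ℂ) (R / 10) ε _ _ (indep hR hhol hind e) hε D A
      refine ⟨R / 10, by positivity, max C 0, le_max_right _ _, fun _ H hH c hc T hT => ?_⟩
      refine (hC H hH c hc T hT).trans ?_
      exact mul_le_mul_of_nonneg_right (le_max_left _ _) (by positivity)
    · exact ⟨1, one_pos, 0, le_refl _, fun h => absurd h hτ⟩
  choose R hR C hC0 hC using hx
  obtain ⟨F, hF, hcov⟩ := (isCompact_Icc (a := T0) (b := T1)).elim_nhds_subcover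
    (fun τ => ball τ (R τ)) (fun τ _ => ball_mem_nhds τ (hR τ))
  refine ⟨∑ τ ∈ F, C τ, fun H hH c hc T hT => ?_⟩
  have hsub : T ⊆ F.biUnion (fun τ => T.filter (fun r : ℚ => |(r : ℝ) - τ| ≤ R τ)) := by
    intro r hr
    have h1 : (r : ℝ) ∈ Icc T0 T1 := ⟨(hT r hr).1, (hT r hr).2.1⟩
    obtain ⟨τ, hτF, hτ⟩ := Set.mem_iUnion₂.mp (hcov h1)
    refine Finset.mem_biUnion.mpr ⟨τ, hτF, Finset.mem_filter.mpr ⟨hr, ?_⟩⟩
    rw [mem_ball, Real.dist_eq] at hτ
    exact hτ.le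
  have h2 : (T.card : ℝ) ≤
      ∑ τ ∈ F, ((T.filter (fun r : ℚ => |(r : ℝ) - τ| ≤ R τ)).card : ℝ) := by
    have h3 := (Finset.card_le_card hsub).trans Finset.card_biUnion_le
    exact_mod_cast h3
  refine h2.trans ?_
  rw [Finset.sum_mul]
  refine Finset.sum_le_sum fun τ hτ => ?_
  refine hC τ (hF τ hτ) H hH c hc _ fun r hr => ?_
  obtain ⟨hr1, hr2⟩ := Finset.mem_filter.mp hr
  obtain ⟨h4, h5, h6, h7, h8⟩ := hT r hr1
  exact ⟨h6, h7, isBad e hr2 h8⟩

end

end Pool.Agent.CYP
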