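import Pool.Agent.CYP.Stmts2
import Pool.Agent.CYP.HOLG

/-!
# CYP: module HOLG2, the coordinates of the period matrix are holomorphic
-/

open scoped BigOperators Topology
open Metric Set MeasureTheory

namespace Pool.Agent.CYP

namespace HOLG2_

lemma diff_ev {g : ℕ} (F : Matrix (Fin (2 * g)) (Ix g) (Polynomial ℤ)) (i : Fin (2 * g))
    (a : Ix g) (V : Set ℂ) : DifferentiableOn ℂ (fun ψ => ev F ψ i a) V := by
  simp only [ev, Matrix.map_apply]
  exact (Polynomial.differentiable_aeval _).differentiableOn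

lemma diff_Ps {g : ℕ} (F : Matrix (Fin (2 * g)) (Ix g) (Polynomial ℤ))
    (E' : Matrix (Fin (2 * g)) (Ix g) ℚ) (V : Set ℂ)
    (B : ℂ → Matrix (Fin (2 * g)) (Fin (2 * g)) ℂ)
    (hB : ∀ i j, DifferentiableOn ℂ (fun ψ => B ψ i j) V) (a b : Ix g) :
    DifferentiableOn ℂ (fun ψ => Ps F E' ψ (B ψ) a b) V := by
  unfold Ps
  refine HOLG_.diff_mul (HOLG_.diff_mul (fun i j => ?_) (fun i j => hB _ _)) (fun i j => ?_) a b
  · simp only [Matrix.transpose_apply]
    exact diff_ev F j i V
  · exact differentiableOn_const _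

end HOLG2_

theorem holg2_proof : Stmt_HolG2 := by
  intro g F E' x V B hB
  have h := HOLG2_.diff_Ps F E' V B hB
  rcases x with p | q | q
  · simp only [gvec, Matrix.toBlocks₁₁, Matrix.of_apply]
    exact h _ _
  · simp only [gvec]
    refine HOLG_.diff_mul (fun i j => ?_) (HOLG_.diff_adj fun i j => ?_) _ _
    · simp only [Matrix.toBlocks₂₁, Matrix.of_apply]
      exact h _ _
    · simp only [Matrix.toBlocks₁₁, Matrix.of_apply]
      exact h _ _
  · simp only [gvec]
    refine HOLG_.diff_mul (HOLG_.diff_adj fun i j => ?_) (fun i j => ?_) _ _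
    · simp only [Matrix.toBlocks₁₁, Matrix.of_apply]
      exact h _ _
    · simp only [Matrix.toBlocks₁₂, Matrix.of_apply]
      exact h _ _

end Pool.Agent.CYP
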