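import Pool.Agent.CYP.Stmts2
import Pool.Agent.CYP.IND

/-!
# CYP / IND2: algebraic independence of the coordinates for a branch `B`
-/

open scoped BigOperators Topology
open Metric Set MeasureTheory

namespace Pool.Agent.CYP

noncomputable section

open IND_ in
theorem ind2_proof (hPsi : Stmt_Psi) (hGvec : Stmt_Gvec) (hGeo : Stmt_Geo)
    (hCellB : HGP.Stmt_CellB) : Stmt_Ind2 := by
  intro g F F' E E' hg hF hE z0 R B hFull Q hQ
  obtain ⟨G, hG⟩ := hGvec g
  set GP : Idx g → MvPolynomial (Option (Fin (2 * g) × Fin (2 * g))) ℂ := fun x =>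
    MvPolynomial.aeval (psP F E') (G x) with hGP
  set P : MvPolynomial (Option (Fin (2 * g) × Fin (2 * g))) ℂ :=
    MvPolynomial.bind₁ (fun o : Option (Idx g) => o.elim (MvPolynomial.X none) GP) Q with hP
  have hGPe : ∀ (ψ : ℂ) (X : Matrix (Fin (2 * g)) (Fin (2 * g)) ℂ) (x : Idx g),
      MvPolynomial.eval (HGP.opt ψ (fun p => X p.1 p.2)) (GP x) = gvec (Ps F E' ψ X) x := by
    intro ψ X x
    rw [hGP]
    simp only
    rw [eval_aeval]
    simp only [eval_psP]
    exact hG _ x
  have hPe : ∀ (ψ : ℂ) (X : Matrix (Fin (2 * g)) (Fin (2 * g)) ℂ),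
      MvPolynomial.eval (HGP.opt ψ (fun p => X p.1 p.2)) P =
        MvPolynomial.eval (HGP.opt ψ (gvec (Ps F E' ψ X))) Q := by
    intro ψ X
    have h1 : MvPolynomial.aeval (HGP.opt ψ (fun p : Fin (2 * g) × Fin (2 * g) => X p.1 p.2)) P =
        MvPolynomial.aeval (HGP.opt ψ (gvec (Ps F E' ψ X))) Q := by
      rw [hP, MvPolynomial.aeval_bind₁]
      congr 1
      congr 1
      funext o
      cases o with
      | none =>
        show MvPolynomial.aeval _ (MvPolynomial.X none) = ψ
        rw [MvPolynomial.aeval_X]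
        rfl
      | some x => exact hGPe ψ X x
    exact h1
  have hfib := hFull P (fun ψ hψ => by
    rw [hPe]
    exact hQ ψ hψ)
  have hOmInf : (Om (2 * g)).Infinite :=
    infinite_of_mem_nhds (0 : ℂ)
      (Filter.mem_of_superset (ball_mem_nhds _ one_pos) (hGeo (2 * g)).2.2.1)
  have hkey : ∀ ψ ∈ Om (2 * g), ∀ u : Idx g → ℂ, (HGP.Aof u).det ≠ 0 →
      MvPolynomial.eval (HGP.opt ψ u) Q = 0 := by
    intro ψ hψ u hu
    set kap : ℂ := (2 * Real.pi * Complex.I) ^ (2 * g - 1) with hkap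
    set w : Idx g → ℂ := fun x => match x with
      | .inl p => u (.inl p)
      | .inr q => (HGP.Aof u).det⁻¹ * u (.inr q) with hw
    have hAw : HGP.Aof w = HGP.Aof u := rfl
    have hdw : (HGP.Aof w).det ≠ 0 := by rw [hAw]; exact hu
    obtain ⟨h1, h2, h3⟩ := hCellB g w kap hdw
    have hψ1 : 1 - ψ ^ (2 * g + 1) ≠ 0 := (hGeo (2 * g)).2.2.2.2 ψ hψ
    obtain ⟨h4, h5⟩ := (hPsi g F F' E E' hF hE ψ (2 * Real.pi * Complex.I) hψ1).2
      (HGP.mvec w kap) h1
    have h6 := hfib ψ hψ _ h4
    rw [hPe, h5] at h6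
    have h7 : gvec (HGP.mvec w kap) = u := by
      funext x
      have h8 := congrFun h3 x
      rw [hAw] at h2
      rcases x with p | q | q
      · exact h8
      · have h9 : gvec (HGP.mvec w kap) (.inr (.inl q)) =
            (HGP.Aof u).det * HGP.fvec (HGP.mvec w kap) (.inr (.inl q)) := by
          show ((HGP.mvec w kap).toBlocks₂₁ * (HGP.mvec w kap).toBlocks₁₁.adjugate) q.1.1 q.1.2 =
            (HGP.Aof u).det *
              ((HGP.mvec w kap).toBlocks₂₁ * (HGP.mvec w kap).toBlocks₁₁⁻¹) q.1.1 q.1.2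
          rw [h2, adj_eq hu, Matrix.mul_smul, Matrix.smul_apply, smul_eq_mul]
        rw [h9, h8]
        show (HGP.Aof u).det * ((HGP.Aof u).det⁻¹ * u (.inr (.inl q))) = u (.inr (.inl q))
        rw [← mul_assoc, mul_inv_cancel₀ hu, one_mul]
      · have h9 : gvec (HGP.mvec w kap) (.inr (.inr q)) =
            (HGP.Aof u).det * HGP.fvec (HGP.mvec w kap) (.inr (.inr q)) := by
          show ((HGP.mvec w kap).toBlocks₁₁.adjugate * (HGP.mvec w kap).toBlocks₁₂) q.1.1 q.1.2 =
            (HGP.Aof u).det *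
              ((HGP.mvec w kap).toBlocks₁₁⁻¹ * (HGP.mvec w kap).toBlocks₁₂) q.1.1 q.1.2
          rw [h2, adj_eq hu, Matrix.smul_mul, Matrix.smul_apply, smul_eq_mul]
        rw [h9, h8]
        show (HGP.Aof u).det * ((HGP.Aof u).det⁻¹ * u (.inr (.inr q))) = u (.inr (.inr q))
        rw [← mul_assoc, mul_inv_cancel₀ hu, one_mul]
    rw [h7] at h6
    exact h6
  have hprod : Q * Dl g = 0 := by
    have hinf : ∀ o : Option (Idx g),
        (o.elim (Om (2 * g)) (fun _ => (Set.univ : Set ℂ))).Infinite := by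
      intro o
      cases o with
      | none => exact hOmInf
      | some x => exact Set.infinite_univ
    refine MvPolynomial.funext_set _ hinf fun v hv => ?_
    rw [map_mul, map_zero, eval_Dl]
    by_cases hd : (HGP.Aof (fun x => v (some x))).det = 0
    · rw [hd, mul_zero]
    · have h1 := hkey (v none) (hv none (Set.mem_univ _)) (fun x => v (some x)) hd
      rw [opt_eta] at h1
      rw [h1, zero_mul]
  rcases mul_eq_zero.1 hprod with h | h
  · exact h
  · exact absurd h (Dl_ne g)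

end

end Pool.Agent.CYP
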