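import Pool.Agent.CYP.Stmts2

/-!
# CYP, module LIMB: boundary values of the period matrix
-/

set_option autoImplicit false

open scoped BigOperators Topology
open Metric Set MeasureTheory

namespace Pool.Agent.CYP

noncomputable section

namespace LIMB_

theorem isOpen_sec (η : ℝ) : IsOpen (Sec η) := by
  unfold Sec
  apply IsOpen.inter
  · exact isOpen_lt continuous_const Complex.continuous_re
  · exact isOpen_lt (continuous_abs.comp Complex.continuous_im)
      (continuous_const.mul Complex.continuous_re)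

theorem mem_sec {η ψ : ℝ} (hη : 0 < η) (hψ : 1 < ψ) : (ψ : ℂ) ∈ Sec η := by
  refine ⟨?_, ?_⟩
  · simpa using hψ
  · simp only [Complex.ofReal_im, abs_zero, Complex.ofReal_re]
    exact mul_pos hη (by linarith)

theorem tends (ψ : ℝ) : Filter.Tendsto (fun ε : ℝ => (ψ : ℂ) + (ε : ℂ) * Complex.I) (𝓝[>] 0)
    (𝓝 (ψ : ℂ)) := by
  have hc : Continuous (fun ε : ℝ => (ψ : ℂ) + (ε : ℂ) * Complex.I) := by fun_prop
  have h := hc.tendsto 0
  simp only [Complex.ofReal_zero, zero_mul, add_zero] at h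
  exact h.mono_left nhdsWithin_le_nhds

end LIMB_

open LIMB_

theorem limb_proof (h1 : Stmt_LinkO) (h2 : Stmt_UB) : Stmt_LimB := by
  intro n hn he ψ hψ
  obtain ⟨η, U, hη, hd, hU1, hU2, hU3⟩ := h2 n hn he
  have hS : (ψ : ℂ) ∈ Sec η := mem_sec hη hψ
  have key : ∀ k j, Filter.Tendsto
      (fun ε : ℝ => Per n ((ψ : ℂ) + (ε : ℂ) * Complex.I) k j) (𝓝[>] 0) (𝓝 (U ψ k j)) := by
    intro k j
    have hc : ContinuousAt (fun z => U z k j) (ψ : ℂ) :=
      ((hd k j).differentiableAt ((isOpen_sec η).mem_nhds hS)).continuousAt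
    have h3 : Filter.Tendsto (fun ε : ℝ => U ((ψ : ℂ) + (ε : ℂ) * Complex.I) k j) (𝓝[>] 0)
        (𝓝 (U ψ k j)) := hc.tendsto.comp (tends ψ)
    refine h3.congr' ?_
    have h4 : ∀ᶠ ε : ℝ in 𝓝[>] 0, (ψ : ℂ) + (ε : ℂ) * Complex.I ∈ Sec η :=
      (tends ψ).eventually ((isOpen_sec η).mem_nhds hS)
    filter_upwards [h4, self_mem_nhdsWithin] with ε he1 he2
    have him : 0 < ((ψ : ℂ) + (ε : ℂ) * Complex.I).im := by
      simpa using he2
    rw [hU1 _ he1 him, h1 n hn _ (hU2 _ he1 him.ne')]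
  have hP : PerB n ψ = U ψ := by
    ext k j
    unfold PerB
    rw [if_neg (not_lt.mpr hψ.le), Matrix.of_apply]
    exact (key k j).limUnder_eq
  rw [hP]
  exact ⟨key, hU3 _ hS⟩

end

end Pool.Agent.CYP
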