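import Pool.Agent.CYP.Stmts2
import Pool.Agent.CYP.LINK
import Pool.Agent.CYP.CAUC

/-!
# CYP, module LINKO: the honest integrals are the derivatives on the whole cut plane
-/

open scoped BigOperators Topology
open Metric Set MeasureTheory

namespace Pool.Agent.CYP

noncomputable section

namespace LINKO_

/-- the integrand of the `k`-th derivative of the Cauchy transform -/
def hk (k : ℕ) (ψ : ℂ) (s : ℝ) : ℂ := (k.factorial : ℂ) * (s : ℂ) ^ k / (1 - (s : ℂ) * ψ) ^ (k + 1)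

/-- the `k`-th derivative of the Cauchy transform -/
def Ik (μ : Measure ℝ) (k : ℕ) (ψ : ℂ) : ℂ := ∫ s : ℝ, hk k ψ s ∂μ

theorem hk_meas (k : ℕ) (ψ : ℂ) : Measurable (hk k ψ) := by
  unfold hk
  fun_prop

theorem hk_bound (k : ℕ) (ψ : ℂ) {δ : ℝ} (hδ : 0 < δ) {s : ℝ} (hs : s ∈ Icc (0 : ℝ) 1)
    (h : δ ≤ ‖1 - (s : ℂ) * ψ‖) : ‖hk k ψ s‖ ≤ (k.factorial : ℝ) * (δ ^ (k + 1))⁻¹ := by
  unfold hk
  rw [norm_div, norm_mul, norm_pow, norm_pow, Complex.norm_real, Real.norm_of_nonneg hs.1,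
    Complex.norm_natCast, div_eq_mul_inv]
  have h1 : (k.factorial : ℝ) * s ^ k ≤ (k.factorial : ℝ) * 1 := by
    gcongr
    exact pow_le_one₀ hs.1 hs.2
  have h2 : (‖1 - (s : ℂ) * ψ‖ ^ (k + 1))⁻¹ ≤ (δ ^ (k + 1))⁻¹ := by
    apply inv_anti₀ (by positivity)
    gcongr
  calc (k.factorial : ℝ) * s ^ k * (‖1 - (s : ℂ) * ψ‖ ^ (k + 1))⁻¹
      ≤ ((k.factorial : ℝ) * 1) * (δ ^ (k + 1))⁻¹ := by
        apply mul_le_mul h1 h2 (by positivity) (by positivity)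
    _ = (k.factorial : ℝ) * (δ ^ (k + 1))⁻¹ := by rw [mul_one]

theorem hk_deriv (k : ℕ) (s : ℝ) (ψ : ℂ) (hne : 1 - (s : ℂ) * ψ ≠ 0) :
    HasDerivAt (fun ψ : ℂ => hk k ψ s) (hk (k + 1) ψ s) ψ := by
  have h1 : HasDerivAt (fun ψ : ℂ => 1 - (s : ℂ) * ψ) (-(s : ℂ)) ψ := by
    have h2 := ((hasDerivAt_id ψ).const_mul (s : ℂ)).const_sub 1
    simpa using h2
  have h3 := (h1.pow (k + 1)).inv (pow_ne_zero _ hne)
  have h4 := h3.const_mul ((k.factorial : ℂ) * (s : ℂ) ^ k)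
  have e1 : (fun ψ : ℂ => hk k ψ s) = fun y : ℂ => ((k.factorial : ℂ) * (s : ℂ) ^ k) *
      ((fun ψ : ℂ => 1 - (s : ℂ) * ψ) ^ (k + 1))⁻¹ y := by
    funext y
    simp only [hk, Pi.inv_apply, Pi.pow_apply, div_eq_mul_inv]
  rw [e1]
  refine h4.congr_deriv ?_
  unfold hk
  simp only [Pi.pow_apply]
  rw [Nat.factorial_succ]
  push_cast
  have hD : (1 - (s : ℂ) * ψ) ≠ 0 := hne
  generalize (1 - (s : ℂ) * ψ) = D at hD ⊢
  field_simp
  ring

theorem Ik_hasDerivAt (μ : Measure ℝ) [IsFiniteMeasure μ] (hμ : ∀ᵐ s ∂μ, s ∈ Icc (0 : ℝ) 1)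
    (k : ℕ) {ψ₀ : ℂ} (h : 1 - ψ₀ ∈ Complex.slitPlane) :
    HasDerivAt (Ik μ k) (Ik μ (k + 1) ψ₀) ψ₀ := by
  obtain ⟨δ, hδ, hlow⟩ := CAUC_.lower h
  have key := hasDerivAt_integral_of_dominated_loc_of_deriv_le (μ := μ) (𝕜 := ℂ)
    (F := fun (ψ : ℂ) (s : ℝ) => hk k ψ s)
    (F' := fun (ψ : ℂ) (s : ℝ) => hk (k + 1) ψ s)
    (x₀ := ψ₀) (s := ball ψ₀ δ)
    (bound := fun _ => ((k + 1).factorial : ℝ) * (δ ^ (k + 1 + 1))⁻¹)
    (ball_mem_nhds ψ₀ hδ)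
    (Filter.Eventually.of_forall fun ψ => (hk_meas k ψ).aestronglyMeasurable)
    (by
      apply Integrable.of_bound (hk_meas k ψ₀).aestronglyMeasurable
        ((k.factorial : ℝ) * (δ ^ (k + 1))⁻¹)
      filter_upwards [hμ] with s hs
      exact hk_bound k ψ₀ hδ hs (hlow ψ₀ (mem_ball_self hδ) s hs))
    ((hk_meas (k + 1) ψ₀).aestronglyMeasurable)
    (by
      filter_upwards [hμ] with s hs ψ hψ
      exact hk_bound (k + 1) ψ hδ hs (hlow ψ hψ s hs))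
    (integrable_const _)
    (by
      filter_upwards [hμ] with s hs ψ hψ
      have hne : 1 - (s : ℂ) * ψ ≠ 0 := by
        intro h0
        have := hlow ψ hψ s hs
        rw [h0, norm_zero] at this
        linarith
      exact hk_deriv k s ψ hne)
  exact key.2

/-- The integral with respect to the moment measure as an integral over the orthant. -/
theorem Ik_eq (n k : ℕ) (ψ : ℂ) (h : 1 - ψ ∈ Complex.slitPlane) : Ik (IntG.mu n) k ψ =
    ((n : ℂ) + 1) ^ n * ((k.factorial : ℂ) * ((n : ℂ) + 1) ^ k) * dint n k ψ := by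
  rw [LINK_.dint_eq, ← integral_const_mul]
  unfold Ik IntG.mu
  rw [integral_map (IntG.sp_meas n).aemeasurable (hk_meas k ψ).aestronglyMeasurable]
  rw [integral_withDensity_eq_integral_toReal_smul₀
    (IntG.dn_meas n).ennreal_ofReal.aemeasurable
    (Filter.Eventually.of_forall fun _ => ENNReal.ofReal_lt_top)]
  refine integral_congr_ae ?_
  filter_upwards [IntG.ae_pos n] with x hx
  have h1 := IntG.S_pos hx
  have h1' : (IntG.S n x : ℂ) ≠ 0 := Complex.ofReal_ne_zero.2 h1.ne'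
  rw [ENNReal.toReal_ofReal (IntG.dn_pos hx).le, Complex.real_smul]
  have h2 : 1 - ((IntG.sp n x : ℝ) : ℂ) * ψ ≠ 0 := CAUC_.slit_seg h (IntG.sp_mem hx)
  have h3 : (1 - ((IntG.sp n x : ℝ) : ℂ) * ψ) * (IntG.S n x : ℂ) =
      (IntG.S n x : ℂ) - ((n : ℂ) + 1) * ψ * (IntG.P n x : ℂ) := by
    unfold IntG.sp
    push_cast
    field_simp
  have h4 : (IntG.S n x : ℂ) - ((n : ℂ) + 1) * ψ * (IntG.P n x : ℂ) ≠ 0 := by
    rw [← h3]
    exact mul_ne_zero h2 h1'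
  have h5 : (1 - ((IntG.sp n x : ℝ) : ℂ) * ψ) =
      ((IntG.S n x : ℂ) - ((n : ℂ) + 1) * ψ * (IntG.P n x : ℂ)) / (IntG.S n x : ℂ) := by
    rw [← h3, mul_div_assoc, div_self h1', mul_one]
  have h6 : ((IntG.sp n x : ℝ) : ℂ) = ((n : ℂ) + 1) * (IntG.P n x : ℂ) / (IntG.S n x : ℂ) := by
    unfold IntG.sp
    push_cast
    rfl
  unfold hk IntG.G IntG.dn
  rw [h5, h6]
  push_cast
  rw [pow_zero, pow_one, div_pow, div_pow, mul_pow]
  generalize (IntG.S n x : ℂ) - ((n : ℂ) + 1) * ψ * (IntG.P n x : ℂ) = D at h4 ⊢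
  field_simp
  ring

theorem Ik_zero (n : ℕ) (ψ : ℂ) : Ik (IntG.mu n) 0 ψ = Gf n ψ := by
  unfold Ik Gf hk
  refine integral_congr_ae (Filter.Eventually.of_forall fun s => ?_)
  simp

theorem iter (hGeo : Stmt_Geo) (n j k : ℕ) : ∀ ψ ∈ Om n, iteratedDeriv k (Yx n j) ψ =
    (2 * Real.pi * Complex.I)⁻¹ * ∑ i ∈ Finset.range (n + 2),
      (-1) ^ i * ((n + 1).choose i : ℂ) *
        ((zt n ^ (i + j)) ^ (k + 1) * Ik (IntG.mu n) k (zt n ^ (i + j) * ψ)) := by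
  induction k with
  | zero =>
    intro ψ _
    rw [iteratedDeriv_zero, Yx]
    congr 1
    refine Finset.sum_congr rfl (fun i _ => ?_)
    rw [zero_add, pow_one, Ik_zero]
  | succ k ih =>
    intro ψ hψ
    have hO := (hGeo n).1
    rw [iteratedDeriv_succ]
    have h1 : iteratedDeriv k (Yx n j) =ᶠ[𝓝 ψ] fun ψ => (2 * Real.pi * Complex.I)⁻¹ *
      ∑ i ∈ Finset.range (n + 2), (-1) ^ i * ((n + 1).choose i : ℂ) *
        ((zt n ^ (i + j)) ^ (k + 1) * Ik (IntG.mu n) k (zt n ^ (i + j) * ψ)) := by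
      filter_upwards [hO.mem_nhds hψ] with z hz
      exact ih z hz
    rw [h1.deriv_eq]
    apply HasDerivAt.deriv
    apply HasDerivAt.const_mul
    apply HasDerivAt.fun_sum
    intro i _
    have h2 := Ik_hasDerivAt (IntG.mu n) (IntG.mu_ae n) k (hψ (i + j))
    have h3 : HasDerivAt (fun z : ℂ => zt n ^ (i + j) * z) (zt n ^ (i + j)) ψ := by
      simpa using (hasDerivAt_id ψ).const_mul (zt n ^ (i + j))
    have h4 : HasDerivAt (fun z : ℂ => Ik (IntG.mu n) k (zt n ^ (i + j) * z))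
        (Ik (IntG.mu n) (k + 1) (zt n ^ (i + j) * ψ) * zt n ^ (i + j)) ψ :=
      HasDerivAt.comp ψ h2 h3
    refine ((h4.const_mul ((zt n ^ (i + j)) ^ (k + 1))).const_mul
      ((-1) ^ i * ((n + 1).choose i : ℂ))).congr_deriv ?_
    ring

end LINKO_

open LINKO_ in
theorem linko_proof (hGeo : Stmt_Geo) (_hYx : Stmt_Yx) : Stmt_LinkO := by
  intro n _ ψ hψ
  ext k j
  rw [Per, Mx, Matrix.of_apply, Matrix.of_apply, iter hGeo n (j : ℕ) (k : ℕ) ψ hψ,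
    Finset.mul_sum, Finset.mul_sum]
  refine Finset.sum_congr rfl (fun i _ => ?_)
  rw [Ik_eq n (k : ℕ) _ (hψ (i + (j : ℕ)))]
  ring

end

end Pool.Agent.CYP
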