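import Pool.Agent.CYP.Stmts2
import Pool.Agent.CYP.TRANS

/-!
# CYP, module TRANS2: relations on the torsor give relations between the coordinates
(all rational parameters different from `1`)
-/

open scoped BigOperators Topology
open MvPolynomial

namespace Pool.Agent.CYP

noncomputable section

namespace TRANS2_

lemma disc_ne (g : ℕ) (t : ℚ) (ht : t ≠ 1) : (1 : ℂ) - (t : ℂ) ^ (2 * g + 1) ≠ 0 := by
  intro h
  have h1 : (t : ℂ) ^ (2 * g + 1) = 1 := (sub_eq_zero.1 h).symm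
  have h2 : t ^ (2 * g + 1) = 1 := by exact_mod_cast h1
  have hodd : Odd (2 * g + 1) := ⟨g, rfl⟩
  have h3 : t ^ (2 * g + 1) = 1 ^ (2 * g + 1) := by rw [one_pow]; exact h2
  exact ht (hodd.strictMono_pow.injective h3)

end TRANS2_

open TRANS_ TRANS2_ in
theorem trans2_proof (hTrId : Stmt_TrId2) (hPsi : Stmt_Psi) (hPath : HGP.Stmt_Path) :
    Stmt_Trans2 := by
  intro r g hg F F' E E' hF hE D A
  obtain ⟨D1, C, hHom⟩ := hTrId r g hg F F' E E' hF hE D
  refine ⟨D1, C + A + D1, fun H hH2 t ht lam X hlam hX hbad => ?_⟩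
  obtain ⟨P, hPs, ⟨lam', X', hlam', hX', hne⟩, hP0⟩ := hbad
  obtain ⟨P1, hP1s, K, hK, hP1⟩ := hHom (H ^ A) H P hPs (by omega) t ht
  have hdisc : ∀ i, (1 : ℂ) - ((t i : ℚ) : ℂ) ^ (2 * g i + 1) ≠ 0 :=
    fun i => TRANS2_.disc_ne (g i) (t i) (ht i).1
  intro hfree
  have hzero : P1 = 0 := by
    refine hfree P1 ⟨hP1s.1, fun m => (hP1s.2 m).trans ?_⟩ ?_
    · rw [pow_add, pow_add]
      refine Nat.mul_le_mul_right _ (Nat.mul_le_mul_right _ ?_)
      calc C ≤ 2 ^ C := Nat.lt_two_pow_self.le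
        _ ≤ H ^ C := Nat.pow_le_pow_left hH2 _
    · have hps := fun i => (hPsi (g i) (F i) (F' i) (E i) (E' i) (hF i) (hE i)
        ((t i : ℚ) : ℂ) lam (hdisc i)).1 (X i) (hX i)
      rw [hP1 lam hlam (fun i => Ps (F i) (E' i) (t i : ℂ) (X i)) (fun i => (hps i).1)]
      have hfun : (fun i => Pi' (F' i) (E i) (t i : ℂ) (Ps (F i) (E' i) (t i : ℂ) (X i))) = X :=
        funext fun i => (hps i).2
      rw [hfun, hP0, mul_zero]
  have hps' := fun i => (hPsi (g i) (F i) (F' i) (E i) (E' i) (hF i) (hE i)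
    ((t i : ℚ) : ℂ) lam' (hdisc i)).1 (X' i) (hX' i)
  have hfun' : (fun i => Pi' (F' i) (E i) (t i : ℂ) (Ps (F i) (E' i) (t i : ℂ) (X' i))) = X' :=
    funext fun i => (hps' i).2
  obtain ⟨Y', hY', hdet', hne'⟩ := big_cell hPath F' E (fun i => ((t i : ℚ) : ℂ)) P lam'
    (fun i => Ps (F i) (E' i) (t i : ℂ) (X' i)) hlam' (fun i => (hps' i).1)
    (by rw [hfun']; exact hne)
  have hc := hP1 lam' hlam' Y' hY'
  rw [hzero, map_zero] at hc
  refine mul_ne_zero (mul_ne_zero hK (pow_ne_zero _ ?_)) hne' hc.symm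
  exact Finset.prod_ne_zero_iff.2 fun i _ => hdet' i

end

end Pool.Agent.CYP
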