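import Pool.Agent.CYP.Stmts2
import Pool.Agent.CYP.TRID

/-!
# CYP, module TRID2: a relation in the coordinates of the torsor, all rational parameters
-/

open scoped BigOperators Topology
open MvPolynomial

namespace Pool.Agent.CYP

noncomputable section

open TRID_ in
theorem trid2_proof (hCellG : Stmt_CellG) (hSpec : Stmt_Spec) (hHomog : HGP.Stmt_Homog)
    (hPath : HGP.Stmt_Path) : Stmt_TrId2 := by
  intro r g hg F F' E E' hF hE D
  choose q hqq using fun i => hCellG (g i)
  choose d e hd he using fun i => common_den (E i)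
  obtain ⟨D1, C1, hHom⟩ := hHomog (VV g) (WW g) (qt g d F' e q) (∏ i, Dl g d i) D
  obtain ⟨C2, hSp⟩ := hSpec (UU g) r D1
  refine ⟨(r + 1) * D1, C2 * C1, fun B H P hP hH t ht => ?_⟩
  obtain ⟨P0, hP0s, hP0⟩ := hHom B P hP
  obtain ⟨P1, hP1s, hP1⟩ := hSp (C1 * B) H P0 hP0s hH t (fun i => (ht i).2)
  have ht1 : ∀ i, 1 - ((t i : ℚ) : ℂ) ^ (2 * g i + 1) ≠ 0 := by
    intro i h
    have h1 : (t i) ^ (2 * g i + 1) = (1 : ℚ) := by
      have h2 : ((t i : ℚ) : ℂ) ^ (2 * g i + 1) = 1 := (sub_eq_zero.1 h).symm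
      exact_mod_cast h2
    have h3 : Odd (2 * g i + 1) := ⟨g i, rfl⟩
    exact (ht i).1 (h3.pow_inj.1 (by rw [one_pow]; exact h1))
  refine ⟨P1, small_mono hP1s (by nlinarith [Nat.zero_le (r * D1)]) ?_, ?_⟩
  · have h1 : H ^ (r * D1) ≤ H ^ ((r + 1) * D1) := Nat.pow_le_pow_right hH (by nlinarith)
    calc C2 * (C1 * B) * H ^ (r * D1) ≤ C2 * (C1 * B) * H ^ ((r + 1) * D1) :=
          Nat.mul_le_mul_left _ h1
      _ = C2 * C1 * B * H ^ ((r + 1) * D1) := by ring
  set K : ℂ := (∏ i, ((t i).den : ℂ) ^ D1) *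
    (∏ i, ((d i : ℂ) * (1 - ((t i : ℚ) : ℂ) ^ (2 * g i + 1)) ^ (g i))) ^ D with hK
  refine ⟨K, ?_, ?_⟩
  · rw [hK]
    refine mul_ne_zero (Finset.prod_ne_zero_iff.2 fun i _ => pow_ne_zero _ ?_)
      (pow_ne_zero _ (Finset.prod_ne_zero_iff.2 fun i _ => mul_ne_zero ?_
        (pow_ne_zero _ (ht1 i))))
    · exact_mod_cast (t i).den_ne_zero
    · exact_mod_cast hd i
  intro lam hlam Y hY
  have hlami : ∀ i, lam ^ (2 * g i - 1) ≠ 0 := fun i => pow_ne_zero _ hlam
  -- the identity on the big cell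
  have cell : ∀ Y : ∀ i, Matrix (Ix (g i)) (Ix (g i)) ℂ,
      (∀ i, HGP.Simil (lam ^ (2 * g i - 1)) (Y i)) → (∀ i, (Y i).toBlocks₁₁.det ≠ 0) →
      aeval (gv lam Y) P1 = K * (∏ i, (Y i).toBlocks₁₁.det) ^ (2 * D) *
        aeval (tpt (n := fun i => 2 * g i) lam
          (fun i => Pi' (F' i) (E i) (t i : ℂ) (Y i))) P := by
    intro Y hY hdet
    obtain ⟨k1, k2, k3⟩ := key g d hd F' E e he q lam Y (fun i => ((t i : ℚ) : ℂ))
      (fun i p => hqq i (Y i) _ (hlami i) (hY i) (hdet i) p) hdet ht1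
    have k4 : (∏ i, (Y i).toBlocks₁₁.det ^ 2) ^ D = (∏ i, (Y i).toBlocks₁₁.det) ^ (2 * D) := by
      rw [Finset.prod_pow, ← pow_mul]
    rw [hP1, hP0 _ k2, k3, k1, Finset.prod_mul_distrib, hK, mul_pow, k4]
    ring
  -- paths into the big cell
  choose p hp0 hps hp1 using fun i => hPath (g i) (Y i) _ (hlami i) (hY i)
  let Z : ℂ → ∀ i, Matrix (Ix (g i)) (Ix (g i)) ℂ :=
    fun s i => Matrix.of fun x y => (p i x y).eval s
  have hZ0 : Z 0 = Y := by
    funext i
    ext x y
    exact hp0 i x y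
  have hZc : ∀ i, Continuous fun s => Z s i := fun i =>
    continuous_matrix fun x y => (p i x y).continuous
  let G : Fin r → Polynomial ℂ := fun i =>
    (Matrix.of fun x y => p i (Sum.inl x) (Sum.inl y) :
      Matrix (Fin (g i)) (Fin (g i)) (Polynomial ℂ)).det
  have hG : ∀ i s, (G i).eval s = (Z s i).toBlocks₁₁.det := by
    intro i s
    have h := RingHom.map_det (Polynomial.evalRingHom s)
      (Matrix.of fun x y => p i (Sum.inl x) (Sum.inl y) :
        Matrix (Fin (g i)) (Fin (g i)) (Polynomial ℂ))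
    rw [Polynomial.coe_evalRingHom] at h
    show Polynomial.eval s _ = _
    rw [h]
    congr 1
  have hG0 : ∀ i, G i ≠ 0 := by
    intro i h0
    apply hp1 i
    have h := hG i 1
    rw [h0, Polynomial.eval_zero] at h
    exact h.symm
  have hprod : (∏ i, G i) ≠ 0 := Finset.prod_ne_zero_iff.2 fun i _ => hG0 i
  have hdense : Dense {s : ℂ | (∏ i, G i).eval s ≠ 0} := by
    have h1 : {s : ℂ | (∏ i, G i).eval s ≠ 0} = ((∏ i, G i).rootSet ℂ)ᶜ := by
      ext s
      simp only [Set.mem_ofPred_eq, Set.mem_compl_iff, Polynomial.mem_rootSet, ne_eq, hprod,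
        not_false_eq_true, true_and, Polynomial.coe_aeval_eq_eval]
    rw [h1]
    exact (Polynomial.rootSet_finite _ _).countable.dense_compl ℂ
  have hL : Continuous fun s => aeval (gv lam (Z s)) P1 := by
    refine cont_aeval P1 _ fun v => ?_
    match v with
    | none => exact continuous_const
    | some ⟨i, x⟩ => exact cont_gvec _ (hZc i) x
  have hR : Continuous fun s => K * (∏ i, (Z s i).toBlocks₁₁.det) ^ (2 * D) *
      aeval (tpt (n := fun i => 2 * g i) lam
        (fun i => Pi' (F' i) (E i) (t i : ℂ) (Z s i))) P := by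
    refine (continuous_const.mul ((continuous_finsetProd _ fun i _ => ?_).pow _)).mul
      (cont_aeval P _ fun v => ?_)
    · refine Continuous.matrix_det (continuous_matrix fun x y => ?_)
      exact (hZc i).matrix_elem _ _
    · match v with
      | none => exact continuous_const
      | some ⟨i, x⟩ =>
        show Continuous fun s => Pi' (F' i) (E i) (t i : ℂ) (Z s i) x.1 x.2
        simp only [Pi_apply]
        refine continuous_const.mul (continuous_finsetSum _ fun a _ =>
          continuous_finsetSum _ fun b _ => ?_)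
        exact (continuous_const.mul ((hZc i).matrix_elem _ _)).mul continuous_const
  have heq : (fun s => aeval (gv lam (Z s)) P1) = fun s =>
      K * (∏ i, (Z s i).toBlocks₁₁.det) ^ (2 * D) *
        aeval (tpt (n := fun i => 2 * g i) lam
          (fun i => Pi' (F' i) (E i) (t i : ℂ) (Z s i))) P := by
    refine hL.ext_on hdense hR ?_
    intro s hs
    rw [Set.mem_ofPred_eq, Polynomial.eval_prod] at hs
    refine cell (Z s) (fun i => hps i s) fun i => ?_
    rw [← hG i s]
    exact Finset.prod_ne_zero_iff.1 hs i (Finset.mem_univ i)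
  have h0 := congrFun heq 0
  simp only [hZ0] at h0
  exact h0

end

end Pool.Agent.CYP
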