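import Pool.Agent.CYP.Stmts2
import Pool.Agent.CYP.JUMP

/-!
# CYP, module UB: the branch on the sector around `(1, ∞)`
-/

set_option autoImplicit false

open scoped BigOperators Topology
open Metric Set MeasureTheory

namespace Pool.Agent.CYP

noncomputable section

open JUMP_ in
theorem ub_proof (hJumpU : Stmt_JumpU) (hBilO : Stmt_BilO) (_hYx : Stmt_Yx)
    (_hGeo : Stmt_Geo) : Stmt_UB := by
  intro n hn0 hn
  obtain ⟨η, U, h, hη, hD, hup, -, hO, -, -, -⟩ := hJumpU n ⟨0, hn0⟩ hn rfl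
  refine ⟨η, U, hη, hD, hup, hO, fun ψ hψ => ?_⟩
  show (U ψ).transpose * Rm n ψ * U ψ = (2 * Real.pi * Complex.I) ^ (n - 1) • Qm n ℂ
  ext i j
  refine ident (sec_open η) (sec_convex η).isPreconnected (form_diff hD i j)
    (differentiableOn_const (((2 * Real.pi * Complex.I) ^ (n - 1) • Qm n ℂ) i j))
    (up_open η) inter_subset_left (mem_up hη) (fun z hz => ?_) ψ hψ
  have hz1 : z ∈ Sec η := hz.1
  have hz2 : 0 < z.im := hz.2
  rw [hup z hz1 hz2]
  exact congrFun (congrFun (hBilO n hn0 hn z (hO z hz1 (ne_of_gt hz2))) i) j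

end

end Pool.Agent.CYP
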