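import Pool.Agent.CYP.Main
import Pool.Agent.CYP.LINKO
import Pool.Agent.CYP.UB
import Pool.Agent.CYP.FIBO
import Pool.Agent.CYP.LIMB
import Pool.Agent.CYP.BRAN
import Pool.Agent.CYP.IND2
import Pool.Agent.CYP.HOLG2
import Pool.Agent.CYP.GSTEP2
import Pool.Agent.CYP.GIND2
import Pool.Agent.CYP.TRID2
import Pool.Agent.CYP.TRANS2
import Pool.Agent.CYP.DENS
import Pool.Agent.CYP.FINAL2

/-!
# CYP: assembly of the second part
-/

namespace Pool.Agent.CYP.Main

theorem jumpU : Stmt_JumpU := Pool.Agent.CYP.jumpU solO bilO sec_proof geo nx yx cauc qdet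
  GPH.lode_proof GPH.uniq_proof
theorem linkO : Stmt_LinkO := linko_proof geo yx
theorem ub : Stmt_UB := ub_proof jumpU bilO yx geo
theorem fibO : Stmt_FibO := fibo_proof trv grpQ bilO qdet
theorem limB : Stmt_LimB := limb_proof linkO ub
theorem bran : Stmt_Bran := bran_proof linkO ub limB fibO yx geo
theorem ind2 : Stmt_Ind2 := ind2_proof psi_proof gvec_proof geo HGP.cellb_proof
theorem gind2 : Stmt_Gind2 := gind2_proof (gstep2_proof GPC.Main.thmG)
theorem trId2 : Stmt_TrId2 := trid2_proof cellg_proof spec_proof HGP.homog_proof path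
theorem trans2 : Stmt_Trans2 := trans2_proof trId2 psi_proof path

/-- The period conjecture up to bounded complexity for 100 percent of the rational members of
products of Dwork families of Calabi-Yau varieties of odd dimension. -/
theorem finalB : Stmt_FinalB :=
  final2_proof darb_proof fmat_proof qdet bilO linkO limB bran holg2_proof ind2 gind2 trans2
    dens_proof

end Pool.Agent.CYP.Main
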