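import Pool.Agent.CYP.Stmts

/-!
# CYP, module REC: recurrence of the coefficients
-/

open scoped BigOperators

namespace Pool.Agent.CYP

noncomputable section

namespace REC_

lemma fact_prod (m n : ℕ) : (((m + n + 1).factorial : ℕ) : ℝ) =
    (m.factorial : ℝ) * ((m : ℝ) + 1) * ∏ i ∈ Finset.range n, ((m : ℝ) + 2 + i) := by
  induction n with
  | zero =>
    rw [Finset.range_zero, Finset.prod_empty, mul_one, Nat.add_zero, Nat.factorial_succ]
    push_cast
    ring
  | succ n ih =>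
    rw [Finset.prod_range_succ, ← mul_assoc, ← ih, ← Nat.add_assoc, Nat.factorial_succ]
    push_cast
    ring

end REC_

open REC_

/-- REC -/
theorem rec_proof : Stmt_Rec := by
  intro n m
  have hN : (0 : ℝ) < (n : ℝ) + 1 := by positivity
  have hm : (0 : ℝ) < (m : ℝ) + 1 := by positivity
  refine ⟨?_, ?_⟩
  · unfold acf
    have h1 : 0 < Real.Gamma (((m : ℝ) + 1) / ((n : ℝ) + 1)) :=
      Real.Gamma_pos_of_pos (div_pos hm hN)
    positivity
  · have h1 : Real.Gamma ((((m + n + 1 : ℕ) : ℝ) + 1) / ((n : ℝ) + 1)) =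
        ((m : ℝ) + 1) / ((n : ℝ) + 1) * Real.Gamma (((m : ℝ) + 1) / ((n : ℝ) + 1)) := by
      rw [← Real.Gamma_add_one (div_pos hm hN).ne']
      congr 1
      push_cast
      field_simp
      ring
    unfold acf
    rw [h1, fact_prod, mul_pow, div_pow]
    have hf : (m.factorial : ℝ) ≠ 0 := by positivity
    have hP : ∏ i ∈ Finset.range n, ((m : ℝ) + 2 + i) ≠ 0 :=
      Finset.prod_ne_zero_iff.mpr fun i _ => by positivity
    set P := ∏ i ∈ Finset.range n, ((m : ℝ) + 2 + i) with hPd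
    set G := Real.Gamma (((m : ℝ) + 1) / ((n : ℝ) + 1)) with hG
    have e1 : ((n : ℝ) + 1) ^ (m + n + 1) = ((n : ℝ) + 1) ^ m * ((n : ℝ) + 1) ^ (n + 1) := by
      rw [← pow_add]
      congr 1
    have e2 : ((m : ℝ) + 1) ^ (n + 1) = ((m : ℝ) + 1) ^ n * ((m : ℝ) + 1) := pow_succ _ _
    rw [e1, e2]
    have hNn : ((n : ℝ) + 1) ^ (n + 1) ≠ 0 := by positivity
    field_simp

end

end Pool.Agent.CYP
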