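import Pool.Agent.CYP.IntG

/-!
# CYP: the coefficients are the moments of a finite measure on the unit interval
-/

open scoped BigOperators Topology ENNReal
open MeasureTheory Set

namespace Pool.Agent.CYP.IntG

noncomputable section

/-- The point `s = N ∏ x / S`. -/
def sp (n : ℕ) (x : Fin n → ℝ) : ℝ := ((n : ℝ) + 1) * P n x / S n x

lemma sp_meas (n : ℕ) : Measurable (sp n) := ((P_meas n).const_mul _).div (S_meas n)

/-- The density `N ^ n / S`. -/
def dn (n : ℕ) (x : Fin n → ℝ) : ℝ := ((n : ℝ) + 1) ^ n * (P n x ^ 0 / S n x ^ (0 + 1))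

lemma dn_meas (n : ℕ) : Measurable (dn n) :=
  (((P_meas n).pow_const 0).div ((S_meas n).pow_const _)).const_mul _

/-- The moment measure. -/
def mu (n : ℕ) : Measure ℝ :=
  Measure.map (sp n) ((om n).withDensity fun x => ENNReal.ofReal (dn n x))

lemma dn_int (n : ℕ) : Integrable (dn n) (om n) := (base n 0).1.const_mul _

instance (n : ℕ) : IsFiniteMeasure (mu n) := by
  unfold mu
  have : IsFiniteMeasure ((om n).withDensity fun x => ENNReal.ofReal (dn n x)) :=
    isFiniteMeasure_withDensity_ofReal (dn_int n).2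
  infer_instance

lemma dn_pos {n : ℕ} {x : Fin n → ℝ} (hx : ∀ i, 0 < x i) : 0 < dn n x := by
  have := S_pos hx
  unfold dn
  positivity

lemma sp_mem {n : ℕ} {x : Fin n → ℝ} (hx : ∀ i, 0 < x i) : sp n x ∈ Icc (0 : ℝ) 1 := by
  have h1 := S_pos hx
  have h2 := P_pos hx
  exact ⟨by unfold sp; positivity, (div_le_one h1).mpr (amgm hx)⟩

lemma mu_ae (n : ℕ) : ∀ᵐ s ∂(mu n), s ∈ Icc (0 : ℝ) 1 := by
  unfold mu
  refine (ae_map_iff (p := fun s : ℝ => s ∈ Icc (0 : ℝ) 1) (sp_meas n).aemeasurable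
    measurableSet_Icc).mpr ?_
  exact (withDensity_absolutelyContinuous _ _).ae_le ((ae_pos n).mono fun x hx => sp_mem hx)

lemma mu_compl (n : ℕ) : mu n (Icc (0 : ℝ) 1)ᶜ = 0 := mu_ae n

theorem mu_moment (n m : ℕ) : ∫ s, s ^ m ∂(mu n) =
    ((n : ℝ) + 1) ^ m * Real.Gamma (((m : ℝ) + 1) / ((n : ℝ) + 1)) ^ (n + 1) /
      (m.factorial : ℝ) := by
  unfold mu
  rw [integral_map (sp_meas n).aemeasurable (by fun_prop)]
  rw [integral_withDensity_eq_integral_toReal_smul₀
    (dn_meas n).ennreal_ofReal.aemeasurable (Filter.Eventually.of_forall fun _ => ENNReal.ofReal_lt_top)]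
  have e : ∫ x, (ENNReal.ofReal (dn n x)).toReal • sp n x ^ m ∂(om n) =
      ∫ x, ((n : ℝ) + 1) ^ (n + m) * (P n x ^ m / S n x ^ (m + 1)) ∂(om n) := by
    refine integral_congr_ae ?_
    filter_upwards [ae_pos n] with x hx
    have h1 := S_pos hx
    rw [ENNReal.toReal_ofReal (dn_pos hx).le]
    unfold dn sp
    rw [smul_eq_mul, div_pow, mul_pow, pow_add, pow_succ (S n x) m]
    field_simp
    ring
  rw [e, integral_const_mul, (base n m).2, one_div, inv_pow, pow_add]
  have hn : (n : ℝ) + 1 ≠ 0 := by positivity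
  field_simp

end

end Pool.Agent.CYP.IntG
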