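import Pool.Agent.CYP.Sealed
import Pool.Agent.CYP.MuG
import Pool.Agent.HGP.Stmts
import Pool.Agent.GPH.IIStmts

/-!
# CYP: definitions used in the proof

`n` is even, `N = n + 1`. Text: /team-store/MP_77d3f5_CYP.md
-/

open scoped BigOperators Topology
open Metric Set MeasureTheory

namespace Pool.Agent.CYP

noncomputable section

abbrev Ix (g : ℕ) := HGP.Ix g
abbrev Idx (g : ℕ) := HGP.Idx g

/-- The coefficient `(n + 1) ^ m Γ ((m + 1) / (n + 1)) ^ (n + 1) / m!`. -/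
def acf (n m : ℕ) : ℝ :=
  ((n : ℝ) + 1) ^ m * Real.Gamma (((m : ℝ) + 1) / ((n : ℝ) + 1)) ^ (n + 1) / (m.factorial : ℝ)

/-- The coefficients of the periods. -/
def pc (n j m : ℕ) : ℂ :=
  (2 * Real.pi * Complex.I)⁻¹ * zt n ^ (j * (m + 1)) * (1 - zt n ^ (m + 1)) ^ (n + 1) *
    (acf n m : ℂ)

/-- The periods as power series. -/
def prd (n j : ℕ) (ψ : ℂ) : ℂ := ∑' m : ℕ, pc n j m * ψ ^ m

/-- The function `∑ acf n m * ψ ^ m`, extended to the plane without `[1, ∞)`. -/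
def Gf (n : ℕ) (ψ : ℂ) : ℂ := ∫ s : ℝ, (1 - (s : ℂ) * ψ)⁻¹ ∂(IntG.mu n)

/-- The periods on the cut plane. -/
def Yx (n j : ℕ) (ψ : ℂ) : ℂ :=
  (2 * Real.pi * Complex.I)⁻¹ * ∑ i ∈ Finset.range (n + 2),
    (-1) ^ i * ((n + 1).choose i : ℂ) * (zt n ^ (i + j) * Gf n (zt n ^ (i + j) * ψ))

/-- The period matrix on the cut plane. -/
def Mx (n : ℕ) (ψ : ℂ) : Matrix (Fin n) (Fin n) ℂ :=
  Matrix.of fun k j => iteratedDeriv (k : ℕ) (Yx n (j : ℕ)) ψ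

/-- The cut plane: the plane without the half lines `ζ ^ (-k) [1, ∞)`. -/
def Om (n : ℕ) : Set ℂ := {ψ | ∀ k : ℕ, 1 - zt n ^ k * ψ ∈ Complex.slitPlane}

/-- The sector around `(1, ∞)`. -/
def Sec (η : ℝ) : Set ℂ := {ψ | 1 < ψ.re ∧ |ψ.im| < η * ψ.re}

/-- The matrix of the Picard-Fuchs system `M' = Lc M`. -/
def Lc (n : ℕ) (ψ : ℂ) : Matrix (Fin n) (Fin n) ℂ := Matrix.of fun k l =>
  if (k : ℕ) + 1 = l then 1 else if (k : ℕ) + 1 = n then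
    (Nat.stirlingSecond (n + 1) ((l : ℕ) + 1) : ℂ) * ψ ^ ((l : ℕ) + 1) / (1 - ψ ^ (n + 1)) else 0

/-- The Picard-Fuchs equation on the unit disc. -/
def Ode (n : ℕ) (f : ℂ → ℂ) : Prop := ∀ ψ ∈ ball (0 : ℂ) 1, iteratedDeriv n f ψ =
  ∑ k ∈ Finset.range (n + 1),
    (Nat.stirlingSecond (n + 1) (k + 1) : ℂ) * ψ ^ (k + 1) * iteratedDeriv k f ψ

/-- The entries of `Rm`. -/
def Rf (n a b : ℕ) (ψ : ℂ) : ℂ := (if a + b + 1 = n then (-1) ^ b else 0) -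
    ψ ^ (a + b + 2) * ∑ i ∈ Finset.range n, (-1) ^ (n - 1 - i) *
      ((Nat.stirlingSecond (i + 1) (a + 1) : ℂ) * (Nat.stirlingSecond (n - i) (b + 1) : ℂ))

/-- The bilinear form of two solutions. -/
def Bf (n : ℕ) (f g : ℂ → ℂ) (ψ : ℂ) : ℂ := ∑ a ∈ Finset.range n, ∑ b ∈ Finset.range n,
  iteratedDeriv a f ψ * Rf n a b ψ * iteratedDeriv b g ψ

/-- `P (ψ, Mx ψ * h) = 0` on the cut plane. -/
def Rel (n : ℕ) (P : MvPolynomial (Option (Fin n × Fin n)) ℂ) (h : Matrix (Fin n) (Fin n) ℂ) :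
    Prop := ∀ ψ ∈ Om n, MvPolynomial.eval (HGP.opt ψ (fun p => (Mx n ψ * h) p.1 p.2)) P = 0

/-- The transvection matrix `e_k ⊗ Q e_k`. -/
def rs (n : ℕ) (k : Fin n) : Matrix (Fin n) (Fin n) ℂ :=
  GPH.res (Qm n ℂ) (Pi.single k 1)

/-- The diagonal matrix of the rotation. -/
def Dm (n : ℕ) : Matrix (Fin n) (Fin n) ℂ := Matrix.diagonal fun k => (zt n ^ ((k : ℕ) + 1))⁻¹

/-- The matrix of the rotation on the cycles. -/
def Pm (n : ℕ) : Matrix (Fin n) (Fin n) ℂ := Matrix.of fun i j =>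
  if (j : ℕ) + 1 = n then -1 else if (i : ℕ) = j + 1 then 1 else 0

/-! ## Darboux coordinates -/

/-- Evaluation of a matrix of polynomials. -/
def ev {g : ℕ} (F : Matrix (Fin (2 * g)) (Ix g) (Polynomial ℤ)) (ψ : ℂ) :
    Matrix (Fin (2 * g)) (Ix g) ℂ := F.map fun p => Polynomial.aeval ψ p

/-- `R = F J Fᵀ`, and `F'` is the inverse of `Fᵀ` times `(1 - ψ ^ N) ^ g`. -/
structure IsF (g : ℕ) (F F' : Matrix (Fin (2 * g)) (Ix g) (Polynomial ℤ)) : Prop where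
  rel : ∀ ψ : ℂ, ev F ψ * Matrix.J (Fin g) ℂ * (ev F ψ).transpose = Rm (2 * g) ψ
  inv1 : ∀ ψ : ℂ, ev F ψ * (ev F' ψ).transpose =
    ((1 - ψ ^ (2 * g + 1)) ^ g) • (1 : Matrix (Fin (2 * g)) (Fin (2 * g)) ℂ)
  inv2 : ∀ ψ : ℂ, (ev F' ψ).transpose * ev F ψ =
    ((1 - ψ ^ (2 * g + 1)) ^ g) • (1 : Matrix (Ix g) (Ix g) ℂ)

/-- `Q = E J Eᵀ`, and `E'` is the inverse of `Eᵀ`. -/
structure IsE (g : ℕ) (Q : Matrix (Fin (2 * g)) (Fin (2 * g)) ℚ)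
    (E E' : Matrix (Fin (2 * g)) (Ix g) ℚ) : Prop where
  rel : E * Matrix.J (Fin g) ℚ * E.transpose = Q
  inv1 : E * E'.transpose = 1
  inv2 : E'.transpose * E = 1

/-- Rational matrices as complex matrices. -/
def cx {g : ℕ} (E : Matrix (Fin (2 * g)) (Ix g) ℚ) : Matrix (Fin (2 * g)) (Ix g) ℂ :=
  E.map fun x => (x : ℂ)

/-- The matrix `Fᵀ X E'` with `Simil (lam ^ (n - 1))` if `Tors n ψ lam X`. -/
def Ps {g : ℕ} (F : Matrix (Fin (2 * g)) (Ix g) (Polynomial ℤ))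
    (E' : Matrix (Fin (2 * g)) (Ix g) ℚ) (ψ : ℂ) (X : Matrix (Fin (2 * g)) (Fin (2 * g)) ℂ) :
    Matrix (Ix g) (Ix g) ℂ := (ev F ψ).transpose * X * cx E'

/-- The inverse of `Ps`. -/
def Pi' {g : ℕ} (F' : Matrix (Fin (2 * g)) (Ix g) (Polynomial ℤ))
    (E : Matrix (Fin (2 * g)) (Ix g) ℚ) (ψ : ℂ) (Y : Matrix (Ix g) (Ix g) ℂ) :
    Matrix (Fin (2 * g)) (Fin (2 * g)) ℂ :=
  ((1 - ψ ^ (2 * g + 1)) ^ g)⁻¹ • (ev F' ψ * Y * (cx E).transpose)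

/-- The polynomial coordinates `A, C adj A, adj A B` of `Y = (A, B; C, D)`. -/
def gvec {g : ℕ} (Y : Matrix (Ix g) (Ix g) ℂ) : Idx g → ℂ
  | .inl p => Y.toBlocks₁₁ p.1 p.2
  | .inr (.inl q) => (Y.toBlocks₂₁ * Y.toBlocks₁₁.adjugate) q.1.1 q.1.2
  | .inr (.inr q) => (Y.toBlocks₁₁.adjugate * Y.toBlocks₁₂) q.1.1 q.1.2

end

end Pool.Agent.CYP
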