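import Mathlib

/-!
# CYP: the integral representation of the period series (Dirichlet integrals)
-/

open scoped BigOperators Topology ENNReal
open MeasureTheory Set

namespace Pool.Agent.CYP.IntG

noncomputable section

/-- The measure on the open orthant. -/
def om (n : ℕ) : Measure (Fin n → ℝ) := Measure.pi (fun _ : Fin n => volume.restrict (Ioi (0 : ℝ)))

lemma om_eq (n : ℕ) : om n = volume.restrict (univ.pi fun _ : Fin n => Ioi (0 : ℝ)) := by
  unfold om
  rw [volume_pi, Measure.restrict_pi_pi]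

instance (n : ℕ) : SigmaFinite (om n) := by unfold om; infer_instance

lemma ae_pos (n : ℕ) : ∀ᵐ x ∂(om n), ∀ i, 0 < x i := by
  rw [om_eq]
  refine (ae_restrict_mem (MeasurableSet.univ_pi fun _ => measurableSet_Ioi)).mono ?_
  intro x hx i
  exact hx i (mem_univ i)

/-- `1 + ∑ x_i ^ N`. -/
def S (n : ℕ) (x : Fin n → ℝ) : ℝ := 1 + ∑ i, x i ^ (n + 1)

/-- `∏ x_i`. -/
def P (n : ℕ) (x : Fin n → ℝ) : ℝ := ∏ i, x i

lemma S_pos {n : ℕ} {x : Fin n → ℝ} (hx : ∀ i, 0 < x i) : 0 < S n x := by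
  unfold S
  have : 0 ≤ ∑ i, x i ^ (n + 1) := Finset.sum_nonneg fun i _ => (pow_pos (hx i) _).le
  linarith

lemma P_pos {n : ℕ} {x : Fin n → ℝ} (hx : ∀ i, 0 < x i) : 0 < P n x :=
  Finset.prod_pos fun i _ => hx i

/-- Arithmetic and geometric mean. -/
lemma amgm {n : ℕ} {x : Fin n → ℝ} (hx : ∀ i, 0 < x i) : ((n : ℝ) + 1) * P n x ≤ S n x := by
  have hn : (0 : ℝ) < (n : ℝ) + 1 := by positivity
  have h := Real.geom_mean_le_arith_mean_weighted (Finset.univ : Finset (Fin (n + 1)))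
    (fun _ => 1 / ((n : ℝ) + 1)) (Fin.cons 1 fun i => x i ^ (n + 1))
    (fun _ _ => by positivity) (by simp; field_simp) (by
      intro i _
      refine Fin.cases ?_ (fun j => ?_) i
      · simp
      · simp only [Fin.cons_succ]
        exact (pow_pos (hx j) _).le)
  rw [Fin.prod_univ_succ, Fin.sum_univ_succ] at h
  simp only [Fin.cons_zero, Fin.cons_succ, Real.one_rpow, one_mul, mul_one] at h
  have e : ∀ i : Fin n, (x i ^ (n + 1)) ^ (1 / ((n : ℝ) + 1)) = x i := by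
    intro i
    have := Real.pow_rpow_inv_natCast (hx i).le (Nat.succ_ne_zero n)
    rw [one_div]
    exact_mod_cast this
  rw [Finset.prod_congr rfl fun i _ => e i, ← Finset.mul_sum] at h
  unfold P S
  have h2 := mul_le_mul_of_nonneg_left h hn.le
  calc ((n : ℝ) + 1) * ∏ i, x i ≤ _ := h2
    _ = 1 + ∑ i, x i ^ (n + 1) := by field_simp

/-- The integrand of the double integral. -/
def H (n L : ℕ) (x : Fin n → ℝ) (t : ℝ) : ℝ :=
  t ^ L * Real.exp (-t) * ∏ i, (x i ^ L * Real.exp (-t * x i ^ (n + 1)))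

lemma one_dim (n L : ℕ) {t : ℝ} (ht : 0 < t) :
    ∫ x in Ioi (0 : ℝ), x ^ L * Real.exp (-t * x ^ (n + 1)) =
      t ^ (-((L : ℝ) + 1) / ((n : ℝ) + 1)) * (1 / ((n : ℝ) + 1)) *
        Real.Gamma (((L : ℝ) + 1) / ((n : ℝ) + 1)) := by
  have h := integral_rpow_mul_exp_neg_mul_rpow (p := (n : ℝ) + 1) (q := (L : ℝ)) (b := t)
    (by positivity) (by have := Nat.cast_nonneg (α := ℝ) L; linarith) ht
  rw [← h]
  refine setIntegral_congr_fun measurableSet_Ioi fun x hx => ?_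
  have e : ((n : ℝ) + 1) = ((n + 1 : ℕ) : ℝ) := by push_cast; ring
  rw [e, Real.rpow_natCast, Real.rpow_natCast]

lemma one_dim_int (n L : ℕ) {t : ℝ} (ht : 0 < t) :
    IntegrableOn (fun x : ℝ => x ^ L * Real.exp (-t * x ^ (n + 1))) (Ioi 0) := by
  have h := integrableOn_rpow_mul_exp_neg_mul_rpow (p := (n : ℝ) + 1) (s := (L : ℝ)) (b := t)
    (by have := Nat.cast_nonneg (α := ℝ) L; linarith) (by
      have := Nat.cast_nonneg (α := ℝ) n; linarith) ht
  refine h.congr_fun (fun x hx => ?_) measurableSet_Ioi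
  have e : ((n : ℝ) + 1) = ((n + 1 : ℕ) : ℝ) := by push_cast; ring
  simp only
  rw [e, Real.rpow_natCast, Real.rpow_natCast]

/-- The inner integral over the orthant. -/
lemma inner_x (n L : ℕ) {t : ℝ} (ht : 0 < t) :
    ∫ x, H n L x t ∂(om n) = (1 / ((n : ℝ) + 1)) ^ n *
      Real.Gamma (((L : ℝ) + 1) / ((n : ℝ) + 1)) ^ n *
      (Real.exp (-t) * t ^ (((L : ℝ) + 1) / ((n : ℝ) + 1) - 1)) := by
  unfold H om
  rw [integral_const_mul, integral_fintype_prod_eq_prod (fun _ : Fin n => fun y : ℝ =>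
    y ^ L * Real.exp (-t * y ^ (n + 1)))]
  simp only [one_dim n L ht, Finset.prod_const, Finset.card_univ, Fintype.card_fin]
  have hn : (0 : ℝ) < (n : ℝ) + 1 := by positivity
  have e : t ^ L * (t ^ (-((L : ℝ) + 1) / ((n : ℝ) + 1))) ^ n =
      t ^ (((L : ℝ) + 1) / ((n : ℝ) + 1) - 1) := by
    rw [← Real.rpow_natCast t L, ← Real.rpow_natCast (t ^ _) n, ← Real.rpow_mul ht.le,
      ← Real.rpow_add ht]
    congr 1
    field_simp
    ring
  rw [mul_pow, mul_pow]
  linear_combination (Real.exp (-t) * (1 / ((n : ℝ) + 1)) ^ n *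
    Real.Gamma (((L : ℝ) + 1) / ((n : ℝ) + 1)) ^ n) * e

lemma H_nonneg {n L : ℕ} {x : Fin n → ℝ} (hx : ∀ i, 0 < x i) {t : ℝ} (ht : 0 < t) :
    0 ≤ H n L x t := by
  unfold H
  have : 0 ≤ ∏ i, (x i ^ L * Real.exp (-t * x i ^ (n + 1))) :=
    Finset.prod_nonneg fun i _ => mul_nonneg (pow_nonneg (hx i).le _) (Real.exp_pos _).le
  positivity

lemma H_int_x (n L : ℕ) {t : ℝ} (ht : 0 < t) : Integrable (fun x => H n L x t) (om n) := by
  unfold H om
  refine Integrable.const_mul ?_ _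
  exact Integrable.fintype_prod (f := fun _ : Fin n => fun y : ℝ =>
    y ^ L * Real.exp (-t * y ^ (n + 1))) fun _ => one_dim_int n L ht

lemma H_int (n L : ℕ) : Integrable (fun q : (Fin n → ℝ) × ℝ => H n L q.1 q.2)
    ((om n).prod (volume.restrict (Ioi (0 : ℝ)))) := by
  have hn : (0 : ℝ) < (n : ℝ) + 1 := by positivity
  rw [integrable_prod_iff']
  · constructor
    · refine (ae_restrict_mem measurableSet_Ioi).mono fun t ht => ?_
      exact H_int_x n L ht
    · have h1 : IntegrableOn (fun t : ℝ => (1 / ((n : ℝ) + 1)) ^ n *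
          Real.Gamma (((L : ℝ) + 1) / ((n : ℝ) + 1)) ^ n *
          (Real.exp (-t) * t ^ (((L : ℝ) + 1) / ((n : ℝ) + 1) - 1))) (Ioi 0) := by
        refine Integrable.const_mul ?_ _
        exact Real.GammaIntegral_convergent (by positivity)
      refine h1.congr_fun (fun t ht => ?_) measurableSet_Ioi
      beta_reduce
      rw [← inner_x n L ht]
      refine integral_congr_ae ?_
      filter_upwards [ae_pos n] with x hx
      exact (Real.norm_of_nonneg (H_nonneg hx ht)).symm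
  · refine Measurable.aestronglyMeasurable ?_
    unfold H
    fun_prop

/-- The inner integral over `t`. -/
lemma inner_t (n L : ℕ) {x : Fin n → ℝ} (hx : ∀ i, 0 < x i) :
    ∫ t in Ioi (0 : ℝ), H n L x t = (L.factorial : ℝ) * (P n x ^ L / S n x ^ (L + 1)) := by
  have h := Real.integral_rpow_mul_exp_neg_mul_Ioi (a := (L : ℝ) + 1) (r := S n x)
    (by positivity) (S_pos hx)
  have e1 : ∫ t in Ioi (0 : ℝ), H n L x t =
      P n x ^ L * ∫ t in Ioi (0 : ℝ), t ^ ((L : ℝ) + 1 - 1) * Real.exp (-(S n x * t)) := by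
    rw [← integral_const_mul]
    refine setIntegral_congr_fun measurableSet_Ioi fun t ht => ?_
    simp only [H, P, S]
    rw [Finset.prod_mul_distrib, ← Real.exp_sum, add_sub_cancel_right, Real.rpow_natCast,
      Finset.prod_pow]
    have e2 : Real.exp (-((1 + ∑ i, x i ^ (n + 1)) * t)) =
        Real.exp (-t) * Real.exp (∑ i, -t * x i ^ (n + 1)) := by
      rw [← Real.exp_add]
      congr 1
      rw [← Finset.mul_sum]
      ring
    rw [e2]
    ring
  rw [e1, h, Real.Gamma_nat_eq_factorial]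
  have e3 : (1 / S n x) ^ ((L : ℝ) + 1) = (1 / S n x) ^ (L + 1) := by
    rw [← Real.rpow_natCast]
    push_cast
    rfl
  rw [e3, one_div, inv_pow]
  field_simp

/-- The Dirichlet integral. -/
lemma base (n L : ℕ) : Integrable (fun x => P n x ^ L / S n x ^ (L + 1)) (om n) ∧
    ∫ x, P n x ^ L / S n x ^ (L + 1) ∂(om n) =
      (1 / ((n : ℝ) + 1)) ^ n * Real.Gamma (((L : ℝ) + 1) / ((n : ℝ) + 1)) ^ (n + 1) /
        (L.factorial : ℝ) := by
  have hL : (L.factorial : ℝ) ≠ 0 := by positivity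
  have h1 : ∀ᵐ x ∂(om n), ∫ t in Ioi (0 : ℝ), H n L x t =
      (L.factorial : ℝ) * (P n x ^ L / S n x ^ (L + 1)) := by
    filter_upwards [ae_pos n] with x hx
    exact inner_t n L hx
  have h2 := (H_int n L).integral_prod_left
  have h3 : Integrable (fun x => (L.factorial : ℝ) * (P n x ^ L / S n x ^ (L + 1))) (om n) :=
    h2.congr h1
  have h4 : Integrable (fun x => P n x ^ L / S n x ^ (L + 1)) (om n) := by
    have := h3.const_mul ((L.factorial : ℝ)⁻¹)
    refine this.congr (Filter.Eventually.of_forall fun x => ?_)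
    simp only
    field_simp
  refine ⟨h4, ?_⟩
  have h5 : ∫ x, (L.factorial : ℝ) * (P n x ^ L / S n x ^ (L + 1)) ∂(om n) =
      (1 / ((n : ℝ) + 1)) ^ n * Real.Gamma (((L : ℝ) + 1) / ((n : ℝ) + 1)) ^ (n + 1) := by
    rw [← integral_congr_ae h1, integral_integral_swap (H_int n L)]
    have e : ∫ t in Ioi (0 : ℝ), ∫ x, H n L x t ∂(om n) =
        ∫ t in Ioi (0 : ℝ), (1 / ((n : ℝ) + 1)) ^ n *
          Real.Gamma (((L : ℝ) + 1) / ((n : ℝ) + 1)) ^ n *
          (Real.exp (-t) * t ^ (((L : ℝ) + 1) / ((n : ℝ) + 1) - 1)) :=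
      setIntegral_congr_fun measurableSet_Ioi fun t ht => inner_x n L ht
    rw [e, integral_const_mul, ← Real.Gamma_eq_integral (by positivity), pow_succ]
    ring
  rw [integral_const_mul] at h5
  rw [eq_div_iff hL, mul_comm, h5]

lemma S_meas (n : ℕ) : Measurable (S n) := by unfold S; fun_prop

lemma P_meas (n : ℕ) : Measurable (P n) := by unfold P; fun_prop

/-- The term number `m` of the expansion. -/
def F (n k : ℕ) (ψ : ℂ) (m : ℕ) (x : Fin n → ℝ) : ℂ :=
  ((m + k).choose k : ℂ) * (((n : ℂ) + 1) * ψ) ^ m *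
    ((P n x ^ (k + m) / S n x ^ (k + m + 1) : ℝ) : ℂ)

lemma ratio_le {n : ℕ} {x : Fin n → ℝ} (hx : ∀ i, 0 < x i) (ψ : ℂ) :
    ‖((n : ℂ) + 1) * ψ * (P n x : ℂ) / (S n x : ℂ)‖ ≤ ‖ψ‖ := by
  have h1 : ((n : ℝ) + 1) * P n x / S n x ≤ 1 := (div_le_one (S_pos hx)).mpr (amgm hx)
  have hn : ‖(n : ℂ) + 1‖ = (n : ℝ) + 1 := by
    have : ((n : ℂ) + 1) = ((n + 1 : ℕ) : ℂ) := by push_cast; ring
    rw [this, Complex.norm_natCast]
    push_cast
    ring
  rw [norm_div, norm_mul, norm_mul, hn, Complex.norm_real, Complex.norm_real,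
    Real.norm_of_nonneg (P_pos hx).le, Real.norm_of_nonneg (S_pos hx).le]
  calc ((n : ℝ) + 1) * ‖ψ‖ * P n x / S n x = ‖ψ‖ * (((n : ℝ) + 1) * P n x / S n x) := by ring
    _ ≤ ‖ψ‖ * 1 := mul_le_mul_of_nonneg_left h1 (norm_nonneg _)
    _ = ‖ψ‖ := mul_one _

lemma F_hasSum {n : ℕ} (k : ℕ) {ψ : ℂ} (hψ : ‖ψ‖ < 1) {x : Fin n → ℝ} (hx : ∀ i, 0 < x i) :
    HasSum (fun m => F n k ψ m x)
      ((P n x : ℂ) ^ k / ((S n x : ℂ) - ((n : ℂ) + 1) * ψ * (P n x : ℂ)) ^ (k + 1)) := by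
  have hS : (S n x : ℂ) ≠ 0 := by exact_mod_cast (S_pos hx).ne'
  set r : ℂ := ((n : ℂ) + 1) * ψ * (P n x : ℂ) / (S n x : ℂ) with hr
  have hr1 : ‖r‖ < 1 := (ratio_le hx ψ).trans_lt hψ
  have h := (hasSum_choose_mul_geometric_of_norm_lt_one k hr1).mul_left
    ((P n x : ℂ) ^ k / (S n x : ℂ) ^ (k + 1))
  have hne : (1 : ℂ) - r ≠ 0 := by
    intro h0
    have : r = 1 := by linear_combination -h0
    rw [this] at hr1
    simp at hr1
  have e1 : (P n x : ℂ) ^ k / (S n x : ℂ) ^ (k + 1) * (1 / (1 - r) ^ (k + 1)) =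
      (P n x : ℂ) ^ k / ((S n x : ℂ) - ((n : ℂ) + 1) * ψ * (P n x : ℂ)) ^ (k + 1) := by
    have : (S n x : ℂ) - ((n : ℂ) + 1) * ψ * (P n x : ℂ) = (S n x : ℂ) * (1 - r) := by
      rw [hr]
      field_simp
    rw [this, mul_pow]
    field_simp
  rw [e1] at h
  have e2 : ∀ m : ℕ, (P n x : ℂ) ^ k / (S n x : ℂ) ^ (k + 1) *
      (((m + k).choose k : ℂ) * r ^ m) = F n k ψ m x := by
    intro m
    unfold F
    push_cast
    rw [hr, div_pow, mul_pow (((n : ℂ) + 1) * ψ), show k + m + 1 = (k + 1) + m by ring,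
      pow_add (P n x : ℂ) k m, pow_add (S n x : ℂ) (k + 1) m]
    field_simp
  simpa only [e2] using h

lemma Nnorm (n : ℕ) : ‖(n : ℂ) + 1‖ = (n : ℝ) + 1 := by
  have : ((n : ℂ) + 1) = ((n + 1 : ℕ) : ℂ) := by push_cast; ring
  rw [this, Complex.norm_natCast]
  push_cast
  ring

lemma F_int (n k : ℕ) (ψ : ℂ) (m : ℕ) : Integrable (F n k ψ m) (om n) := by
  unfold F
  exact (base n (k + m)).1.ofReal.const_mul _

lemma F_integral (n k : ℕ) (ψ : ℂ) (m : ℕ) : ∫ x, F n k ψ m x ∂(om n) =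
    (((n : ℂ) + 1) * ψ) ^ m / ((m.factorial : ℂ) * (k.factorial : ℂ)) *
      (((1 / ((n : ℝ) + 1)) ^ n *
        Real.Gamma (((k + m : ℕ) + 1 : ℝ) / ((n : ℝ) + 1)) ^ (n + 1) : ℝ) : ℂ) := by
  unfold F
  rw [integral_const_mul, integral_complex_ofReal, (base n (k + m)).2]
  have h1 : ((m + k).choose k : ℂ) * (k.factorial : ℂ) * (m.factorial : ℂ) =
      ((k + m).factorial : ℂ) := by
    have := Nat.add_choose_mul_factorial_mul_factorial m k
    rw [add_comm k m, ← this]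
    push_cast
    ring
  have h2 : ((k + m).factorial : ℂ) ≠ 0 := by exact_mod_cast (Nat.factorial_ne_zero _)
  have h3 : (k.factorial : ℂ) ≠ 0 := by exact_mod_cast (Nat.factorial_ne_zero _)
  have h4 : (m.factorial : ℂ) ≠ 0 := by exact_mod_cast (Nat.factorial_ne_zero _)
  have h5 : ((m + k).choose k : ℂ) ≠ 0 := by
    intro h0
    rw [h0] at h1
    apply h2
    rw [← h1]
    ring
  rw [Complex.ofReal_div, Complex.ofReal_natCast, ← h1]
  field_simp

lemma F_norm_le (n k : ℕ) (ψ : ℂ) (m : ℕ) {x : Fin n → ℝ} (hx : ∀ i, 0 < x i) :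
    ‖F n k ψ m x‖ ≤ ((m + k).choose k : ℝ) * ‖ψ‖ ^ m * (P n x ^ k / S n x ^ (k + 1)) := by
  have hS := S_pos hx
  have hP := P_pos hx
  have h1 : (((n : ℝ) + 1) * P n x / S n x) ^ m ≤ 1 :=
    pow_le_one₀ (by positivity) ((div_le_one hS).mpr (amgm hx))
  unfold F
  rw [norm_mul, norm_mul, norm_pow, norm_mul, Nnorm, Complex.norm_natCast, Complex.norm_real,
    Real.norm_of_nonneg (by positivity)]
  calc ((m + k).choose k : ℝ) * (((n : ℝ) + 1) * ‖ψ‖) ^ m * (P n x ^ (k + m) / S n x ^ (k + m + 1))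
      = ((m + k).choose k : ℝ) * ‖ψ‖ ^ m * (P n x ^ k / S n x ^ (k + 1)) *
        (((n : ℝ) + 1) * P n x / S n x) ^ m := by
        rw [div_pow, mul_pow, mul_pow, show k + m + 1 = (k + 1) + m by ring,
          pow_add (P n x) k m, pow_add (S n x) (k + 1) m]
        field_simp
    _ ≤ ((m + k).choose k : ℝ) * ‖ψ‖ ^ m * (P n x ^ k / S n x ^ (k + 1)) * 1 :=
        mul_le_mul_of_nonneg_left h1 (by positivity)
    _ = _ := mul_one _

lemma F_summable (n k : ℕ) {ψ : ℂ} (hψ : ‖ψ‖ < 1) :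
    Summable fun m => ∫ x, ‖F n k ψ m x‖ ∂(om n) := by
  have h0 : Summable fun m : ℕ => ((m + k).choose k : ℝ) * ‖ψ‖ ^ m *
      ∫ x, P n x ^ k / S n x ^ (k + 1) ∂(om n) := by
    refine Summable.mul_right _ ?_
    exact summable_choose_mul_geometric_of_norm_lt_one k (by rwa [norm_norm])
  refine Summable.of_nonneg_of_le (fun m => integral_nonneg fun x => norm_nonneg _)
    (fun m => ?_) h0
  rw [← integral_const_mul]
  refine integral_mono_ae (F_int n k ψ m).norm ((base n k).1.const_mul _) ?_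
  filter_upwards [ae_pos n] with x hx
  exact F_norm_le n k ψ m hx

/-- The general integrand. -/
def G (n k : ℕ) (ψ : ℂ) (x : Fin n → ℝ) : ℂ :=
  (P n x : ℂ) ^ k / ((S n x : ℂ) - ((n : ℂ) + 1) * ψ * (P n x : ℂ)) ^ (k + 1)

lemma G_int (n k : ℕ) {ψ : ℂ} (hψ : ‖ψ‖ < 1) : Integrable (G n k ψ) (om n) := by
  have hb : Integrable (fun x => (1 / (1 - ‖ψ‖)) ^ (k + 1) * (P n x ^ k / S n x ^ (k + 1)))
      (om n) := (base n k).1.const_mul _
  refine hb.mono' ?_ ?_
  · refine Measurable.aestronglyMeasurable ?_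
    unfold G
    have h1 : Measurable fun x => (S n x : ℂ) := Complex.measurable_ofReal.comp (S_meas n)
    have h2 : Measurable fun x => (P n x : ℂ) := Complex.measurable_ofReal.comp (P_meas n)
    exact (h2.pow_const k).div ((h1.sub (h2.const_mul _)).pow_const _)
  · filter_upwards [ae_pos n] with x hx
    have hS := S_pos hx
    have hP := P_pos hx
    have h0 : 0 < 1 - ‖ψ‖ := by linarith
    unfold G
    rw [norm_div, norm_pow, norm_pow, Complex.norm_real, Real.norm_of_nonneg hP.le]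
    have h3 : S n x * (1 - ‖ψ‖) ≤ ‖(S n x : ℂ) - ((n : ℂ) + 1) * ψ * (P n x : ℂ)‖ := by
      have h4 := norm_sub_norm_le (S n x : ℂ) (((n : ℂ) + 1) * ψ * (P n x : ℂ))
      rw [Complex.norm_real, Real.norm_of_nonneg hS.le, norm_mul, norm_mul, Nnorm,
        Complex.norm_real, Real.norm_of_nonneg hP.le] at h4
      have h5 := mul_le_mul_of_nonneg_left (amgm hx) (norm_nonneg ψ)
      nlinarith
    have h6 : (S n x * (1 - ‖ψ‖)) ^ (k + 1) ≤
        ‖(S n x : ℂ) - ((n : ℂ) + 1) * ψ * (P n x : ℂ)‖ ^ (k + 1) :=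
      pow_le_pow_left₀ (by positivity) h3 _
    calc P n x ^ k / ‖(S n x : ℂ) - ((n : ℂ) + 1) * ψ * (P n x : ℂ)‖ ^ (k + 1)
        ≤ P n x ^ k / (S n x * (1 - ‖ψ‖)) ^ (k + 1) :=
          div_le_div_of_nonneg_left (by positivity) (by positivity) h6
      _ = (1 / (1 - ‖ψ‖)) ^ (k + 1) * (P n x ^ k / S n x ^ (k + 1)) := by
          rw [mul_pow, div_pow, one_pow]
          field_simp

/-- The integral representation of the period series. -/
theorem G_hasSum (n k : ℕ) {ψ : ℂ} (hψ : ‖ψ‖ < 1) :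
    HasSum (fun m : ℕ => (((n : ℂ) + 1) * ψ) ^ m / ((m.factorial : ℂ) * (k.factorial : ℂ)) *
      (((1 / ((n : ℝ) + 1)) ^ n *
        Real.Gamma (((k + m : ℕ) + 1 : ℝ) / ((n : ℝ) + 1)) ^ (n + 1) : ℝ) : ℂ))
      (∫ x, G n k ψ x ∂(om n)) := by
  have h := hasSum_integral_of_summable_integral_norm (F_int n k ψ) (F_summable n k hψ)
  have e : ∫ x, (∑' m, F n k ψ m x) ∂(om n) = ∫ x, G n k ψ x ∂(om n) := by
    refine integral_congr_ae ?_
    filter_upwards [ae_pos n] with x hx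
    exact (F_hasSum k hψ hx).tsum_eq
  rw [e] at h
  simpa only [F_integral] using h

end

end Pool.Agent.CYP.IntG
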