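import Pool.Agent.CYP.Main2

/-!
# The period conjecture up to bounded complexity for 100 percent of the rational members of the
Dwork pencils of Calabi-Yau varieties of odd dimension, and of their products

`n` is even, `N = n + 1`, `X_ψ : x_0 ^ N + ... + x_n ^ N = N ψ x_0 ... x_n` (dimension `n - 1`;
`n = 2`: elliptic curves, `n = 4`: quintic threefolds). `Per n ψ` is the matrix of the periods of
`∂_ψ ^ k Res (Ω / F_ψ)`, `k < n`, a basis of the part `V` of the middle cohomology which is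
invariant under the diagonal symmetries; the entries are explicit integrals of algebraic
functions. `Tors n ψ` is the torsor of all `(lam, X)` which respect the cup product of `V` (and
the Tate twist).

The theorem: the period matrices are points of the torsor with `lam = 2 π i`; for `ψ > 1` the
boundary values exist; for all `r`-tuples (mixed dimensions) all but `C H ^ (2 r - 2 + ε)` of
the rational points `ψ` of height at most `H` in a box which avoids `ψ_i = 1`, and 100 percent of
all the rational points ordered by height, have the property: every integral polynomial of degree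
at most `D` with coefficients at most `H ^ A` which vanishes at `(2 π i, Per (ψ_1), ..., Per (ψ_r))`
vanishes on the whole torsor.
-/

open scoped BigOperators

open Pool.Agent.CYP in
theorem Pool.Agent.CYP.OldDworkPeriods.result (r : ℕ) (n : Fin r → ℕ)
    (hn : ∀ i, 0 < n i ∧ Even (n i)) :
    (∀ i, ∀ ψ ∈ Cut (n i), Tors (n i) ψ (2 * Real.pi * Complex.I) (Per (n i) ψ)) ∧
    (∀ i, ∀ ψ : ℝ, 1 < ψ → (∀ k j, Filter.Tendsto
        (fun ε : ℝ => Per (n i) ((ψ : ℂ) + (ε : ℂ) * Complex.I) k j) (nhdsWithin 0 (Set.Ioi 0))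
          (nhds (PerB (n i) ψ k j))) ∧
      Tors (n i) ψ (2 * Real.pi * Complex.I) (PerB (n i) ψ)) ∧
    (∀ (T0 T1 : Fin r → ℝ), (∀ i, T1 i < 1 ∨ 1 < T0 i) → ∀ (D A : ℕ) (ε : ℝ), 0 < ε →
      ∃ C : ℝ, ∀ H : ℕ, 1 ≤ H →
        (Nat.card {ψ : Fin r → ℚ // (∀ i, T0 i ≤ ψ i ∧ (ψ i : ℝ) ≤ T1 i ∧
          (ψ i).num.natAbs ≤ H ∧ (ψ i).den ≤ H) ∧
            BadB n D (H ^ A) (fun i => (ψ i : ℝ))} : ℝ) ≤
              C * (H : ℝ) ^ (2 * (r : ℝ) - 2 + ε)) ∧
    (0 < r → ∀ D A : ℕ, Filter.Tendsto (fun H : ℕ =>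
      (Nat.card {ψ : Fin r → ℚ // (∀ i, ψ i ≠ 1 ∧ (ψ i).num.natAbs ≤ H ∧ (ψ i).den ≤ H) ∧
        BadB n D (H ^ A) (fun i => (ψ i : ℝ))} : ℝ) /
      (Nat.card {ψ : Fin r → ℚ // ∀ i, (ψ i).num.natAbs ≤ H ∧ (ψ i).den ≤ H} : ℝ))
        Filter.atTop (nhds 0)) :=
  Main.finalB r n hn
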