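import Pool.Agent.GPC.Sealed

/-!
# CYP: periods of the Dwork families, definitions of the final statement

`N = n + 1` is odd (`n` even). The hypersurface
`X_ψ : x_0 ^ N + ... + x_n ^ N = N ψ x_0 ... x_n` is a Calabi-Yau variety of odd dimension `n - 1`
(`n = 2`: the Hesse pencil of elliptic curves, `n = 4`: the quintic threefolds of Dwork). The part
of its middle cohomology which is invariant under the group `G` of diagonal symmetries
(the middle cohomology of `X_ψ / G`) has rank `n`, with the basis `∂_ψ ^ k Res (Ω / F_ψ)`,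
`k < n`.
-/

open scoped BigOperators

namespace Pool.Agent.CYP

noncomputable section

/-- `ζ = exp (2 π i / (n + 1))`. -/
def zt (n : ℕ) : ℂ := Complex.exp (2 * Real.pi * Complex.I / ((n : ℂ) + 1))

/-- The integral of `(x_1 ... x_n) ^ k dx_1 ... dx_n / F_ψ (1, x_1, ..., x_n) ^ (k + 1)` over the
positive orthant, `F_ψ (1, x) = 1 + ∑ x_i ^ (n + 1) - (n + 1) ψ x_1 ... x_n`. -/
def dint (n k : ℕ) (ψ : ℂ) : ℂ :=
  ∫ x : Fin n → ℝ in Set.univ.pi fun _ => Set.Ioi 0,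
    (∏ i, (x i : ℂ)) ^ k /
      (1 + ∑ i, (x i : ℂ) ^ (n + 1) - ((n : ℂ) + 1) * ψ * ∏ i, (x i : ℂ)) ^ (k + 1)

/-- The period matrix. Row `k`: the differential form
`∂_ψ ^ k (Ω / F_ψ) = k! (n + 1) ^ k (x_0 ... x_n) ^ k Ω / F_ψ ^ (k + 1)` (and its residue on
`X_ψ`); column `j`: the cycle `T ^ j (1 - T) ^ (n + 1) Δ`, where `Δ` is the positive orthant and
`T` is the symmetry `x_1 ↦ ζ x_1`, divided by `2 π i` and multiplied by `(n + 1) ^ n`. -/
def Per (n : ℕ) (ψ : ℂ) : Matrix (Fin n) (Fin n) ℂ :=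
  Matrix.of fun k j => (2 * Real.pi * Complex.I)⁻¹ * ((n : ℂ) + 1) ^ n *
    (((k : ℕ).factorial : ℂ) * ((n : ℂ) + 1) ^ (k : ℕ)) * ∑ i ∈ Finset.range (n + 2),
      (-1) ^ i * ((n + 1).choose i : ℂ) *
        ((zt n ^ (i + (j : ℕ))) ^ ((k : ℕ) + 1) * dint n k (zt n ^ (i + (j : ℕ)) * ψ))

/-- The inverse of the matrix of the cup product in the basis of differential forms (up to a
rational factor); `Nat.stirlingSecond` are the Stirling numbers of the second kind. -/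
def Rm (n : ℕ) (ψ : ℂ) : Matrix (Fin n) (Fin n) ℂ :=
  Matrix.of fun a b => (if (a : ℕ) + b + 1 = n then (-1) ^ (b : ℕ) else 0) -
    ψ ^ ((a : ℕ) + b + 2) * ∑ i ∈ Finset.range n, (-1) ^ (n - 1 - i) *
      ((Nat.stirlingSecond (i + 1) ((a : ℕ) + 1) : ℂ) *
        (Nat.stirlingSecond (n - i) ((b : ℕ) + 1) : ℂ))

/-- The matrix of the intersection form on the cycles (up to a rational factor). -/
def Qm (n : ℕ) (R : Type) [CommRing R] : Matrix (Fin n) (Fin n) R :=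
  Matrix.of fun a b => if a < b then (-1) ^ ((b : ℕ) - a) * ((n : R) + 1) ^ n *
      ((n + 1).choose ((b : ℕ) - a) : R)
    else if b < a then -((-1) ^ ((a : ℕ) - b) * ((n : R) + 1) ^ n *
      ((n + 1).choose ((a : ℕ) - b) : R)) else 0

/-- The motivic torsor of the fibre at `ψ`: the pairs `(lam, X)` with `lam ≠ 0` and this
relation. -/
def Tors (n : ℕ) (ψ lam : ℂ) (X : Matrix (Fin n) (Fin n) ℂ) : Prop :=
  X.transpose * Rm n ψ * X = lam ^ (n - 1) • Qm n ℂ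

/-- The point with coordinates `lam`, `X i`. -/
def tpt {r : ℕ} {n : Fin r → ℕ} (lam : ℂ) (X : ∀ i, Matrix (Fin (n i)) (Fin (n i)) ℂ) :
    Option (Σ i : Fin r, Fin (n i) × Fin (n i)) → ℂ :=
  fun o => o.elim lam (fun p => X p.1 p.2.1 p.2.2)

/-- `P` does not vanish identically on the torsor at `ψ = (ψ i)`. -/
def NonTrivial {r : ℕ} {n : Fin r → ℕ} (ψ : Fin r → ℂ)
    (P : MvPolynomial (Option (Σ i : Fin r, Fin (n i) × Fin (n i))) ℤ) : Prop :=
  ∃ (lam : ℂ) (X : ∀ i, Matrix (Fin (n i)) (Fin (n i)) ℂ), lam ≠ 0 ∧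
    (∀ i, Tors (n i) (ψ i) lam (X i)) ∧ MvPolynomial.aeval (tpt lam X) P ≠ 0

/-- `2 π i` and the period matrices at `ψ i` satisfy a polynomial relation of complexity
`(D, B)` which does not hold on the whole torsor. -/
def Bad {r : ℕ} (n : Fin r → ℕ) (D B : ℕ) (ψ : Fin r → ℂ) : Prop :=
  ∃ P : MvPolynomial (Option (Σ i : Fin r, Fin (n i) × Fin (n i))) ℤ,
    GPC.IsSmall P D B ∧ NonTrivial ψ P ∧
      MvPolynomial.aeval (tpt (2 * Real.pi * Complex.I) (fun i => Per (n i) (ψ i))) P = 0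

/-- The final statement. -/
def Stmt_Final : Prop := ∀ (r : ℕ) (n : Fin r → ℕ), (∀ i, 0 < n i ∧ Even (n i)) →
  (∀ i, ∀ ψ : ℂ, ‖ψ‖ < 1 → Tors (n i) ψ (2 * Real.pi * Complex.I) (Per (n i) ψ)) ∧
  ∀ (ρ : ℝ), ρ < 1 → ∀ (D A : ℕ) (ε : ℝ), 0 < ε → ∃ C : ℝ, ∀ H : ℕ, 1 ≤ H →
    (Nat.card {ψ : Fin r → ℚ // (∀ i, |(ψ i : ℝ)| ≤ ρ ∧ (ψ i).num.natAbs ≤ H ∧
      (ψ i).den ≤ H) ∧ Bad n D (H ^ A) (fun i => (ψ i : ℂ))} : ℝ) ≤
        C * (H : ℝ) ^ (2 * (r : ℝ) - 2 + ε)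

end

end Pool.Agent.CYP
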