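import Pool.Agent.CYP.Sealed

/-!
# CYP: the final statement for all rational parameters
-/

open scoped BigOperators Topology

namespace Pool.Agent.CYP

noncomputable section

/-- The plane without the half lines `ζ ^ (-k) [1, ∞)`. -/
def Cut (n : ℕ) : Set ℂ := {ψ | ∀ k : ℕ, 1 - zt n ^ k * ψ ∈ Complex.slitPlane}

/-- The period matrix for real parameters `ψ ≠ 1`: `Per n ψ` for `ψ < 1`, its boundary value
from the upper half plane for `ψ > 1`. -/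
def PerB (n : ℕ) (ψ : ℝ) : Matrix (Fin n) (Fin n) ℂ :=
  if ψ < 1 then Per n ψ else
    Matrix.of fun k j => Filter.limUnder (𝓝[>] (0 : ℝ))
      (fun ε : ℝ => Per n ((ψ : ℂ) + (ε : ℂ) * Complex.I) k j)

/-- `2 π i` and the period matrices at the real parameters `ψ i` satisfy a polynomial relation of
complexity `(D, B)` which does not hold on the whole torsor. -/
def BadB {r : ℕ} (n : Fin r → ℕ) (D B : ℕ) (ψ : Fin r → ℝ) : Prop :=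
  ∃ P : MvPolynomial (Option (Σ i : Fin r, Fin (n i) × Fin (n i))) ℤ,
    GPC.IsSmall P D B ∧ NonTrivial (fun i => (ψ i : ℂ)) P ∧
      MvPolynomial.aeval (tpt (2 * Real.pi * Complex.I) (fun i => PerB (n i) (ψ i))) P = 0

/-- The final statement. -/
def Stmt_FinalB : Prop := ∀ (r : ℕ) (n : Fin r → ℕ), (∀ i, 0 < n i ∧ Even (n i)) →
  (∀ i, ∀ ψ ∈ Cut (n i), Tors (n i) ψ (2 * Real.pi * Complex.I) (Per (n i) ψ)) ∧
  (∀ i, ∀ ψ : ℝ, 1 < ψ → (∀ k j, Filter.Tendsto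
      (fun ε : ℝ => Per (n i) ((ψ : ℂ) + (ε : ℂ) * Complex.I) k j) (𝓝[>] 0)
        (𝓝 (PerB (n i) ψ k j))) ∧
    Tors (n i) ψ (2 * Real.pi * Complex.I) (PerB (n i) ψ)) ∧
  (∀ (T0 T1 : Fin r → ℝ), (∀ i, T1 i < 1 ∨ 1 < T0 i) → ∀ (D A : ℕ) (ε : ℝ), 0 < ε → ∃ C : ℝ,
    ∀ H : ℕ, 1 ≤ H →
      (Nat.card {ψ : Fin r → ℚ // (∀ i, T0 i ≤ ψ i ∧ (ψ i : ℝ) ≤ T1 i ∧
        (ψ i).num.natAbs ≤ H ∧ (ψ i).den ≤ H) ∧ BadB n D (H ^ A) (fun i => (ψ i : ℝ))} : ℝ) ≤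
          C * (H : ℝ) ^ (2 * (r : ℝ) - 2 + ε)) ∧
  (0 < r → ∀ D A : ℕ, Filter.Tendsto (fun H : ℕ =>
    (Nat.card {ψ : Fin r → ℚ // (∀ i, ψ i ≠ 1 ∧ (ψ i).num.natAbs ≤ H ∧ (ψ i).den ≤ H) ∧
      BadB n D (H ^ A) (fun i => (ψ i : ℝ))} : ℝ) /
    (Nat.card {ψ : Fin r → ℚ // ∀ i, (ψ i).num.natAbs ≤ H ∧ (ψ i).den ≤ H} : ℝ))
      Filter.atTop (𝓝 0))

end

end Pool.Agent.CYP
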