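import Pool.Agent.CYP.Defs

/-!
# CYP: exact statements of the modules
-/

open scoped BigOperators Topology
open Metric Set MeasureTheory

namespace Pool.Agent.CYP

noncomputable section

/-! ## Part A: functions -/

/-- REC: positivity and recurrence of the coefficients. -/
def Stmt_Rec : Prop := ∀ n m : ℕ, 0 < acf n m ∧
  acf n (m + n + 1) * ∏ i ∈ Finset.range n, ((m : ℝ) + 2 + i) = ((m : ℝ) + 1) ^ n * acf n m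

/-- PSER: derivatives of power series with bounded coefficients. -/
def Stmt_Pser : Prop := ∀ (c : ℕ → ℂ) (C : ℝ), (∀ m, ‖c m‖ ≤ C) →
  DifferentiableOn ℂ (fun z => ∑' m : ℕ, c m * z ^ m) (ball 0 1) ∧
  ∀ (k : ℕ), ∀ ψ ∈ ball (0 : ℂ) 1,
    HasSum (fun m : ℕ => ((m + k).descFactorial k : ℂ) * c (m + k) * ψ ^ m)
      (iteratedDeriv k (fun z => ∑' m : ℕ, c m * z ^ m) ψ)

/-- ODED: the Picard-Fuchs equation on the disc. -/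
def Stmt_OdeD : Prop := ∀ n : ℕ, 0 < n → ∀ j : ℕ,
  DifferentiableOn ℂ (prd n j) (ball 0 1) ∧ Ode n (prd n j)

/-- CAUC: the Cauchy transform of the moment measure. -/
def Stmt_Cauc : Prop := ∀ n : ℕ, DifferentiableOn ℂ (Gf n) {ψ | 1 - ψ ∈ Complex.slitPlane} ∧
  ∀ ψ : ℂ, ‖ψ‖ < 1 → HasSum (fun m : ℕ => (acf n m : ℂ) * ψ ^ m) (Gf n ψ)

/-- INV: Stieltjes inversion. -/
def Stmt_Inv : Prop := ∀ (μ : Measure ℝ) [IsFiniteMeasure μ], μ (Icc 0 1)ᶜ = 0 →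
  ∀ (η : ℝ) (g : ℂ → ℂ), 0 < η → DifferentiableOn ℂ g (Sec η) →
  (∀ ψ ∈ Sec η, ψ.im ≠ 0 → ∫ s : ℝ, (1 - (s : ℂ) * ψ)⁻¹ ∂μ = g ψ) → μ (Ioo 0 1) = 0

/-- NX: the function `Gf` does not extend across the cut `(1, ∞)`. -/
def Stmt_Nx : Prop := ∀ n : ℕ, 0 < n → ∀ η : ℝ, 0 < η → ¬ ∃ g : ℂ → ℂ,
  DifferentiableOn ℂ g (Sec η) ∧ ∀ ψ ∈ Sec η, ψ.im ≠ 0 → Gf n ψ = g ψ

/-- GEO: the cut plane. -/
def Stmt_Geo : Prop := ∀ n : ℕ, IsOpen (Om n) ∧ StarConvex ℝ 0 (Om n) ∧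
  ball (0 : ℂ) 1 ⊆ Om n ∧ (∀ ψ ∈ Om n, zt n * ψ ∈ Om n) ∧ ∀ ψ ∈ Om n, 1 - ψ ^ (n + 1) ≠ 0

/-- SEC: a sector which meets only one cut. -/
def Stmt_Sec : Prop := ∀ n : ℕ, 0 < n → ∃ η : ℝ, 0 < η ∧ ∀ ψ ∈ Sec η,
  (∀ k : ℕ, 0 < k → k < n + 1 → 1 - zt n ^ k * ψ ∈ Complex.slitPlane) ∧
  1 - ψ ^ (n + 1) ≠ 0 ∧ (ψ.im ≠ 0 → ψ ∈ Om n)

/-- YX: the functions on the cut plane. -/
def Stmt_Yx : Prop := ∀ n j : ℕ, DifferentiableOn ℂ (Yx n j) (Om n) ∧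
  ∀ ψ ∈ ball (0 : ℂ) 1, Yx n j ψ = prd n j ψ

/-- LINK: the integrals. -/
def Stmt_Link : Prop := ∀ n : ℕ, 0 < n → ∀ ψ ∈ ball (0 : ℂ) 1, Per n ψ = Mx n ψ

/-- SOLO: the Picard-Fuchs system on the cut plane. -/
def Stmt_SolO : Prop := ∀ n : ℕ, 0 < n → GPH.MSol (Om n) (Lc n) (Mx n)

/-- ROT: the rotation. -/
def Stmt_Rot : Prop := ∀ n : ℕ, 0 < n → ∀ ψ ∈ Om n, Mx n (zt n * ψ) = Dm n * Mx n ψ * Pm n

/-! ## Part B: the bilinear relation -/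

/-- LAGR: the Lagrange identity. -/
def Stmt_Lagr : Prop := ∀ n : ℕ, 0 < n → Even n → ∀ f g : ℂ → ℂ,
  DifferentiableOn ℂ f (ball 0 1) → DifferentiableOn ℂ g (ball 0 1) → Ode n f → Ode n g →
  ∀ ψ ∈ ball (0 : ℂ) 1, Bf n f g ψ = Bf n f g 0

/-- QFT: the intersection matrix as a finite Fourier sum. -/
def Stmt_Qft : Prop := ∀ n : ℕ, Even n → ∀ a b : Fin n, Qm n ℂ a b =
  -(((n : ℂ) + 1) ^ (n - 1) * ∑ l ∈ Finset.range (n + 1),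
    zt n ^ (l * ((b : ℕ) + (n + 1 - (a : ℕ)))) * (1 - zt n ^ l) ^ (n + 1))

/-- BZ: the value at `0`. -/
def Stmt_Bz : Prop := ∀ n : ℕ, 0 < n → Even n → ∀ a b : Fin n,
  Bf n (prd n a) (prd n b) 0 = (2 * Real.pi * Complex.I) ^ (n - 1) * Qm n ℂ a b

/-- QDET -/
def Stmt_Qdet : Prop := ∀ n : ℕ, Even n → (Qm n ℂ).det ≠ 0

/-- BILO: the bilinear relation on the cut plane. -/
def Stmt_BilO : Prop := ∀ n : ℕ, 0 < n → Even n → ∀ ψ ∈ Om n,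
  Tors n ψ (2 * Real.pi * Complex.I) (Mx n ψ)

/-! ## Part C: monodromy -/

/-- JUMP: the connection matrix across the cut `(1, ∞)`. -/
def Stmt_Jump : Prop := ∀ (n : ℕ) (i0 : Fin n), Even n → (i0 : ℕ) = 0 →
  ∃ h : Matrix (Fin n) (Fin n) ℂ, h.transpose * Qm n ℂ * h = Qm n ℂ ∧ h ≠ 1 ∧
    (∀ u : Fin n → ℂ, ∑ j, Qm n ℂ j i0 * u j = 0 → h.mulVec u = u) ∧
    ∀ P : MvPolynomial (Option (Fin n × Fin n)) ℂ, Rel n P 1 → Rel n P h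

/-- VC: the connection matrix is a transvection along the first basis vector. -/
def Stmt_Vc : Prop := ∀ (n : ℕ) (i0 : Fin n), Even n → (i0 : ℕ) = 0 →
  ∀ h : Matrix (Fin n) (Fin n) ℂ, h.transpose * Qm n ℂ * h = Qm n ℂ → h ≠ 1 →
  (∀ u : Fin n → ℂ, ∑ j, Qm n ℂ j i0 * u j = 0 → h.mulVec u = u) →
  ∃ c : ℂ, c ≠ 0 ∧ h = 1 + c • rs n i0

/-- TRV: relations are invariant under the transvections. -/
def Stmt_Trv : Prop := ∀ n : ℕ, 0 < n → Even n →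
  ∀ P : MvPolynomial (Option (Fin n × Fin n)) ℂ, Rel n P 1 → ∀ (k : Fin n) (c : ℂ),
    Rel n P (1 + c • rs n k)

/-- COMM: the commutant is scalar. -/
def Stmt_Comm : Prop := ∀ (n : ℕ) (Z : Matrix (Fin n) (Fin n) ℂ),
  (∀ k, Z * rs n k = rs n k * Z) → ∃ c : ℂ, Z = c • 1

/-- DARB: symplectic bases. -/
def Stmt_Darb : Prop := ∀ (g : ℕ) (Q : Matrix (Fin (2 * g)) (Fin (2 * g)) ℚ),
  Q.transpose = -Q → Q.det ≠ 0 → ∃ E E' : Matrix (Fin (2 * g)) (Ix g) ℚ, IsE g Q E E'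

/-- GRPQ: the transvections along the basis vectors generate the symplectic group. -/
def Stmt_GrpQ : Prop := ∀ g : ℕ, 0 < g → ∀ h : Matrix (Fin (2 * g)) (Fin (2 * g)) ℂ,
  h.transpose * Qm (2 * g) ℂ * h = Qm (2 * g) ℂ →
  h ∈ Submonoid.closure {M | ∃ (k : Fin (2 * g)) (c : ℂ), M = 1 + c • rs (2 * g) k}

/-- FIBER: relations between the periods hold on the whole fibre of the torsor. -/
def Stmt_Fiber : Prop := ∀ g : ℕ, 0 < g →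
  ∀ (P : MvPolynomial (Option (Fin (2 * g) × Fin (2 * g))) ℂ) (z0 : ℂ) (R : ℝ), 0 < R →
  ball z0 R ⊆ ball 0 1 →
  (∀ ψ ∈ ball z0 R, MvPolynomial.eval (HGP.opt ψ (fun p => Mx (2 * g) ψ p.1 p.2)) P = 0) →
  ∀ ψ ∈ ball (0 : ℂ) 1, ∀ X : Matrix (Fin (2 * g)) (Fin (2 * g)) ℂ,
    Tors (2 * g) ψ (2 * Real.pi * Complex.I) X →
    MvPolynomial.eval (HGP.opt ψ (fun p => X p.1 p.2)) P = 0

/-! ## Part D: coordinates on the torsor -/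

/-- FMAT: the explicit factorization of `Rm`. -/
def Stmt_Fmat : Prop := ∀ g : ℕ, ∃ F F' : Matrix (Fin (2 * g)) (Ix g) (Polynomial ℤ), IsF g F F'

/-- GVEC: `gvec` is polynomial. -/
def Stmt_Gvec : Prop := ∀ g : ℕ, ∃ G : Idx g → MvPolynomial (Ix g × Ix g) ℤ,
  ∀ (M : Matrix (Ix g) (Ix g) ℂ) (x : Idx g),
    MvPolynomial.aeval (fun p : Ix g × Ix g => M p.1 p.2) (G x) = gvec M x

/-- CELLG: the matrix is a fraction in the coordinates. -/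
def Stmt_CellG : Prop := ∀ g : ℕ, ∃ q : Ix g × Ix g → MvPolynomial (Option (Idx g)) ℤ,
  ∀ (M : Matrix (Ix g) (Ix g) ℂ) (lam : ℂ), lam ≠ 0 → HGP.Simil lam M →
    M.toBlocks₁₁.det ≠ 0 → ∀ p, MvPolynomial.aeval (HGP.opt lam (gvec M)) (q p) =
      M.toBlocks₁₁.det ^ 2 * M p.1 p.2

/-- PSI: `Ps` and `Pi'` are inverse bijections between the torsor and the similitudes. -/
def Stmt_Psi : Prop := ∀ (g : ℕ) (F F' : Matrix (Fin (2 * g)) (Ix g) (Polynomial ℤ))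
  (E E' : Matrix (Fin (2 * g)) (Ix g) ℚ), IsF g F F' → IsE g (Qm (2 * g) ℚ) E E' →
  ∀ ψ lam : ℂ, 1 - ψ ^ (2 * g + 1) ≠ 0 →
    (∀ X, Tors (2 * g) ψ lam X → HGP.Simil (lam ^ (2 * g - 1)) (Ps F E' ψ X) ∧
      Pi' F' E ψ (Ps F E' ψ X) = X) ∧
    ∀ Y, HGP.Simil (lam ^ (2 * g - 1)) Y → Tors (2 * g) ψ lam (Pi' F' E ψ Y) ∧
      Ps F E' ψ (Pi' F' E ψ Y) = Y

/-- HOLG: the coordinates of the period matrix are holomorphic. -/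
def Stmt_HolG : Prop := ∀ (g : ℕ) (F : Matrix (Fin (2 * g)) (Ix g) (Polynomial ℤ))
  (E' : Matrix (Fin (2 * g)) (Ix g) ℚ) (x : Idx g),
  DifferentiableOn ℂ (fun ψ => gvec (Ps F E' ψ (Mx (2 * g) ψ)) x) (ball 0 1)

/-- IND: algebraic independence of the coordinates of the period matrix. -/
def Stmt_Ind : Prop := ∀ (g : ℕ) (F F' : Matrix (Fin (2 * g)) (Ix g) (Polynomial ℤ))
  (E E' : Matrix (Fin (2 * g)) (Ix g) ℚ), 0 < g → IsF g F F' → IsE g (Qm (2 * g) ℚ) E E' →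
  ∀ (z0 : ℂ) (R : ℝ), 0 < R → ball z0 R ⊆ ball 0 1 → ∀ Q : MvPolynomial (Option (Idx g)) ℂ,
    (∀ z ∈ ball z0 R, MvPolynomial.eval
      (HGP.opt z (gvec (Ps F E' z (Mx (2 * g) z)))) Q = 0) → Q = 0

/-! ## Part E: counting -/

/-- `f` is a system of holomorphic functions on the unit disc, algebraically independent over
the field of rational functions. -/
structure Sys (ν : Type) (f : ν → ℂ → ℂ) : Prop where
  hol : ∀ x, DifferentiableOn ℂ (f x) (ball 0 1)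
  ind : ∀ (z0 : ℂ) (R : ℝ), 0 < R → ball z0 R ⊆ ball 0 1 → ∀ Q : MvPolynomial (Option ν) ℂ,
    (∀ z ∈ ball z0 R, MvPolynomial.eval (HGP.opt z (fun x => f x z)) Q = 0) → Q = 0

/-- GSTEP: one system, with arbitrary extra free constants. -/
def Stmt_Gstep : Prop := ∀ (ν : Type) [Fintype ν] (f : ν → ℂ → ℂ), Sys ν f →
  ∀ ρ : ℝ, ρ < 1 → ∀ ε : ℝ, 0 < ε → ∀ (κ : Type) [Fintype κ] (D A : ℕ), ∃ C : ℝ,
  ∀ H : ℕ, 1 ≤ H → ∀ c : κ → ℂ, GPC.Free D (H ^ A) c → ∀ T : Finset ℚ,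
    (∀ r ∈ T, |(r : ℝ)| ≤ ρ ∧ r.num.natAbs ≤ H ∧ r.den ≤ H ∧
      ¬ GPC.Free D (H ^ A) (Sum.elim c (fun x => f x (r : ℂ)))) →
    (T.card : ℝ) ≤ C * (H : ℝ) ^ ε

/-- GIND: tuples of systems. -/
def Stmt_Gind : Prop := ∀ (r : ℕ) (ν : Fin r → Type) [∀ i, Fintype (ν i)]
  (f : ∀ i, ν i → ℂ → ℂ), (∀ i, Sys (ν i) (f i)) →
  ∀ ρ : ℝ, ρ < 1 → ∀ (D A : ℕ) (ε : ℝ), 0 < ε → ∃ C : ℝ, ∀ H : ℕ, 1 ≤ H →
    (Nat.card {t : Fin r → ℚ // (∀ i, |(t i : ℝ)| ≤ ρ ∧ (t i).num.natAbs ≤ H ∧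
      (t i).den ≤ H) ∧ ¬ GPC.Free D (H ^ A) (HGP.opt (2 * Real.pi * Complex.I)
        (fun p : Σ i, ν i => f p.1 p.2 (t p.1 : ℂ)))} : ℝ) ≤
        C * (H : ℝ) ^ (2 * (r : ℝ) - 2 + ε)

/-- SPEC: specialization of some variables at rational numbers. -/
def Stmt_Spec : Prop := ∀ (W : Type) [Fintype W] (r D : ℕ), ∃ C : ℕ, ∀ (B H : ℕ)
  (P : MvPolynomial (W ⊕ Fin r) ℤ), GPC.IsSmall P D B → 1 ≤ H → ∀ t : Fin r → ℚ,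
  (∀ i, (t i).num.natAbs ≤ H ∧ (t i).den ≤ H) → ∃ P' : MvPolynomial W ℤ,
    GPC.IsSmall P' D (C * B * H ^ (r * D)) ∧ ∀ w : W → ℂ, MvPolynomial.aeval w P' =
      (∏ i, ((t i).den : ℂ) ^ D) *
        MvPolynomial.aeval (Sum.elim w (fun i => (t i : ℂ))) P

/-- The coordinates of a tuple of matrices. -/
def gv {r : ℕ} {g : Fin r → ℕ} (lam : ℂ) (Y : ∀ i, Matrix (Ix (g i)) (Ix (g i)) ℂ) :
    Option (Σ i : Fin r, Idx (g i)) → ℂ := HGP.opt lam (fun p => gvec (Y p.1) p.2)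

/-- TRID: a relation in the coordinates of the torsor. -/
def Stmt_TrId : Prop := ∀ (r : ℕ) (g : Fin r → ℕ), (∀ i, 0 < g i) →
  ∀ (F F' : ∀ i, Matrix (Fin (2 * g i)) (Ix (g i)) (Polynomial ℤ))
    (E E' : ∀ i, Matrix (Fin (2 * g i)) (Ix (g i)) ℚ),
  (∀ i, IsF (g i) (F i) (F' i)) → (∀ i, IsE (g i) (Qm (2 * g i) ℚ) (E i) (E' i)) →
  ∀ D : ℕ, ∃ D1 C : ℕ, ∀ (B H : ℕ)
    (P : MvPolynomial (Option (Σ i : Fin r, Fin (2 * g i) × Fin (2 * g i))) ℤ),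
  GPC.IsSmall P D B → 1 ≤ H → ∀ t : Fin r → ℚ,
  (∀ i, |(t i : ℝ)| < 1 ∧ (t i).num.natAbs ≤ H ∧ (t i).den ≤ H) →
  ∃ P1 : MvPolynomial (Option (Σ i : Fin r, Idx (g i))) ℤ,
    GPC.IsSmall P1 D1 (C * B * H ^ D1) ∧ ∃ K : ℂ, K ≠ 0 ∧ ∀ lam : ℂ, lam ≠ 0 →
      ∀ Y : ∀ i, Matrix (Ix (g i)) (Ix (g i)) ℂ, (∀ i, HGP.Simil (lam ^ (2 * g i - 1)) (Y i)) →
        MvPolynomial.aeval (gv lam Y) P1 = K * (∏ i, (Y i).toBlocks₁₁.det) ^ (2 * D) *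
          MvPolynomial.aeval (tpt (n := fun i => 2 * g i) lam
            (fun i => Pi' (F' i) (E i) (t i : ℂ) (Y i))) P

/-- TRANS: relations on the torsor give relations between the coordinates. -/
def Stmt_Trans : Prop := ∀ (r : ℕ) (g : Fin r → ℕ), (∀ i, 0 < g i) →
  ∀ (F F' : ∀ i, Matrix (Fin (2 * g i)) (Ix (g i)) (Polynomial ℤ))
    (E E' : ∀ i, Matrix (Fin (2 * g i)) (Ix (g i)) ℚ),
  (∀ i, IsF (g i) (F i) (F' i)) → (∀ i, IsE (g i) (Qm (2 * g i) ℚ) (E i) (E' i)) →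
  ∀ D A : ℕ, ∃ D1 A1 : ℕ, ∀ H : ℕ, 2 ≤ H → ∀ t : Fin r → ℚ,
  (∀ i, |(t i : ℝ)| < 1 ∧ (t i).num.natAbs ≤ H ∧ (t i).den ≤ H) →
  ∀ (lam : ℂ) (X : ∀ i, Matrix (Fin (2 * g i)) (Fin (2 * g i)) ℂ), lam ≠ 0 →
  (∀ i, Tors (2 * g i) (t i : ℂ) lam (X i)) →
  (∃ P : MvPolynomial (Option (Σ i : Fin r, Fin (2 * g i) × Fin (2 * g i))) ℤ,
    GPC.IsSmall P D (H ^ A) ∧ NonTrivial (n := fun i => 2 * g i) (fun i => (t i : ℂ)) P ∧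
      MvPolynomial.aeval (tpt (n := fun i => 2 * g i) lam X) P = 0) →
  ¬ GPC.Free D1 (H ^ A1) (gv lam (fun i => Ps (F i) (E' i) (t i : ℂ) (X i)))

end

end Pool.Agent.CYP
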