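import Pool.Agent.CYP.Sealed2
import Pool.Agent.CYP.Stmts

/-!
# CYP: exact statements of the modules of the second part (all rational parameters)
-/

open scoped BigOperators Topology
open Metric Set MeasureTheory

namespace Pool.Agent.CYP

noncomputable section

/-- LINKO: the integrals on the whole cut plane. -/
def Stmt_LinkO : Prop := ∀ n : ℕ, 0 < n → ∀ ψ ∈ Om n, Per n ψ = Mx n ψ

/-- The conclusion of `jumpU`. -/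
def Stmt_JumpU : Prop := ∀ (n : ℕ) (i0 : Fin n), Even n → (i0 : ℕ) = 0 →
  ∃ (η : ℝ) (U : ℂ → Matrix (Fin n) (Fin n) ℂ) (h : Matrix (Fin n) (Fin n) ℂ), 0 < η ∧
    (∀ i j, DifferentiableOn ℂ (fun ψ => U ψ i j) (Sec η)) ∧
    (∀ ψ ∈ Sec η, 0 < ψ.im → U ψ = Mx n ψ) ∧
    (∀ ψ ∈ Sec η, ψ.im < 0 → U ψ = Mx n ψ * h) ∧
    (∀ ψ ∈ Sec η, ψ.im ≠ 0 → ψ ∈ Om n) ∧ h.transpose * Qm n ℂ * h = Qm n ℂ ∧ h ≠ 1 ∧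
    ∀ u : Fin n → ℂ, ∑ j, Qm n ℂ j i0 * u j = 0 → h.mulVec u = u

/-- UB: the branch on the sector around `(1, ∞)`. -/
def Stmt_UB : Prop := ∀ n : ℕ, 0 < n → Even n →
  ∃ (η : ℝ) (U : ℂ → Matrix (Fin n) (Fin n) ℂ), 0 < η ∧
    (∀ i j, DifferentiableOn ℂ (fun ψ => U ψ i j) (Sec η)) ∧
    (∀ ψ ∈ Sec η, 0 < ψ.im → U ψ = Mx n ψ) ∧
    (∀ ψ ∈ Sec η, ψ.im ≠ 0 → ψ ∈ Om n) ∧
    ∀ ψ ∈ Sec η, Tors n ψ (2 * Real.pi * Complex.I) (U ψ)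

/-- FIBO: relations on the cut plane hold on the whole torsor. -/
def Stmt_FibO : Prop := ∀ g : ℕ, 0 < g →
  ∀ P : MvPolynomial (Option (Fin (2 * g) × Fin (2 * g))) ℂ, Rel (2 * g) P 1 →
  ∀ ψ ∈ Om (2 * g), ∀ X : Matrix (Fin (2 * g)) (Fin (2 * g)) ℂ,
    Tors (2 * g) ψ (2 * Real.pi * Complex.I) X →
    MvPolynomial.eval (HGP.opt ψ (fun p => X p.1 p.2)) P = 0

/-- Relations for `B` on the ball hold on the whole torsor. -/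
def Full (g : ℕ) (z0 : ℂ) (R : ℝ) (B : ℂ → Matrix (Fin (2 * g)) (Fin (2 * g)) ℂ) : Prop :=
  ∀ P : MvPolynomial (Option (Fin (2 * g) × Fin (2 * g))) ℂ,
    (∀ z ∈ ball z0 R, MvPolynomial.eval (HGP.opt z (fun p => B z p.1 p.2)) P = 0) →
    ∀ ψ ∈ Om (2 * g), ∀ X : Matrix (Fin (2 * g)) (Fin (2 * g)) ℂ,
      Tors (2 * g) ψ (2 * Real.pi * Complex.I) X →
      MvPolynomial.eval (HGP.opt ψ (fun p => X p.1 p.2)) P = 0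

/-- BRAN: the branches near a real point. -/
def Stmt_Bran : Prop := ∀ (g : ℕ) (T0 T1 : ℝ), 0 < g → (T1 < 1 ∨ 1 < T0) →
  ∃ B : ℂ → Matrix (Fin (2 * g)) (Fin (2 * g)) ℂ,
    (∀ τ ∈ Icc T0 T1, B (τ : ℂ) = PerB (2 * g) τ) ∧
    ∀ τ ∈ Icc T0 T1, ∃ R : ℝ, 0 < R ∧
      (∀ i j, DifferentiableOn ℂ (fun ψ => B ψ i j) (ball (τ : ℂ) R)) ∧ Full g τ R B

/-- LIMB: boundary values. -/
def Stmt_LimB : Prop := ∀ n : ℕ, 0 < n → Even n → ∀ ψ : ℝ, 1 < ψ →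
  (∀ k j, Filter.Tendsto (fun ε : ℝ => Per n ((ψ : ℂ) + (ε : ℂ) * Complex.I) k j) (𝓝[>] 0)
    (𝓝 (PerB n ψ k j))) ∧ Tors n ψ (2 * Real.pi * Complex.I) (PerB n ψ)

/-- IND2: algebraic independence of the coordinates. -/
def Stmt_Ind2 : Prop := ∀ (g : ℕ) (F F' : Matrix (Fin (2 * g)) (Ix g) (Polynomial ℤ))
  (E E' : Matrix (Fin (2 * g)) (Ix g) ℚ), 0 < g → IsF g F F' → IsE g (Qm (2 * g) ℚ) E E' →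
  ∀ (z0 : ℂ) (R : ℝ) (B : ℂ → Matrix (Fin (2 * g)) (Fin (2 * g)) ℂ), Full g z0 R B →
  ∀ Q : MvPolynomial (Option (Idx g)) ℂ,
    (∀ z ∈ ball z0 R, MvPolynomial.eval (HGP.opt z (gvec (Ps F E' z (B z)))) Q = 0) → Q = 0

/-- HOLG2: the coordinates are holomorphic. -/
def Stmt_HolG2 : Prop := ∀ (g : ℕ) (F : Matrix (Fin (2 * g)) (Ix g) (Polynomial ℤ))
  (E' : Matrix (Fin (2 * g)) (Ix g) ℚ) (x : Idx g) (V : Set ℂ)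
  (B : ℂ → Matrix (Fin (2 * g)) (Fin (2 * g)) ℂ),
  (∀ i j, DifferentiableOn ℂ (fun ψ => B ψ i j) V) →
  DifferentiableOn ℂ (fun ψ => gvec (Ps F E' ψ (B ψ)) x) V

/-- `f` is a system of functions which are, near every point of the interval `[T0, T1]`,
holomorphic and algebraically independent over the field of rational functions. -/
def SysI (ν : Type) (f : ν → ℂ → ℂ) (T0 T1 : ℝ) : Prop := ∀ τ ∈ Icc T0 T1, ∃ R : ℝ, 0 < R ∧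
  (∀ x, DifferentiableOn ℂ (f x) (ball (τ : ℂ) R)) ∧
  ∀ Q : MvPolynomial (Option ν) ℂ,
    (∀ z ∈ ball (τ : ℂ) R, MvPolynomial.eval (HGP.opt z (fun x => f x z)) Q = 0) → Q = 0

/-- GSTEP2: one system, with arbitrary extra free constants. -/
def Stmt_Gstep2 : Prop := ∀ (ν : Type) [Fintype ν] (f : ν → ℂ → ℂ) (T0 T1 : ℝ),
  SysI ν f T0 T1 → ∀ ε : ℝ, 0 < ε → ∀ (κ : Type) [Fintype κ] (D A : ℕ), ∃ C : ℝ,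
  ∀ H : ℕ, 1 ≤ H → ∀ c : κ → ℂ, GPC.Free D (H ^ A) c → ∀ T : Finset ℚ,
    (∀ r ∈ T, T0 ≤ r ∧ (r : ℝ) ≤ T1 ∧ r.num.natAbs ≤ H ∧ r.den ≤ H ∧
      ¬ GPC.Free D (H ^ A) (Sum.elim c (fun x => f x (r : ℂ)))) →
    (T.card : ℝ) ≤ C * (H : ℝ) ^ ε

/-- GIND2: tuples of systems. -/
def Stmt_Gind2 : Prop := ∀ (r : ℕ) (ν : Fin r → Type) [∀ i, Fintype (ν i)]
  (f : ∀ i, ν i → ℂ → ℂ) (T0 T1 : Fin r → ℝ), (∀ i, SysI (ν i) (f i) (T0 i) (T1 i)) →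
  ∀ (D A : ℕ) (ε : ℝ), 0 < ε → ∃ C : ℝ, ∀ H : ℕ, 1 ≤ H →
    (Nat.card {t : Fin r → ℚ // (∀ i, T0 i ≤ t i ∧ (t i : ℝ) ≤ T1 i ∧ (t i).num.natAbs ≤ H ∧
      (t i).den ≤ H) ∧ ¬ GPC.Free D (H ^ A) (HGP.opt (2 * Real.pi * Complex.I)
        (fun p : Σ i, ν i => f p.1 p.2 (t p.1 : ℂ)))} : ℝ) ≤
        C * (H : ℝ) ^ (2 * (r : ℝ) - 2 + ε)

/-- TRID2 -/
def Stmt_TrId2 : Prop := ∀ (r : ℕ) (g : Fin r → ℕ), (∀ i, 0 < g i) →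
  ∀ (F F' : ∀ i, Matrix (Fin (2 * g i)) (Ix (g i)) (Polynomial ℤ))
    (E E' : ∀ i, Matrix (Fin (2 * g i)) (Ix (g i)) ℚ),
  (∀ i, IsF (g i) (F i) (F' i)) → (∀ i, IsE (g i) (Qm (2 * g i) ℚ) (E i) (E' i)) →
  ∀ D : ℕ, ∃ D1 C : ℕ, ∀ (B H : ℕ)
    (P : MvPolynomial (Option (Σ i : Fin r, Fin (2 * g i) × Fin (2 * g i))) ℤ),
  GPC.IsSmall P D B → 1 ≤ H → ∀ t : Fin r → ℚ,
  (∀ i, t i ≠ 1 ∧ (t i).num.natAbs ≤ H ∧ (t i).den ≤ H) →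
  ∃ P1 : MvPolynomial (Option (Σ i : Fin r, Idx (g i))) ℤ,
    GPC.IsSmall P1 D1 (C * B * H ^ D1) ∧ ∃ K : ℂ, K ≠ 0 ∧ ∀ lam : ℂ, lam ≠ 0 →
      ∀ Y : ∀ i, Matrix (Ix (g i)) (Ix (g i)) ℂ, (∀ i, HGP.Simil (lam ^ (2 * g i - 1)) (Y i)) →
        MvPolynomial.aeval (gv lam Y) P1 = K * (∏ i, (Y i).toBlocks₁₁.det) ^ (2 * D) *
          MvPolynomial.aeval (tpt (n := fun i => 2 * g i) lam
            (fun i => Pi' (F' i) (E i) (t i : ℂ) (Y i))) P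

/-- TRANS2 -/
def Stmt_Trans2 : Prop := ∀ (r : ℕ) (g : Fin r → ℕ), (∀ i, 0 < g i) →
  ∀ (F F' : ∀ i, Matrix (Fin (2 * g i)) (Ix (g i)) (Polynomial ℤ))
    (E E' : ∀ i, Matrix (Fin (2 * g i)) (Ix (g i)) ℚ),
  (∀ i, IsF (g i) (F i) (F' i)) → (∀ i, IsE (g i) (Qm (2 * g i) ℚ) (E i) (E' i)) →
  ∀ D A : ℕ, ∃ D1 A1 : ℕ, ∀ H : ℕ, 2 ≤ H → ∀ t : Fin r → ℚ,
  (∀ i, t i ≠ 1 ∧ (t i).num.natAbs ≤ H ∧ (t i).den ≤ H) →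
  ∀ (lam : ℂ) (X : ∀ i, Matrix (Fin (2 * g i)) (Fin (2 * g i)) ℂ), lam ≠ 0 →
  (∀ i, Tors (2 * g i) (t i : ℂ) lam (X i)) →
  (∃ P : MvPolynomial (Option (Σ i : Fin r, Fin (2 * g i) × Fin (2 * g i))) ℤ,
    GPC.IsSmall P D (H ^ A) ∧ NonTrivial (n := fun i => 2 * g i) (fun i => (t i : ℂ)) P ∧
      MvPolynomial.aeval (tpt (n := fun i => 2 * g i) lam X) P = 0) →
  ¬ GPC.Free D1 (H ^ A1) (gv lam (fun i => Ps (F i) (E' i) (t i : ℂ) (X i)))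

/-- DENS: from boxes to all the rational points. -/
def Stmt_Dens : Prop := ∀ (r : ℕ) (W : ℕ → (Fin r → ℚ) → Prop), 0 < r →
  (∀ (T0 T1 : Fin r → ℝ), (∀ i, T1 i < 1 ∨ 1 < T0 i) → ∀ ε : ℝ, 0 < ε → ∃ C : ℝ,
    ∀ H : ℕ, 1 ≤ H → (Nat.card {ψ : Fin r → ℚ // (∀ i, T0 i ≤ ψ i ∧ (ψ i : ℝ) ≤ T1 i ∧
      (ψ i).num.natAbs ≤ H ∧ (ψ i).den ≤ H) ∧ W H ψ} : ℝ) ≤
        C * (H : ℝ) ^ (2 * (r : ℝ) - 2 + ε)) →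
  Filter.Tendsto (fun H : ℕ =>
    (Nat.card {ψ : Fin r → ℚ // (∀ i, ψ i ≠ 1 ∧ (ψ i).num.natAbs ≤ H ∧ (ψ i).den ≤ H) ∧
      W H ψ} : ℝ) /
    (Nat.card {ψ : Fin r → ℚ // ∀ i, (ψ i).num.natAbs ≤ H ∧ (ψ i).den ≤ H} : ℝ))
      Filter.atTop (𝓝 0)

end

end Pool.Agent.CYP
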